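import Mathlib

/-!
# Blocks of expansions in the base `β`, `β ^ 5 = β ^ 4 + β ^ 3 + β ^ 2 + 1`

Helper file for `MP_523de7_an.CountableButExponential`.  The block lemmas `U_S`, …, `bV_S` are
machine generated.
-/

namespace Pool.Agent.X162.BetaBlocks

open Filter Topology

/-! ### The value of a digit sequence -/

noncomputable def V (β : ℝ) (ε : ℕ → Fin 2) : ℝ := ∑' n : ℕ, ((ε n : ℕ) : ℝ) / β ^ (n + 1)

def sh (ε : ℕ → Fin 2) : ℕ → Fin 2 := fun n => ε (n + 1)

def cons (e : Fin 2) (ε : ℕ → Fin 2) : ℕ → Fin 2 := fun n => match n with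
  | 0 => e
  | n + 1 => ε n

/-- Numerical information on `β`. -/
structure Good (β : ℝ) : Prop where
  lo : 1.88851 < β
  hi : β < 1.88852
  eq : β ^ 5 = β ^ 4 + β ^ 3 + β ^ 2 + 1

lemma exists_good : ∃ β, Good β := by
  have hc : ContinuousOn (fun t : ℝ => t ^ 5 - t ^ 4 - t ^ 3 - t ^ 2 - 1)
      (Set.Icc 1.88851 1.88852) := by fun_prop
  have h := intermediate_value_Ioo (by norm_num : (1.88851 : ℝ) ≤ 1.88852) hc
  have h0 : (0 : ℝ) ∈ Set.Ioo ((fun t : ℝ => t ^ 5 - t ^ 4 - t ^ 3 - t ^ 2 - 1) 1.88851)
      ((fun t : ℝ => t ^ 5 - t ^ 4 - t ^ 3 - t ^ 2 - 1) 1.88852) := by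
    constructor <;> norm_num
  obtain ⟨β, ⟨h1, h2⟩, h3⟩ := h h0
  refine ⟨β, h1, h2, ?_⟩
  simp only at h3
  linarith

section

variable {β : ℝ} (hg : Good β)
include hg

lemma digit_le (ε : ℕ → Fin 2) (n : ℕ) : ((ε n : ℕ) : ℝ) ≤ 1 := by
  have := (ε n).2
  have h : (ε n : ℕ) ≤ 1 := by omega
  exact_mod_cast h

lemma pos : 0 < β := by have := hg.lo; norm_num at this; linarith

lemma summable_geo : Summable (fun n : ℕ => (1 : ℝ) / β ^ (n + 1)) := by
  have h1 := hg.lo
  have hp := pos hg
  have h2 : Summable (fun n : ℕ => (1 / β) ^ n) :=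
    summable_geometric_of_lt_one (by positivity) (by
      rw [div_lt_one hp]; norm_num at h1; linarith)
  have h3 := h2.mul_left (1 / β)
  refine h3.congr (fun n => ?_)
  rw [one_div_pow]
  field_simp
  ring

lemma summable_V (ε : ℕ → Fin 2) : Summable (fun n : ℕ => ((ε n : ℕ) : ℝ) / β ^ (n + 1)) := by
  have hp := pos hg
  refine Summable.of_nonneg_of_le (fun n => by positivity) (fun n => ?_) (summable_geo hg)
  exact div_le_div_of_nonneg_right (digit_le hg ε n) (by positivity)

lemma V_step (ε : ℕ → Fin 2) : β * V β ε = ((ε 0 : ℕ) : ℝ) + V β (sh ε) := by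
  have hp := pos hg
  unfold V
  rw [(summable_V hg ε).tsum_eq_zero_add, mul_add, ← tsum_mul_left]
  congr 1
  · simp only [zero_add, pow_one]; field_simp
  · congr 1
    ext n
    simp only [sh]
    rw [pow_succ β (n + 1)]
    field_simp

lemma V_nonneg (ε : ℕ → Fin 2) : 0 ≤ V β ε := by
  have hp := pos hg
  exact tsum_nonneg (fun n => by positivity)

lemma geo_sum : ∑' n : ℕ, (1 : ℝ) / β ^ (n + 1) = 1 / (β - 1) := by
  have hp := pos hg
  have h1 := hg.lo
  norm_num at h1
  have h2 : ∑' n : ℕ, (1 / β) ^ n = (1 - 1 / β)⁻¹ :=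
    tsum_geometric_of_lt_one (by positivity) (by rw [div_lt_one hp]; linarith)
  have h3 : ∀ n : ℕ, (1 : ℝ) / β ^ (n + 1) = (1 / β) * (1 / β) ^ n := by
    intro n; rw [one_div_pow]; field_simp; ring
  simp_rw [h3]
  rw [tsum_mul_left, h2]
  have h4 : β - 1 ≠ 0 := by linarith
  have h5 : 1 - 1 / β ≠ 0 := by
    rw [one_sub_div hp.ne']; exact div_ne_zero h4 hp.ne'
  field_simp

lemma V_le' (ε : ℕ → Fin 2) : V β ε ≤ 1 / (β - 1) := by
  have hp := pos hg
  rw [← geo_sum hg]
  exact (summable_V hg ε).tsum_le_tsum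
    (fun n => div_le_div_of_nonneg_right (digit_le hg ε n) (by positivity)) (summable_geo hg)

lemma V_le (ε : ℕ → Fin 2) : V β ε ≤ 1.1255 := by
  refine (V_le' hg ε).trans ?_
  have h1 := hg.lo
  norm_num at h1
  rw [div_le_iff₀ (by linarith)]
  norm_num
  linarith

lemma V_cons (e : Fin 2) (ε : ℕ → Fin 2) : β * V β (cons e ε) = ((e : ℕ) : ℝ) + V β ε :=
  V_step hg (cons e ε)

/-- Every point of `[0, 1/(β-1)]` has an expansion. -/
lemma exists_exp {y : ℝ} (hy0 : 0 ≤ y) (hy1 : y ≤ 1 / (β - 1)) : ∃ ε, V β ε = y := by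
  classical
  have hp := pos hg
  have h1 := hg.lo
  have h2 := hg.hi
  norm_num at h1 h2
  set M : ℝ := 1 / (β - 1) with hM
  have hM1 : M * (β - 1) = 1 := by rw [hM]; field_simp; exact div_self (by linarith)
  have hMge : 1 ≤ M := by
    rw [hM, le_div_iff₀ (by linarith)]; linarith
  let T : ℝ → ℝ := fun z => if β * z ≤ M then β * z else β * z - 1
  let Y : ℕ → ℝ := fun n => T^[n] y
  have hT : ∀ z, 0 ≤ z → z ≤ M → 0 ≤ T z ∧ T z ≤ M := by
    intro z hz0 hz1
    simp only [T]
    split_ifs with h
    · exact ⟨by positivity, h⟩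
    · push Not at h
      refine ⟨by linarith, ?_⟩
      nlinarith
  have hY : ∀ n, 0 ≤ Y n ∧ Y n ≤ M := by
    intro n
    induction n with
    | zero => exact ⟨hy0, hy1⟩
    | succ n ih =>
      have : Y (n + 1) = T (Y n) := Function.iterate_succ_apply' T n y
      rw [this]; exact hT _ ih.1 ih.2
  let ε : ℕ → Fin 2 := fun n => if β * Y n ≤ M then 0 else 1
  have hstep : ∀ n, β * Y n = ((ε n : ℕ) : ℝ) + Y (n + 1) := by
    intro n
    have : Y (n + 1) = T (Y n) := Function.iterate_succ_apply' T n y
    rw [this]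
    simp only [ε, T]
    split_ifs with h
    · simp
    · simp
  have hsum : ∀ n, ∑ i ∈ Finset.range n, ((ε i : ℕ) : ℝ) / β ^ (i + 1) = y - Y n / β ^ n := by
    intro n
    induction n with
    | zero => simp [Y]
    | succ n ih =>
      rw [Finset.sum_range_succ, ih]
      have h3 := hstep n
      have h4 : ((ε n : ℕ) : ℝ) = β * Y n - Y (n + 1) := by linarith
      rw [h4, pow_succ]
      field_simp
      ring
  refine ⟨ε, ?_⟩
  have h3 := (summable_V hg ε).hasSum.tendsto_sum_nat
  have h4 : Tendsto (fun n => y - Y n / β ^ n) atTop (𝓝 (y - 0)) := by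
    refine tendsto_const_nhds.sub ?_
    have h5 : Tendsto (fun n : ℕ => M * (1 / β) ^ n) atTop (𝓝 (M * 0)) :=
      (tendsto_pow_atTop_nhds_zero_of_lt_one (by positivity) (by
        rw [div_lt_one hp]; linarith)).const_mul M
    rw [mul_zero] at h5
    refine squeeze_zero (fun n => div_nonneg (hY n).1 (by positivity)) (fun n => ?_) h5
    rw [one_div_pow, mul_one_div]
    exact div_le_div_of_nonneg_right (hY n).2 (by positivity)
  rw [sub_zero] at h4
  have h5 : (fun n => ∑ i ∈ Finset.range n, ((ε i : ℕ) : ℝ) / β ^ (i + 1)) =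
      fun n => y - Y n / β ^ n := funext hsum
  rw [h5] at h3
  exact tendsto_nhds_unique h3 h4

/-! ### Differences -/

omit hg in
lemma dig (ε : ℕ → Fin 2) : (ε 0 = 0 ∧ ((ε 0 : ℕ) : ℝ) = 0) ∨
    (ε 0 = 1 ∧ ((ε 0 : ℕ) : ℝ) = 1) := by
  have h : ε 0 = 0 ∨ ε 0 = 1 := by
    generalize ε 0 = a
    fin_cases a <;> simp
  rcases h with h | h
  · left; exact ⟨h, by rw [h]; simp⟩
  · right; exact ⟨h, by rw [h]; simp⟩

omit hg in
/-- Elements of `ℤ[β]`. -/
def D (β a0 a1 a2 a3 a4 : ℝ) : ℝ := a0 + a1 * β + a2 * β ^ 2 + a3 * β ^ 3 + a4 * β ^ 4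

/-- The forward step. -/
lemma st {X X' s e a0 a1 a2 a3 a4 b0 b1 b2 b3 b4 : ℝ} {ε : ℕ → Fin 2}
    (hX : β * X = s + X') (hV : V β ε = X + D β a0 a1 a2 a3 a4)
    (he : ((ε 0 : ℕ) : ℝ) = e) (h0 : b0 = a4 + s - e) (h1 : b1 = a0) (h2 : b2 = a1 + a4)
    (h3 : b3 = a2 + a4) (h4 : b4 = a3 + a4) :
    V β (sh ε) = X' + D β b0 b1 b2 b3 b4 := by
  have h5 := V_step hg ε
  have h6 := hg.eq
  rw [hV, he] at h5
  simp only [D] at h5 ⊢
  subst h0 h1 h2 h3 h4
  linear_combination (-1) * h5 + hX + a4 * h6

/-- The backward step. -/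
lemma bst {X X' s a0 a1 a2 a3 a4 b0 b1 b2 b3 b4 : ℝ} {e : Fin 2} {ε : ℕ → Fin 2}
    (hX : β * X = s + X') (hV : V β ε = X' + D β b0 b1 b2 b3 b4)
    (h0 : b0 = a4 + s - ((e : ℕ) : ℝ)) (h1 : b1 = a0) (h2 : b2 = a1 + a4)
    (h3 : b3 = a2 + a4) (h4 : b4 = a3 + a4) :
    V β (cons e ε) = X + D β a0 a1 a2 a3 a4 := by
  have h5 := V_cons hg e ε
  have h6 := hg.eq
  have hp := pos hg
  rw [hV] at h5
  simp only [D] at h5 ⊢
  subst h0 h1 h2 h3 h4
  apply mul_left_cancel₀ hp.ne'
  linear_combination h5 - hX - a4 * h6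

lemma ub {X X' s c h : ℝ} (hX : β * X = s + X') (hX' : X' ≤ h) (hc0 : 0 ≤ c)
    (hc : s + h ≤ 1.88851 * c) : X ≤ c := by
  by_contra hcon
  push Not at hcon
  have h1 := hg.lo
  have h2 : 1.88851 * c < β * X := by
    calc 1.88851 * c ≤ β * c := mul_le_mul_of_nonneg_right h1.le hc0
      _ < β * X := mul_lt_mul_of_pos_left hcon (pos hg)
  linarith

lemma lb {X X' s c l : ℝ} (hX : β * X = s + X') (hX' : l ≤ X') (hc0 : 0 ≤ c)
    (hc : 1.88852 * c ≤ s + l) : c ≤ X := by
  by_contra hcon
  push Not at hcon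
  have h1 := hg.hi
  have h2 : β * X < 1.88852 * c := by
    calc β * X < β * c := mul_lt_mul_of_pos_left hcon (pos hg)
      _ ≤ 1.88852 * c := mul_le_mul_of_nonneg_right h1.le hc0
  linarith

lemma b2 : 3.5664 < β ^ 2 ∧ β ^ 2 < 3.5666 := by
  have h1 := hg.lo
  have h2 := hg.hi
  norm_num at h1 h2 ⊢
  constructor <;> nlinarith

lemma b3 : 6.7352 < β ^ 3 ∧ β ^ 3 < 6.7355 := by
  have h1 := hg.lo
  have h2 := hg.hi
  have hp := pos hg
  constructor
  · calc (6.7352 : ℝ) < 1.88851 ^ 3 := by norm_num
      _ < β ^ 3 := pow_lt_pow_left₀ h1 (by norm_num) (by norm_num)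
  · calc β ^ 3 < 1.88852 ^ 3 := pow_lt_pow_left₀ h2 hp.le (by norm_num)
      _ < (6.7355 : ℝ) := by norm_num

lemma b4 : 12.7196 < β ^ 4 ∧ β ^ 4 < 12.7201 := by
  have h1 := hg.lo
  have h2 := hg.hi
  have hp := pos hg
  constructor
  · calc (12.7196 : ℝ) < 1.88851 ^ 4 := by norm_num
      _ < β ^ 4 := pow_lt_pow_left₀ h1 (by norm_num) (by norm_num)
  · calc β ^ 4 < 1.88852 ^ 4 := pow_lt_pow_left₀ h2 hp.le (by norm_num)
      _ < (12.7201 : ℝ) := by norm_num

end

/-! ### The two kinds of blocks -/

/-- `X i` are the values of the tails of a sequence that starts with the word `11010100`. -/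
structure UBlock (β : ℝ) (X : ℕ → ℝ) : Prop where
  e0 : β * X 0 = 1 + X 1
  e1 : β * X 1 = 1 + X 2
  e2 : β * X 2 = 0 + X 3
  e3 : β * X 3 = 1 + X 4
  e4 : β * X 4 = 0 + X 5
  e5 : β * X 5 = 1 + X 6
  e6 : β * X 6 = 0 + X 7
  e7 : β * X 7 = 0 + X 8

/-- `X i` are the values of the tails of a sequence that starts with the word `1010110000100`. -/
structure VBlock (β : ℝ) (X : ℕ → ℝ) : Prop where
  e0 : β * X 0 = 1 + X 1
  e1 : β * X 1 = 0 + X 2
  e2 : β * X 2 = 1 + X 3
  e3 : β * X 3 = 0 + X 4
  e4 : β * X 4 = 1 + X 5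
  e5 : β * X 5 = 1 + X 6
  e6 : β * X 6 = 0 + X 7
  e7 : β * X 7 = 0 + X 8
  e8 : β * X 8 = 0 + X 9
  e9 : β * X 9 = 0 + X 10
  e10 : β * X 10 = 1 + X 11
  e11 : β * X 11 = 0 + X 12
  e12 : β * X 12 = 0 + X 13

section

variable {β : ℝ} (hg : Good β) {X : ℕ → ℝ}
include hg

lemma UBlock.range (h : UBlock β X) (hl : 0 ≤ X 8) (hh : X 8 ≤ 1.1255) :
    0.91055 ≤ X 0 ∧ X 0 ≤ 0.91754 := by
  have l8 : (0.00000 : ℝ) ≤ X 8 := by norm_num at hl ⊢; linarith
  have u8 : X 8 ≤ (1.12550 : ℝ) := by norm_num at hh ⊢; linarith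
  have l7 : (0.00000 : ℝ) ≤ X 7 := lb hg h.e7 l8 (by norm_num) (by norm_num)
  have u7 : X 7 ≤ (0.59598 : ℝ) := ub hg h.e7 u8 (by norm_num) (by norm_num)
  have l6 : (0.00000 : ℝ) ≤ X 6 := lb hg h.e6 l7 (by norm_num) (by norm_num)
  have u6 : X 6 ≤ (0.31559 : ℝ) := ub hg h.e6 u7 (by norm_num) (by norm_num)
  have l5 : (0.52951 : ℝ) ≤ X 5 := lb hg h.e5 l6 (by norm_num) (by norm_num)
  have u5 : X 5 ≤ (0.69663 : ℝ) := ub hg h.e5 u6 (by norm_num) (by norm_num)
  have l4 : (0.28038 : ℝ) ≤ X 4 := lb hg h.e4 l5 (by norm_num) (by norm_num)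
  have u4 : X 4 ≤ (0.36888 : ℝ) := ub hg h.e4 u5 (by norm_num) (by norm_num)
  have l3 : (0.67798 : ℝ) ≤ X 3 := lb hg h.e3 l4 (by norm_num) (by norm_num)
  have u3 : X 3 ≤ (0.72485 : ℝ) := ub hg h.e3 u4 (by norm_num) (by norm_num)
  have l2 : (0.35900 : ℝ) ≤ X 2 := lb hg h.e2 l3 (by norm_num) (by norm_num)
  have u2 : X 2 ≤ (0.38383 : ℝ) := ub hg h.e2 u3 (by norm_num) (by norm_num)
  have l1 : (0.71961 : ℝ) ≤ X 1 := lb hg h.e1 l2 (by norm_num) (by norm_num)
  have u1 : X 1 ≤ (0.73277 : ℝ) := ub hg h.e1 u2 (by norm_num) (by norm_num)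
  have l0 : (0.91055 : ℝ) ≤ X 0 := lb hg h.e0 l1 (by norm_num) (by norm_num)
  have u0 : X 0 ≤ (0.91754 : ℝ) := ub hg h.e0 u1 (by norm_num) (by norm_num)
  exact ⟨l0, u0⟩

lemma VBlock.range (h : VBlock β X) (hl : 0 ≤ X 13) (hh : X 13 ≤ 1.1255) :
    0.74256 ≤ X 0 ∧ X 0 ≤ 0.74288 := by
  have l13 : (0.00000 : ℝ) ≤ X 13 := by norm_num at hl ⊢; linarith
  have u13 : X 13 ≤ (1.12550 : ℝ) := by norm_num at hh ⊢; linarith
  have l12 : (0.00000 : ℝ) ≤ X 12 := lb hg h.e12 l13 (by norm_num) (by norm_num)
  have u12 : X 12 ≤ (0.59598 : ℝ) := ub hg h.e12 u13 (by norm_num) (by norm_num)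
  have l11 : (0.00000 : ℝ) ≤ X 11 := lb hg h.e11 l12 (by norm_num) (by norm_num)
  have u11 : X 11 ≤ (0.31559 : ℝ) := ub hg h.e11 u12 (by norm_num) (by norm_num)
  have l10 : (0.52951 : ℝ) ≤ X 10 := lb hg h.e10 l11 (by norm_num) (by norm_num)
  have u10 : X 10 ≤ (0.69663 : ℝ) := ub hg h.e10 u11 (by norm_num) (by norm_num)
  have l9 : (0.28038 : ℝ) ≤ X 9 := lb hg h.e9 l10 (by norm_num) (by norm_num)
  have u9 : X 9 ≤ (0.36888 : ℝ) := ub hg h.e9 u10 (by norm_num) (by norm_num)
  have l8 : (0.14846 : ℝ) ≤ X 8 := lb hg h.e8 l9 (by norm_num) (by norm_num)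
  have u8 : X 8 ≤ (0.19533 : ℝ) := ub hg h.e8 u9 (by norm_num) (by norm_num)
  have l7 : (0.07861 : ℝ) ≤ X 7 := lb hg h.e7 l8 (by norm_num) (by norm_num)
  have u7 : X 7 ≤ (0.10344 : ℝ) := ub hg h.e7 u8 (by norm_num) (by norm_num)
  have l6 : (0.04162 : ℝ) ≤ X 6 := lb hg h.e6 l7 (by norm_num) (by norm_num)
  have u6 : X 6 ≤ (0.05478 : ℝ) := ub hg h.e6 u7 (by norm_num) (by norm_num)
  have l5 : (0.55155 : ℝ) ≤ X 5 := lb hg h.e5 l6 (by norm_num) (by norm_num)
  have u5 : X 5 ≤ (0.55853 : ℝ) := ub hg h.e5 u6 (by norm_num) (by norm_num)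
  have l4 : (0.82156 : ℝ) ≤ X 4 := lb hg h.e4 l5 (by norm_num) (by norm_num)
  have u4 : X 4 ≤ (0.82527 : ℝ) := ub hg h.e4 u5 (by norm_num) (by norm_num)
  have l3 : (0.43502 : ℝ) ≤ X 3 := lb hg h.e3 l4 (by norm_num) (by norm_num)
  have u3 : X 3 ≤ (0.43700 : ℝ) := ub hg h.e3 u4 (by norm_num) (by norm_num)
  have l2 : (0.75986 : ℝ) ≤ X 2 := lb hg h.e2 l3 (by norm_num) (by norm_num)
  have u2 : X 2 ≤ (0.76092 : ℝ) := ub hg h.e2 u3 (by norm_num) (by norm_num)
  have l1 : (0.40235 : ℝ) ≤ X 1 := lb hg h.e1 l2 (by norm_num) (by norm_num)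
  have u1 : X 1 ≤ (0.40293 : ℝ) := ub hg h.e1 u2 (by norm_num) (by norm_num)
  have l0 : (0.74256 : ℝ) ≤ X 0 := lb hg h.e0 l1 (by norm_num) (by norm_num)
  have u0 : X 0 ≤ (0.74288 : ℝ) := ub hg h.e0 u1 (by norm_num) (by norm_num)
  exact ⟨l0, u0⟩

lemma U_S (h : UBlock β X) (hl : 0.74256 ≤ X 8) (hh : X 8 ≤ 0.91754) {ε : ℕ → Fin 2}
    (hV0 : V β ε = X 0 + D β 0 0 0 0 0) :
    (ε 0 = 1 ∧ ε 1 = 1 ∧ ε 2 = 0 ∧ ε 3 = 1 ∧ ε 4 = 0 ∧ ε 5 = 1 ∧ ε 6 = 0 ∧ ε 7 = 0) ∧ V β (fun n => ε (n + 8)) = X 8 + D β 0 0 0 0 0 := by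
  have l8 : (0.74256 : ℝ) ≤ X 8 := by norm_num at hl ⊢; linarith
  have u8 : X 8 ≤ (0.91754 : ℝ) := by norm_num at hh ⊢; linarith
  have l7 : (0.39319 : ℝ) ≤ X 7 := lb hg h.e7 l8 (by norm_num) (by norm_num)
  have u7 : X 7 ≤ (0.48586 : ℝ) := ub hg h.e7 u8 (by norm_num) (by norm_num)
  have l6 : (0.20820 : ℝ) ≤ X 6 := lb hg h.e6 l7 (by norm_num) (by norm_num)
  have u6 : X 6 ≤ (0.25728 : ℝ) := ub hg h.e6 u7 (by norm_num) (by norm_num)
  have l5 : (0.63976 : ℝ) ≤ X 5 := lb hg h.e5 l6 (by norm_num) (by norm_num)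
  have u5 : X 5 ≤ (0.66576 : ℝ) := ub hg h.e5 u6 (by norm_num) (by norm_num)
  have l4 : (0.33876 : ℝ) ≤ X 4 := lb hg h.e4 l5 (by norm_num) (by norm_num)
  have u4 : X 4 ≤ (0.35254 : ℝ) := ub hg h.e4 u5 (by norm_num) (by norm_num)
  have l3 : (0.70889 : ℝ) ≤ X 3 := lb hg h.e3 l4 (by norm_num) (by norm_num)
  have u3 : X 3 ≤ (0.71620 : ℝ) := ub hg h.e3 u4 (by norm_num) (by norm_num)
  have l2 : (0.37536 : ℝ) ≤ X 2 := lb hg h.e2 l3 (by norm_num) (by norm_num)
  have u2 : X 2 ≤ (0.37925 : ℝ) := ub hg h.e2 u3 (by norm_num) (by norm_num)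
  have l1 : (0.72827 : ℝ) ≤ X 1 := lb hg h.e1 l2 (by norm_num) (by norm_num)
  have u1 : X 1 ≤ (0.73034 : ℝ) := ub hg h.e1 u2 (by norm_num) (by norm_num)
  have c1 := hg.lo
  have c2 := hg.hi
  obtain ⟨c3, c4⟩ := b2 hg
  obtain ⟨c5, c6⟩ := b3 hg
  obtain ⟨c7, c8⟩ := b4 hg
  norm_num at c1 c2 c3 c4 c5 c6 c7 c8
  rcases dig ε with d0 | d0
  · have hV1 : V β (sh ε) = X 1 + D β 1 0 0 0 0 :=
      st hg h.e0 hV0 d0.2 (by norm_num) (by norm_num) (by norm_num) (by norm_num) (by norm_num)
    exfalso
    have hn := V_le hg (sh ε)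
    simp only [D] at hV1
    norm_num at hn l1
    linarith
  · have hV1 : V β (sh ε) = X 1 + D β 0 0 0 0 0 :=
      st hg h.e0 hV0 d0.2 (by norm_num) (by norm_num) (by norm_num) (by norm_num) (by norm_num)
    rcases dig (sh ε) with d1 | d1
    · have hV2 : V β (sh (sh ε)) = X 2 + D β 1 0 0 0 0 :=
        st hg h.e1 hV1 d1.2 (by norm_num) (by norm_num) (by norm_num) (by norm_num) (by norm_num)
      exfalso
      have hn := V_le hg (sh (sh ε))
      simp only [D] at hV2
      norm_num at hn l2
      linarith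
    · have hV2 : V β (sh (sh ε)) = X 2 + D β 0 0 0 0 0 :=
        st hg h.e1 hV1 d1.2 (by norm_num) (by norm_num) (by norm_num) (by norm_num) (by norm_num)
      rcases dig (sh (sh ε)) with d2 | d2
      · have hV3 : V β (sh (sh (sh ε))) = X 3 + D β 0 0 0 0 0 :=
          st hg h.e2 hV2 d2.2 (by norm_num) (by norm_num) (by norm_num) (by norm_num) (by norm_num)
        rcases dig (sh (sh (sh ε))) with d3 | d3
        · have hV4 : V β (sh (sh (sh (sh ε)))) = X 4 + D β 1 0 0 0 0 :=
            st hg h.e3 hV3 d3.2 (by norm_num) (by norm_num) (by norm_num) (by norm_num) (by norm_num)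
          exfalso
          have hn := V_le hg (sh (sh (sh (sh ε))))
          simp only [D] at hV4
          norm_num at hn l4
          linarith
        · have hV4 : V β (sh (sh (sh (sh ε)))) = X 4 + D β 0 0 0 0 0 :=
            st hg h.e3 hV3 d3.2 (by norm_num) (by norm_num) (by norm_num) (by norm_num) (by norm_num)
          rcases dig (sh (sh (sh (sh ε)))) with d4 | d4
          · have hV5 : V β (sh (sh (sh (sh (sh ε))))) = X 5 + D β 0 0 0 0 0 :=
              st hg h.e4 hV4 d4.2 (by norm_num) (by norm_num) (by norm_num) (by norm_num) (by norm_num)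
            rcases dig (sh (sh (sh (sh (sh ε))))) with d5 | d5
            · have hV6 : V β (sh (sh (sh (sh (sh (sh ε)))))) = X 6 + D β 1 0 0 0 0 :=
                st hg h.e5 hV5 d5.2 (by norm_num) (by norm_num) (by norm_num) (by norm_num) (by norm_num)
              exfalso
              have hn := V_le hg (sh (sh (sh (sh (sh (sh ε))))))
              simp only [D] at hV6
              norm_num at hn l6
              linarith
            · have hV6 : V β (sh (sh (sh (sh (sh (sh ε)))))) = X 6 + D β 0 0 0 0 0 :=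
                st hg h.e5 hV5 d5.2 (by norm_num) (by norm_num) (by norm_num) (by norm_num) (by norm_num)
              rcases dig (sh (sh (sh (sh (sh (sh ε)))))) with d6 | d6
              · have hV7 : V β (sh (sh (sh (sh (sh (sh (sh ε))))))) = X 7 + D β 0 0 0 0 0 :=
                  st hg h.e6 hV6 d6.2 (by norm_num) (by norm_num) (by norm_num) (by norm_num) (by norm_num)
                rcases dig (sh (sh (sh (sh (sh (sh (sh ε))))))) with d7 | d7
                · have hV8 : V β (sh (sh (sh (sh (sh (sh (sh (sh ε)))))))) = X 8 + D β 0 0 0 0 0 :=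
                    st hg h.e7 hV7 d7.2 (by norm_num) (by norm_num) (by norm_num) (by norm_num) (by norm_num)
                  exact ⟨⟨d0.1, d1.1, d2.1, d3.1, d4.1, d5.1, d6.1, d7.1⟩, hV8⟩
                · have hV8 : V β (sh (sh (sh (sh (sh (sh (sh (sh ε)))))))) = X 8 + D β (-1) 0 0 0 0 :=
                    st hg h.e7 hV7 d7.2 (by norm_num) (by norm_num) (by norm_num) (by norm_num) (by norm_num)
                  exfalso
                  have hn := V_nonneg hg (sh (sh (sh (sh (sh (sh (sh (sh ε))))))))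
                  simp only [D] at hV8
                  norm_num at u8
                  linarith
              · have hV7 : V β (sh (sh (sh (sh (sh (sh (sh ε))))))) = X 7 + D β (-1) 0 0 0 0 :=
                  st hg h.e6 hV6 d6.2 (by norm_num) (by norm_num) (by norm_num) (by norm_num) (by norm_num)
                exfalso
                have hn := V_nonneg hg (sh (sh (sh (sh (sh (sh (sh ε)))))))
                simp only [D] at hV7
                norm_num at u7
                linarith
          · have hV5 : V β (sh (sh (sh (sh (sh ε))))) = X 5 + D β (-1) 0 0 0 0 :=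
              st hg h.e4 hV4 d4.2 (by norm_num) (by norm_num) (by norm_num) (by norm_num) (by norm_num)
            exfalso
            have hn := V_nonneg hg (sh (sh (sh (sh (sh ε)))))
            simp only [D] at hV5
            norm_num at u5
            linarith
      · have hV3 : V β (sh (sh (sh ε))) = X 3 + D β (-1) 0 0 0 0 :=
          st hg h.e2 hV2 d2.2 (by norm_num) (by norm_num) (by norm_num) (by norm_num) (by norm_num)
        exfalso
        have hn := V_nonneg hg (sh (sh (sh ε)))
        simp only [D] at hV3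
        norm_num at u3
        linarith

lemma U_E (h : UBlock β X) (hl : 0.74256 ≤ X 8) (hh : X 8 ≤ 0.91754) {ε : ℕ → Fin 2}
    (hV0 : V β ε = X 0 + D β 0 (-2) 3 (-3) 1) :
    (ε 0 = 0 ∧ ε 1 = 1 ∧ ε 2 = 0 ∧ ε 3 = 0 ∧ ε 4 = 1 ∧ ε 5 = 1 ∧ ε 6 = 0 ∧ ε 7 = 1) ∧ V β (fun n => ε (n + 8)) = X 8 + D β 0 (-2) 3 (-3) 1 := by
  have l8 : (0.74256 : ℝ) ≤ X 8 := by norm_num at hl ⊢; linarith
  have u8 : X 8 ≤ (0.91754 : ℝ) := by norm_num at hh ⊢; linarith
  have l7 : (0.39319 : ℝ) ≤ X 7 := lb hg h.e7 l8 (by norm_num) (by norm_num)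
  have u7 : X 7 ≤ (0.48586 : ℝ) := ub hg h.e7 u8 (by norm_num) (by norm_num)
  have l6 : (0.20820 : ℝ) ≤ X 6 := lb hg h.e6 l7 (by norm_num) (by norm_num)
  have u6 : X 6 ≤ (0.25728 : ℝ) := ub hg h.e6 u7 (by norm_num) (by norm_num)
  have l5 : (0.63976 : ℝ) ≤ X 5 := lb hg h.e5 l6 (by norm_num) (by norm_num)
  have u5 : X 5 ≤ (0.66576 : ℝ) := ub hg h.e5 u6 (by norm_num) (by norm_num)
  have l4 : (0.33876 : ℝ) ≤ X 4 := lb hg h.e4 l5 (by norm_num) (by norm_num)
  have u4 : X 4 ≤ (0.35254 : ℝ) := ub hg h.e4 u5 (by norm_num) (by norm_num)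
  have l3 : (0.70889 : ℝ) ≤ X 3 := lb hg h.e3 l4 (by norm_num) (by norm_num)
  have u3 : X 3 ≤ (0.71620 : ℝ) := ub hg h.e3 u4 (by norm_num) (by norm_num)
  have l2 : (0.37536 : ℝ) ≤ X 2 := lb hg h.e2 l3 (by norm_num) (by norm_num)
  have u2 : X 2 ≤ (0.37925 : ℝ) := ub hg h.e2 u3 (by norm_num) (by norm_num)
  have l1 : (0.72827 : ℝ) ≤ X 1 := lb hg h.e1 l2 (by norm_num) (by norm_num)
  have u1 : X 1 ≤ (0.73034 : ℝ) := ub hg h.e1 u2 (by norm_num) (by norm_num)
  have c1 := hg.lo
  have c2 := hg.hi
  obtain ⟨c3, c4⟩ := b2 hg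
  obtain ⟨c5, c6⟩ := b3 hg
  obtain ⟨c7, c8⟩ := b4 hg
  norm_num at c1 c2 c3 c4 c5 c6 c7 c8
  rcases dig ε with d0 | d0
  · have hV1 : V β (sh ε) = X 1 + D β 2 0 (-1) 4 (-2) :=
      st hg h.e0 hV0 d0.2 (by norm_num) (by norm_num) (by norm_num) (by norm_num) (by norm_num)
    rcases dig (sh ε) with d1 | d1
    · have hV2 : V β (sh (sh ε)) = X 2 + D β (-1) 2 (-2) (-3) 2 :=
        st hg h.e1 hV1 d1.2 (by norm_num) (by norm_num) (by norm_num) (by norm_num) (by norm_num)
      exfalso
      have hn := V_le hg (sh (sh ε))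
      simp only [D] at hV2
      norm_num at hn l2
      linarith
    · have hV2 : V β (sh (sh ε)) = X 2 + D β (-2) 2 (-2) (-3) 2 :=
        st hg h.e1 hV1 d1.2 (by norm_num) (by norm_num) (by norm_num) (by norm_num) (by norm_num)
      rcases dig (sh (sh ε)) with d2 | d2
      · have hV3 : V β (sh (sh (sh ε))) = X 3 + D β 2 (-2) 4 0 (-1) :=
          st hg h.e2 hV2 d2.2 (by norm_num) (by norm_num) (by norm_num) (by norm_num) (by norm_num)
        rcases dig (sh (sh (sh ε))) with d3 | d3
        · have hV4 : V β (sh (sh (sh (sh ε)))) = X 4 + D β 0 2 (-3) 3 (-1) :=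
            st hg h.e3 hV3 d3.2 (by norm_num) (by norm_num) (by norm_num) (by norm_num) (by norm_num)
          rcases dig (sh (sh (sh (sh ε)))) with d4 | d4
          · have hV5 : V β (sh (sh (sh (sh (sh ε))))) = X 5 + D β (-1) 0 1 (-4) 2 :=
              st hg h.e4 hV4 d4.2 (by norm_num) (by norm_num) (by norm_num) (by norm_num) (by norm_num)
            exfalso
            have hn := V_le hg (sh (sh (sh (sh (sh ε)))))
            simp only [D] at hV5
            norm_num at hn l5
            linarith
          · have hV5 : V β (sh (sh (sh (sh (sh ε))))) = X 5 + D β (-2) 0 1 (-4) 2 :=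
              st hg h.e4 hV4 d4.2 (by norm_num) (by norm_num) (by norm_num) (by norm_num) (by norm_num)
            rcases dig (sh (sh (sh (sh (sh ε))))) with d5 | d5
            · have hV6 : V β (sh (sh (sh (sh (sh (sh ε)))))) = X 6 + D β 3 (-2) 2 3 (-2) :=
                st hg h.e5 hV5 d5.2 (by norm_num) (by norm_num) (by norm_num) (by norm_num) (by norm_num)
              exfalso
              have hn := V_le hg (sh (sh (sh (sh (sh (sh ε))))))
              simp only [D] at hV6
              norm_num at hn l6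
              linarith
            · have hV6 : V β (sh (sh (sh (sh (sh (sh ε)))))) = X 6 + D β 2 (-2) 2 3 (-2) :=
                st hg h.e5 hV5 d5.2 (by norm_num) (by norm_num) (by norm_num) (by norm_num) (by norm_num)
              rcases dig (sh (sh (sh (sh (sh (sh ε)))))) with d6 | d6
              · have hV7 : V β (sh (sh (sh (sh (sh (sh (sh ε))))))) = X 7 + D β (-2) 2 (-4) 0 1 :=
                  st hg h.e6 hV6 d6.2 (by norm_num) (by norm_num) (by norm_num) (by norm_num) (by norm_num)
                rcases dig (sh (sh (sh (sh (sh (sh (sh ε))))))) with d7 | d7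
                · have hV8 : V β (sh (sh (sh (sh (sh (sh (sh (sh ε)))))))) = X 8 + D β 1 (-2) 3 (-3) 1 :=
                    st hg h.e7 hV7 d7.2 (by norm_num) (by norm_num) (by norm_num) (by norm_num) (by norm_num)
                  exfalso
                  have hn := V_le hg (sh (sh (sh (sh (sh (sh (sh (sh ε))))))))
                  simp only [D] at hV8
                  norm_num at hn l8
                  linarith
                · have hV8 : V β (sh (sh (sh (sh (sh (sh (sh (sh ε)))))))) = X 8 + D β 0 (-2) 3 (-3) 1 :=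
                    st hg h.e7 hV7 d7.2 (by norm_num) (by norm_num) (by norm_num) (by norm_num) (by norm_num)
                  exact ⟨⟨d0.1, d1.1, d2.1, d3.1, d4.1, d5.1, d6.1, d7.1⟩, hV8⟩
              · have hV7 : V β (sh (sh (sh (sh (sh (sh (sh ε))))))) = X 7 + D β (-3) 2 (-4) 0 1 :=
                  st hg h.e6 hV6 d6.2 (by norm_num) (by norm_num) (by norm_num) (by norm_num) (by norm_num)
                exfalso
                have hn := V_nonneg hg (sh (sh (sh (sh (sh (sh (sh ε)))))))
                simp only [D] at hV7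
                norm_num at u7
                linarith
        · have hV4 : V β (sh (sh (sh (sh ε)))) = X 4 + D β (-1) 2 (-3) 3 (-1) :=
            st hg h.e3 hV3 d3.2 (by norm_num) (by norm_num) (by norm_num) (by norm_num) (by norm_num)
          exfalso
          have hn := V_nonneg hg (sh (sh (sh (sh ε))))
          simp only [D] at hV4
          norm_num at u4
          linarith
      · have hV3 : V β (sh (sh (sh ε))) = X 3 + D β 1 (-2) 4 0 (-1) :=
          st hg h.e2 hV2 d2.2 (by norm_num) (by norm_num) (by norm_num) (by norm_num) (by norm_num)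
        exfalso
        have hn := V_nonneg hg (sh (sh (sh ε)))
        simp only [D] at hV3
        norm_num at u3
        linarith
  · have hV1 : V β (sh ε) = X 1 + D β 1 0 (-1) 4 (-2) :=
      st hg h.e0 hV0 d0.2 (by norm_num) (by norm_num) (by norm_num) (by norm_num) (by norm_num)
    exfalso
    have hn := V_nonneg hg (sh ε)
    simp only [D] at hV1
    norm_num at u1
    linarith

lemma U_C (h : UBlock β X) (hl : 0.74256 ≤ X 8) (hh : X 8 ≤ 0.91754) {ε : ℕ → Fin 2}
    (hV0 : V β ε = X 0 + D β (-1) (-1) 1 (-2) 1) :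
    V β (fun n => ε (n + 8)) = X 8 + D β (-1) (-1) 1 (-2) 1 := by
  have l8 : (0.74256 : ℝ) ≤ X 8 := by norm_num at hl ⊢; linarith
  have u8 : X 8 ≤ (0.91754 : ℝ) := by norm_num at hh ⊢; linarith
  have l7 : (0.39319 : ℝ) ≤ X 7 := lb hg h.e7 l8 (by norm_num) (by norm_num)
  have u7 : X 7 ≤ (0.48586 : ℝ) := ub hg h.e7 u8 (by norm_num) (by norm_num)
  have l6 : (0.20820 : ℝ) ≤ X 6 := lb hg h.e6 l7 (by norm_num) (by norm_num)
  have u6 : X 6 ≤ (0.25728 : ℝ) := ub hg h.e6 u7 (by norm_num) (by norm_num)
  have l5 : (0.63976 : ℝ) ≤ X 5 := lb hg h.e5 l6 (by norm_num) (by norm_num)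
  have u5 : X 5 ≤ (0.66576 : ℝ) := ub hg h.e5 u6 (by norm_num) (by norm_num)
  have l4 : (0.33876 : ℝ) ≤ X 4 := lb hg h.e4 l5 (by norm_num) (by norm_num)
  have u4 : X 4 ≤ (0.35254 : ℝ) := ub hg h.e4 u5 (by norm_num) (by norm_num)
  have l3 : (0.70889 : ℝ) ≤ X 3 := lb hg h.e3 l4 (by norm_num) (by norm_num)
  have u3 : X 3 ≤ (0.71620 : ℝ) := ub hg h.e3 u4 (by norm_num) (by norm_num)
  have l2 : (0.37536 : ℝ) ≤ X 2 := lb hg h.e2 l3 (by norm_num) (by norm_num)
  have u2 : X 2 ≤ (0.37925 : ℝ) := ub hg h.e2 u3 (by norm_num) (by norm_num)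
  have l1 : (0.72827 : ℝ) ≤ X 1 := lb hg h.e1 l2 (by norm_num) (by norm_num)
  have u1 : X 1 ≤ (0.73034 : ℝ) := ub hg h.e1 u2 (by norm_num) (by norm_num)
  have c1 := hg.lo
  have c2 := hg.hi
  obtain ⟨c3, c4⟩ := b2 hg
  obtain ⟨c5, c6⟩ := b3 hg
  obtain ⟨c7, c8⟩ := b4 hg
  norm_num at c1 c2 c3 c4 c5 c6 c7 c8
  rcases dig ε with d0 | d0
  · have hV1 : V β (sh ε) = X 1 + D β 2 (-1) 0 2 (-1) :=
      st hg h.e0 hV0 d0.2 (by norm_num) (by norm_num) (by norm_num) (by norm_num) (by norm_num)
    exfalso
    have hn := V_le hg (sh ε)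
    simp only [D] at hV1
    norm_num at hn l1
    linarith
  · have hV1 : V β (sh ε) = X 1 + D β 1 (-1) 0 2 (-1) :=
      st hg h.e0 hV0 d0.2 (by norm_num) (by norm_num) (by norm_num) (by norm_num) (by norm_num)
    rcases dig (sh ε) with d1 | d1
    · have hV2 : V β (sh (sh ε)) = X 2 + D β 0 1 (-2) (-1) 1 :=
        st hg h.e1 hV1 d1.2 (by norm_num) (by norm_num) (by norm_num) (by norm_num) (by norm_num)
      rcases dig (sh (sh ε)) with d2 | d2
      · have hV3 : V β (sh (sh (sh ε))) = X 3 + D β 1 0 2 (-1) 0 :=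
          st hg h.e2 hV2 d2.2 (by norm_num) (by norm_num) (by norm_num) (by norm_num) (by norm_num)
        exfalso
        have hn := V_le hg (sh (sh (sh ε)))
        simp only [D] at hV3
        norm_num at hn l3
        linarith
      · have hV3 : V β (sh (sh (sh ε))) = X 3 + D β 0 0 2 (-1) 0 :=
          st hg h.e2 hV2 d2.2 (by norm_num) (by norm_num) (by norm_num) (by norm_num) (by norm_num)
        rcases dig (sh (sh (sh ε))) with d3 | d3
        · have hV4 : V β (sh (sh (sh (sh ε)))) = X 4 + D β 1 0 0 2 (-1) :=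
            st hg h.e3 hV3 d3.2 (by norm_num) (by norm_num) (by norm_num) (by norm_num) (by norm_num)
          exfalso
          have hn := V_le hg (sh (sh (sh (sh ε))))
          simp only [D] at hV4
          norm_num at hn l4
          linarith
        · have hV4 : V β (sh (sh (sh (sh ε)))) = X 4 + D β 0 0 0 2 (-1) :=
            st hg h.e3 hV3 d3.2 (by norm_num) (by norm_num) (by norm_num) (by norm_num) (by norm_num)
          rcases dig (sh (sh (sh (sh ε)))) with d4 | d4
          · have hV5 : V β (sh (sh (sh (sh (sh ε))))) = X 5 + D β (-1) 0 (-1) (-1) 1 :=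
              st hg h.e4 hV4 d4.2 (by norm_num) (by norm_num) (by norm_num) (by norm_num) (by norm_num)
            exfalso
            have hn := V_le hg (sh (sh (sh (sh (sh ε)))))
            simp only [D] at hV5
            norm_num at hn l5
            linarith
          · have hV5 : V β (sh (sh (sh (sh (sh ε))))) = X 5 + D β (-2) 0 (-1) (-1) 1 :=
              st hg h.e4 hV4 d4.2 (by norm_num) (by norm_num) (by norm_num) (by norm_num) (by norm_num)
            rcases dig (sh (sh (sh (sh (sh ε))))) with d5 | d5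
            · have hV6 : V β (sh (sh (sh (sh (sh (sh ε)))))) = X 6 + D β 2 (-2) 1 0 0 :=
                st hg h.e5 hV5 d5.2 (by norm_num) (by norm_num) (by norm_num) (by norm_num) (by norm_num)
              exfalso
              have hn := V_le hg (sh (sh (sh (sh (sh (sh ε))))))
              simp only [D] at hV6
              norm_num at hn l6
              linarith
            · have hV6 : V β (sh (sh (sh (sh (sh (sh ε)))))) = X 6 + D β 1 (-2) 1 0 0 :=
                st hg h.e5 hV5 d5.2 (by norm_num) (by norm_num) (by norm_num) (by norm_num) (by norm_num)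
              rcases dig (sh (sh (sh (sh (sh (sh ε)))))) with d6 | d6
              · have hV7 : V β (sh (sh (sh (sh (sh (sh (sh ε))))))) = X 7 + D β 0 1 (-2) 1 0 :=
                  st hg h.e6 hV6 d6.2 (by norm_num) (by norm_num) (by norm_num) (by norm_num) (by norm_num)
                exfalso
                have hn := V_le hg (sh (sh (sh (sh (sh (sh (sh ε)))))))
                simp only [D] at hV7
                norm_num at hn l7
                linarith
              · have hV7 : V β (sh (sh (sh (sh (sh (sh (sh ε))))))) = X 7 + D β (-1) 1 (-2) 1 0 :=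
                  st hg h.e6 hV6 d6.2 (by norm_num) (by norm_num) (by norm_num) (by norm_num) (by norm_num)
                rcases dig (sh (sh (sh (sh (sh (sh (sh ε))))))) with d7 | d7
                · have hV8 : V β (sh (sh (sh (sh (sh (sh (sh (sh ε)))))))) = X 8 + D β 0 (-1) 1 (-2) 1 :=
                    st hg h.e7 hV7 d7.2 (by norm_num) (by norm_num) (by norm_num) (by norm_num) (by norm_num)
                  exfalso
                  have hn := V_le hg (sh (sh (sh (sh (sh (sh (sh (sh ε))))))))
                  simp only [D] at hV8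
                  norm_num at hn l8
                  linarith
                · have hV8 : V β (sh (sh (sh (sh (sh (sh (sh (sh ε)))))))) = X 8 + D β (-1) (-1) 1 (-2) 1 :=
                    st hg h.e7 hV7 d7.2 (by norm_num) (by norm_num) (by norm_num) (by norm_num) (by norm_num)
                  exact hV8
    · have hV2 : V β (sh (sh ε)) = X 2 + D β (-1) 1 (-2) (-1) 1 :=
        st hg h.e1 hV1 d1.2 (by norm_num) (by norm_num) (by norm_num) (by norm_num) (by norm_num)
      rcases dig (sh (sh ε)) with d2 | d2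
      · have hV3 : V β (sh (sh (sh ε))) = X 3 + D β 1 (-1) 2 (-1) 0 :=
          st hg h.e2 hV2 d2.2 (by norm_num) (by norm_num) (by norm_num) (by norm_num) (by norm_num)
        rcases dig (sh (sh (sh ε))) with d3 | d3
        · have hV4 : V β (sh (sh (sh (sh ε)))) = X 4 + D β 1 1 (-1) 2 (-1) :=
            st hg h.e3 hV3 d3.2 (by norm_num) (by norm_num) (by norm_num) (by norm_num) (by norm_num)
          rcases dig (sh (sh (sh (sh ε)))) with d4 | d4
          · have hV5 : V β (sh (sh (sh (sh (sh ε))))) = X 5 + D β (-1) 1 0 (-2) 1 :=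
              st hg h.e4 hV4 d4.2 (by norm_num) (by norm_num) (by norm_num) (by norm_num) (by norm_num)
            rcases dig (sh (sh (sh (sh (sh ε))))) with d5 | d5
            · have hV6 : V β (sh (sh (sh (sh (sh (sh ε)))))) = X 6 + D β 2 (-1) 2 1 (-1) :=
                st hg h.e5 hV5 d5.2 (by norm_num) (by norm_num) (by norm_num) (by norm_num) (by norm_num)
              exfalso
              have hn := V_le hg (sh (sh (sh (sh (sh (sh ε))))))
              simp only [D] at hV6
              norm_num at hn l6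
              linarith
            · have hV6 : V β (sh (sh (sh (sh (sh (sh ε)))))) = X 6 + D β 1 (-1) 2 1 (-1) :=
                st hg h.e5 hV5 d5.2 (by norm_num) (by norm_num) (by norm_num) (by norm_num) (by norm_num)
              rcases dig (sh (sh (sh (sh (sh (sh ε)))))) with d6 | d6
              · have hV7 : V β (sh (sh (sh (sh (sh (sh (sh ε))))))) = X 7 + D β (-1) 1 (-2) 1 0 :=
                  st hg h.e6 hV6 d6.2 (by norm_num) (by norm_num) (by norm_num) (by norm_num) (by norm_num)
                rcases dig (sh (sh (sh (sh (sh (sh (sh ε))))))) with d7 | d7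
                · have hV8 : V β (sh (sh (sh (sh (sh (sh (sh (sh ε)))))))) = X 8 + D β 0 (-1) 1 (-2) 1 :=
                    st hg h.e7 hV7 d7.2 (by norm_num) (by norm_num) (by norm_num) (by norm_num) (by norm_num)
                  exfalso
                  have hn := V_le hg (sh (sh (sh (sh (sh (sh (sh (sh ε))))))))
                  simp only [D] at hV8
                  norm_num at hn l8
                  linarith
                · have hV8 : V β (sh (sh (sh (sh (sh (sh (sh (sh ε)))))))) = X 8 + D β (-1) (-1) 1 (-2) 1 :=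
                    st hg h.e7 hV7 d7.2 (by norm_num) (by norm_num) (by norm_num) (by norm_num) (by norm_num)
                  exact hV8
              · have hV7 : V β (sh (sh (sh (sh (sh (sh (sh ε))))))) = X 7 + D β (-2) 1 (-2) 1 0 :=
                  st hg h.e6 hV6 d6.2 (by norm_num) (by norm_num) (by norm_num) (by norm_num) (by norm_num)
                exfalso
                have hn := V_nonneg hg (sh (sh (sh (sh (sh (sh (sh ε)))))))
                simp only [D] at hV7
                norm_num at u7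
                linarith
          · have hV5 : V β (sh (sh (sh (sh (sh ε))))) = X 5 + D β (-2) 1 0 (-2) 1 :=
              st hg h.e4 hV4 d4.2 (by norm_num) (by norm_num) (by norm_num) (by norm_num) (by norm_num)
            exfalso
            have hn := V_nonneg hg (sh (sh (sh (sh (sh ε)))))
            simp only [D] at hV5
            norm_num at u5
            linarith
        · have hV4 : V β (sh (sh (sh (sh ε)))) = X 4 + D β 0 1 (-1) 2 (-1) :=
            st hg h.e3 hV3 d3.2 (by norm_num) (by norm_num) (by norm_num) (by norm_num) (by norm_num)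
          exfalso
          have hn := V_nonneg hg (sh (sh (sh (sh ε))))
          simp only [D] at hV4
          norm_num at u4
          linarith
      · have hV3 : V β (sh (sh (sh ε))) = X 3 + D β 0 (-1) 2 (-1) 0 :=
          st hg h.e2 hV2 d2.2 (by norm_num) (by norm_num) (by norm_num) (by norm_num) (by norm_num)
        exfalso
        have hn := V_nonneg hg (sh (sh (sh ε)))
        simp only [D] at hV3
        norm_num at u3
        linarith

lemma U_A (h : UBlock β X) (hl : 0.74256 ≤ X 8) (hh : X 8 ≤ 0.91754) {ε : ℕ → Fin 2}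
    (hV0 : V β ε = X 0 + D β (-1) 0 2 (-1) 0) :
    V β (fun n => ε (n + 8)) = X 8 + D β (-1) (-1) 1 (-2) 1 := by
  have l8 : (0.74256 : ℝ) ≤ X 8 := by norm_num at hl ⊢; linarith
  have u8 : X 8 ≤ (0.91754 : ℝ) := by norm_num at hh ⊢; linarith
  have l7 : (0.39319 : ℝ) ≤ X 7 := lb hg h.e7 l8 (by norm_num) (by norm_num)
  have u7 : X 7 ≤ (0.48586 : ℝ) := ub hg h.e7 u8 (by norm_num) (by norm_num)
  have l6 : (0.20820 : ℝ) ≤ X 6 := lb hg h.e6 l7 (by norm_num) (by norm_num)
  have u6 : X 6 ≤ (0.25728 : ℝ) := ub hg h.e6 u7 (by norm_num) (by norm_num)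
  have l5 : (0.63976 : ℝ) ≤ X 5 := lb hg h.e5 l6 (by norm_num) (by norm_num)
  have u5 : X 5 ≤ (0.66576 : ℝ) := ub hg h.e5 u6 (by norm_num) (by norm_num)
  have l4 : (0.33876 : ℝ) ≤ X 4 := lb hg h.e4 l5 (by norm_num) (by norm_num)
  have u4 : X 4 ≤ (0.35254 : ℝ) := ub hg h.e4 u5 (by norm_num) (by norm_num)
  have l3 : (0.70889 : ℝ) ≤ X 3 := lb hg h.e3 l4 (by norm_num) (by norm_num)
  have u3 : X 3 ≤ (0.71620 : ℝ) := ub hg h.e3 u4 (by norm_num) (by norm_num)
  have l2 : (0.37536 : ℝ) ≤ X 2 := lb hg h.e2 l3 (by norm_num) (by norm_num)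
  have u2 : X 2 ≤ (0.37925 : ℝ) := ub hg h.e2 u3 (by norm_num) (by norm_num)
  have l1 : (0.72827 : ℝ) ≤ X 1 := lb hg h.e1 l2 (by norm_num) (by norm_num)
  have u1 : X 1 ≤ (0.73034 : ℝ) := ub hg h.e1 u2 (by norm_num) (by norm_num)
  have c1 := hg.lo
  have c2 := hg.hi
  obtain ⟨c3, c4⟩ := b2 hg
  obtain ⟨c5, c6⟩ := b3 hg
  obtain ⟨c7, c8⟩ := b4 hg
  norm_num at c1 c2 c3 c4 c5 c6 c7 c8
  rcases dig ε with d0 | d0
  · have hV1 : V β (sh ε) = X 1 + D β 1 (-1) 0 2 (-1) :=
      st hg h.e0 hV0 d0.2 (by norm_num) (by norm_num) (by norm_num) (by norm_num) (by norm_num)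
    rcases dig (sh ε) with d1 | d1
    · have hV2 : V β (sh (sh ε)) = X 2 + D β 0 1 (-2) (-1) 1 :=
        st hg h.e1 hV1 d1.2 (by norm_num) (by norm_num) (by norm_num) (by norm_num) (by norm_num)
      rcases dig (sh (sh ε)) with d2 | d2
      · have hV3 : V β (sh (sh (sh ε))) = X 3 + D β 1 0 2 (-1) 0 :=
          st hg h.e2 hV2 d2.2 (by norm_num) (by norm_num) (by norm_num) (by norm_num) (by norm_num)
        exfalso
        have hn := V_le hg (sh (sh (sh ε)))
        simp only [D] at hV3
        norm_num at hn l3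
        linarith
      · have hV3 : V β (sh (sh (sh ε))) = X 3 + D β 0 0 2 (-1) 0 :=
          st hg h.e2 hV2 d2.2 (by norm_num) (by norm_num) (by norm_num) (by norm_num) (by norm_num)
        rcases dig (sh (sh (sh ε))) with d3 | d3
        · have hV4 : V β (sh (sh (sh (sh ε)))) = X 4 + D β 1 0 0 2 (-1) :=
            st hg h.e3 hV3 d3.2 (by norm_num) (by norm_num) (by norm_num) (by norm_num) (by norm_num)
          exfalso
          have hn := V_le hg (sh (sh (sh (sh ε))))
          simp only [D] at hV4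
          norm_num at hn l4
          linarith
        · have hV4 : V β (sh (sh (sh (sh ε)))) = X 4 + D β 0 0 0 2 (-1) :=
            st hg h.e3 hV3 d3.2 (by norm_num) (by norm_num) (by norm_num) (by norm_num) (by norm_num)
          rcases dig (sh (sh (sh (sh ε)))) with d4 | d4
          · have hV5 : V β (sh (sh (sh (sh (sh ε))))) = X 5 + D β (-1) 0 (-1) (-1) 1 :=
              st hg h.e4 hV4 d4.2 (by norm_num) (by norm_num) (by norm_num) (by norm_num) (by norm_num)
            exfalso
            have hn := V_le hg (sh (sh (sh (sh (sh ε)))))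
            simp only [D] at hV5
            norm_num at hn l5
            linarith
          · have hV5 : V β (sh (sh (sh (sh (sh ε))))) = X 5 + D β (-2) 0 (-1) (-1) 1 :=
              st hg h.e4 hV4 d4.2 (by norm_num) (by norm_num) (by norm_num) (by norm_num) (by norm_num)
            rcases dig (sh (sh (sh (sh (sh ε))))) with d5 | d5
            · have hV6 : V β (sh (sh (sh (sh (sh (sh ε)))))) = X 6 + D β 2 (-2) 1 0 0 :=
                st hg h.e5 hV5 d5.2 (by norm_num) (by norm_num) (by norm_num) (by norm_num) (by norm_num)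
              exfalso
              have hn := V_le hg (sh (sh (sh (sh (sh (sh ε))))))
              simp only [D] at hV6
              norm_num at hn l6
              linarith
            · have hV6 : V β (sh (sh (sh (sh (sh (sh ε)))))) = X 6 + D β 1 (-2) 1 0 0 :=
                st hg h.e5 hV5 d5.2 (by norm_num) (by norm_num) (by norm_num) (by norm_num) (by norm_num)
              rcases dig (sh (sh (sh (sh (sh (sh ε)))))) with d6 | d6
              · have hV7 : V β (sh (sh (sh (sh (sh (sh (sh ε))))))) = X 7 + D β 0 1 (-2) 1 0 :=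
                  st hg h.e6 hV6 d6.2 (by norm_num) (by norm_num) (by norm_num) (by norm_num) (by norm_num)
                exfalso
                have hn := V_le hg (sh (sh (sh (sh (sh (sh (sh ε)))))))
                simp only [D] at hV7
                norm_num at hn l7
                linarith
              · have hV7 : V β (sh (sh (sh (sh (sh (sh (sh ε))))))) = X 7 + D β (-1) 1 (-2) 1 0 :=
                  st hg h.e6 hV6 d6.2 (by norm_num) (by norm_num) (by norm_num) (by norm_num) (by norm_num)
                rcases dig (sh (sh (sh (sh (sh (sh (sh ε))))))) with d7 | d7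
                · have hV8 : V β (sh (sh (sh (sh (sh (sh (sh (sh ε)))))))) = X 8 + D β 0 (-1) 1 (-2) 1 :=
                    st hg h.e7 hV7 d7.2 (by norm_num) (by norm_num) (by norm_num) (by norm_num) (by norm_num)
                  exfalso
                  have hn := V_le hg (sh (sh (sh (sh (sh (sh (sh (sh ε))))))))
                  simp only [D] at hV8
                  norm_num at hn l8
                  linarith
                · have hV8 : V β (sh (sh (sh (sh (sh (sh (sh (sh ε)))))))) = X 8 + D β (-1) (-1) 1 (-2) 1 :=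
                    st hg h.e7 hV7 d7.2 (by norm_num) (by norm_num) (by norm_num) (by norm_num) (by norm_num)
                  exact hV8
    · have hV2 : V β (sh (sh ε)) = X 2 + D β (-1) 1 (-2) (-1) 1 :=
        st hg h.e1 hV1 d1.2 (by norm_num) (by norm_num) (by norm_num) (by norm_num) (by norm_num)
      rcases dig (sh (sh ε)) with d2 | d2
      · have hV3 : V β (sh (sh (sh ε))) = X 3 + D β 1 (-1) 2 (-1) 0 :=
          st hg h.e2 hV2 d2.2 (by norm_num) (by norm_num) (by norm_num) (by norm_num) (by norm_num)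
        rcases dig (sh (sh (sh ε))) with d3 | d3
        · have hV4 : V β (sh (sh (sh (sh ε)))) = X 4 + D β 1 1 (-1) 2 (-1) :=
            st hg h.e3 hV3 d3.2 (by norm_num) (by norm_num) (by norm_num) (by norm_num) (by norm_num)
          rcases dig (sh (sh (sh (sh ε)))) with d4 | d4
          · have hV5 : V β (sh (sh (sh (sh (sh ε))))) = X 5 + D β (-1) 1 0 (-2) 1 :=
              st hg h.e4 hV4 d4.2 (by norm_num) (by norm_num) (by norm_num) (by norm_num) (by norm_num)
            rcases dig (sh (sh (sh (sh (sh ε))))) with d5 | d5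
            · have hV6 : V β (sh (sh (sh (sh (sh (sh ε)))))) = X 6 + D β 2 (-1) 2 1 (-1) :=
                st hg h.e5 hV5 d5.2 (by norm_num) (by norm_num) (by norm_num) (by norm_num) (by norm_num)
              exfalso
              have hn := V_le hg (sh (sh (sh (sh (sh (sh ε))))))
              simp only [D] at hV6
              norm_num at hn l6
              linarith
            · have hV6 : V β (sh (sh (sh (sh (sh (sh ε)))))) = X 6 + D β 1 (-1) 2 1 (-1) :=
                st hg h.e5 hV5 d5.2 (by norm_num) (by norm_num) (by norm_num) (by norm_num) (by norm_num)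
              rcases dig (sh (sh (sh (sh (sh (sh ε)))))) with d6 | d6
              · have hV7 : V β (sh (sh (sh (sh (sh (sh (sh ε))))))) = X 7 + D β (-1) 1 (-2) 1 0 :=
                  st hg h.e6 hV6 d6.2 (by norm_num) (by norm_num) (by norm_num) (by norm_num) (by norm_num)
                rcases dig (sh (sh (sh (sh (sh (sh (sh ε))))))) with d7 | d7
                · have hV8 : V β (sh (sh (sh (sh (sh (sh (sh (sh ε)))))))) = X 8 + D β 0 (-1) 1 (-2) 1 :=
                    st hg h.e7 hV7 d7.2 (by norm_num) (by norm_num) (by norm_num) (by norm_num) (by norm_num)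
                  exfalso
                  have hn := V_le hg (sh (sh (sh (sh (sh (sh (sh (sh ε))))))))
                  simp only [D] at hV8
                  norm_num at hn l8
                  linarith
                · have hV8 : V β (sh (sh (sh (sh (sh (sh (sh (sh ε)))))))) = X 8 + D β (-1) (-1) 1 (-2) 1 :=
                    st hg h.e7 hV7 d7.2 (by norm_num) (by norm_num) (by norm_num) (by norm_num) (by norm_num)
                  exact hV8
              · have hV7 : V β (sh (sh (sh (sh (sh (sh (sh ε))))))) = X 7 + D β (-2) 1 (-2) 1 0 :=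
                  st hg h.e6 hV6 d6.2 (by norm_num) (by norm_num) (by norm_num) (by norm_num) (by norm_num)
                exfalso
                have hn := V_nonneg hg (sh (sh (sh (sh (sh (sh (sh ε)))))))
                simp only [D] at hV7
                norm_num at u7
                linarith
          · have hV5 : V β (sh (sh (sh (sh (sh ε))))) = X 5 + D β (-2) 1 0 (-2) 1 :=
              st hg h.e4 hV4 d4.2 (by norm_num) (by norm_num) (by norm_num) (by norm_num) (by norm_num)
            exfalso
            have hn := V_nonneg hg (sh (sh (sh (sh (sh ε)))))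
            simp only [D] at hV5
            norm_num at u5
            linarith
        · have hV4 : V β (sh (sh (sh (sh ε)))) = X 4 + D β 0 1 (-1) 2 (-1) :=
            st hg h.e3 hV3 d3.2 (by norm_num) (by norm_num) (by norm_num) (by norm_num) (by norm_num)
          exfalso
          have hn := V_nonneg hg (sh (sh (sh (sh ε))))
          simp only [D] at hV4
          norm_num at u4
          linarith
      · have hV3 : V β (sh (sh (sh ε))) = X 3 + D β 0 (-1) 2 (-1) 0 :=
          st hg h.e2 hV2 d2.2 (by norm_num) (by norm_num) (by norm_num) (by norm_num) (by norm_num)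
        exfalso
        have hn := V_nonneg hg (sh (sh (sh ε)))
        simp only [D] at hV3
        norm_num at u3
        linarith
  · have hV1 : V β (sh ε) = X 1 + D β 0 (-1) 0 2 (-1) :=
      st hg h.e0 hV0 d0.2 (by norm_num) (by norm_num) (by norm_num) (by norm_num) (by norm_num)
    exfalso
    have hn := V_nonneg hg (sh ε)
    simp only [D] at hV1
    norm_num at u1
    linarith

lemma V_S (h : VBlock β X) (hl : 0.91055 ≤ X 13) (hh : X 13 ≤ 0.91754) {ε : ℕ → Fin 2}
    (hV0 : V β ε = X 0 + D β 0 0 0 0 0) :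
    ((ε 0 = 1 ∧ ε 1 = 0 ∧ ε 2 = 1 ∧ ε 3 = 0 ∧ ε 4 = 1 ∧ ε 5 = 1 ∧ ε 6 = 0 ∧ ε 7 = 0 ∧ ε 8 = 0 ∧ ε 9 = 0 ∧ ε 10 = 1 ∧ ε 11 = 0 ∧ ε 12 = 0) ∧ V β (fun n => ε (n + 13)) = X 13 + D β 0 0 0 0 0) ∨
      V β (fun n => ε (n + 13)) = X 13 + D β (-1) 0 2 (-1) 0 := by
  have l13 : (0.91055 : ℝ) ≤ X 13 := by norm_num at hl ⊢; linarith
  have u13 : X 13 ≤ (0.91754 : ℝ) := by norm_num at hh ⊢; linarith
  have l12 : (0.48215 : ℝ) ≤ X 12 := lb hg h.e12 l13 (by norm_num) (by norm_num)
  have u12 : X 12 ≤ (0.48586 : ℝ) := ub hg h.e12 u13 (by norm_num) (by norm_num)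
  have l11 : (0.25530 : ℝ) ≤ X 11 := lb hg h.e11 l12 (by norm_num) (by norm_num)
  have u11 : X 11 ≤ (0.25728 : ℝ) := ub hg h.e11 u12 (by norm_num) (by norm_num)
  have l10 : (0.66470 : ℝ) ≤ X 10 := lb hg h.e10 l11 (by norm_num) (by norm_num)
  have u10 : X 10 ≤ (0.66576 : ℝ) := ub hg h.e10 u11 (by norm_num) (by norm_num)
  have l9 : (0.35196 : ℝ) ≤ X 9 := lb hg h.e9 l10 (by norm_num) (by norm_num)
  have u9 : X 9 ≤ (0.35254 : ℝ) := ub hg h.e9 u10 (by norm_num) (by norm_num)
  have l8 : (0.18636 : ℝ) ≤ X 8 := lb hg h.e8 l9 (by norm_num) (by norm_num)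
  have u8 : X 8 ≤ (0.18668 : ℝ) := ub hg h.e8 u9 (by norm_num) (by norm_num)
  have l7 : (0.09868 : ℝ) ≤ X 7 := lb hg h.e7 l8 (by norm_num) (by norm_num)
  have u7 : X 7 ≤ (0.09886 : ℝ) := ub hg h.e7 u8 (by norm_num) (by norm_num)
  have l6 : (0.05225 : ℝ) ≤ X 6 := lb hg h.e6 l7 (by norm_num) (by norm_num)
  have u6 : X 6 ≤ (0.05235 : ℝ) := ub hg h.e6 u7 (by norm_num) (by norm_num)
  have l5 : (0.55718 : ℝ) ≤ X 5 := lb hg h.e5 l6 (by norm_num) (by norm_num)
  have u5 : X 5 ≤ (0.55724 : ℝ) := ub hg h.e5 u6 (by norm_num) (by norm_num)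
  have l4 : (0.82455 : ℝ) ≤ X 4 := lb hg h.e4 l5 (by norm_num) (by norm_num)
  have u4 : X 4 ≤ (0.82459 : ℝ) := ub hg h.e4 u5 (by norm_num) (by norm_num)
  have l3 : (0.43661 : ℝ) ≤ X 3 := lb hg h.e3 l4 (by norm_num) (by norm_num)
  have u3 : X 3 ≤ (0.43664 : ℝ) := ub hg h.e3 u4 (by norm_num) (by norm_num)
  have l2 : (0.76070 : ℝ) ≤ X 2 := lb hg h.e2 l3 (by norm_num) (by norm_num)
  have u2 : X 2 ≤ (0.76073 : ℝ) := ub hg h.e2 u3 (by norm_num) (by norm_num)
  have l1 : (0.40280 : ℝ) ≤ X 1 := lb hg h.e1 l2 (by norm_num) (by norm_num)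
  have u1 : X 1 ≤ (0.40283 : ℝ) := ub hg h.e1 u2 (by norm_num) (by norm_num)
  have c1 := hg.lo
  have c2 := hg.hi
  obtain ⟨c3, c4⟩ := b2 hg
  obtain ⟨c5, c6⟩ := b3 hg
  obtain ⟨c7, c8⟩ := b4 hg
  norm_num at c1 c2 c3 c4 c5 c6 c7 c8
  rcases dig ε with d0 | d0
  · have hV1 : V β (sh ε) = X 1 + D β 1 0 0 0 0 :=
      st hg h.e0 hV0 d0.2 (by norm_num) (by norm_num) (by norm_num) (by norm_num) (by norm_num)
    exfalso
    have hn := V_le hg (sh ε)
    simp only [D] at hV1
    norm_num at hn l1
    linarith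
  · have hV1 : V β (sh ε) = X 1 + D β 0 0 0 0 0 :=
      st hg h.e0 hV0 d0.2 (by norm_num) (by norm_num) (by norm_num) (by norm_num) (by norm_num)
    rcases dig (sh ε) with d1 | d1
    · have hV2 : V β (sh (sh ε)) = X 2 + D β 0 0 0 0 0 :=
        st hg h.e1 hV1 d1.2 (by norm_num) (by norm_num) (by norm_num) (by norm_num) (by norm_num)
      rcases dig (sh (sh ε)) with d2 | d2
      · have hV3 : V β (sh (sh (sh ε))) = X 3 + D β 1 0 0 0 0 :=
          st hg h.e2 hV2 d2.2 (by norm_num) (by norm_num) (by norm_num) (by norm_num) (by norm_num)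
        exfalso
        have hn := V_le hg (sh (sh (sh ε)))
        simp only [D] at hV3
        norm_num at hn l3
        linarith
      · have hV3 : V β (sh (sh (sh ε))) = X 3 + D β 0 0 0 0 0 :=
          st hg h.e2 hV2 d2.2 (by norm_num) (by norm_num) (by norm_num) (by norm_num) (by norm_num)
        rcases dig (sh (sh (sh ε))) with d3 | d3
        · have hV4 : V β (sh (sh (sh (sh ε)))) = X 4 + D β 0 0 0 0 0 :=
            st hg h.e3 hV3 d3.2 (by norm_num) (by norm_num) (by norm_num) (by norm_num) (by norm_num)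
          rcases dig (sh (sh (sh (sh ε)))) with d4 | d4
          · have hV5 : V β (sh (sh (sh (sh (sh ε))))) = X 5 + D β 1 0 0 0 0 :=
              st hg h.e4 hV4 d4.2 (by norm_num) (by norm_num) (by norm_num) (by norm_num) (by norm_num)
            exfalso
            have hn := V_le hg (sh (sh (sh (sh (sh ε)))))
            simp only [D] at hV5
            norm_num at hn l5
            linarith
          · have hV5 : V β (sh (sh (sh (sh (sh ε))))) = X 5 + D β 0 0 0 0 0 :=
              st hg h.e4 hV4 d4.2 (by norm_num) (by norm_num) (by norm_num) (by norm_num) (by norm_num)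
            rcases dig (sh (sh (sh (sh (sh ε))))) with d5 | d5
            · have hV6 : V β (sh (sh (sh (sh (sh (sh ε)))))) = X 6 + D β 1 0 0 0 0 :=
                st hg h.e5 hV5 d5.2 (by norm_num) (by norm_num) (by norm_num) (by norm_num) (by norm_num)
              rcases dig (sh (sh (sh (sh (sh (sh ε)))))) with d6 | d6
              · have hV7 : V β (sh (sh (sh (sh (sh (sh (sh ε))))))) = X 7 + D β 0 1 0 0 0 :=
                  st hg h.e6 hV6 d6.2 (by norm_num) (by norm_num) (by norm_num) (by norm_num) (by norm_num)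
                exfalso
                have hn := V_le hg (sh (sh (sh (sh (sh (sh (sh ε)))))))
                simp only [D] at hV7
                norm_num at hn l7
                linarith
              · have hV7 : V β (sh (sh (sh (sh (sh (sh (sh ε))))))) = X 7 + D β (-1) 1 0 0 0 :=
                  st hg h.e6 hV6 d6.2 (by norm_num) (by norm_num) (by norm_num) (by norm_num) (by norm_num)
                rcases dig (sh (sh (sh (sh (sh (sh (sh ε))))))) with d7 | d7
                · have hV8 : V β (sh (sh (sh (sh (sh (sh (sh (sh ε)))))))) = X 8 + D β 0 (-1) 1 0 0 :=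
                    st hg h.e7 hV7 d7.2 (by norm_num) (by norm_num) (by norm_num) (by norm_num) (by norm_num)
                  exfalso
                  have hn := V_le hg (sh (sh (sh (sh (sh (sh (sh (sh ε))))))))
                  simp only [D] at hV8
                  norm_num at hn l8
                  linarith
                · have hV8 : V β (sh (sh (sh (sh (sh (sh (sh (sh ε)))))))) = X 8 + D β (-1) (-1) 1 0 0 :=
                    st hg h.e7 hV7 d7.2 (by norm_num) (by norm_num) (by norm_num) (by norm_num) (by norm_num)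
                  rcases dig (sh (sh (sh (sh (sh (sh (sh (sh ε)))))))) with d8 | d8
                  · have hV9 : V β (sh (sh (sh (sh (sh (sh (sh (sh (sh ε))))))))) = X 9 + D β 0 (-1) (-1) 1 0 :=
                      st hg h.e8 hV8 d8.2 (by norm_num) (by norm_num) (by norm_num) (by norm_num) (by norm_num)
                    exfalso
                    have hn := V_le hg (sh (sh (sh (sh (sh (sh (sh (sh (sh ε)))))))))
                    simp only [D] at hV9
                    norm_num at hn l9
                    linarith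
                  · have hV9 : V β (sh (sh (sh (sh (sh (sh (sh (sh (sh ε))))))))) = X 9 + D β (-1) (-1) (-1) 1 0 :=
                      st hg h.e8 hV8 d8.2 (by norm_num) (by norm_num) (by norm_num) (by norm_num) (by norm_num)
                    rcases dig (sh (sh (sh (sh (sh (sh (sh (sh (sh ε))))))))) with d9 | d9
                    · have hV10 : V β (sh (sh (sh (sh (sh (sh (sh (sh (sh (sh ε)))))))))) = X 10 + D β 0 (-1) (-1) (-1) 1 :=
                        st hg h.e9 hV9 d9.2 (by norm_num) (by norm_num) (by norm_num) (by norm_num) (by norm_num)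
                      exfalso
                      have hn := V_le hg (sh (sh (sh (sh (sh (sh (sh (sh (sh (sh ε))))))))))
                      simp only [D] at hV10
                      norm_num at hn l10
                      linarith
                    · have hV10 : V β (sh (sh (sh (sh (sh (sh (sh (sh (sh (sh ε)))))))))) = X 10 + D β (-1) (-1) (-1) (-1) 1 :=
                        st hg h.e9 hV9 d9.2 (by norm_num) (by norm_num) (by norm_num) (by norm_num) (by norm_num)
                      rcases dig (sh (sh (sh (sh (sh (sh (sh (sh (sh (sh ε)))))))))) with d10 | d10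
                      · have hV11 : V β (sh (sh (sh (sh (sh (sh (sh (sh (sh (sh (sh ε))))))))))) = X 11 + D β 2 (-1) 0 0 0 :=
                          st hg h.e10 hV10 d10.2 (by norm_num) (by norm_num) (by norm_num) (by norm_num) (by norm_num)
                        rcases dig (sh (sh (sh (sh (sh (sh (sh (sh (sh (sh (sh ε))))))))))) with d11 | d11
                        · have hV12 : V β (sh (sh (sh (sh (sh (sh (sh (sh (sh (sh (sh (sh ε)))))))))))) = X 12 + D β 0 2 (-1) 0 0 :=
                            st hg h.e11 hV11 d11.2 (by norm_num) (by norm_num) (by norm_num) (by norm_num) (by norm_num)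
                          rcases dig (sh (sh (sh (sh (sh (sh (sh (sh (sh (sh (sh (sh ε)))))))))))) with d12 | d12
                          · have hV13 : V β (sh (sh (sh (sh (sh (sh (sh (sh (sh (sh (sh (sh (sh ε))))))))))))) = X 13 + D β 0 0 2 (-1) 0 :=
                              st hg h.e12 hV12 d12.2 (by norm_num) (by norm_num) (by norm_num) (by norm_num) (by norm_num)
                            exfalso
                            have hn := V_le hg (sh (sh (sh (sh (sh (sh (sh (sh (sh (sh (sh (sh (sh ε)))))))))))))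
                            simp only [D] at hV13
                            norm_num at hn l13
                            linarith
                          · have hV13 : V β (sh (sh (sh (sh (sh (sh (sh (sh (sh (sh (sh (sh (sh ε))))))))))))) = X 13 + D β (-1) 0 2 (-1) 0 :=
                              st hg h.e12 hV12 d12.2 (by norm_num) (by norm_num) (by norm_num) (by norm_num) (by norm_num)
                            exact Or.inr hV13
                        · have hV12 : V β (sh (sh (sh (sh (sh (sh (sh (sh (sh (sh (sh (sh ε)))))))))))) = X 12 + D β (-1) 2 (-1) 0 0 :=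
                            st hg h.e11 hV11 d11.2 (by norm_num) (by norm_num) (by norm_num) (by norm_num) (by norm_num)
                          exfalso
                          have hn := V_nonneg hg (sh (sh (sh (sh (sh (sh (sh (sh (sh (sh (sh (sh ε))))))))))))
                          simp only [D] at hV12
                          norm_num at u12
                          linarith
                      · have hV11 : V β (sh (sh (sh (sh (sh (sh (sh (sh (sh (sh (sh ε))))))))))) = X 11 + D β 1 (-1) 0 0 0 :=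
                          st hg h.e10 hV10 d10.2 (by norm_num) (by norm_num) (by norm_num) (by norm_num) (by norm_num)
                        exfalso
                        have hn := V_nonneg hg (sh (sh (sh (sh (sh (sh (sh (sh (sh (sh (sh ε)))))))))))
                        simp only [D] at hV11
                        norm_num at u11
                        linarith
            · have hV6 : V β (sh (sh (sh (sh (sh (sh ε)))))) = X 6 + D β 0 0 0 0 0 :=
                st hg h.e5 hV5 d5.2 (by norm_num) (by norm_num) (by norm_num) (by norm_num) (by norm_num)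
              rcases dig (sh (sh (sh (sh (sh (sh ε)))))) with d6 | d6
              · have hV7 : V β (sh (sh (sh (sh (sh (sh (sh ε))))))) = X 7 + D β 0 0 0 0 0 :=
                  st hg h.e6 hV6 d6.2 (by norm_num) (by norm_num) (by norm_num) (by norm_num) (by norm_num)
                rcases dig (sh (sh (sh (sh (sh (sh (sh ε))))))) with d7 | d7
                · have hV8 : V β (sh (sh (sh (sh (sh (sh (sh (sh ε)))))))) = X 8 + D β 0 0 0 0 0 :=
                    st hg h.e7 hV7 d7.2 (by norm_num) (by norm_num) (by norm_num) (by norm_num) (by norm_num)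
                  rcases dig (sh (sh (sh (sh (sh (sh (sh (sh ε)))))))) with d8 | d8
                  · have hV9 : V β (sh (sh (sh (sh (sh (sh (sh (sh (sh ε))))))))) = X 9 + D β 0 0 0 0 0 :=
                      st hg h.e8 hV8 d8.2 (by norm_num) (by norm_num) (by norm_num) (by norm_num) (by norm_num)
                    rcases dig (sh (sh (sh (sh (sh (sh (sh (sh (sh ε))))))))) with d9 | d9
                    · have hV10 : V β (sh (sh (sh (sh (sh (sh (sh (sh (sh (sh ε)))))))))) = X 10 + D β 0 0 0 0 0 :=
                        st hg h.e9 hV9 d9.2 (by norm_num) (by norm_num) (by norm_num) (by norm_num) (by norm_num)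
                      rcases dig (sh (sh (sh (sh (sh (sh (sh (sh (sh (sh ε)))))))))) with d10 | d10
                      · have hV11 : V β (sh (sh (sh (sh (sh (sh (sh (sh (sh (sh (sh ε))))))))))) = X 11 + D β 1 0 0 0 0 :=
                          st hg h.e10 hV10 d10.2 (by norm_num) (by norm_num) (by norm_num) (by norm_num) (by norm_num)
                        exfalso
                        have hn := V_le hg (sh (sh (sh (sh (sh (sh (sh (sh (sh (sh (sh ε)))))))))))
                        simp only [D] at hV11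
                        norm_num at hn l11
                        linarith
                      · have hV11 : V β (sh (sh (sh (sh (sh (sh (sh (sh (sh (sh (sh ε))))))))))) = X 11 + D β 0 0 0 0 0 :=
                          st hg h.e10 hV10 d10.2 (by norm_num) (by norm_num) (by norm_num) (by norm_num) (by norm_num)
                        rcases dig (sh (sh (sh (sh (sh (sh (sh (sh (sh (sh (sh ε))))))))))) with d11 | d11
                        · have hV12 : V β (sh (sh (sh (sh (sh (sh (sh (sh (sh (sh (sh (sh ε)))))))))))) = X 12 + D β 0 0 0 0 0 :=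
                            st hg h.e11 hV11 d11.2 (by norm_num) (by norm_num) (by norm_num) (by norm_num) (by norm_num)
                          rcases dig (sh (sh (sh (sh (sh (sh (sh (sh (sh (sh (sh (sh ε)))))))))))) with d12 | d12
                          · have hV13 : V β (sh (sh (sh (sh (sh (sh (sh (sh (sh (sh (sh (sh (sh ε))))))))))))) = X 13 + D β 0 0 0 0 0 :=
                              st hg h.e12 hV12 d12.2 (by norm_num) (by norm_num) (by norm_num) (by norm_num) (by norm_num)
                            exact Or.inl ⟨⟨d0.1, d1.1, d2.1, d3.1, d4.1, d5.1, d6.1, d7.1, d8.1, d9.1, d10.1, d11.1, d12.1⟩, hV13⟩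
                          · have hV13 : V β (sh (sh (sh (sh (sh (sh (sh (sh (sh (sh (sh (sh (sh ε))))))))))))) = X 13 + D β (-1) 0 0 0 0 :=
                              st hg h.e12 hV12 d12.2 (by norm_num) (by norm_num) (by norm_num) (by norm_num) (by norm_num)
                            exfalso
                            have hn := V_nonneg hg (sh (sh (sh (sh (sh (sh (sh (sh (sh (sh (sh (sh (sh ε)))))))))))))
                            simp only [D] at hV13
                            norm_num at u13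
                            linarith
                        · have hV12 : V β (sh (sh (sh (sh (sh (sh (sh (sh (sh (sh (sh (sh ε)))))))))))) = X 12 + D β (-1) 0 0 0 0 :=
                            st hg h.e11 hV11 d11.2 (by norm_num) (by norm_num) (by norm_num) (by norm_num) (by norm_num)
                          exfalso
                          have hn := V_nonneg hg (sh (sh (sh (sh (sh (sh (sh (sh (sh (sh (sh (sh ε))))))))))))
                          simp only [D] at hV12
                          norm_num at u12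
                          linarith
                    · have hV10 : V β (sh (sh (sh (sh (sh (sh (sh (sh (sh (sh ε)))))))))) = X 10 + D β (-1) 0 0 0 0 :=
                        st hg h.e9 hV9 d9.2 (by norm_num) (by norm_num) (by norm_num) (by norm_num) (by norm_num)
                      exfalso
                      have hn := V_nonneg hg (sh (sh (sh (sh (sh (sh (sh (sh (sh (sh ε))))))))))
                      simp only [D] at hV10
                      norm_num at u10
                      linarith
                  · have hV9 : V β (sh (sh (sh (sh (sh (sh (sh (sh (sh ε))))))))) = X 9 + D β (-1) 0 0 0 0 :=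
                      st hg h.e8 hV8 d8.2 (by norm_num) (by norm_num) (by norm_num) (by norm_num) (by norm_num)
                    exfalso
                    have hn := V_nonneg hg (sh (sh (sh (sh (sh (sh (sh (sh (sh ε)))))))))
                    simp only [D] at hV9
                    norm_num at u9
                    linarith
                · have hV8 : V β (sh (sh (sh (sh (sh (sh (sh (sh ε)))))))) = X 8 + D β (-1) 0 0 0 0 :=
                    st hg h.e7 hV7 d7.2 (by norm_num) (by norm_num) (by norm_num) (by norm_num) (by norm_num)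
                  exfalso
                  have hn := V_nonneg hg (sh (sh (sh (sh (sh (sh (sh (sh ε))))))))
                  simp only [D] at hV8
                  norm_num at u8
                  linarith
              · have hV7 : V β (sh (sh (sh (sh (sh (sh (sh ε))))))) = X 7 + D β (-1) 0 0 0 0 :=
                  st hg h.e6 hV6 d6.2 (by norm_num) (by norm_num) (by norm_num) (by norm_num) (by norm_num)
                exfalso
                have hn := V_nonneg hg (sh (sh (sh (sh (sh (sh (sh ε)))))))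
                simp only [D] at hV7
                norm_num at u7
                linarith
        · have hV4 : V β (sh (sh (sh (sh ε)))) = X 4 + D β (-1) 0 0 0 0 :=
            st hg h.e3 hV3 d3.2 (by norm_num) (by norm_num) (by norm_num) (by norm_num) (by norm_num)
          exfalso
          have hn := V_nonneg hg (sh (sh (sh (sh ε))))
          simp only [D] at hV4
          norm_num at u4
          linarith
    · have hV2 : V β (sh (sh ε)) = X 2 + D β (-1) 0 0 0 0 :=
        st hg h.e1 hV1 d1.2 (by norm_num) (by norm_num) (by norm_num) (by norm_num) (by norm_num)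
      exfalso
      have hn := V_nonneg hg (sh (sh ε))
      simp only [D] at hV2
      norm_num at u2
      linarith

lemma V_C (h : VBlock β X) (hl : 0.91055 ≤ X 13) (hh : X 13 ≤ 0.91754) {ε : ℕ → Fin 2}
    (hV0 : V β ε = X 0 + D β (-1) (-1) 1 (-2) 1) :
    V β (fun n => ε (n + 13)) = X 13 + D β 0 (-2) 3 (-3) 1 := by
  have l13 : (0.91055 : ℝ) ≤ X 13 := by norm_num at hl ⊢; linarith
  have u13 : X 13 ≤ (0.91754 : ℝ) := by norm_num at hh ⊢; linarith
  have l12 : (0.48215 : ℝ) ≤ X 12 := lb hg h.e12 l13 (by norm_num) (by norm_num)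
  have u12 : X 12 ≤ (0.48586 : ℝ) := ub hg h.e12 u13 (by norm_num) (by norm_num)
  have l11 : (0.25530 : ℝ) ≤ X 11 := lb hg h.e11 l12 (by norm_num) (by norm_num)
  have u11 : X 11 ≤ (0.25728 : ℝ) := ub hg h.e11 u12 (by norm_num) (by norm_num)
  have l10 : (0.66470 : ℝ) ≤ X 10 := lb hg h.e10 l11 (by norm_num) (by norm_num)
  have u10 : X 10 ≤ (0.66576 : ℝ) := ub hg h.e10 u11 (by norm_num) (by norm_num)
  have l9 : (0.35196 : ℝ) ≤ X 9 := lb hg h.e9 l10 (by norm_num) (by norm_num)
  have u9 : X 9 ≤ (0.35254 : ℝ) := ub hg h.e9 u10 (by norm_num) (by norm_num)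
  have l8 : (0.18636 : ℝ) ≤ X 8 := lb hg h.e8 l9 (by norm_num) (by norm_num)
  have u8 : X 8 ≤ (0.18668 : ℝ) := ub hg h.e8 u9 (by norm_num) (by norm_num)
  have l7 : (0.09868 : ℝ) ≤ X 7 := lb hg h.e7 l8 (by norm_num) (by norm_num)
  have u7 : X 7 ≤ (0.09886 : ℝ) := ub hg h.e7 u8 (by norm_num) (by norm_num)
  have l6 : (0.05225 : ℝ) ≤ X 6 := lb hg h.e6 l7 (by norm_num) (by norm_num)
  have u6 : X 6 ≤ (0.05235 : ℝ) := ub hg h.e6 u7 (by norm_num) (by norm_num)
  have l5 : (0.55718 : ℝ) ≤ X 5 := lb hg h.e5 l6 (by norm_num) (by norm_num)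
  have u5 : X 5 ≤ (0.55724 : ℝ) := ub hg h.e5 u6 (by norm_num) (by norm_num)
  have l4 : (0.82455 : ℝ) ≤ X 4 := lb hg h.e4 l5 (by norm_num) (by norm_num)
  have u4 : X 4 ≤ (0.82459 : ℝ) := ub hg h.e4 u5 (by norm_num) (by norm_num)
  have l3 : (0.43661 : ℝ) ≤ X 3 := lb hg h.e3 l4 (by norm_num) (by norm_num)
  have u3 : X 3 ≤ (0.43664 : ℝ) := ub hg h.e3 u4 (by norm_num) (by norm_num)
  have l2 : (0.76070 : ℝ) ≤ X 2 := lb hg h.e2 l3 (by norm_num) (by norm_num)
  have u2 : X 2 ≤ (0.76073 : ℝ) := ub hg h.e2 u3 (by norm_num) (by norm_num)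
  have l1 : (0.40280 : ℝ) ≤ X 1 := lb hg h.e1 l2 (by norm_num) (by norm_num)
  have u1 : X 1 ≤ (0.40283 : ℝ) := ub hg h.e1 u2 (by norm_num) (by norm_num)
  have c1 := hg.lo
  have c2 := hg.hi
  obtain ⟨c3, c4⟩ := b2 hg
  obtain ⟨c5, c6⟩ := b3 hg
  obtain ⟨c7, c8⟩ := b4 hg
  norm_num at c1 c2 c3 c4 c5 c6 c7 c8
  rcases dig ε with d0 | d0
  · have hV1 : V β (sh ε) = X 1 + D β 2 (-1) 0 2 (-1) :=
      st hg h.e0 hV0 d0.2 (by norm_num) (by norm_num) (by norm_num) (by norm_num) (by norm_num)
    exfalso
    have hn := V_le hg (sh ε)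
    simp only [D] at hV1
    norm_num at hn l1
    linarith
  · have hV1 : V β (sh ε) = X 1 + D β 1 (-1) 0 2 (-1) :=
      st hg h.e0 hV0 d0.2 (by norm_num) (by norm_num) (by norm_num) (by norm_num) (by norm_num)
    rcases dig (sh ε) with d1 | d1
    · have hV2 : V β (sh (sh ε)) = X 2 + D β (-1) 1 (-2) (-1) 1 :=
        st hg h.e1 hV1 d1.2 (by norm_num) (by norm_num) (by norm_num) (by norm_num) (by norm_num)
      rcases dig (sh (sh ε)) with d2 | d2
      · have hV3 : V β (sh (sh (sh ε))) = X 3 + D β 2 (-1) 2 (-1) 0 :=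
          st hg h.e2 hV2 d2.2 (by norm_num) (by norm_num) (by norm_num) (by norm_num) (by norm_num)
        rcases dig (sh (sh (sh ε))) with d3 | d3
        · have hV4 : V β (sh (sh (sh (sh ε)))) = X 4 + D β 0 2 (-1) 2 (-1) :=
            st hg h.e3 hV3 d3.2 (by norm_num) (by norm_num) (by norm_num) (by norm_num) (by norm_num)
          exfalso
          have hn := V_le hg (sh (sh (sh (sh ε))))
          simp only [D] at hV4
          norm_num at hn l4
          linarith
        · have hV4 : V β (sh (sh (sh (sh ε)))) = X 4 + D β (-1) 2 (-1) 2 (-1) :=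
            st hg h.e3 hV3 d3.2 (by norm_num) (by norm_num) (by norm_num) (by norm_num) (by norm_num)
          rcases dig (sh (sh (sh (sh ε)))) with d4 | d4
          · have hV5 : V β (sh (sh (sh (sh (sh ε))))) = X 5 + D β 0 (-1) 1 (-2) 1 :=
              st hg h.e4 hV4 d4.2 (by norm_num) (by norm_num) (by norm_num) (by norm_num) (by norm_num)
            exfalso
            have hn := V_le hg (sh (sh (sh (sh (sh ε)))))
            simp only [D] at hV5
            norm_num at hn l5
            linarith
          · have hV5 : V β (sh (sh (sh (sh (sh ε))))) = X 5 + D β (-1) (-1) 1 (-2) 1 :=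
              st hg h.e4 hV4 d4.2 (by norm_num) (by norm_num) (by norm_num) (by norm_num) (by norm_num)
            rcases dig (sh (sh (sh (sh (sh ε))))) with d5 | d5
            · have hV6 : V β (sh (sh (sh (sh (sh (sh ε)))))) = X 6 + D β 2 (-1) 0 2 (-1) :=
                st hg h.e5 hV5 d5.2 (by norm_num) (by norm_num) (by norm_num) (by norm_num) (by norm_num)
              rcases dig (sh (sh (sh (sh (sh (sh ε)))))) with d6 | d6
              · have hV7 : V β (sh (sh (sh (sh (sh (sh (sh ε))))))) = X 7 + D β (-1) 2 (-2) (-1) 1 :=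
                  st hg h.e6 hV6 d6.2 (by norm_num) (by norm_num) (by norm_num) (by norm_num) (by norm_num)
                exfalso
                have hn := V_le hg (sh (sh (sh (sh (sh (sh (sh ε)))))))
                simp only [D] at hV7
                norm_num at hn l7
                linarith
              · have hV7 : V β (sh (sh (sh (sh (sh (sh (sh ε))))))) = X 7 + D β (-2) 2 (-2) (-1) 1 :=
                  st hg h.e6 hV6 d6.2 (by norm_num) (by norm_num) (by norm_num) (by norm_num) (by norm_num)
                rcases dig (sh (sh (sh (sh (sh (sh (sh ε))))))) with d7 | d7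
                · have hV8 : V β (sh (sh (sh (sh (sh (sh (sh (sh ε)))))))) = X 8 + D β 1 (-2) 3 (-1) 0 :=
                    st hg h.e7 hV7 d7.2 (by norm_num) (by norm_num) (by norm_num) (by norm_num) (by norm_num)
                  exfalso
                  have hn := V_le hg (sh (sh (sh (sh (sh (sh (sh (sh ε))))))))
                  simp only [D] at hV8
                  norm_num at hn l8
                  linarith
                · have hV8 : V β (sh (sh (sh (sh (sh (sh (sh (sh ε)))))))) = X 8 + D β 0 (-2) 3 (-1) 0 :=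
                    st hg h.e7 hV7 d7.2 (by norm_num) (by norm_num) (by norm_num) (by norm_num) (by norm_num)
                  rcases dig (sh (sh (sh (sh (sh (sh (sh (sh ε)))))))) with d8 | d8
                  · have hV9 : V β (sh (sh (sh (sh (sh (sh (sh (sh (sh ε))))))))) = X 9 + D β 0 0 (-2) 3 (-1) :=
                      st hg h.e8 hV8 d8.2 (by norm_num) (by norm_num) (by norm_num) (by norm_num) (by norm_num)
                    rcases dig (sh (sh (sh (sh (sh (sh (sh (sh (sh ε))))))))) with d9 | d9
                    · have hV10 : V β (sh (sh (sh (sh (sh (sh (sh (sh (sh (sh ε)))))))))) = X 10 + D β (-1) 0 (-1) (-3) 2 :=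
                        st hg h.e9 hV9 d9.2 (by norm_num) (by norm_num) (by norm_num) (by norm_num) (by norm_num)
                      exfalso
                      have hn := V_le hg (sh (sh (sh (sh (sh (sh (sh (sh (sh (sh ε))))))))))
                      simp only [D] at hV10
                      norm_num at hn l10
                      linarith
                    · have hV10 : V β (sh (sh (sh (sh (sh (sh (sh (sh (sh (sh ε)))))))))) = X 10 + D β (-2) 0 (-1) (-3) 2 :=
                        st hg h.e9 hV9 d9.2 (by norm_num) (by norm_num) (by norm_num) (by norm_num) (by norm_num)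
                      rcases dig (sh (sh (sh (sh (sh (sh (sh (sh (sh (sh ε)))))))))) with d10 | d10
                      · have hV11 : V β (sh (sh (sh (sh (sh (sh (sh (sh (sh (sh (sh ε))))))))))) = X 11 + D β 3 (-2) 2 1 (-1) :=
                          st hg h.e10 hV10 d10.2 (by norm_num) (by norm_num) (by norm_num) (by norm_num) (by norm_num)
                        rcases dig (sh (sh (sh (sh (sh (sh (sh (sh (sh (sh (sh ε))))))))))) with d11 | d11
                        · have hV12 : V β (sh (sh (sh (sh (sh (sh (sh (sh (sh (sh (sh (sh ε)))))))))))) = X 12 + D β (-1) 3 (-3) 1 0 :=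
                            st hg h.e11 hV11 d11.2 (by norm_num) (by norm_num) (by norm_num) (by norm_num) (by norm_num)
                          exfalso
                          have hn := V_le hg (sh (sh (sh (sh (sh (sh (sh (sh (sh (sh (sh (sh ε))))))))))))
                          simp only [D] at hV12
                          norm_num at hn l12
                          linarith
                        · have hV12 : V β (sh (sh (sh (sh (sh (sh (sh (sh (sh (sh (sh (sh ε)))))))))))) = X 12 + D β (-2) 3 (-3) 1 0 :=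
                            st hg h.e11 hV11 d11.2 (by norm_num) (by norm_num) (by norm_num) (by norm_num) (by norm_num)
                          rcases dig (sh (sh (sh (sh (sh (sh (sh (sh (sh (sh (sh (sh ε)))))))))))) with d12 | d12
                          · have hV13 : V β (sh (sh (sh (sh (sh (sh (sh (sh (sh (sh (sh (sh (sh ε))))))))))))) = X 13 + D β 0 (-2) 3 (-3) 1 :=
                              st hg h.e12 hV12 d12.2 (by norm_num) (by norm_num) (by norm_num) (by norm_num) (by norm_num)
                            exact hV13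
                          · have hV13 : V β (sh (sh (sh (sh (sh (sh (sh (sh (sh (sh (sh (sh (sh ε))))))))))))) = X 13 + D β (-1) (-2) 3 (-3) 1 :=
                              st hg h.e12 hV12 d12.2 (by norm_num) (by norm_num) (by norm_num) (by norm_num) (by norm_num)
                            exfalso
                            have hn := V_nonneg hg (sh (sh (sh (sh (sh (sh (sh (sh (sh (sh (sh (sh (sh ε)))))))))))))
                            simp only [D] at hV13
                            norm_num at u13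
                            linarith
                      · have hV11 : V β (sh (sh (sh (sh (sh (sh (sh (sh (sh (sh (sh ε))))))))))) = X 11 + D β 2 (-2) 2 1 (-1) :=
                          st hg h.e10 hV10 d10.2 (by norm_num) (by norm_num) (by norm_num) (by norm_num) (by norm_num)
                        exfalso
                        have hn := V_nonneg hg (sh (sh (sh (sh (sh (sh (sh (sh (sh (sh (sh ε)))))))))))
                        simp only [D] at hV11
                        norm_num at u11
                        linarith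
                  · have hV9 : V β (sh (sh (sh (sh (sh (sh (sh (sh (sh ε))))))))) = X 9 + D β (-1) 0 (-2) 3 (-1) :=
                      st hg h.e8 hV8 d8.2 (by norm_num) (by norm_num) (by norm_num) (by norm_num) (by norm_num)
                    exfalso
                    have hn := V_nonneg hg (sh (sh (sh (sh (sh (sh (sh (sh (sh ε)))))))))
                    simp only [D] at hV9
                    norm_num at u9
                    linarith
            · have hV6 : V β (sh (sh (sh (sh (sh (sh ε)))))) = X 6 + D β 1 (-1) 0 2 (-1) :=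
                st hg h.e5 hV5 d5.2 (by norm_num) (by norm_num) (by norm_num) (by norm_num) (by norm_num)
              exfalso
              have hn := V_nonneg hg (sh (sh (sh (sh (sh (sh ε))))))
              simp only [D] at hV6
              norm_num at u6
              linarith
      · have hV3 : V β (sh (sh (sh ε))) = X 3 + D β 1 (-1) 2 (-1) 0 :=
          st hg h.e2 hV2 d2.2 (by norm_num) (by norm_num) (by norm_num) (by norm_num) (by norm_num)
        exfalso
        have hn := V_nonneg hg (sh (sh (sh ε)))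
        simp only [D] at hV3
        norm_num at u3
        linarith
    · have hV2 : V β (sh (sh ε)) = X 2 + D β (-2) 1 (-2) (-1) 1 :=
        st hg h.e1 hV1 d1.2 (by norm_num) (by norm_num) (by norm_num) (by norm_num) (by norm_num)
      exfalso
      have hn := V_nonneg hg (sh (sh ε))
      simp only [D] at hV2
      norm_num at u2
      linarith

lemma V_E (h : VBlock β X) (hl : 0.91055 ≤ X 13) (hh : X 13 ≤ 0.91754) {ε : ℕ → Fin 2}
    (hV0 : V β ε = X 0 + D β 0 (-2) 3 (-3) 1) :
    (ε 0 = 0 ∧ ε 1 = 0 ∧ ε 2 = 1 ∧ ε 3 = 0 ∧ ε 4 = 0 ∧ ε 5 = 1 ∧ ε 6 = 0 ∧ ε 7 = 1 ∧ ε 8 = 0 ∧ ε 9 = 1 ∧ ε 10 = 0 ∧ ε 11 = 1 ∧ ε 12 = 0) ∧ V β (fun n => ε (n + 13)) = X 13 + D β 0 (-2) 3 (-3) 1 := by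
  have l13 : (0.91055 : ℝ) ≤ X 13 := by norm_num at hl ⊢; linarith
  have u13 : X 13 ≤ (0.91754 : ℝ) := by norm_num at hh ⊢; linarith
  have l12 : (0.48215 : ℝ) ≤ X 12 := lb hg h.e12 l13 (by norm_num) (by norm_num)
  have u12 : X 12 ≤ (0.48586 : ℝ) := ub hg h.e12 u13 (by norm_num) (by norm_num)
  have l11 : (0.25530 : ℝ) ≤ X 11 := lb hg h.e11 l12 (by norm_num) (by norm_num)
  have u11 : X 11 ≤ (0.25728 : ℝ) := ub hg h.e11 u12 (by norm_num) (by norm_num)
  have l10 : (0.66470 : ℝ) ≤ X 10 := lb hg h.e10 l11 (by norm_num) (by norm_num)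
  have u10 : X 10 ≤ (0.66576 : ℝ) := ub hg h.e10 u11 (by norm_num) (by norm_num)
  have l9 : (0.35196 : ℝ) ≤ X 9 := lb hg h.e9 l10 (by norm_num) (by norm_num)
  have u9 : X 9 ≤ (0.35254 : ℝ) := ub hg h.e9 u10 (by norm_num) (by norm_num)
  have l8 : (0.18636 : ℝ) ≤ X 8 := lb hg h.e8 l9 (by norm_num) (by norm_num)
  have u8 : X 8 ≤ (0.18668 : ℝ) := ub hg h.e8 u9 (by norm_num) (by norm_num)
  have l7 : (0.09868 : ℝ) ≤ X 7 := lb hg h.e7 l8 (by norm_num) (by norm_num)
  have u7 : X 7 ≤ (0.09886 : ℝ) := ub hg h.e7 u8 (by norm_num) (by norm_num)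
  have l6 : (0.05225 : ℝ) ≤ X 6 := lb hg h.e6 l7 (by norm_num) (by norm_num)
  have u6 : X 6 ≤ (0.05235 : ℝ) := ub hg h.e6 u7 (by norm_num) (by norm_num)
  have l5 : (0.55718 : ℝ) ≤ X 5 := lb hg h.e5 l6 (by norm_num) (by norm_num)
  have u5 : X 5 ≤ (0.55724 : ℝ) := ub hg h.e5 u6 (by norm_num) (by norm_num)
  have l4 : (0.82455 : ℝ) ≤ X 4 := lb hg h.e4 l5 (by norm_num) (by norm_num)
  have u4 : X 4 ≤ (0.82459 : ℝ) := ub hg h.e4 u5 (by norm_num) (by norm_num)
  have l3 : (0.43661 : ℝ) ≤ X 3 := lb hg h.e3 l4 (by norm_num) (by norm_num)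
  have u3 : X 3 ≤ (0.43664 : ℝ) := ub hg h.e3 u4 (by norm_num) (by norm_num)
  have l2 : (0.76070 : ℝ) ≤ X 2 := lb hg h.e2 l3 (by norm_num) (by norm_num)
  have u2 : X 2 ≤ (0.76073 : ℝ) := ub hg h.e2 u3 (by norm_num) (by norm_num)
  have l1 : (0.40280 : ℝ) ≤ X 1 := lb hg h.e1 l2 (by norm_num) (by norm_num)
  have u1 : X 1 ≤ (0.40283 : ℝ) := ub hg h.e1 u2 (by norm_num) (by norm_num)
  have c1 := hg.lo
  have c2 := hg.hi
  obtain ⟨c3, c4⟩ := b2 hg
  obtain ⟨c5, c6⟩ := b3 hg
  obtain ⟨c7, c8⟩ := b4 hg
  norm_num at c1 c2 c3 c4 c5 c6 c7 c8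
  rcases dig ε with d0 | d0
  · have hV1 : V β (sh ε) = X 1 + D β 2 0 (-1) 4 (-2) :=
      st hg h.e0 hV0 d0.2 (by norm_num) (by norm_num) (by norm_num) (by norm_num) (by norm_num)
    rcases dig (sh ε) with d1 | d1
    · have hV2 : V β (sh (sh ε)) = X 2 + D β (-2) 2 (-2) (-3) 2 :=
        st hg h.e1 hV1 d1.2 (by norm_num) (by norm_num) (by norm_num) (by norm_num) (by norm_num)
      rcases dig (sh (sh ε)) with d2 | d2
      · have hV3 : V β (sh (sh (sh ε))) = X 3 + D β 3 (-2) 4 0 (-1) :=
          st hg h.e2 hV2 d2.2 (by norm_num) (by norm_num) (by norm_num) (by norm_num) (by norm_num)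
        exfalso
        have hn := V_le hg (sh (sh (sh ε)))
        simp only [D] at hV3
        norm_num at hn l3
        linarith
      · have hV3 : V β (sh (sh (sh ε))) = X 3 + D β 2 (-2) 4 0 (-1) :=
          st hg h.e2 hV2 d2.2 (by norm_num) (by norm_num) (by norm_num) (by norm_num) (by norm_num)
        rcases dig (sh (sh (sh ε))) with d3 | d3
        · have hV4 : V β (sh (sh (sh (sh ε)))) = X 4 + D β (-1) 2 (-3) 3 (-1) :=
            st hg h.e3 hV3 d3.2 (by norm_num) (by norm_num) (by norm_num) (by norm_num) (by norm_num)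
          rcases dig (sh (sh (sh (sh ε)))) with d4 | d4
          · have hV5 : V β (sh (sh (sh (sh (sh ε))))) = X 5 + D β 0 (-1) 1 (-4) 2 :=
              st hg h.e4 hV4 d4.2 (by norm_num) (by norm_num) (by norm_num) (by norm_num) (by norm_num)
            rcases dig (sh (sh (sh (sh (sh ε))))) with d5 | d5
            · have hV6 : V β (sh (sh (sh (sh (sh (sh ε)))))) = X 6 + D β 3 0 1 3 (-2) :=
                st hg h.e5 hV5 d5.2 (by norm_num) (by norm_num) (by norm_num) (by norm_num) (by norm_num)
              exfalso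
              have hn := V_le hg (sh (sh (sh (sh (sh (sh ε))))))
              simp only [D] at hV6
              norm_num at hn l6
              linarith
            · have hV6 : V β (sh (sh (sh (sh (sh (sh ε)))))) = X 6 + D β 2 0 1 3 (-2) :=
                st hg h.e5 hV5 d5.2 (by norm_num) (by norm_num) (by norm_num) (by norm_num) (by norm_num)
              rcases dig (sh (sh (sh (sh (sh (sh ε)))))) with d6 | d6
              · have hV7 : V β (sh (sh (sh (sh (sh (sh (sh ε))))))) = X 7 + D β (-2) 2 (-2) (-1) 1 :=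
                  st hg h.e6 hV6 d6.2 (by norm_num) (by norm_num) (by norm_num) (by norm_num) (by norm_num)
                rcases dig (sh (sh (sh (sh (sh (sh (sh ε))))))) with d7 | d7
                · have hV8 : V β (sh (sh (sh (sh (sh (sh (sh (sh ε)))))))) = X 8 + D β 1 (-2) 3 (-1) 0 :=
                    st hg h.e7 hV7 d7.2 (by norm_num) (by norm_num) (by norm_num) (by norm_num) (by norm_num)
                  exfalso
                  have hn := V_le hg (sh (sh (sh (sh (sh (sh (sh (sh ε))))))))
                  simp only [D] at hV8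
                  norm_num at hn l8
                  linarith
                · have hV8 : V β (sh (sh (sh (sh (sh (sh (sh (sh ε)))))))) = X 8 + D β 0 (-2) 3 (-1) 0 :=
                    st hg h.e7 hV7 d7.2 (by norm_num) (by norm_num) (by norm_num) (by norm_num) (by norm_num)
                  rcases dig (sh (sh (sh (sh (sh (sh (sh (sh ε)))))))) with d8 | d8
                  · have hV9 : V β (sh (sh (sh (sh (sh (sh (sh (sh (sh ε))))))))) = X 9 + D β 0 0 (-2) 3 (-1) :=
                      st hg h.e8 hV8 d8.2 (by norm_num) (by norm_num) (by norm_num) (by norm_num) (by norm_num)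
                    rcases dig (sh (sh (sh (sh (sh (sh (sh (sh (sh ε))))))))) with d9 | d9
                    · have hV10 : V β (sh (sh (sh (sh (sh (sh (sh (sh (sh (sh ε)))))))))) = X 10 + D β (-1) 0 (-1) (-3) 2 :=
                        st hg h.e9 hV9 d9.2 (by norm_num) (by norm_num) (by norm_num) (by norm_num) (by norm_num)
                      exfalso
                      have hn := V_le hg (sh (sh (sh (sh (sh (sh (sh (sh (sh (sh ε))))))))))
                      simp only [D] at hV10
                      norm_num at hn l10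
                      linarith
                    · have hV10 : V β (sh (sh (sh (sh (sh (sh (sh (sh (sh (sh ε)))))))))) = X 10 + D β (-2) 0 (-1) (-3) 2 :=
                        st hg h.e9 hV9 d9.2 (by norm_num) (by norm_num) (by norm_num) (by norm_num) (by norm_num)
                      rcases dig (sh (sh (sh (sh (sh (sh (sh (sh (sh (sh ε)))))))))) with d10 | d10
                      · have hV11 : V β (sh (sh (sh (sh (sh (sh (sh (sh (sh (sh (sh ε))))))))))) = X 11 + D β 3 (-2) 2 1 (-1) :=
                          st hg h.e10 hV10 d10.2 (by norm_num) (by norm_num) (by norm_num) (by norm_num) (by norm_num)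
                        rcases dig (sh (sh (sh (sh (sh (sh (sh (sh (sh (sh (sh ε))))))))))) with d11 | d11
                        · have hV12 : V β (sh (sh (sh (sh (sh (sh (sh (sh (sh (sh (sh (sh ε)))))))))))) = X 12 + D β (-1) 3 (-3) 1 0 :=
                            st hg h.e11 hV11 d11.2 (by norm_num) (by norm_num) (by norm_num) (by norm_num) (by norm_num)
                          exfalso
                          have hn := V_le hg (sh (sh (sh (sh (sh (sh (sh (sh (sh (sh (sh (sh ε))))))))))))
                          simp only [D] at hV12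
                          norm_num at hn l12
                          linarith
                        · have hV12 : V β (sh (sh (sh (sh (sh (sh (sh (sh (sh (sh (sh (sh ε)))))))))))) = X 12 + D β (-2) 3 (-3) 1 0 :=
                            st hg h.e11 hV11 d11.2 (by norm_num) (by norm_num) (by norm_num) (by norm_num) (by norm_num)
                          rcases dig (sh (sh (sh (sh (sh (sh (sh (sh (sh (sh (sh (sh ε)))))))))))) with d12 | d12
                          · have hV13 : V β (sh (sh (sh (sh (sh (sh (sh (sh (sh (sh (sh (sh (sh ε))))))))))))) = X 13 + D β 0 (-2) 3 (-3) 1 :=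
                              st hg h.e12 hV12 d12.2 (by norm_num) (by norm_num) (by norm_num) (by norm_num) (by norm_num)
                            exact ⟨⟨d0.1, d1.1, d2.1, d3.1, d4.1, d5.1, d6.1, d7.1, d8.1, d9.1, d10.1, d11.1, d12.1⟩, hV13⟩
                          · have hV13 : V β (sh (sh (sh (sh (sh (sh (sh (sh (sh (sh (sh (sh (sh ε))))))))))))) = X 13 + D β (-1) (-2) 3 (-3) 1 :=
                              st hg h.e12 hV12 d12.2 (by norm_num) (by norm_num) (by norm_num) (by norm_num) (by norm_num)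
                            exfalso
                            have hn := V_nonneg hg (sh (sh (sh (sh (sh (sh (sh (sh (sh (sh (sh (sh (sh ε)))))))))))))
                            simp only [D] at hV13
                            norm_num at u13
                            linarith
                      · have hV11 : V β (sh (sh (sh (sh (sh (sh (sh (sh (sh (sh (sh ε))))))))))) = X 11 + D β 2 (-2) 2 1 (-1) :=
                          st hg h.e10 hV10 d10.2 (by norm_num) (by norm_num) (by norm_num) (by norm_num) (by norm_num)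
                        exfalso
                        have hn := V_nonneg hg (sh (sh (sh (sh (sh (sh (sh (sh (sh (sh (sh ε)))))))))))
                        simp only [D] at hV11
                        norm_num at u11
                        linarith
                  · have hV9 : V β (sh (sh (sh (sh (sh (sh (sh (sh (sh ε))))))))) = X 9 + D β (-1) 0 (-2) 3 (-1) :=
                      st hg h.e8 hV8 d8.2 (by norm_num) (by norm_num) (by norm_num) (by norm_num) (by norm_num)
                    exfalso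
                    have hn := V_nonneg hg (sh (sh (sh (sh (sh (sh (sh (sh (sh ε)))))))))
                    simp only [D] at hV9
                    norm_num at u9
                    linarith
              · have hV7 : V β (sh (sh (sh (sh (sh (sh (sh ε))))))) = X 7 + D β (-3) 2 (-2) (-1) 1 :=
                  st hg h.e6 hV6 d6.2 (by norm_num) (by norm_num) (by norm_num) (by norm_num) (by norm_num)
                exfalso
                have hn := V_nonneg hg (sh (sh (sh (sh (sh (sh (sh ε)))))))
                simp only [D] at hV7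
                norm_num at u7
                linarith
          · have hV5 : V β (sh (sh (sh (sh (sh ε))))) = X 5 + D β (-1) (-1) 1 (-4) 2 :=
              st hg h.e4 hV4 d4.2 (by norm_num) (by norm_num) (by norm_num) (by norm_num) (by norm_num)
            exfalso
            have hn := V_nonneg hg (sh (sh (sh (sh (sh ε)))))
            simp only [D] at hV5
            norm_num at u5
            linarith
        · have hV4 : V β (sh (sh (sh (sh ε)))) = X 4 + D β (-2) 2 (-3) 3 (-1) :=
            st hg h.e3 hV3 d3.2 (by norm_num) (by norm_num) (by norm_num) (by norm_num) (by norm_num)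
          exfalso
          have hn := V_nonneg hg (sh (sh (sh (sh ε))))
          simp only [D] at hV4
          norm_num at u4
          linarith
    · have hV2 : V β (sh (sh ε)) = X 2 + D β (-3) 2 (-2) (-3) 2 :=
        st hg h.e1 hV1 d1.2 (by norm_num) (by norm_num) (by norm_num) (by norm_num) (by norm_num)
      exfalso
      have hn := V_nonneg hg (sh (sh ε))
      simp only [D] at hV2
      norm_num at u2
      linarith
  · have hV1 : V β (sh ε) = X 1 + D β 1 0 (-1) 4 (-2) :=
      st hg h.e0 hV0 d0.2 (by norm_num) (by norm_num) (by norm_num) (by norm_num) (by norm_num)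
    exfalso
    have hn := V_nonneg hg (sh ε)
    simp only [D] at hV1
    norm_num at u1
    linarith

lemma bU_C0 (h : UBlock β X) {η : ℕ → Fin 2} (hη : V β η = X 8 + D β (-1) (-1) 1 (-2) 1) :
    V β (cons 1 (cons 0 (cons 1 (cons 1 (cons 1 (cons 1 (cons 1 (cons 1 η)))))))) = X 0 + D β (-1) (-1) 1 (-2) 1 := by
  have g7 : V β (cons 1 η) = X 7 + D β (-1) 1 (-2) 1 0 :=
    bst hg h.e7 hη (by norm_num) (by norm_num) (by norm_num) (by norm_num) (by norm_num)
  have g6 : V β (cons 1 (cons 1 η)) = X 6 + D β 1 (-2) 1 0 0 :=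
    bst hg h.e6 g7 (by norm_num) (by norm_num) (by norm_num) (by norm_num) (by norm_num)
  have g5 : V β (cons 1 (cons 1 (cons 1 η))) = X 5 + D β (-2) 0 (-1) (-1) 1 :=
    bst hg h.e5 g6 (by norm_num) (by norm_num) (by norm_num) (by norm_num) (by norm_num)
  have g4 : V β (cons 1 (cons 1 (cons 1 (cons 1 η)))) = X 4 + D β 0 0 0 2 (-1) :=
    bst hg h.e4 g5 (by norm_num) (by norm_num) (by norm_num) (by norm_num) (by norm_num)
  have g3 : V β (cons 1 (cons 1 (cons 1 (cons 1 (cons 1 η))))) = X 3 + D β 0 0 2 (-1) 0 :=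
    bst hg h.e3 g4 (by norm_num) (by norm_num) (by norm_num) (by norm_num) (by norm_num)
  have g2 : V β (cons 1 (cons 1 (cons 1 (cons 1 (cons 1 (cons 1 η)))))) = X 2 + D β 0 1 (-2) (-1) 1 :=
    bst hg h.e2 g3 (by norm_num) (by norm_num) (by norm_num) (by norm_num) (by norm_num)
  have g1 : V β (cons 0 (cons 1 (cons 1 (cons 1 (cons 1 (cons 1 (cons 1 η))))))) = X 1 + D β 1 (-1) 0 2 (-1) :=
    bst hg h.e1 g2 (by norm_num) (by norm_num) (by norm_num) (by norm_num) (by norm_num)
  have g0 : V β (cons 1 (cons 0 (cons 1 (cons 1 (cons 1 (cons 1 (cons 1 (cons 1 η)))))))) = X 0 + D β (-1) (-1) 1 (-2) 1 :=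
    bst hg h.e0 g1 (by norm_num) (by norm_num) (by norm_num) (by norm_num) (by norm_num)
  exact g0

lemma bU_C1 (h : UBlock β X) {η : ℕ → Fin 2} (hη : V β η = X 8 + D β (-1) (-1) 1 (-2) 1) :
    V β (cons 1 (cons 1 (cons 0 (cons 0 (cons 0 (cons 1 (cons 0 (cons 1 η)))))))) = X 0 + D β (-1) (-1) 1 (-2) 1 := by
  have g7 : V β (cons 1 η) = X 7 + D β (-1) 1 (-2) 1 0 :=
    bst hg h.e7 hη (by norm_num) (by norm_num) (by norm_num) (by norm_num) (by norm_num)
  have g6 : V β (cons 0 (cons 1 η)) = X 6 + D β 1 (-1) 2 1 (-1) :=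
    bst hg h.e6 g7 (by norm_num) (by norm_num) (by norm_num) (by norm_num) (by norm_num)
  have g5 : V β (cons 1 (cons 0 (cons 1 η))) = X 5 + D β (-1) 1 0 (-2) 1 :=
    bst hg h.e5 g6 (by norm_num) (by norm_num) (by norm_num) (by norm_num) (by norm_num)
  have g4 : V β (cons 0 (cons 1 (cons 0 (cons 1 η)))) = X 4 + D β 1 1 (-1) 2 (-1) :=
    bst hg h.e4 g5 (by norm_num) (by norm_num) (by norm_num) (by norm_num) (by norm_num)
  have g3 : V β (cons 0 (cons 0 (cons 1 (cons 0 (cons 1 η))))) = X 3 + D β 1 (-1) 2 (-1) 0 :=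
    bst hg h.e3 g4 (by norm_num) (by norm_num) (by norm_num) (by norm_num) (by norm_num)
  have g2 : V β (cons 0 (cons 0 (cons 0 (cons 1 (cons 0 (cons 1 η)))))) = X 2 + D β (-1) 1 (-2) (-1) 1 :=
    bst hg h.e2 g3 (by norm_num) (by norm_num) (by norm_num) (by norm_num) (by norm_num)
  have g1 : V β (cons 1 (cons 0 (cons 0 (cons 0 (cons 1 (cons 0 (cons 1 η))))))) = X 1 + D β 1 (-1) 0 2 (-1) :=
    bst hg h.e1 g2 (by norm_num) (by norm_num) (by norm_num) (by norm_num) (by norm_num)
  have g0 : V β (cons 1 (cons 1 (cons 0 (cons 0 (cons 0 (cons 1 (cons 0 (cons 1 η)))))))) = X 0 + D β (-1) (-1) 1 (-2) 1 :=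
    bst hg h.e0 g1 (by norm_num) (by norm_num) (by norm_num) (by norm_num) (by norm_num)
  exact g0

lemma bU_A0 (h : UBlock β X) {η : ℕ → Fin 2} (hη : V β η = X 8 + D β (-1) (-1) 1 (-2) 1) :
    V β (cons 0 (cons 0 (cons 1 (cons 1 (cons 1 (cons 1 (cons 1 (cons 1 η)))))))) = X 0 + D β (-1) 0 2 (-1) 0 := by
  have g7 : V β (cons 1 η) = X 7 + D β (-1) 1 (-2) 1 0 :=
    bst hg h.e7 hη (by norm_num) (by norm_num) (by norm_num) (by norm_num) (by norm_num)
  have g6 : V β (cons 1 (cons 1 η)) = X 6 + D β 1 (-2) 1 0 0 :=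
    bst hg h.e6 g7 (by norm_num) (by norm_num) (by norm_num) (by norm_num) (by norm_num)
  have g5 : V β (cons 1 (cons 1 (cons 1 η))) = X 5 + D β (-2) 0 (-1) (-1) 1 :=
    bst hg h.e5 g6 (by norm_num) (by norm_num) (by norm_num) (by norm_num) (by norm_num)
  have g4 : V β (cons 1 (cons 1 (cons 1 (cons 1 η)))) = X 4 + D β 0 0 0 2 (-1) :=
    bst hg h.e4 g5 (by norm_num) (by norm_num) (by norm_num) (by norm_num) (by norm_num)
  have g3 : V β (cons 1 (cons 1 (cons 1 (cons 1 (cons 1 η))))) = X 3 + D β 0 0 2 (-1) 0 :=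
    bst hg h.e3 g4 (by norm_num) (by norm_num) (by norm_num) (by norm_num) (by norm_num)
  have g2 : V β (cons 1 (cons 1 (cons 1 (cons 1 (cons 1 (cons 1 η)))))) = X 2 + D β 0 1 (-2) (-1) 1 :=
    bst hg h.e2 g3 (by norm_num) (by norm_num) (by norm_num) (by norm_num) (by norm_num)
  have g1 : V β (cons 0 (cons 1 (cons 1 (cons 1 (cons 1 (cons 1 (cons 1 η))))))) = X 1 + D β 1 (-1) 0 2 (-1) :=
    bst hg h.e1 g2 (by norm_num) (by norm_num) (by norm_num) (by norm_num) (by norm_num)
  have g0 : V β (cons 0 (cons 0 (cons 1 (cons 1 (cons 1 (cons 1 (cons 1 (cons 1 η)))))))) = X 0 + D β (-1) 0 2 (-1) 0 :=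
    bst hg h.e0 g1 (by norm_num) (by norm_num) (by norm_num) (by norm_num) (by norm_num)
  exact g0

lemma bU_A1 (h : UBlock β X) {η : ℕ → Fin 2} (hη : V β η = X 8 + D β (-1) (-1) 1 (-2) 1) :
    V β (cons 0 (cons 1 (cons 0 (cons 0 (cons 0 (cons 1 (cons 0 (cons 1 η)))))))) = X 0 + D β (-1) 0 2 (-1) 0 := by
  have g7 : V β (cons 1 η) = X 7 + D β (-1) 1 (-2) 1 0 :=
    bst hg h.e7 hη (by norm_num) (by norm_num) (by norm_num) (by norm_num) (by norm_num)
  have g6 : V β (cons 0 (cons 1 η)) = X 6 + D β 1 (-1) 2 1 (-1) :=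
    bst hg h.e6 g7 (by norm_num) (by norm_num) (by norm_num) (by norm_num) (by norm_num)
  have g5 : V β (cons 1 (cons 0 (cons 1 η))) = X 5 + D β (-1) 1 0 (-2) 1 :=
    bst hg h.e5 g6 (by norm_num) (by norm_num) (by norm_num) (by norm_num) (by norm_num)
  have g4 : V β (cons 0 (cons 1 (cons 0 (cons 1 η)))) = X 4 + D β 1 1 (-1) 2 (-1) :=
    bst hg h.e4 g5 (by norm_num) (by norm_num) (by norm_num) (by norm_num) (by norm_num)
  have g3 : V β (cons 0 (cons 0 (cons 1 (cons 0 (cons 1 η))))) = X 3 + D β 1 (-1) 2 (-1) 0 :=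
    bst hg h.e3 g4 (by norm_num) (by norm_num) (by norm_num) (by norm_num) (by norm_num)
  have g2 : V β (cons 0 (cons 0 (cons 0 (cons 1 (cons 0 (cons 1 η)))))) = X 2 + D β (-1) 1 (-2) (-1) 1 :=
    bst hg h.e2 g3 (by norm_num) (by norm_num) (by norm_num) (by norm_num) (by norm_num)
  have g1 : V β (cons 1 (cons 0 (cons 0 (cons 0 (cons 1 (cons 0 (cons 1 η))))))) = X 1 + D β 1 (-1) 0 2 (-1) :=
    bst hg h.e1 g2 (by norm_num) (by norm_num) (by norm_num) (by norm_num) (by norm_num)
  have g0 : V β (cons 0 (cons 1 (cons 0 (cons 0 (cons 0 (cons 1 (cons 0 (cons 1 η)))))))) = X 0 + D β (-1) 0 2 (-1) 0 :=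
    bst hg h.e0 g1 (by norm_num) (by norm_num) (by norm_num) (by norm_num) (by norm_num)
  exact g0

lemma bV_S (h : VBlock β X) {η : ℕ → Fin 2} (hη : V β η = X 13 + D β (-1) 0 2 (-1) 0) :
    V β (cons 1 (cons 0 (cons 1 (cons 0 (cons 1 (cons 0 (cons 1 (cons 1 (cons 1 (cons 1 (cons 0 (cons 0 (cons 1 η))))))))))))) = X 0 + D β 0 0 0 0 0 := by
  have g12 : V β (cons 1 η) = X 12 + D β 0 2 (-1) 0 0 :=
    bst hg h.e12 hη (by norm_num) (by norm_num) (by norm_num) (by norm_num) (by norm_num)
  have g11 : V β (cons 0 (cons 1 η)) = X 11 + D β 2 (-1) 0 0 0 :=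
    bst hg h.e11 g12 (by norm_num) (by norm_num) (by norm_num) (by norm_num) (by norm_num)
  have g10 : V β (cons 0 (cons 0 (cons 1 η))) = X 10 + D β (-1) (-1) (-1) (-1) 1 :=
    bst hg h.e10 g11 (by norm_num) (by norm_num) (by norm_num) (by norm_num) (by norm_num)
  have g9 : V β (cons 1 (cons 0 (cons 0 (cons 1 η)))) = X 9 + D β (-1) (-1) (-1) 1 0 :=
    bst hg h.e9 g10 (by norm_num) (by norm_num) (by norm_num) (by norm_num) (by norm_num)
  have g8 : V β (cons 1 (cons 1 (cons 0 (cons 0 (cons 1 η))))) = X 8 + D β (-1) (-1) 1 0 0 :=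
    bst hg h.e8 g9 (by norm_num) (by norm_num) (by norm_num) (by norm_num) (by norm_num)
  have g7 : V β (cons 1 (cons 1 (cons 1 (cons 0 (cons 0 (cons 1 η)))))) = X 7 + D β (-1) 1 0 0 0 :=
    bst hg h.e7 g8 (by norm_num) (by norm_num) (by norm_num) (by norm_num) (by norm_num)
  have g6 : V β (cons 1 (cons 1 (cons 1 (cons 1 (cons 0 (cons 0 (cons 1 η))))))) = X 6 + D β 1 0 0 0 0 :=
    bst hg h.e6 g7 (by norm_num) (by norm_num) (by norm_num) (by norm_num) (by norm_num)
  have g5 : V β (cons 0 (cons 1 (cons 1 (cons 1 (cons 1 (cons 0 (cons 0 (cons 1 η)))))))) = X 5 + D β 0 0 0 0 0 :=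
    bst hg h.e5 g6 (by norm_num) (by norm_num) (by norm_num) (by norm_num) (by norm_num)
  have g4 : V β (cons 1 (cons 0 (cons 1 (cons 1 (cons 1 (cons 1 (cons 0 (cons 0 (cons 1 η))))))))) = X 4 + D β 0 0 0 0 0 :=
    bst hg h.e4 g5 (by norm_num) (by norm_num) (by norm_num) (by norm_num) (by norm_num)
  have g3 : V β (cons 0 (cons 1 (cons 0 (cons 1 (cons 1 (cons 1 (cons 1 (cons 0 (cons 0 (cons 1 η)))))))))) = X 3 + D β 0 0 0 0 0 :=
    bst hg h.e3 g4 (by norm_num) (by norm_num) (by norm_num) (by norm_num) (by norm_num)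
  have g2 : V β (cons 1 (cons 0 (cons 1 (cons 0 (cons 1 (cons 1 (cons 1 (cons 1 (cons 0 (cons 0 (cons 1 η))))))))))) = X 2 + D β 0 0 0 0 0 :=
    bst hg h.e2 g3 (by norm_num) (by norm_num) (by norm_num) (by norm_num) (by norm_num)
  have g1 : V β (cons 0 (cons 1 (cons 0 (cons 1 (cons 0 (cons 1 (cons 1 (cons 1 (cons 1 (cons 0 (cons 0 (cons 1 η)))))))))))) = X 1 + D β 0 0 0 0 0 :=
    bst hg h.e1 g2 (by norm_num) (by norm_num) (by norm_num) (by norm_num) (by norm_num)
  have g0 : V β (cons 1 (cons 0 (cons 1 (cons 0 (cons 1 (cons 0 (cons 1 (cons 1 (cons 1 (cons 1 (cons 0 (cons 0 (cons 1 η))))))))))))) = X 0 + D β 0 0 0 0 0 :=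
    bst hg h.e0 g1 (by norm_num) (by norm_num) (by norm_num) (by norm_num) (by norm_num)
  exact g0

end

/-! ### The spine -/

/-- The `b`-th block is of the second kind exactly if `b ≥ 2` is a power of two. -/
def isV (b : ℕ) : Prop := ∃ j : ℕ, b = 2 ^ (j + 1)

noncomputable instance : DecidablePred isV := fun _ => Classical.propDecidable _

noncomputable def len (b : ℕ) : ℕ := if isV b then 13 else 8

def udig (i : ℕ) : Fin 2 := if i = 0 ∨ i = 1 ∨ i = 3 ∨ i = 5 then 1 else 0

def vdig (i : ℕ) : Fin 2 := if i = 0 ∨ i = 2 ∨ i = 4 ∨ i = 5 ∨ i = 10 then 1 else 0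

noncomputable def gd (b i : ℕ) : Fin 2 := if isV b then vdig i else udig i

noncomputable def stt : ℕ → ℕ × ℕ
  | 0 => (0, 0)
  | n + 1 => if (stt n).2 + 1 < len (stt n).1 then ((stt n).1, (stt n).2 + 1)
      else ((stt n).1 + 1, 0)

/-- The spine. -/
noncomputable def spine (n : ℕ) : Fin 2 := gd (stt n).1 (stt n).2

noncomputable def tau : ℕ → ℕ
  | 0 => 0
  | b + 1 => tau b + len b

lemma len_pos (b : ℕ) : 1 ≤ len b := by
  unfold len; split_ifs <;> norm_num

lemma stt_inner (b : ℕ) (h : stt (tau b) = (b, 0)) : ∀ i, i < len b → stt (tau b + i) = (b, i) := by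
  intro i
  induction i with
  | zero => intro _; simpa using h
  | succ i ih =>
    intro hi
    have h1 := ih (by omega)
    have h2 : tau b + (i + 1) = (tau b + i) + 1 := by ring
    rw [h2, stt, h1]
    simp [hi]

lemma stt_tau (b : ℕ) : stt (tau b) = (b, 0) := by
  induction b with
  | zero => rfl
  | succ b ih =>
    obtain ⟨k, hk⟩ : ∃ k, len b = k + 1 := ⟨len b - 1, by have := len_pos b; omega⟩
    have h1 := stt_inner b ih k (by omega)
    have h2 : tau (b + 1) = (tau b + k) + 1 := by rw [tau, hk]; ring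
    rw [h2, stt, h1]
    simp [hk]

lemma spine_eq (b i : ℕ) (hi : i < len b) : spine (tau b + i) = gd b i := by
  rw [spine, stt_inner b (stt_tau b) i hi]

/-- The values of the tails of the spine. -/
noncomputable def Xs (β : ℝ) (b i : ℕ) : ℝ := V β (fun n => spine (tau b + i + n))

lemma Xs_len (β : ℝ) (b : ℕ) : Xs β b (len b) = Xs β (b + 1) 0 := by
  simp only [Xs, tau, add_zero]

lemma not_isV_succ {b : ℕ} (h : isV b) : ¬ isV (b + 1) := by
  obtain ⟨j, rfl⟩ := h
  rintro ⟨i, hi⟩
  rw [pow_succ, pow_succ] at hi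
  omega

lemma tau_le (b : ℕ) : tau b ≤ 13 * b := by
  induction b with
  | zero => simp [tau]
  | succ b ih =>
    have : len b ≤ 13 := by unfold len; split_ifs <;> norm_num
    rw [tau]; omega

lemma le_tau (b : ℕ) : b ≤ tau b := by
  induction b with
  | zero => simp
  | succ b ih =>
    have := len_pos b
    rw [tau]; omega

section

variable {β : ℝ} (hg : Good β)
include hg

lemma Xs_step (b i : ℕ) (hi : i < len b) :
    β * Xs β b i = ((gd b i : ℕ) : ℝ) + Xs β b (i + 1) := by
  unfold Xs
  rw [V_step hg]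
  congr 1
  · rw [add_zero, spine_eq b i hi]
  · congr 1
    ext n
    simp only [sh]
    congr 2
    ring

lemma ublock {b : ℕ} (hb : ¬ isV b) : UBlock β (Xs β b) := by
  have hl : len b = 8 := by simp [len, hb]
  have key : ∀ i, i < 8 → β * Xs β b i = ((udig i : ℕ) : ℝ) + Xs β b (i + 1) := by
    intro i hi
    have := Xs_step hg b i (by omega)
    rwa [gd, if_neg hb] at this
  constructor
  · simpa [udig] using key 0 (by norm_num)
  · simpa [udig] using key 1 (by norm_num)
  · simpa [udig] using key 2 (by norm_num)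
  · simpa [udig] using key 3 (by norm_num)
  · simpa [udig] using key 4 (by norm_num)
  · simpa [udig] using key 5 (by norm_num)
  · simpa [udig] using key 6 (by norm_num)
  · simpa [udig] using key 7 (by norm_num)

lemma vblock {b : ℕ} (hb : isV b) : VBlock β (Xs β b) := by
  have hl : len b = 13 := by simp [len, hb]
  have key : ∀ i, i < 13 → β * Xs β b i = ((vdig i : ℕ) : ℝ) + Xs β b (i + 1) := by
    intro i hi
    have := Xs_step hg b i (by omega)
    rwa [gd, if_pos hb] at this
  constructor
  · simpa [vdig] using key 0 (by norm_num)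
  · simpa [vdig] using key 1 (by norm_num)
  · simpa [vdig] using key 2 (by norm_num)
  · simpa [vdig] using key 3 (by norm_num)
  · simpa [vdig] using key 4 (by norm_num)
  · simpa [vdig] using key 5 (by norm_num)
  · simpa [vdig] using key 6 (by norm_num)
  · simpa [vdig] using key 7 (by norm_num)
  · simpa [vdig] using key 8 (by norm_num)
  · simpa [vdig] using key 9 (by norm_num)
  · simpa [vdig] using key 10 (by norm_num)
  · simpa [vdig] using key 11 (by norm_num)
  · simpa [vdig] using key 12 (by norm_num)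

lemma range_U {b : ℕ} (hb : ¬ isV b) : 0.91055 ≤ Xs β b 0 ∧ Xs β b 0 ≤ 0.91754 :=
  (ublock hg hb).range hg (V_nonneg hg _) (V_le hg _)

lemma range_V {b : ℕ} (hb : isV b) : 0.74256 ≤ Xs β b 0 ∧ Xs β b 0 ≤ 0.74288 :=
  (vblock hg hb).range hg (V_nonneg hg _) (V_le hg _)

lemma range_all (b : ℕ) : 0.74256 ≤ Xs β b 0 ∧ Xs β b 0 ≤ 0.91754 := by
  by_cases hb : isV b
  · obtain ⟨h1, h2⟩ := range_V hg hb
    norm_num at h1 h2 ⊢
    constructor <;> linarith
  · obtain ⟨h1, h2⟩ := range_U hg hb
    norm_num at h1 h2 ⊢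
    constructor <;> linarith

omit hg in
lemma X8 {b : ℕ} (hb : ¬ isV b) : Xs β b 8 = Xs β (b + 1) 0 := by
  have := Xs_len β b
  rwa [show len b = 8 by simp [len, hb]] at this

omit hg in
lemma X13 {b : ℕ} (hb : isV b) : Xs β b 13 = Xs β (b + 1) 0 := by
  have := Xs_len β b
  rwa [show len b = 13 by simp [len, hb]] at this

/-! ### Countability -/

omit hg in
lemma countable_drop (k : ℕ) {A : Set (ℕ → Fin 2)} (hA : A.Countable) :
    {ε : ℕ → Fin 2 | (fun n => ε (n + k)) ∈ A}.Countable := by
  have hmaps : Set.MapsTo (fun ε : ℕ → Fin 2 => ((fun i : Fin k => ε i), (fun n => ε (n + k))))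
      {ε : ℕ → Fin 2 | (fun n => ε (n + k)) ∈ A} ((Set.univ : Set (Fin k → Fin 2)) ×ˢ A) := by
    intro ε hε
    exact ⟨trivial, hε⟩
  refine hmaps.countable_of_injOn ?_ ((Set.to_countable _).prod hA)
  intro ε _ η _ h
  simp only [Prod.mk.injEq] at h
  obtain ⟨h1, h2⟩ := h
  ext n
  by_cases hn : n < k
  · have h3 : ε n = η n := congrFun h1 ⟨n, hn⟩
    rw [h3]
  · have h3 : ε (n - k + k) = η (n - k + k) := congrFun h2 (n - k)
    rw [Nat.sub_add_cancel (not_lt.mp hn)] at h3
    rw [h3]

lemma E_unique : ∀ (n b : ℕ) (ε η : ℕ → Fin 2), V β ε = Xs β b 0 + D β 0 (-2) 3 (-3) 1 →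
    V β η = Xs β b 0 + D β 0 (-2) 3 (-3) 1 → ε n = η n := by
  intro n
  induction n using Nat.strong_induction_on with
  | _ n ih =>
    intro b ε η hε hη
    by_cases hb : isV b
    · obtain ⟨r1, r2⟩ := range_U hg (not_isV_succ hb)
      rw [← X13 hb] at r1 r2
      obtain ⟨⟨a0, a1, a2, a3, a4, a5, a6, a7, a8, a9, a10, a11, a12⟩, h1⟩ :=
        V_E hg (vblock hg hb) r1 r2 hε
      obtain ⟨⟨e0, e1, e2, e3, e4, e5, e6, e7, e8, e9, e10, e11, e12⟩, h2⟩ :=
        V_E hg (vblock hg hb) r1 r2 hη
      by_cases hn : n < 13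
      · interval_cases n <;> simp_all
      · obtain ⟨m, rfl⟩ : ∃ m, n = m + 13 := ⟨n - 13, by omega⟩
        rw [X13 hb] at h1 h2
        exact ih m (by omega) (b + 1) _ _ h1 h2
    · obtain ⟨r1, r2⟩ := range_all hg (b + 1)
      rw [← X8 hb] at r1 r2
      obtain ⟨⟨a0, a1, a2, a3, a4, a5, a6, a7⟩, h1⟩ := U_E hg (ublock hg hb) r1 r2 hε
      obtain ⟨⟨e0, e1, e2, e3, e4, e5, e6, e7⟩, h2⟩ := U_E hg (ublock hg hb) r1 r2 hη
      by_cases hn : n < 8
      · interval_cases n <;> simp_all
      · obtain ⟨m, rfl⟩ : ∃ m, n = m + 8 := ⟨n - 8, by omega⟩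
        rw [X8 hb] at h1 h2
        exact ih m (by omega) (b + 1) _ _ h1 h2

lemma E_countable (b : ℕ) : {ε : ℕ → Fin 2 | V β ε = Xs β b 0 + D β 0 (-2) 3 (-3) 1}.Countable := by
  apply Set.Subsingleton.countable
  intro ε hε η hη
  ext n
  rw [E_unique hg n b ε η hε hη]

lemma C_countable_aux : ∀ n b : ℕ, isV (b + n) →
    {ε : ℕ → Fin 2 | V β ε = Xs β b 0 + D β (-1) (-1) 1 (-2) 1}.Countable := by
  intro n
  induction n with
  | zero =>
    intro b hb
    rw [add_zero] at hb
    obtain ⟨r1, r2⟩ := range_U hg (not_isV_succ hb)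
    rw [← X13 hb] at r1 r2
    refine (countable_drop 13 (E_countable hg (b + 1))).mono ?_
    intro ε hε
    have h1 := V_C hg (vblock hg hb) r1 r2 hε
    rw [X13 hb] at h1
    exact h1
  | succ n ih =>
    intro b hb
    by_cases hv : isV b
    · obtain ⟨r1, r2⟩ := range_U hg (not_isV_succ hv)
      rw [← X13 hv] at r1 r2
      refine (countable_drop 13 (E_countable hg (b + 1))).mono ?_
      intro ε hε
      have h1 := V_C hg (vblock hg hv) r1 r2 hε
      rw [X13 hv] at h1
      exact h1
    · have h2 := ih (b + 1) (by rwa [show b + 1 + n = b + (n + 1) by ring])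
      obtain ⟨r1, r2⟩ := range_all hg (b + 1)
      rw [← X8 hv] at r1 r2
      refine (countable_drop 8 h2).mono ?_
      intro ε hε
      have h1 := U_C hg (ublock hg hv) r1 r2 hε
      rw [X8 hv] at h1
      exact h1

omit hg in
lemma exists_isV (b : ℕ) : ∃ n, isV (b + n) := by
  refine ⟨2 ^ (b + 1) - b, b, ?_⟩
  have h1 : b < 2 ^ b := Nat.lt_two_pow_self
  have h2 : 2 ^ b ≤ 2 ^ (b + 1) := Nat.pow_le_pow_right (by norm_num) (by omega)
  omega

lemma C_countable (b : ℕ) :
    {ε : ℕ → Fin 2 | V β ε = Xs β b 0 + D β (-1) (-1) 1 (-2) 1}.Countable := by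
  obtain ⟨n, hn⟩ := exists_isV b
  exact C_countable_aux hg n b hn

lemma A_countable {b : ℕ} (hb : ¬ isV b) :
    {ε : ℕ → Fin 2 | V β ε = Xs β b 0 + D β (-1) 0 2 (-1) 0}.Countable := by
  obtain ⟨r1, r2⟩ := range_all hg (b + 1)
  rw [← X8 hb] at r1 r2
  refine (countable_drop 8 (C_countable hg (b + 1))).mono ?_
  intro ε hε
  have h1 := U_A hg (ublock hg hb) r1 r2 hε
  rw [X8 hb] at h1
  exact h1

lemma S_countable : {ε : ℕ → Fin 2 | V β ε = Xs β 0 0}.Countable := by
  have hsub : {ε : ℕ → Fin 2 | V β ε = Xs β 0 0} ⊆ {spine} ∪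
      ⋃ b : {b : ℕ // isV b}, {ε : ℕ → Fin 2 | (fun n => ε (n + tau (b.1 + 1))) ∈
        {ε : ℕ → Fin 2 | V β ε = Xs β (b.1 + 1) 0 + D β (-1) 0 2 (-1) 0}} := by
    intro ε hε
    by_contra hcon
    simp only [Set.mem_union, Set.mem_singleton_iff, Set.mem_iUnion, not_or, not_exists] at hcon
    obtain ⟨hne, hA⟩ := hcon
    have hD0 : D β 0 0 0 0 0 = 0 := by simp [D]
    have hgood : ∀ b, V β (fun n => ε (n + tau b)) = Xs β b 0 ∧ ∀ i, i < tau b → ε i = spine i := by
      intro b
      induction b with
      | zero =>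
        refine ⟨?_, fun i hi => by simp [tau] at hi⟩
        simpa [tau] using hε
      | succ b ih =>
        obtain ⟨ih1, ih2⟩ := ih
        have ih1' : V β (fun n => ε (n + tau b)) = Xs β b 0 + D β 0 0 0 0 0 := by
          rw [hD0, add_zero]; exact ih1
        by_cases hb : isV b
        · obtain ⟨r1, r2⟩ := range_U hg (not_isV_succ hb)
          rw [← X13 hb] at r1 r2
          have hl : len b = 13 := by simp [len, hb]
          rcases V_S hg (vblock hg hb) r1 r2 ih1' with ⟨hd, h1⟩ | h1
          · rw [X13 hb, hD0, add_zero] at h1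
            have ht : tau (b + 1) = tau b + 13 := by rw [tau, hl]
            refine ⟨?_, ?_⟩
            · rw [← h1]
              congr 1
              ext n
              rw [ht, show n + (tau b + 13) = n + 13 + tau b by ring]
            · intro i hi
              rw [ht] at hi
              by_cases hi2 : i < tau b
              · exact ih2 i hi2
              · obtain ⟨k, rfl⟩ : ∃ k, i = tau b + k := ⟨i - tau b, by omega⟩
                have hk : k < 13 := by omega
                rw [spine_eq b k (by omega), gd, if_pos hb, add_comm (tau b) k]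
                obtain ⟨d0, d1, d2, d3, d4, d5, d6, d7, d8, d9, d10, d11, d12⟩ := hd
                interval_cases k
                · rw [d0]; rfl
                · rw [d1]; rfl
                · rw [d2]; rfl
                · rw [d3]; rfl
                · rw [d4]; rfl
                · rw [d5]; rfl
                · rw [d6]; rfl
                · rw [d7]; rfl
                · rw [d8]; rfl
                · rw [d9]; rfl
                · rw [d10]; rfl
                · rw [d11]; rfl
                · rw [d12]; rfl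
          · exfalso
            rw [X13 hb] at h1
            apply hA ⟨b, hb⟩
            have ht : tau (b + 1) = tau b + 13 := by rw [tau, hl]
            change V β (fun n => ε (n + tau (b + 1))) = _
            rw [← h1]
            congr 1
            ext n
            rw [ht, show n + (tau b + 13) = n + 13 + tau b by ring]
        · obtain ⟨r1, r2⟩ := range_all hg (b + 1)
          rw [← X8 hb] at r1 r2
          have hl : len b = 8 := by simp [len, hb]
          obtain ⟨hd, h1⟩ := U_S hg (ublock hg hb) r1 r2 ih1'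
          rw [X8 hb, hD0, add_zero] at h1
          have ht : tau (b + 1) = tau b + 8 := by rw [tau, hl]
          refine ⟨?_, ?_⟩
          · rw [← h1]
            congr 1
            ext n
            rw [ht, show n + (tau b + 8) = n + 8 + tau b by ring]
          · intro i hi
            rw [ht] at hi
            by_cases hi2 : i < tau b
            · exact ih2 i hi2
            · obtain ⟨k, rfl⟩ : ∃ k, i = tau b + k := ⟨i - tau b, by omega⟩
              have hk : k < 8 := by omega
              rw [spine_eq b k (by omega), gd, if_neg hb, add_comm (tau b) k]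
              obtain ⟨d0, d1, d2, d3, d4, d5, d6, d7⟩ := hd
              interval_cases k
              · rw [d0]; rfl
              · rw [d1]; rfl
              · rw [d2]; rfl
              · rw [d3]; rfl
              · rw [d4]; rfl
              · rw [d5]; rfl
              · rw [d6]; rfl
              · rw [d7]; rfl
    apply hne
    ext n
    have h1 := (hgood (n + 1)).2 n (by have := le_tau (n + 1); omega)
    rw [h1]
  refine Set.Countable.mono hsub ?_
  refine (Set.countable_singleton _).union (Set.countable_iUnion ?_)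
  rintro ⟨b, hb⟩
  exact countable_drop _ (A_countable hg (not_isV_succ hb))

/-! ### Many prefixes -/

omit hg in
def splice (t : ℕ) (s η : ℕ → Fin 2) : ℕ → Fin 2 := fun n => if n < t then s n else η (n - t)

lemma V_splice : ∀ (t : ℕ) (s η : ℕ → Fin 2), V β η = V β (fun n => s (n + t)) →
    V β (splice t s η) = V β s := by
  intro t
  induction t with
  | zero =>
    intro s η h
    have : splice 0 s η = η := by ext n; simp [splice]
    rw [this]
    simpa using h
  | succ t ih =>
    intro s η h
    have hp := pos hg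
    have h1 := V_step hg (splice (t + 1) s η)
    have h2 := V_step hg s
    have h3 : sh (splice (t + 1) s η) = splice t (sh s) η := by
      ext n
      simp only [sh, splice, Nat.add_lt_add_iff_right, Nat.add_sub_add_right]
    have h4 : splice (t + 1) s η 0 = s 0 := by simp [splice]
    rw [h3, h4, ih (sh s) η (by rw [h]; rfl), ← h2] at h1
    exact mul_left_cancel₀ hp.ne' h1

lemma famC : ∀ (m b : ℕ), (∀ i, i < m → ¬ isV (b + i)) → ∀ χ : ℕ → Fin 2,
    ∃ ε : ℕ → Fin 2, V β ε = Xs β b 0 + D β (-1) (-1) 1 (-2) 1 ∧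
      ∀ i, i < m → ε (8 * i + 1) = χ i := by
  intro m
  induction m with
  | zero =>
    intro b _ χ
    obtain ⟨r1, r2⟩ := range_all hg b
    have c1 := hg.lo
    have c2 := hg.hi
    obtain ⟨c3, c4⟩ := b2 hg
    obtain ⟨c5, c6⟩ := b3 hg
    obtain ⟨c7, c8⟩ := b4 hg
    norm_num at c1 c2 c3 c4 c5 c6 c7 c8 r1 r2
    have hM : 1 ≤ 1 / (β - 1) := by rw [le_div_iff₀ (by linarith)]; linarith
    obtain ⟨ε, hε⟩ := exists_exp hg (y := Xs β b 0 + D β (-1) (-1) 1 (-2) 1)
      (by simp only [D]; linarith) (by simp only [D]; linarith)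
    exact ⟨ε, hε, fun i hi => absurd hi (by omega)⟩
  | succ m ih =>
    intro b hb χ
    have hb0 : ¬ isV b := by simpa using hb 0 (by omega)
    obtain ⟨η, h1, h2⟩ := ih (b + 1) (fun i hi => by
      have := hb (i + 1) (by omega)
      rwa [show b + 1 + i = b + (i + 1) by ring]) (fun i => χ (i + 1))
    rw [← X8 hb0] at h1
    rcases (show χ 0 = 0 ∨ χ 0 = 1 by generalize χ 0 = a; fin_cases a <;> simp) with h0 | h0
    · refine ⟨_, bU_C0 hg (ublock hg hb0) h1, ?_⟩
      intro i hi
      rcases i with _ | i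
      · rw [h0]; rfl
      · have := h2 i (by omega)
        rw [← this]; rfl
    · refine ⟨_, bU_C1 hg (ublock hg hb0) h1, ?_⟩
      intro i hi
      rcases i with _ | i
      · rw [h0]; rfl
      · have := h2 i (by omega)
        rw [← this]; rfl

lemma famA (m b : ℕ) (hb : ∀ i, i < m + 1 → ¬ isV (b + i)) (χ : ℕ → Fin 2) :
    ∃ ε : ℕ → Fin 2, V β ε = Xs β b 0 + D β (-1) 0 2 (-1) 0 ∧
      ∀ i, i < m + 1 → ε (8 * i + 1) = χ i := by
  have hb0 : ¬ isV b := by simpa using hb 0 (by omega)
  obtain ⟨η, h1, h2⟩ := famC hg m (b + 1) (fun i hi => by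
    have := hb (i + 1) (by omega)
    rwa [show b + 1 + i = b + (i + 1) by ring]) (fun i => χ (i + 1))
  rw [← X8 hb0] at h1
  rcases (show χ 0 = 0 ∨ χ 0 = 1 by generalize χ 0 = a; fin_cases a <;> simp) with h0 | h0
  · refine ⟨_, bU_A0 hg (ublock hg hb0) h1, ?_⟩
    intro i hi
    rcases i with _ | i
    · rw [h0]; rfl
    · have := h2 i (by omega)
      rw [← this]; rfl
  · refine ⟨_, bU_A1 hg (ublock hg hb0) h1, ?_⟩
    intro i hi
    rcases i with _ | i
    · rw [h0]; rfl
    · have := h2 i (by omega)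
      rw [← this]; rfl

omit hg in
lemma not_isV_between (j i : ℕ) (hi : i < 2 ^ (j + 1) - 1) : ¬ isV (2 ^ (j + 1) + 1 + i) := by
  rintro ⟨l, hl⟩
  have h1 : 2 ^ (j + 1) < 2 ^ (l + 1) := by omega
  have h2 : 2 ^ (l + 1) < 2 ^ (j + 2) := by
    rw [← hl, pow_succ 2 (j + 1)]; omega
  have h3 := (Nat.pow_lt_pow_iff_right (by norm_num : 1 < 2)).mp h1
  have h4 := (Nat.pow_lt_pow_iff_right (by norm_num : 1 < 2)).mp h2
  omega

lemma famS (j : ℕ) (χ : ℕ → Fin 2) :
    ∃ ε : ℕ → Fin 2, V β ε = Xs β 0 0 ∧
      ∀ i, i < 2 ^ (j + 1) - 1 → ε (tau (2 ^ (j + 1)) + 13 + 8 * i + 1) = χ i := by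
  set b : ℕ := 2 ^ (j + 1) with hb
  have hbV : isV b := ⟨j, rfl⟩
  have hb2 : 2 ≤ b := by
    rw [hb, pow_succ]; have : 1 ≤ 2 ^ j := Nat.one_le_two_pow; omega
  obtain ⟨m, hm⟩ : ∃ m, b - 1 = m + 1 := ⟨b - 2, by omega⟩
  obtain ⟨η, h1, h2⟩ := famA hg m (b + 1) (fun i hi => by
    have := not_isV_between j i (by omega)
    exact this) χ
  rw [← X13 hbV] at h1
  have h3 := bV_S hg (vblock hg hbV) h1
  have hD0 : D β 0 0 0 0 0 = 0 := by simp [D]
  rw [hD0, add_zero] at h3
  set ε' : ℕ → Fin 2 := (cons 1 (cons 0 (cons 1 (cons 0 (cons 1 (cons 0 (cons 1 (cons 1 (cons 1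
    (cons 1 (cons 0 (cons 0 (cons 1 η))))))))))))) with hε'
  refine ⟨splice (tau b) spine ε', ?_, ?_⟩
  · have h4 : V β (splice (tau b) spine ε') = V β spine := V_splice hg (tau b) spine ε' (by
      rw [h3, Xs]
      congr 1
      ext n
      rw [add_zero, add_comm])
    rw [h4, Xs]
    congr 1
    ext n
    simp [tau]
  · intro i hi
    have h5 : ε' ((8 * i + 1) + 13) = η (8 * i + 1) := rfl
    rw [← h2 i (by omega), ← h5, splice, if_neg (by omega),
      show tau b + 13 + 8 * i + 1 - tau b = (8 * i + 1) + 13 by omega]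

end


end Pool.Agent.X162.BetaBlocks
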