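import Pool.Agent.X162.TQ

set_option autoImplicit false
set_option linter.unusedSectionVars false

/-! The generating function of `S(m)`. -/

namespace Pool.Agent.X162.JTP

open Finset PowerSeries Filter
open scoped PowerSeries.WithPiTopology Topology DualNumber

/-- no odd part is repeated -/
def OddDistinct (s : Multiset ℕ) : Prop := ∀ i, Odd i → s.count i ≤ 1

/-- the sum of the odd parts minus the sum of the even parts -/
def wt (s : Multiset ℕ) : ℤ := (s.map fun i : ℕ => if Odd i then (i : ℤ) else -(i : ℤ)).sum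

open Classical in
/-- the total weight of the partitions of `m` without repeated odd parts -/
noncomputable def S (m : ℕ) : ℤ :=
  ∑ p : Nat.Partition m, if OddDistinct p.parts then wt p.parts else 0

variable {K : Type*} [CommRing K] [TopologicalSpace K] [DiscreteTopology K]

instance : DiscreteTopology K[ε] := inferInstanceAs (DiscreteTopology (K × K))

/-- `1 + x ε` -/
noncomputable def de (x : K) : K[ε] := 1 + algebraMap K K[ε] x * ε

theorem eps2 : (ε : K[ε]) * ε = 0 := DualNumber.eps_mul_eps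

theorem de_zero : de (0 : K) = 1 := by simp [de]
theorem de_add (x y : K) : de (x + y) = de x * de y := by
  simp only [de, map_add]
  linear_combination (- (algebraMap K K[ε] x * algebraMap K K[ε] y)) * eps2 (K := K)
theorem de_pow (x : K) (n : ℕ) : de x ^ n = de (n * x) := by
  induction n with
  | zero => simp [de_zero]
  | succ n ih => rw [pow_succ, ih, ← de_add]; congr 1; push_cast; ring
theorem de_prod {ι : Type*} (s : Finset ι) (f : ι → K) : ∏ i ∈ s, de (f i) = de (∑ i ∈ s, f i) := by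
  classical
  induction s using Finset.induction_on with
  | empty => simp [de_zero]
  | insert i s hi ih => rw [prod_insert hi, sum_insert hi, ih, de_add]

/-- the weight of a part `i` of multiplicity `c` -/
noncomputable def ff (i c : ℕ) : K[ε] :=
  if Odd i then (if c = 1 then de (i : K) else 0) else de (-((i * c : ℕ) : K))

open Classical in
theorem prod_ff {m : ℕ} (p : Nat.Partition m) : p.parts.toFinsupp.prod (ff (K := K)) =
    if OddDistinct p.parts then de ((wt p.parts : ℤ) : K) else 0 := by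
  rw [Finsupp.prod, Multiset.toFinsupp_support]
  simp only [Multiset.toFinsupp_apply]
  split_ifs with h
  · have h1 : ∀ i ∈ p.parts.toFinset, ff (K := K) i (p.parts.count i) =
        de ((p.parts.count i : K) * ((if Odd i then (i : ℤ) else -(i : ℤ) : ℤ) : K)) := by
      intro i hi
      rw [Multiset.mem_toFinset] at hi
      have h2 := Multiset.one_le_count_iff_mem.2 hi
      unfold ff
      split_ifs with ho hc
      · rw [hc]; congr 1; push_cast; ring
      · exact absurd (le_antisymm (h i ho) h2) hc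
      · congr 1; push_cast; ring
    have h5 : wt p.parts = ∑ i ∈ p.parts.toFinset,
        (p.parts.count i : ℤ) * (if Odd i then (i : ℤ) else -(i : ℤ)) := by
      rw [wt, Finset.sum_multiset_map_count]
      exact sum_congr rfl fun i _ => by rw [nsmul_eq_mul]
    rw [prod_congr rfl h1, de_prod, h5, Int.cast_sum]
    congr 1
    exact sum_congr rfl fun i _ => by rw [Int.cast_mul, Int.cast_natCast]
  · unfold OddDistinct at h
    push Not at h
    obtain ⟨i, ho, hi⟩ := h
    refine prod_eq_zero (i := i) ?_ ?_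
    · rw [Multiset.mem_toFinset]; exact Multiset.one_le_count_iff_mem.1 (by omega)
    · unfold ff
      rw [if_pos ho, if_neg (by omega)]

/-- the generating function with values in the dual numbers -/
noncomputable def GG : K[ε]⟦X⟧ := Nat.Partition.genFun ff

theorem coeff_GG (m : ℕ) : TrivSqZeroExt.snd (coeff m (GG (K := K))) = (S m : K) := by
  classical
  rw [GG, Nat.Partition.coeff_genFun]
  simp only [prod_ff]
  have e : ∀ (ι : Type) (s : Finset ι) (f : ι → K[ε]), TrivSqZeroExt.snd (∑ i ∈ s, f i) =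
      ∑ i ∈ s, TrivSqZeroExt.snd (f i) := fun ι s f => map_sum (TrivSqZeroExt.sndHom K K) _ _
  rw [e, S]
  push_cast
  refine sum_congr rfl fun p _ => ?_
  split_ifs
  · rw [de]
    rw [TrivSqZeroExt.snd_add, TrivSqZeroExt.snd_mul]
    have e2 : TrivSqZeroExt.snd (algebraMap K K[ε] (wt p.parts : K)) = 0 := rfl
    have e3 : TrivSqZeroExt.fst (algebraMap K K[ε] (wt p.parts : K)) = (wt p.parts : K) := rfl
    rw [e2, e3]; simp
  · simp

/-- the scaling `X ↦ (1 + x ε) X` -/
noncomputable def sc (x : K) : K⟦X⟧ →+* K[ε]⟦X⟧ :=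
  (rescale (de x)).comp (PowerSeries.map (algebraMap K K[ε]))

theorem coeff_sc (x : K) (f : K⟦X⟧) (n : ℕ) :
    coeff n (sc x f) = de (n * x) * algebraMap K K[ε] (coeff n f) := by
  simp [sc, coeff_rescale, de_pow]

theorem sc_X (x : K) : sc x X = C (de x) * X := by
  simp [sc, rescale_X]

theorem sc_hasProd (x : K) {f : ℕ → K⟦X⟧} {P : K⟦X⟧} (h : HasProd f P) :
    HasProd (fun i => sc x (f i)) (sc x P) := by
  unfold HasProd at h ⊢
  rw [WithPiTopology.tendsto_iff_coeff_tendsto] at h ⊢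
  intro d
  have h1 := h d
  rw [nhds_discrete, tendsto_pure] at h1
  refine tendsto_nhds_of_eventually_eq ?_
  filter_upwards [h1] with s hs
  rw [← map_prod, coeff_sc, coeff_sc, hs]


theorem factor_odd (k : ℕ) : (1 : K[ε]⟦X⟧) + ∑' j : ℕ, ff (K := K) (2 * k + 1) (j + 1) •
    X ^ ((2 * k + 1) * (j + 1)) = 1 - (-(C (de 1) * X)) * ((C (de 1) * X) ^ 2) ^ k := by
  rw [tsum_eq_single 0]
  · have ho : Odd (2 * k + 1) := ⟨k, rfl⟩
    simp only [ff, ho, if_true, zero_add, mul_one]
    rw [smul_eq_C_mul, ← mul_one (((2 * k + 1 : ℕ) : K)), ← de_pow, map_pow]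
    ring
  · intro j hj
    have ho : Odd (2 * k + 1) := ⟨k, rfl⟩
    simp [ff, ho, hj]

theorem factor_even (k : ℕ) : ((1 : K[ε]⟦X⟧) + ∑' j : ℕ, ff (K := K) (2 * k + 1 + 1) (j + 1) •
    X ^ ((2 * k + 1 + 1) * (j + 1))) * (1 - ((C (de (-1)) * X) ^ 2) ^ (k + 1)) = 1 := by
  set y : K[ε]⟦X⟧ := ((C (de (-1)) * X) ^ 2) ^ (k + 1) with hy
  have hy0 : constantCoeff y = 0 := by simp [hy]
  have h1 := WithPiTopology.tsum_pow_mul_one_sub_of_constantCoeff_eq_zero hy0
  have hs := WithPiTopology.summable_pow_of_constantCoeff_eq_zero hy0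
  have h2 : ∀ j : ℕ, ff (K := K) (2 * k + 1 + 1) (j + 1) •
      (X : K[ε]⟦X⟧) ^ ((2 * k + 1 + 1) * (j + 1)) = y ^ (j + 1) := by
    intro j
    have ho : ¬ Odd (2 * k + 1 + 1) := by
      rw [Nat.not_odd_iff_even]; exact ⟨k + 1, by ring⟩
    simp only [ff, ho, if_false]
    rw [smul_eq_C_mul, hy, ← pow_mul, ← pow_mul, mul_pow, ← map_pow, de_pow]
    congr 2
    · congr 2; push_cast; ring
    · ring
  have h3 : (∑' j : ℕ, ff (K := K) (2 * k + 1 + 1) (j + 1) •
      (X : K[ε]⟦X⟧) ^ ((2 * k + 1 + 1) * (j + 1))) = ∑' j : ℕ, y ^ (j + 1) := tsum_congr h2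
  rw [h3]
  rw [hs.tsum_eq_zero_add, pow_zero] at h1
  exact h1

theorem cc1 (x : K) (n : ℕ) (hn : n ≠ 0) : constantCoeff ((C (de x) * X : K[ε]⟦X⟧) ^ n) = 0 := by
  rw [map_pow, map_mul, constantCoeff_X, mul_zero, zero_pow hn]

/-- the factors -/
noncomputable def fac (i : ℕ) : K[ε]⟦X⟧ := 1 + ∑' j : ℕ, ff (K := K) (i + 1) (j + 1) •
      X ^ ((i + 1) * (j + 1))
/-- the complementary factors -/
noncomputable def hh (i : ℕ) : K[ε]⟦X⟧ :=
  if Even i then 1 else 1 - (C (de (-1)) * X) ^ (i + 1)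

theorem hasProd_fac : HasProd (fac (K := K)) GG := Nat.Partition.hasProd_genFun (ff (K := K))

theorem fac_even (k : ℕ) : fac (K := K) (2 * k) =
    1 - (-(C (de 1) * X)) * ((C (de 1) * X) ^ 2) ^ k := factor_odd k

theorem hh_even (k : ℕ) : hh (K := K) (2 * k) = 1 := by
  rw [hh, if_pos (even_two_mul k)]

theorem hh_odd (k : ℕ) : hh (K := K) (2 * k + 1) = 1 - ((C (de (-1)) * X) ^ 2) ^ (k + 1) := by
  have : ¬ Even (2 * k + 1) := by rw [Nat.not_even_iff_odd]; exact ⟨k, rfl⟩
  rw [hh, if_neg this, ← pow_mul, show 2 * (k + 1) = 2 * k + 1 + 1 by ring]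

theorem fac_odd (k : ℕ) : fac (K := K) (2 * k + 1) * hh (2 * k + 1) = 1 := by
  rw [hh_odd]; exact factor_even k

theorem hasProd_hh : HasProd (hh (K := K)) (1 * EE ((C (de (-1)) * X) ^ 2)) := by
  apply HasProd.even_mul_odd
  · simp only [hh_even]; exact hasProd_one
  · simp only [hh_odd]; exact hasProd_EE (cc1 _ 2 (by norm_num))

theorem hasProd_fh : HasProd (fun i => fac (K := K) i * hh i)
    (PP ((C (de 1) * X) ^ 2) (-(C (de 1) * X)) * 1) := by
  have h1 : HasProd (fun k : ℕ => fac (K := K) (2 * k) * hh (2 * k))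
      (PP ((C (de 1) * X) ^ 2) (-(C (de 1) * X))) := by
    have e : (fun k : ℕ => fac (K := K) (2 * k) * hh (2 * k)) =
        fun k => 1 - (-(C (de 1) * X)) * ((C (de 1) * X) ^ 2) ^ k := by
      funext k
      rw [hh_even, fac_even, mul_one]
    rw [e]
    have hc : constantCoeff ((C (de 1) * X : K[ε]⟦X⟧) ^ 2) = 0 := cc1 _ 2 (by norm_num)
    exact hasProd_PP hc (-(C (de 1) * X))
  have h2 : HasProd (fun k : ℕ => fac (K := K) (2 * k + 1) * hh (2 * k + 1)) 1 := by
    simp only [fac_odd]; exact hasProd_one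
  exact HasProd.even_mul_odd (f := fun i => fac (K := K) i * hh i) h1 h2

theorem GG_mul : (GG (K := K)) * EE ((C (de (-1)) * X) ^ 2) =
    PP ((C (de 1) * X) ^ 2) (-(C (de 1) * X)) := by
  have h1 := (hasProd_fac (K := K)).mul (hasProd_hh (K := K))
  have h2 := h1.unique (hasProd_fh (K := K))
  rw [one_mul, mul_one] at h2
  exact h2

theorem sc_EE (x : K) : sc x (EE (X ^ 2)) = EE ((C (de x) * X) ^ 2) := by
  refine (sc_hasProd x (hasProd_EE (cX 2 (by norm_num)))).unique ?_
  convert hasProd_EE (cc1 x 2 (by norm_num)) using 2 with i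
  rw [map_sub, map_one, map_pow, map_pow, sc_X]

theorem sc_PP (x : K) : sc x (PP (X ^ 2) (-X)) = PP ((C (de x) * X) ^ 2) (-(C (de x) * X)) := by
  refine (sc_hasProd x (hasProd_PP (cX 2 (by norm_num)) (-X))).unique ?_
  convert hasProd_PP (cc1 x 2 (by norm_num)) (-(C (de x) * X)) using 2 with i
  rw [map_sub, map_one, map_mul, map_pow, map_pow, map_neg, sc_X]

/-- the operator `q d/dq` -/
noncomputable def D (f : K⟦X⟧) : K⟦X⟧ := PowerSeries.mk fun n => (n : K) * coeff n f

theorem coeff_D (f : K⟦X⟧) (n : ℕ) : coeff n (D f) = (n : K) * coeff n f := by simp [D]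

theorem D_mul (f g : K⟦X⟧) : D (f * g) = D f * g + f * D g := by
  ext n
  rw [coeff_D, map_add, coeff_mul, coeff_mul, coeff_mul, mul_sum, ← sum_add_distrib]
  refine sum_congr rfl fun p hp => ?_
  rw [coeff_D, coeff_D]
  have : ((n : ℕ) : K) = (p.1 : K) + (p.2 : K) := by
    rw [← mem_antidiagonal.1 hp]; push_cast; ring
  rw [this]; ring

/-- the generating function of `S(m)` -/
noncomputable def FS : K⟦X⟧ := PowerSeries.mk fun m => ((S m : ℤ) : K)

theorem FS_eq : (FS : K⟦X⟧) * EE (X ^ 2) ^ 2 = D (EE (-X)) := by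
  set A : K⟦X⟧ := PP (X ^ 2) (-X) with hA
  set E : K⟦X⟧ := EE (X ^ 2) with hE
  have h := GG_mul (K := K)
  rw [← sc_EE, ← sc_PP, ← hA, ← hE] at h
  set G0 : K⟦X⟧ := PowerSeries.mk fun m => TrivSqZeroExt.fst (coeff m (GG (K := K))) with hG0
  have hc : ∀ d, ∑ p ∈ antidiagonal d, coeff p.1 (GG (K := K)) *
      (de ((p.2 : K) * (-1)) * algebraMap K K[ε] (coeff p.2 E)) =
      de ((d : K) * 1) * algebraMap K K[ε] (coeff d A) := by
    intro d
    have h1 := congrArg (coeff d) h
    rw [coeff_mul, coeff_sc] at h1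
    simp only [coeff_sc] at h1
    exact h1
  have fsum : ∀ (ι : Type) (s : Finset ι) (f : ι → K[ε]), TrivSqZeroExt.fst (∑ i ∈ s, f i) =
      ∑ i ∈ s, TrivSqZeroExt.fst (f i) := fun ι s f =>
        map_sum (TrivSqZeroExt.fstHom K K K) _ _
  have ssum : ∀ (ι : Type) (s : Finset ι) (f : ι → K[ε]), TrivSqZeroExt.snd (∑ i ∈ s, f i) =
      ∑ i ∈ s, TrivSqZeroExt.snd (f i) := fun ι s f => map_sum (TrivSqZeroExt.sndHom K K) _ _
  have fa : ∀ x : K, TrivSqZeroExt.fst (algebraMap K K[ε] x) = x := fun x => rfl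
  have sa : ∀ x : K, TrivSqZeroExt.snd (algebraMap K K[ε] x) = 0 := fun x => rfl
  have fd : ∀ x : K, TrivSqZeroExt.fst (de x) = 1 := fun x => by
    rw [de, TrivSqZeroExt.fst_add, TrivSqZeroExt.fst_mul]; simp
  have sd : ∀ x : K, TrivSqZeroExt.snd (de x) = x := fun x => by
    rw [de, TrivSqZeroExt.snd_add, TrivSqZeroExt.snd_mul, sa, fa]; simp
  have e1 : G0 * E = A := by
    ext d
    have h1 := congrArg TrivSqZeroExt.fst (hc d)
    rw [fsum] at h1
    simp only [TrivSqZeroExt.fst_mul, fd, fa, one_mul] at h1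
    rw [coeff_mul, ← h1]
    exact sum_congr rfl fun p _ => by rw [hG0, coeff_mk]
  have e2 : (FS : K⟦X⟧) * E - G0 * D E = D A := by
    ext d
    have h1 := congrArg TrivSqZeroExt.snd (hc d)
    rw [ssum] at h1
    simp only [TrivSqZeroExt.snd_mul, TrivSqZeroExt.fst_mul, fd, fa, sd, sa, one_mul, smul_eq_mul,
      MulOpposite.smul_eq_mul_unop, MulOpposite.unop_op, mul_zero, zero_add, mul_one, coeff_GG] at h1
    rw [map_sub, coeff_mul, coeff_mul, coeff_D, ← h1, ← sum_sub_distrib]
    refine sum_congr rfl fun p _ => ?_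
    rw [hG0, coeff_mk, coeff_D, FS, coeff_mk]; ring
  rw [EE_neg, ← hA, ← hE, D_mul]
  linear_combination E * e2 + D E * e1

end Pool.Agent.X162.JTP
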