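import Mathlib

set_option autoImplicit false

/-! A form of the Jacobi triple product in commutative rings with nilpotent `q`. -/

namespace Pool.Agent.X162.JTP

open Finset

variable {A : Type*} [CommRing A] (q : A)

/-- `(1 - q) ⋯ (1 - q ^ m)` -/
def u (m : ℕ) : A := ∏ i ∈ range m, (1 - q ^ (i + 1))

theorem u_zero : u q 0 = 1 := by simp [u]
theorem u_succ (m : ℕ) : u q (m + 1) = u q m * (1 - q ^ (m + 1)) := by
  simp [u, prod_range_succ]

/-- Gaussian binomial coefficients. -/
def g : ℕ → ℕ → A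
  | _, 0 => 1
  | 0, _ + 1 => 0
  | N + 1, k + 1 => g N k + q ^ (k + 1) * g N (k + 1)

theorem g_zero_right (N : ℕ) : g q N 0 = 1 := by cases N <;> rfl
theorem g_zero_succ (k : ℕ) : g q 0 (k + 1) = 0 := rfl
theorem g_succ_succ (N k : ℕ) : g q (N + 1) (k + 1) = g q N k + q ^ (k + 1) * g q N (k + 1) := rfl

theorem g_big (N : ℕ) : ∀ k, N < k → g q N k = 0 := by
  induction N with
  | zero => intro k hk; obtain ⟨k, rfl⟩ := Nat.exists_eq_succ_of_ne_zero (by omega : k ≠ 0); rfl
  | succ N ih =>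
    intro k hk
    obtain ⟨k, rfl⟩ := Nat.exists_eq_succ_of_ne_zero (by omega : k ≠ 0)
    rw [Nat.succ_eq_add_one, g_succ_succ, ih k (by omega), ih (k + 1) (by omega)]; simp

theorem g_self (N : ℕ) : g q N N = 1 := by
  induction N with
  | zero => rfl
  | succ N ih => rw [g_succ_succ, ih, g_big q N (N + 1) (by omega)]; simp

/-- the second Pascal rule -/
theorem g_succ_succ' (N : ℕ) : ∀ k, k ≤ N → g q (N + 1) (k + 1) = q ^ (N - k) * g q N k + g q N (k + 1) := by
  induction N with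
  | zero =>
    intro k hk
    obtain rfl : k = 0 := by omega
    simp [g_succ_succ, g_zero_right, g_zero_succ]
  | succ N ih =>
    intro k hk
    rcases Nat.eq_zero_or_pos k with rfl | hk0
    · have h1 := ih 0 (Nat.zero_le _)
      rw [g_succ_succ, g_zero_right, h1, g_zero_right]
      rw [g_succ_succ, g_zero_right] at h1
      have e : q ^ (N + 1 - 0) = q * q ^ (N - 0) := by
        simp [pow_succ, mul_comm]
      rw [e]
      simp only [zero_add, pow_one, mul_one] at h1 ⊢
      linear_combination h1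
    · rcases Nat.lt_or_ge k (N + 1) with h | h
      · obtain ⟨k, rfl⟩ := Nat.exists_eq_succ_of_ne_zero (by omega : k ≠ 0)
        have h1 := ih k (by omega)
        have h2 := ih (k + 1) (by omega)
        simp only [Nat.succ_eq_add_one] at *
        rw [g_succ_succ q (N + 1) (k + 1), h1, h2]
        rw [g_succ_succ] at h1 h2
        have e1 : q ^ (N - k) = q ^ (N - (k + 1)) * q := by
          rw [← pow_succ]; congr 1; omega
        have e2 : N + 1 - (k + 1) = N - k := by omega
        rw [e2, e1]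
        rw [e1] at h1
        linear_combination (q ^ (N - (k + 1)) * q) * h1 + h2
      · obtain rfl : k = N + 1 := by omega
        rw [g_self, g_self, g_big q (N + 1) (N + 1 + 1) (by omega)]; simp

theorem L1 (N : ℕ) (t : ℕ → A) : ∑ i ∈ range (N + 2), t i * g q (N + 1) i =
    ∑ i ∈ range (N + 1), g q N i * (q ^ i * t i + t (i + 1)) := by
  have h : ∑ i ∈ range (N + 2), t i * (q ^ i * g q N i) =
      ∑ i ∈ range (N + 1), t (i + 1) * (q ^ (i + 1) * g q N (i + 1)) + t 0 := by
    rw [sum_range_succ' _ (N + 1)]; simp [g_zero_right]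
  rw [sum_range_succ _ (N + 1), g_big q N (N + 1) (by omega)] at h
  rw [sum_range_succ' _ (N + 1), g_zero_right]
  simp only [g_succ_succ, mul_add, sum_add_distrib]
  have h2 : ∑ i ∈ range (N + 1), g q N i * (q ^ i * t i) =
      ∑ i ∈ range (N + 1), t i * (q ^ i * g q N i) := sum_congr rfl fun i _ => by ring
  have h3 : ∑ i ∈ range (N + 1), g q N i * t (i + 1) =
      ∑ i ∈ range (N + 1), t (i + 1) * g q N i := sum_congr rfl fun i _ => by ring
  rw [h2, h3]
  linear_combination -h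

theorem L2 (N : ℕ) (t : ℕ → A) : ∑ i ∈ range (N + 2), t i * g q (N + 1) i =
    ∑ i ∈ range (N + 1), g q N i * (t i + q ^ (N - i) * t (i + 1)) := by
  have h : ∑ i ∈ range (N + 2), t i * g q N i =
      ∑ i ∈ range (N + 1), t (i + 1) * g q N (i + 1) + t 0 := by
    rw [sum_range_succ' _ (N + 1)]; simp [g_zero_right]
  rw [sum_range_succ _ (N + 1), g_big q N (N + 1) (by omega)] at h
  rw [sum_range_succ' _ (N + 1), g_zero_right]
  have h1 : ∑ i ∈ range (N + 1), t (i + 1) * g q (N + 1) (i + 1) =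
      ∑ i ∈ range (N + 1), (t (i + 1) * (q ^ (N - i) * g q N i) + t (i + 1) * g q N (i + 1)) :=
    sum_congr rfl fun i hi => by
      rw [g_succ_succ' q N i (by have := mem_range.1 hi; omega)]; ring
  rw [h1, sum_add_distrib]
  simp only [mul_add, sum_add_distrib]
  have h2 : ∑ i ∈ range (N + 1), g q N i * t i =
      ∑ i ∈ range (N + 1), t i * g q N i := sum_congr rfl fun i _ => by ring
  have h3 : ∑ i ∈ range (N + 1), g q N i * (q ^ (N - i) * t (i + 1)) =
      ∑ i ∈ range (N + 1), t (i + 1) * (q ^ (N - i) * g q N i) := sum_congr rfl fun i _ => by ring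
  rw [h2, h3]
  linear_combination -h

/-- closed form -/
theorem g_u (N : ℕ) : ∀ k, k ≤ N → g q N k * (u q k * u q (N - k)) = u q N := by
  induction N with
  | zero => intro k hk; obtain rfl : k = 0 := by omega
            simp [g_zero_right, u_zero]
  | succ N ih =>
    intro k hk
    rcases Nat.eq_zero_or_pos k with rfl | hk0
    · simp [g_zero_right, u_zero]
    · obtain ⟨k, rfl⟩ := Nat.exists_eq_succ_of_ne_zero (by omega : k ≠ 0)
      rw [Nat.succ_eq_add_one, g_succ_succ]
      have h1 := ih k (by omega)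
      have e1 : N + 1 - (k + 1) = N - k := by omega
      rw [e1]
      rcases Nat.lt_or_ge k N with h | h
      · have h2 := ih (k + 1) (by omega)
        obtain ⟨d, hd⟩ : ∃ d, N - k = d + 1 := ⟨N - k - 1, by omega⟩
        have e2 : N - (k + 1) = d := by omega
        rw [hd] at h1 ⊢
        rw [e2] at h2
        rw [u_succ q d, u_succ q k] at *
        rw [u_succ q N]
        have e3 : q ^ (N + 1) = q ^ (k + 1) * q ^ (d + 1) := by
          rw [← pow_add]; congr 1; omega
        rw [e3]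
        linear_combination (1 - q ^ (k + 1)) * h1 + (q ^ (k + 1) * (1 - q ^ (d + 1))) * h2
      · obtain rfl : k = N := by omega
        rw [g_self, g_big q k (k + 1) (by omega)]
        simp [u_zero]

variable (a b : A)

/-- the terms of the triple product -/
def T : ℤ → A
  | Int.ofNat n => (-1) ^ n * a ^ n * q ^ (n.choose 2)
  | Int.negSucc k => (-1) ^ (k + 1) * b ^ (k + 1) * q ^ ((k + 1).choose 2)

theorem T_nat (n : ℕ) : T q a b (n : ℤ) = (-1) ^ n * a ^ n * q ^ (n.choose 2) := rfl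

theorem T_neg (n : ℕ) : T q a b (-(n : ℤ)) = (-1) ^ n * b ^ n * q ^ (n.choose 2) := by
  cases n with
  | zero => simp [T]
  | succ k =>
    have : (-((k + 1 : ℕ) : ℤ)) = Int.negSucc k := by rw [Int.negSucc_eq]; push_cast; ring
    rw [this]; rfl

theorem ch (n : ℕ) : (n + 1).choose 2 = n + n.choose 2 := by
  rw [Nat.choose_succ_succ' n 1, Nat.choose_one_right]

variable {q a b} (hab : a * b = q)
include hab

theorem aT (n : ℕ) (j : ℤ) (h1 : -(n : ℤ) ≤ j) (h2 : j ≤ n) :
    a * q ^ n * T q a b j = - (q ^ (n - j).toNat * T q a b (j + 1)) := by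
  rcases le_or_gt 0 j with h | h
  · obtain ⟨m, rfl⟩ := Int.eq_ofNat_of_zero_le h
    have e1 : ((m : ℤ) + 1) = ((m + 1 : ℕ) : ℤ) := by push_cast; ring
    have e2 : ((n : ℤ) - m).toNat = n - m := by omega
    rw [e1, T_nat, T_nat, e2, ch]
    have e3 : q ^ n = q ^ (n - m) * q ^ m := by rw [← pow_add]; congr 1; omega
    rw [e3]; ring
  · obtain ⟨k, hk⟩ : ∃ k : ℕ, j = -((k + 1 : ℕ) : ℤ) := ⟨(-j - 1).toNat, by omega⟩
    subst hk
    have e1 : (-((k + 1 : ℕ) : ℤ)) + 1 = -(k : ℤ) := by push_cast; ring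
    have e2 : ((n : ℤ) - -((k + 1 : ℕ) : ℤ)).toNat = n + (k + 1) := by omega
    rw [e1, T_neg, T_neg, e2, ch]
    have e3 : a * b ^ (k + 1) = q * b ^ k := by rw [pow_succ, ← hab]; ring
    linear_combination ((-1) ^ (k + 1) * q ^ (k + k.choose 2) * q ^ n) * e3

theorem bT (n : ℕ) (j : ℤ) (h1 : -(n : ℤ) ≤ j) (h2 : j ≤ n) :
    b * q ^ n * T q a b j = - (q ^ (n + j).toNat * T q a b (j - 1)) := by
  rcases le_or_gt j 0 with h | h
  · obtain ⟨m, rfl⟩ : ∃ m : ℕ, j = -(m : ℤ) := ⟨(-j).toNat, by omega⟩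
    have e1 : (-(m : ℤ) - 1) = -((m + 1 : ℕ) : ℤ) := by push_cast; ring
    have e2 : ((n : ℤ) + -m).toNat = n - m := by omega
    rw [e1, T_neg, T_neg, e2, ch]
    have e3 : q ^ n = q ^ (n - m) * q ^ m := by rw [← pow_add]; congr 1; omega
    rw [e3]; ring
  · obtain ⟨k, hk⟩ : ∃ k : ℕ, j = ((k + 1 : ℕ) : ℤ) := ⟨(j - 1).toNat, by omega⟩
    subst hk
    have e1 : (((k + 1 : ℕ) : ℤ)) - 1 = (k : ℤ) := by push_cast; ring
    have e2 : ((n : ℤ) + ((k + 1 : ℕ) : ℤ)).toNat = n + (k + 1) := by omega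
    rw [e1, T_nat, T_nat, e2, ch]
    have e3 : b * a ^ (k + 1) = q * a ^ k := by rw [pow_succ, ← hab]; ring
    linear_combination ((-1) ^ (k + 1) * q ^ (k + k.choose 2) * q ^ n) * e3

/-- the finite triple product -/
theorem fin (n : ℕ) : ∏ i ∈ range n, ((1 - a * q ^ i) * (1 - b * q ^ i)) =
    ∑ i ∈ range (2 * n + 1), T q a b ((i : ℤ) - n) * g q (2 * n) i := by
  induction n with
  | zero => simp [g_zero_right, T]
  | succ n ih =>
    rw [prod_range_succ, ih]
    have e : 2 * (n + 1) = 2 * n + 1 + 1 := by ring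
    rw [e, L2 q (2 * n + 1) (fun i => T q a b ((i : ℤ) - ((n + 1 : ℕ) : ℤ)))]
    have h1 : ∀ i ∈ range (2 * n + 1 + 1), g q (2 * n + 1) i *
        ((fun i : ℕ => T q a b ((i : ℤ) - ((n + 1 : ℕ) : ℤ))) i + q ^ (2 * n + 1 - i) *
          (fun i : ℕ => T q a b ((i : ℤ) - ((n + 1 : ℕ) : ℤ))) (i + 1)) =
        (fun i : ℕ => T q a b ((i : ℤ) - ((n + 1 : ℕ) : ℤ)) + q ^ (2 * n + 1 - i) *
          T q a b ((i : ℤ) - n)) i * g q (2 * n + 1) i := by
      intro i _
      have : (((i + 1 : ℕ) : ℤ) - ((n + 1 : ℕ) : ℤ)) = (i : ℤ) - n := by push_cast; ring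
      simp only [this]; ring
    rw [sum_congr rfl h1, L1 q (2 * n), sum_mul]
    refine sum_congr rfl fun i hi => ?_
    have hi' := mem_range.1 hi
    have a1 := aT hab n ((i : ℤ) - n) (by omega) (by omega)
    have a2 := bT hab n ((i : ℤ) - n) (by omega) (by omega)
    have e1 : ((n : ℤ) - ((i : ℤ) - n)).toNat = 2 * n - i := by omega
    have e2 : ((n : ℤ) + ((i : ℤ) - n)).toNat = i := by omega
    have e3 : ((i : ℤ) - n) + 1 = ((i + 1 : ℕ) : ℤ) - n := by push_cast; ring
    have e4 : ((i : ℤ) - n) - 1 = (i : ℤ) - ((n + 1 : ℕ) : ℤ) := by push_cast; ring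
    rw [e1, e3] at a1
    rw [e2, e4] at a2
    have e5 : ((i + 1 : ℕ) : ℤ) - ((n + 1 : ℕ) : ℤ) = (i : ℤ) - n := by push_cast; ring
    have e6 : 2 * n + 1 - (i + 1) = 2 * n - i := by omega
    have e7 : q ^ (2 * n + 1) = q ^ i * q ^ (2 * n + 1 - i) := by
      rw [← pow_add]; congr 1; omega
    simp only [e5, e6]
    have e8 : q ^ (2 * n + 1) = (a * q ^ n) * (b * q ^ n) := by
      have : (a * q ^ n) * (b * q ^ n) = (a * b) * (q ^ n * q ^ n) := by ring
      rw [this, hab, ← pow_add, ← pow_succ']; congr 1; ring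
    have e9 : q ^ i * q ^ (2 * n + 1 - i) = (a * q ^ n) * (b * q ^ n) := by rw [← e7, e8]
    linear_combination (- g q (2 * n) i) * a1 - g q (2 * n) i * a2 -
      (g q (2 * n) i * T q a b ((i : ℤ) - n)) * e9

/-- The triple product when `q ^ M = 0`. -/
theorem nil {M : ℕ} (hq : q ^ M = 0) (n : ℕ) (hn : 2 * M + 2 ≤ n) :
    u q M * ∏ i ∈ range n, ((1 - a * q ^ i) * (1 - b * q ^ i)) =
      ∑ j ∈ Icc (-(n : ℤ)) n, T q a b j := by
  have hq' : ∀ m, M ≤ m → q ^ m = 0 := fun m hm => by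
    obtain ⟨c, rfl⟩ := Nat.exists_eq_add_of_le hm
    rw [pow_add, hq, zero_mul]
  have hu : ∀ m, M ≤ m → u q m = u q M := by
    intro m hm
    induction m, hm using Nat.le_induction with
    | base => rfl
    | succ m hm ih => rw [u_succ, ih, hq' _ (by omega)]; ring
  have hun : ∀ m, IsUnit (u q m) := by
    intro m
    induction m with
    | zero => rw [u_zero]; exact isUnit_one
    | succ m ih =>
      rw [u_succ]
      refine ih.mul ?_
      have h0 : IsNilpotent q := ⟨M, hq⟩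
      exact (h0.pow_succ m).isUnit_one_sub
  have hg : ∀ i, M ≤ i → M ≤ 2 * n - i → i ≤ 2 * n → u q M * g q (2 * n) i = 1 := by
    intro i h1 h2 h3
    have h := g_u q (2 * n) i h3
    rw [hu _ h1, hu _ h2, hu (2 * n) (by omega)] at h
    have h4 := (hun M).mul_left_cancel (a := u q M) (b := u q M * g q (2 * n) i) (c := 1)
      (by rw [mul_one]; linear_combination h)
    exact h4
  have hT : ∀ j : ℤ, (M : ℤ) + 2 ≤ |j| → T q a b j = 0 := by
    intro j hj
    have key : ∀ m : ℕ, M + 2 ≤ m → q ^ (m.choose 2) = 0 := by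
      intro m hm
      apply hq'
      obtain ⟨c, rfl⟩ := Nat.exists_eq_add_of_le hm
      have : M + 2 + c = (M + 1 + c) + 1 := by ring
      rw [this, ch]; omega
    rcases le_or_gt 0 j with h | h
    · obtain ⟨m, rfl⟩ := Int.eq_ofNat_of_zero_le h
      rw [T_nat, key m (by rw [abs_of_nonneg h] at hj; omega)]; ring
    · obtain ⟨k, rfl⟩ : ∃ k : ℕ, j = -(k : ℤ) := ⟨(-j).toNat, by omega⟩
      rw [T_neg, key k (by rw [abs_of_neg h] at hj; omega)]; ring
  rw [fin hab, mul_sum]
  have e : ∑ j ∈ Icc (-(n : ℤ)) n, T q a b j = ∑ i ∈ range (2 * n + 1), T q a b ((i : ℤ) - n) := by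
    symm
    refine sum_bij (fun i _ => (i : ℤ) - n) ?_ ?_ ?_ ?_
    · intro i hi; have := mem_range.1 hi; rw [mem_Icc]; constructor <;> omega
    · intro i _ j _ h; omega
    · intro j hj; rw [mem_Icc] at hj
      exact ⟨(j + n).toNat, by rw [mem_range]; omega, by omega⟩
    · intro i _; rfl
  rw [e]
  refine sum_congr rfl fun i hi => ?_
  have hi' := mem_range.1 hi
  by_cases hj : (M : ℤ) + 2 ≤ |(i : ℤ) - n|
  · rw [hT _ hj]; ring
  · have h3 : |(i : ℤ) - n| < M + 2 := by omega
    rw [abs_lt] at h3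
    have := hg i (by omega) (by omega) (by omega)
    linear_combination (T q a b ((i : ℤ) - n)) * this

end Pool.Agent.X162.JTP
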