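import Mathlib

/-!
# Equivariant Ehrhart theory: a polynomial `H*`-series that is not effective

`P = conv {±e₁, ±e₂, ±e₃, ±e₄, ±(e₁+e₂+e₃)}` in `ℝ⁴` with a linear action of `(ℤ/2)³`.
-/

namespace Pool.Agent.X162.PolyNotEff

open Matrix
open scoped Pointwise

/-- An integer vector seen as a real vector. -/
def toReal {d : ℕ} (v : Fin d → ℤ) : Fin d → ℝ := fun i => (v i : ℝ)

/-- An action of the group `G` on `ℤ^d` by affine lattice automorphisms
`v ↦ lin g v + trans g` (each `lin g` is invertible, because `G` is a group). -/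
structure LatticeAction (G : Type) [Group G] (d : ℕ) where
  /-- the linear parts, i.e. the representation `ρ` -/
  lin : G →* Matrix (Fin d) (Fin d) ℤ
  /-- the translation parts -/
  trans : G → (Fin d → ℤ)
  trans_mul : ∀ g h, trans (g * h) = lin g *ᵥ trans h + trans g

/-- A `d`-dimensional lattice polytope in `ℝ^d`: the convex hull of a finite set of lattice
points, with nonempty interior. -/
def IsLatticePolytope {d : ℕ} (P : Set (Fin d → ℝ)) : Prop :=
  (∃ S : Finset (Fin d → ℤ), P = convexHull ℝ (toReal '' (S : Set (Fin d → ℤ)))) ∧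
    (interior P).Nonempty

/-- The action maps `P` onto itself. -/
def Preserves {G : Type} [Group G] {d : ℕ} (α : LatticeAction G d) (P : Set (Fin d → ℝ)) : Prop :=
  ∀ g, (fun x => (α.lin g).map (Int.cast : ℤ → ℝ) *ᵥ x + toReal (α.trans g)) '' P = P

/-- The permutation character `χ_{mP}(g)`: the number of lattice points of `mP` fixed by `g`
(which acts on the lattice points of `mP` by `v ↦ lin g v + m • trans g`). -/
noncomputable def chi {G : Type} [Group G] {d : ℕ} (α : LatticeAction G d)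
    (P : Set (Fin d → ℝ)) (m : ℕ) (g : G) : ℕ :=
  Set.ncard {v : Fin d → ℤ | toReal v ∈ (m : ℝ) • P ∧ α.lin g *ᵥ v + (m : ℤ) • α.trans g = v}

/-- The equivariant `H*`-series evaluated at `g`:
`(∑ χ_{mP}(g) t^m) (1 - t) det (I - t ρ(g))`. -/
noncomputable def hstar {G : Type} [Group G] {d : ℕ} (α : LatticeAction G d)
    (P : Set (Fin d → ℝ)) (g : G) : PowerSeries ℤ :=
  PowerSeries.mk (fun m => (chi α P m g : ℤ)) *
    ((1 - PowerSeries.X) *
      Matrix.det (1 - (PowerSeries.X : PowerSeries ℤ) • (α.lin g).map (PowerSeries.C (R := ℤ))))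

/-- The class function `H*_i`. -/
noncomputable def hstarCoeff {G : Type} [Group G] {d : ℕ} (α : LatticeAction G d)
    (P : Set (Fin d → ℝ)) (i : ℕ) (g : G) : ℤ :=
  PowerSeries.coeff i (hstar α P g)

/-- `H*(t)` is polynomial: only finitely many `H*_i` are nonzero. -/
def IsPolynomial {G : Type} [Group G] {d : ℕ} (α : LatticeAction G d)
    (P : Set (Fin d → ℝ)) : Prop :=
  ∃ N : ℕ, ∀ i > N, ∀ g, hstarCoeff α P i g = 0

/-- `f` is the character of a genuine finite dimensional complex representation of `G`. -/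
def IsCharacter {G : Type} [Group G] (f : G → ℤ) : Prop :=
  ∃ (n : ℕ) (σ : Representation ℂ G (Fin n → ℂ)),
    ∀ g, LinearMap.trace ℂ (Fin n → ℂ) (σ g) = (f g : ℂ)

/-- `H*(t)` is effective: every `H*_i` is the character of a genuine representation. -/
def IsEffective {G : Type} [Group G] {d : ℕ} (α : LatticeAction G d)
    (P : Set (Fin d → ℝ)) : Prop :=
  ∀ i, IsCharacter (hstarCoeff α P i)

/-! ### The group and its action -/

/-- the group `(ℤ/2)³` -/
abbrev G8 : Type := ℤˣ × ℤˣ × ℤˣ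

/-- minus one on the first three coordinates -/
def matN : Matrix (Fin 4) (Fin 4) ℤ := !![-1,0,0,0; 0,-1,0,0; 0,0,-1,0; 0,0,0,1]
/-- swaps `e₁` and `e₂` -/
def matS : Matrix (Fin 4) (Fin 4) ℤ := !![0,1,0,0; 1,0,0,0; 0,0,1,0; 0,0,0,1]
/-- `e₁ ↦ -e₂`, `e₂ ↦ -e₁`, `e₃ ↦ e₁+e₂+e₃` -/
def matT : Matrix (Fin 4) (Fin 4) ℤ := !![0,-1,1,0; -1,0,1,0; 0,0,1,0; 0,0,0,1]

/-- the linear action -/
def mat (g : G8) : Matrix (Fin 4) (Fin 4) ℤ :=
  (if g.1 = 1 then 1 else matN) * (if g.2.1 = 1 then 1 else matS) *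
    (if g.2.2 = 1 then 1 else matT)

lemma mat_ppp : mat (1, 1, 1) = !![1,0,0,0; 0,1,0,0; 0,0,1,0; 0,0,0,1] := by decide
lemma mat_npp : mat (-1, 1, 1) = !![-1,0,0,0; 0,-1,0,0; 0,0,-1,0; 0,0,0,1] := by decide
lemma mat_pnp : mat (1, -1, 1) = !![0,1,0,0; 1,0,0,0; 0,0,1,0; 0,0,0,1] := by decide
lemma mat_nnp : mat (-1, -1, 1) = !![0,-1,0,0; -1,0,0,0; 0,0,-1,0; 0,0,0,1] := by decide
lemma mat_ppn : mat (1, 1, -1) = !![0,-1,1,0; -1,0,1,0; 0,0,1,0; 0,0,0,1] := by decide
lemma mat_npn : mat (-1, 1, -1) = !![0,1,-1,0; 1,0,-1,0; 0,0,-1,0; 0,0,0,1] := by decide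
lemma mat_pnn : mat (1, -1, -1) = !![-1,0,1,0; 0,-1,1,0; 0,0,1,0; 0,0,0,1] := by decide
lemma mat_nnn : mat (-1, -1, -1) = !![1,0,-1,0; 0,1,-1,0; 0,0,-1,0; 0,0,0,1] := by decide

lemma mat_one : mat 1 = 1 := by decide

lemma mat_mul (g h : G8) : mat (g * h) = mat g * mat h := by
  revert g h; decide +kernel

/-- the action of `G8` on `ℤ⁴` -/
def act : LatticeAction G8 4 where
  lin := { toFun := mat, map_one' := mat_one, map_mul' := mat_mul }
  trans := fun _ => 0
  trans_mul := by intro g h; simp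

lemma act_lin (g : G8) : act.lin g = mat g := rfl
lemma act_trans (g : G8) : act.trans g = 0 := rfl

/-- case distinction on the eight group elements -/
lemma G8_cases {p : G8 → Prop} (h1 : p (1, 1, 1)) (h2 : p (-1, 1, 1)) (h3 : p (1, -1, 1))
    (h4 : p (-1, -1, 1)) (h5 : p (1, 1, -1)) (h6 : p (-1, 1, -1)) (h7 : p (1, -1, -1))
    (h8 : p (-1, -1, -1)) : ∀ g, p g := by
  rintro ⟨a, b, c⟩
  rcases Int.units_eq_one_or a with rfl | rfl <;> rcases Int.units_eq_one_or b with rfl | rfl <;>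
    rcases Int.units_eq_one_or c with rfl | rfl <;> assumption

/-! ### A virtual character that is not a character -/

/-- the sign character with kernel `{1, -T, ST, -S}` -/
def sgn (g : G8) : ℤ := (g.1 * g.2.1 * g.2.2 : ℤˣ)

lemma sgn_mul (g h : G8) : sgn (g * h) = sgn g * sgn h := by
  revert g h; decide

lemma not_isCharacter (f : G8 → ℤ) (hf : ∑ g, sgn g * f g = -8) : ¬ IsCharacter f := by
  rintro ⟨n, σ, hσ⟩
  let τ : Representation ℂ G8 (Fin n → ℂ) :=
    { toFun := fun g => ((sgn g : ℤ) : ℂ) • σ g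
      map_one' := by
        have : sgn 1 = 1 := by decide
        simp [this]
      map_mul' := by
        intro g h
        rw [sgn_mul, map_mul]
        ext v
        simp only [LinearMap.smul_apply, Module.End.mul_apply, LinearMap.coe_comp, Function.comp_apply,
          LinearMap.coe_single, map_smul, Pi.smul_apply, smul_eq_mul, Int.cast_mul]
        ring }
  have hτ : ∀ g, τ g = ((sgn g : ℤ) : ℂ) • σ g := fun g => rfl
  have hc : Fintype.card G8 = 8 := by decide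
  have : Invertible (Fintype.card G8 : ℂ) := invertibleOfNonzero (by rw [hc]; norm_num)
  have h1 := (τ.isProj_averageMap).trace
  have h2 : LinearMap.trace ℂ (Fin n → ℂ) τ.averageMap = -1 := by
    have h3 : τ.averageMap = (⅟(Fintype.card G8 : ℂ)) • ∑ g, τ g := by
      simp [Representation.averageMap, GroupAlgebra.average, map_sum]
    rw [h3, map_smul, map_sum]
    have h4 : ∑ g, LinearMap.trace ℂ (Fin n → ℂ) (τ g) = ((∑ g, sgn g * f g : ℤ) : ℂ) := by
      push_cast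
      refine Finset.sum_congr rfl fun g _ => ?_
      rw [hτ, map_smul, hσ, smul_eq_mul]
    rw [h4, hf, invOf_eq_inv, hc]
    norm_num
  rw [h2] at h1
  have h5 : ((-1 : ℤ) : ℂ) = ((Module.finrank ℂ τ.invariants : ℤ) : ℂ) := by
    push_cast
    exact h1
  have h6 := Int.cast_injective h5
  omega

lemma no_rep {W : Type} [AddCommGroup W] [Module ℂ W] [FiniteDimensional ℂ W]
    (σ : Representation ℂ G8 W) (f : G8 → ℤ) (hf : ∑ g, sgn g * f g = -8)
    (hσ : ∀ g, LinearMap.trace ℂ W (σ g) = (f g : ℂ)) : False := by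
  let τ : Representation ℂ G8 W :=
    { toFun := fun g => ((sgn g : ℤ) : ℂ) • σ g
      map_one' := by
        have : sgn 1 = 1 := by decide
        simp [this]
      map_mul' := by
        intro g h
        rw [sgn_mul, map_mul]
        ext v
        simp only [LinearMap.smul_apply, Module.End.mul_apply, map_smul, Int.cast_mul, mul_smul]
        rw [smul_comm] }
  have hτ : ∀ g, τ g = ((sgn g : ℤ) : ℂ) • σ g := fun g => rfl
  have hc : Fintype.card G8 = 8 := by decide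
  have : Invertible (Fintype.card G8 : ℂ) := invertibleOfNonzero (by rw [hc]; norm_num)
  have h1 := (τ.isProj_averageMap).trace
  have h2 : LinearMap.trace ℂ W τ.averageMap = -1 := by
    have h3 : τ.averageMap = (⅟(Fintype.card G8 : ℂ)) • ∑ g, τ g := by
      simp [Representation.averageMap, GroupAlgebra.average, map_sum]
    rw [h3, map_smul, map_sum]
    have h4 : ∑ g, LinearMap.trace ℂ W (τ g) = ((∑ g, sgn g * f g : ℤ) : ℂ) := by
      push_cast
      refine Finset.sum_congr rfl fun g _ => ?_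
      rw [hτ, map_smul, hσ, smul_eq_mul]
    rw [h4, hf, invOf_eq_inv, hc]
    norm_num
  rw [h2] at h1
  have h5 : ((-1 : ℤ) : ℂ) = ((Module.finrank ℂ τ.invariants : ℤ) : ℂ) := by
    push_cast
    exact h1
  have h6 := Int.cast_injective h5
  omega

/-! ### The polytope -/

/-- the twelve linear inequalities `|L| + |p 3| ≤ c` for the three forms `L` -/
def Hrep (c : ℝ) (p : Fin 4 → ℝ) : Prop :=
  ((-p 0 + p 1 + p 2) + p 3 ≤ c ∧ (-p 0 + p 1 + p 2) - p 3 ≤ c ∧
    -(-p 0 + p 1 + p 2) + p 3 ≤ c ∧ -(-p 0 + p 1 + p 2) - p 3 ≤ c) ∧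
  ((p 0 - p 1 + p 2) + p 3 ≤ c ∧ (p 0 - p 1 + p 2) - p 3 ≤ c ∧
    -(p 0 - p 1 + p 2) + p 3 ≤ c ∧ -(p 0 - p 1 + p 2) - p 3 ≤ c) ∧
  ((p 0 + p 1 - p 2) + p 3 ≤ c ∧ (p 0 + p 1 - p 2) - p 3 ≤ c ∧
    -(p 0 + p 1 - p 2) + p 3 ≤ c ∧ -(p 0 + p 1 - p 2) - p 3 ≤ c)

/-- the vertices `±e₁, ±e₂, ±e₃, ±(e₁+e₂+e₃), ±e₄` -/
def verts : Finset (Fin 4 → ℤ) :=
  {![1,0,0,0], ![-1,0,0,0], ![0,1,0,0], ![0,-1,0,0], ![0,0,1,0], ![0,0,-1,0],
    ![1,1,1,0], ![-1,-1,-1,0], ![0,0,0,1], ![0,0,0,-1]}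

/-- the polytope -/
def P : Set (Fin 4 → ℝ) := convexHull ℝ (toReal '' (verts : Set (Fin 4 → ℤ)))

lemma convex_Hrep (c : ℝ) : Convex ℝ {p | Hrep c p} := by
  intro x hx y hy a b ha hb hab
  obtain ⟨⟨x1, x2, x3, x4⟩, ⟨x5, x6, x7, x8⟩, ⟨x9, x10, x11, x12⟩⟩ := hx
  obtain ⟨⟨y1, y2, y3, y4⟩, ⟨y5, y6, y7, y8⟩, ⟨y9, y10, y11, y12⟩⟩ := hy
  have hc : a * c + b * c = c := by rw [← add_mul, hab, one_mul]
  simp only [Set.mem_ofPred_eq, Hrep, Pi.add_apply, Pi.smul_apply, smul_eq_mul]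
  refine ⟨⟨?_, ?_, ?_, ?_⟩, ⟨?_, ?_, ?_, ?_⟩, ⟨?_, ?_, ?_, ?_⟩⟩
  · linarith [mul_le_mul_of_nonneg_left x1 ha, mul_le_mul_of_nonneg_left y1 hb]
  · linarith [mul_le_mul_of_nonneg_left x2 ha, mul_le_mul_of_nonneg_left y2 hb]
  · linarith [mul_le_mul_of_nonneg_left x3 ha, mul_le_mul_of_nonneg_left y3 hb]
  · linarith [mul_le_mul_of_nonneg_left x4 ha, mul_le_mul_of_nonneg_left y4 hb]
  · linarith [mul_le_mul_of_nonneg_left x5 ha, mul_le_mul_of_nonneg_left y5 hb]
  · linarith [mul_le_mul_of_nonneg_left x6 ha, mul_le_mul_of_nonneg_left y6 hb]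
  · linarith [mul_le_mul_of_nonneg_left x7 ha, mul_le_mul_of_nonneg_left y7 hb]
  · linarith [mul_le_mul_of_nonneg_left x8 ha, mul_le_mul_of_nonneg_left y8 hb]
  · linarith [mul_le_mul_of_nonneg_left x9 ha, mul_le_mul_of_nonneg_left y9 hb]
  · linarith [mul_le_mul_of_nonneg_left x10 ha, mul_le_mul_of_nonneg_left y10 hb]
  · linarith [mul_le_mul_of_nonneg_left x11 ha, mul_le_mul_of_nonneg_left y11 hb]
  · linarith [mul_le_mul_of_nonneg_left x12 ha, mul_le_mul_of_nonneg_left y12 hb]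

/-- the point with cube coordinates `x, y, z` and last coordinate `w` -/
noncomputable def pt (x y z w : ℝ) : Fin 4 → ℝ := ![(y + z) / 2, (x + z) / 2, (x + y) / 2, w]

lemma P_convex : Convex ℝ P := convex_convexHull ℝ _

lemma vert_mem {v : Fin 4 → ℤ} (hv : v ∈ verts) : toReal v ∈ P :=
  subset_convexHull ℝ _ ⟨v, hv, rfl⟩

lemma pt_vert {v : Fin 4 → ℤ} (hv : v ∈ verts) {x y z w : ℝ}
    (h : pt x y z w = toReal v) : pt x y z w ∈ P := h ▸ vert_mem hv

lemma toReal_vec (a b c d : ℤ) : toReal ![a, b, c, d] = ![(a : ℝ), (b : ℝ), (c : ℝ), (d : ℝ)] := by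
  ext i; fin_cases i <;> simp [toReal]

lemma pt_comb {x y z w x' y' z' w' a b : ℝ} (h : pt x y z w ∈ P) (h' : pt x' y' z' w' ∈ P)
    (ha : 0 ≤ a) (hb : 0 ≤ b) (hab : a + b = 1) {X Y Z W : ℝ} (hX : X = a * x + b * x')
    (hY : Y = a * y + b * y') (hZ : Z = a * z + b * z') (hW : W = a * w + b * w') :
    pt X Y Z W ∈ P := by
  have := P_convex h h' ha hb hab
  have e : a • pt x y z w + b • pt x' y' z' w' = pt X Y Z W := by
    subst hX hY hZ hW
    ext i
    fin_cases i <;> simp [pt] <;> ring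
  rwa [e] at this

lemma pt_cube_vert (x y z : ℝ) (hx : x = 1 ∨ x = -1) (hy : y = 1 ∨ y = -1)
    (hz : z = 1 ∨ z = -1) : pt x y z 0 ∈ P := by
  rcases hx with rfl | rfl <;> rcases hy with rfl | rfl <;> rcases hz with rfl | rfl
  · exact pt_vert (v := ![1,1,1,0]) (by decide) (by rw [toReal_vec]; norm_num [pt])
  · exact pt_vert (v := ![0,0,1,0]) (by decide) (by rw [toReal_vec]; norm_num [pt])
  · exact pt_vert (v := ![0,1,0,0]) (by decide) (by rw [toReal_vec]; norm_num [pt])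
  · exact pt_vert (v := ![-1,0,0,0]) (by decide) (by rw [toReal_vec]; norm_num [pt])
  · exact pt_vert (v := ![1,0,0,0]) (by decide) (by rw [toReal_vec]; norm_num [pt])
  · exact pt_vert (v := ![0,-1,0,0]) (by decide) (by rw [toReal_vec]; norm_num [pt])
  · exact pt_vert (v := ![0,0,-1,0]) (by decide) (by rw [toReal_vec]; norm_num [pt])
  · exact pt_vert (v := ![-1,-1,-1,0]) (by decide) (by rw [toReal_vec]; norm_num [pt])

lemma pt_cube1 (x y z : ℝ) (hx : |x| ≤ 1) (hy : y = 1 ∨ y = -1)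
    (hz : z = 1 ∨ z = -1) : pt x y z 0 ∈ P := by
  rw [abs_le] at hx
  exact pt_comb (a := (1 + x) / 2) (b := (1 - x) / 2)
    (pt_cube_vert 1 y z (Or.inl rfl) hy hz) (pt_cube_vert (-1) y z (Or.inr rfl) hy hz)
    (by linarith) (by linarith) (by ring) (by ring) (by ring) (by ring) (by ring)

lemma pt_cube2 (x y z : ℝ) (hx : |x| ≤ 1) (hy : |y| ≤ 1)
    (hz : z = 1 ∨ z = -1) : pt x y z 0 ∈ P := by
  rw [abs_le] at hy
  exact pt_comb (a := (1 + y) / 2) (b := (1 - y) / 2)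
    (pt_cube1 x 1 z hx (Or.inl rfl) hz) (pt_cube1 x (-1) z hx (Or.inr rfl) hz)
    (by linarith) (by linarith) (by ring) (by ring) (by ring) (by ring) (by ring)

lemma pt_cube3 (x y z : ℝ) (hx : |x| ≤ 1) (hy : |y| ≤ 1)
    (hz : |z| ≤ 1) : pt x y z 0 ∈ P := by
  rw [abs_le] at hz
  exact pt_comb (a := (1 + z) / 2) (b := (1 - z) / 2)
    (pt_cube2 x y 1 hx hy (Or.inl rfl)) (pt_cube2 x y (-1) hx hy (Or.inr rfl))
    (by linarith) (by linarith) (by ring) (by ring) (by ring) (by ring) (by ring)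

lemma pt_apex (w : ℝ) (hw : w = 1 ∨ w = -1) : pt 0 0 0 w ∈ P := by
  rcases hw with rfl | rfl
  · exact pt_vert (v := ![0,0,0,1]) (by decide) (by rw [toReal_vec]; norm_num [pt])
  · exact pt_vert (v := ![0,0,0,-1]) (by decide) (by rw [toReal_vec]; norm_num [pt])

lemma pt_mem (x y z w s : ℝ) (hs : s = 1 ∨ s = -1) (hw : 0 ≤ s * w) (hx : |x| + s * w ≤ 1)
    (hy : |y| + s * w ≤ 1) (hz : |z| + s * w ≤ 1) : pt x y z w ∈ P := by
  have hss : s * s = 1 := by rcases hs with rfl | rfl <;> norm_num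
  rcases eq_or_lt_of_le (show s * w ≤ 1 by linarith [abs_nonneg x]) with h1 | h1
  · have hx0 : x = 0 := by
      have : |x| ≤ 0 := by linarith
      exact abs_nonpos_iff.mp this
    have hy0 : y = 0 := by
      have : |y| ≤ 0 := by linarith
      exact abs_nonpos_iff.mp this
    have hz0 : z = 0 := by
      have : |z| ≤ 0 := by linarith
      exact abs_nonpos_iff.mp this
    have hws : w = s := by
      calc w = (s * s) * w := by rw [hss, one_mul]
        _ = s * (s * w) := by ring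
        _ = s := by rw [h1, mul_one]
    subst hx0 hy0 hz0 hws
    exact pt_apex _ hs
  · have hpos : 0 < 1 - s * w := by linarith
    have key : ∀ u : ℝ, |u| + s * w ≤ 1 → |u / (1 - s * w)| ≤ 1 := by
      intro u hu
      rw [abs_div, abs_of_pos hpos, div_le_one hpos]
      linarith
    refine pt_comb (a := 1 - s * w) (b := s * w)
      (pt_cube3 (x / (1 - s * w)) (y / (1 - s * w)) (z / (1 - s * w)) (key x hx) (key y hy)
        (key z hz)) (pt_apex s hs) hpos.le hw (by ring) ?_ ?_ ?_ ?_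
    · field_simp; ring
    · field_simp; ring
    · field_simp; ring
    · calc w = (s * s) * w := by rw [hss, one_mul]
        _ = _ := by ring

lemma P_eq : P = {p | Hrep 1 p} := by
  apply Set.Subset.antisymm
  · refine convexHull_min ?_ (convex_Hrep 1)
    rintro _ ⟨v, hv, rfl⟩
    simp only [verts, Finset.coe_insert, Finset.coe_singleton, Set.mem_insert_iff,
      Set.mem_singleton_iff] at hv
    rcases hv with rfl | rfl | rfl | rfl | rfl | rfl | rfl | rfl | rfl | rfl <;>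
      rw [toReal_vec] <;> simp [Hrep]
  · intro p hp
    obtain ⟨⟨x1, x2, x3, x4⟩, ⟨x5, x6, x7, x8⟩, ⟨x9, x10, x11, x12⟩⟩ := hp
    have hpt : p = pt (-p 0 + p 1 + p 2) (p 0 - p 1 + p 2) (p 0 + p 1 - p 2) (p 3) := by
      ext i
      fin_cases i <;> simp [pt] <;> ring
    rw [hpt]
    rcases le_total 0 (p 3) with h | h
    · refine pt_mem _ _ _ _ 1 (Or.inl rfl) (by linarith) ?_ ?_ ?_
      · rw [← le_sub_iff_add_le, abs_le]; constructor <;> linarith
      · rw [← le_sub_iff_add_le, abs_le]; constructor <;> linarith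
      · rw [← le_sub_iff_add_le, abs_le]; constructor <;> linarith
    · refine pt_mem _ _ _ _ (-1) (Or.inr rfl) (by linarith) ?_ ?_ ?_
      · rw [← le_sub_iff_add_le, abs_le]; constructor <;> linarith
      · rw [← le_sub_iff_add_le, abs_le]; constructor <;> linarith
      · rw [← le_sub_iff_add_le, abs_le]; constructor <;> linarith

lemma mem_P_iff (p : Fin 4 → ℝ) : p ∈ P ↔ Hrep 1 p := by rw [P_eq]; rfl

lemma P_lattice : IsLatticePolytope P := by
  refine ⟨⟨verts, rfl⟩, 0, ?_⟩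
  rw [mem_interior_iff_mem_nhds]
  refine Filter.mem_of_superset (Metric.ball_mem_nhds (0 : Fin 4 → ℝ) (show (0:ℝ) < 1 / 8 by norm_num)) ?_
  intro p hp
  rw [mem_P_iff]
  rw [mem_ball_zero_iff, pi_norm_lt_iff (by norm_num)] at hp
  have h0 := abs_lt.mp (hp 0)
  have h1 := abs_lt.mp (hp 1)
  have h2 := abs_lt.mp (hp 2)
  have h3 := abs_lt.mp (hp 3)
  refine ⟨⟨?_, ?_, ?_, ?_⟩, ⟨?_, ?_, ?_, ?_⟩, ⟨?_, ?_, ?_, ?_⟩⟩ <;> linarith

/-- `Hrep` for integer vectors -/
def HrepZ (c : ℤ) (p : Fin 4 → ℤ) : Prop :=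
  ((-p 0 + p 1 + p 2) + p 3 ≤ c ∧ (-p 0 + p 1 + p 2) - p 3 ≤ c ∧
    -(-p 0 + p 1 + p 2) + p 3 ≤ c ∧ -(-p 0 + p 1 + p 2) - p 3 ≤ c) ∧
  ((p 0 - p 1 + p 2) + p 3 ≤ c ∧ (p 0 - p 1 + p 2) - p 3 ≤ c ∧
    -(p 0 - p 1 + p 2) + p 3 ≤ c ∧ -(p 0 - p 1 + p 2) - p 3 ≤ c) ∧
  ((p 0 + p 1 - p 2) + p 3 ≤ c ∧ (p 0 + p 1 - p 2) - p 3 ≤ c ∧
    -(p 0 + p 1 - p 2) + p 3 ≤ c ∧ -(p 0 + p 1 - p 2) - p 3 ≤ c)

lemma Hrep_toReal (m : ℕ) (v : Fin 4 → ℤ) : Hrep m (toReal v) ↔ HrepZ m v := by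
  unfold Hrep HrepZ toReal
  norm_cast

lemma mem_smul_P (m : ℕ) (v : Fin 4 → ℤ) : toReal v ∈ (m : ℝ) • P ↔ HrepZ m v := by
  rw [← Hrep_toReal]
  rcases Nat.eq_zero_or_pos m with rfl | hm
  · have hne : P.Nonempty := ⟨_, vert_mem (v := ![1,0,0,0]) (by decide)⟩
    rw [Nat.cast_zero, Set.zero_smul_set hne, Set.mem_zero]
    constructor
    · intro h; rw [h]; simp [Hrep]
    · rintro ⟨⟨x1, x2, x3, x4⟩, ⟨x5, x6, x7, x8⟩, ⟨x9, x10, x11, x12⟩⟩
      ext i
      fin_cases i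
      · show toReal v 0 = 0; linarith
      · show toReal v 1 = 0; linarith
      · show toReal v 2 = 0; linarith
      · show toReal v 3 = 0; linarith
  · have hm' : (0 : ℝ) < m := by exact_mod_cast hm
    rw [Set.mem_smul_set_iff_inv_smul_mem₀ hm'.ne', mem_P_iff]
    have e : ∀ L : ℝ, (m : ℝ)⁻¹ * L ≤ 1 ↔ L ≤ m := by
      intro L
      rw [inv_mul_le_iff₀ hm', mul_one]
    unfold Hrep
    simp only [Pi.smul_apply, smul_eq_mul]
    constructor
    · rintro ⟨⟨x1, x2, x3, x4⟩, ⟨x5, x6, x7, x8⟩, ⟨x9, x10, x11, x12⟩⟩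
      refine ⟨⟨?_, ?_, ?_, ?_⟩, ⟨?_, ?_, ?_, ?_⟩, ⟨?_, ?_, ?_, ?_⟩⟩ <;> rw [← e] <;> linarith
    · rintro ⟨⟨x1, x2, x3, x4⟩, ⟨x5, x6, x7, x8⟩, ⟨x9, x10, x11, x12⟩⟩
      rw [← e] at x1 x2 x3 x4 x5 x6 x7 x8 x9 x10 x11 x12
      refine ⟨⟨?_, ?_, ?_, ?_⟩, ⟨?_, ?_, ?_, ?_⟩, ⟨?_, ?_, ?_, ?_⟩⟩ <;> linarith

lemma mapsTo_P : ∀ g : G8, ∀ x ∈ P, (mat g).map (Int.cast : ℤ → ℝ) *ᵥ x ∈ P := by
  intro g
  simp only [mem_P_iff]
  revert g
  refine G8_cases ?_ ?_ ?_ ?_ ?_ ?_ ?_ ?_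
  all_goals
    intro x hx
    obtain ⟨⟨x1, x2, x3, x4⟩, ⟨x5, x6, x7, x8⟩, ⟨x9, x10, x11, x12⟩⟩ := hx
    simp only [mat_ppp, mat_npp, mat_pnp, mat_nnp, mat_ppn, mat_npn, mat_pnn, mat_nnn, Hrep,
      Matrix.mulVec, dotProduct, Fin.sum_univ_four, Matrix.map_apply, Matrix.of_apply,
      Matrix.cons_val', Matrix.cons_val, Int.cast_zero, Int.cast_one, Int.cast_neg]
    refine ⟨⟨?_, ?_, ?_, ?_⟩, ⟨?_, ?_, ?_, ?_⟩, ⟨?_, ?_, ?_, ?_⟩⟩ <;> linarith

lemma mat_sq (g : G8) : mat g * mat g = 1 := by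
  revert g; decide +kernel

lemma preserves_P : Preserves act P := by
  intro g
  have h0 : (fun x => (act.lin g).map (Int.cast : ℤ → ℝ) *ᵥ x + toReal (act.trans g)) =
      fun x => (mat g).map (Int.cast : ℤ → ℝ) *ᵥ x := by
    funext x
    rw [act_lin, act_trans]
    have : toReal (0 : Fin 4 → ℤ) = 0 := by ext i; simp [toReal]
    rw [this, add_zero]
  rw [h0]
  apply Set.Subset.antisymm
  · rintro _ ⟨x, hx, rfl⟩
    exact mapsTo_P g x hx
  · intro x hx
    refine ⟨(mat g).map (Int.cast : ℤ → ℝ) *ᵥ x, mapsTo_P g x hx, ?_⟩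
    show (mat g).map (Int.cast : ℤ → ℝ) *ᵥ ((mat g).map (Int.cast : ℤ → ℝ) *ᵥ x) = x
    rw [Matrix.mulVec_mulVec]
    have h1 : (mat g).map (Int.cast : ℤ → ℝ) * (mat g).map (Int.cast : ℤ → ℝ) = 1 := by
      have := congrArg (fun M => M.map (Int.castRingHom ℝ)) (mat_sq g)
      simp only [Matrix.map_mul] at this
      simpa using this
    rw [h1, Matrix.one_mulVec]

/-! ### Counting lattice points -/

/-- the sum over the slices at height `w`, `-m ≤ w ≤ m` -/
noncomputable def E (F : ℕ → ℕ) (m : ℕ) : ℕ := ∑ w ∈ Finset.Icc (-(m : ℤ)) m, F (m - w.natAbs)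

lemma sum_abs (h : ℕ → ℕ) (m : ℕ) :
    ∑ w ∈ Finset.Icc (-(m : ℤ)) m, h w.natAbs = h 0 + 2 * ∑ i ∈ Finset.range m, h (i + 1) := by
  induction m with
  | zero => simp
  | succ m ih =>
    have h1 : Finset.Icc (-((m + 1 : ℕ) : ℤ)) ((m + 1 : ℕ) : ℤ) =
        insert (-((m + 1 : ℕ) : ℤ)) (insert ((m + 1 : ℕ) : ℤ) (Finset.Icc (-(m : ℤ)) m)) := by
      ext x
      simp only [Finset.mem_Icc, Finset.mem_insert]
      omega
    rw [h1, Finset.sum_insert, Finset.sum_insert, ih, Finset.sum_range_succ]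
    · have h2 : (-((m + 1 : ℕ) : ℤ)).natAbs = m + 1 := by omega
      have h3 : (((m + 1 : ℕ) : ℤ)).natAbs = m + 1 := by omega
      rw [h2, h3]
      ring
    · simp only [Finset.mem_Icc]; omega
    · simp only [Finset.mem_Icc, Finset.mem_insert]; omega

lemma E_eq (F : ℕ → ℕ) (m : ℕ) : E F m = F m + 2 * ∑ j ∈ Finset.range m, F j := by
  have h := sum_abs (fun i => F (m - i)) m
  unfold E
  rw [h, Nat.sub_zero, ← Finset.sum_range_reflect F m]
  congr 2
  refine Finset.sum_congr rfl fun i _ => ?_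
  congr 1
  omega

lemma E_zero (F : ℕ → ℕ) : E F 0 = F 0 := by rw [E_eq]; simp

lemma E_succ (F : ℕ → ℕ) (m : ℕ) : E F (m + 1) = E F m + F (m + 1) + F m := by
  rw [E_eq, E_eq, Finset.sum_range_succ]; ring

lemma ncard_slices {β : Type} (T : ℕ → Finset β) (f : (Σ _ : ℤ, β) → (Fin 4 → ℤ)) (m : ℕ)
    (hf : Function.Injective f) (S : Set (Fin 4 → ℤ))
    (hS : S = f '' (((Finset.Icc (-(m : ℤ)) m).sigma fun w => T (m - w.natAbs) :
      Finset (Σ _ : ℤ, β)) : Set (Σ _ : ℤ, β))) :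
    S.ncard = E (fun j => (T j).card) m := by
  rw [hS, Set.ncard_image_of_injective _ hf, Set.ncard_coe_finset, Finset.card_sigma]
  rfl

/-- halves of the even numbers in `[-j, j]` -/
noncomputable def EE (j : ℕ) : Finset ℤ := Finset.Icc (-((j / 2 : ℕ) : ℤ)) ((j / 2 : ℕ) : ℤ)
/-- integers `p` with `2p+1` in `[-j, j]` -/
noncomputable def OO (j : ℕ) : Finset ℤ := Finset.Icc (-(((j + 1) / 2 : ℕ) : ℤ)) ((((j + 1) / 2 : ℕ) : ℤ) - 1)

lemma card_EE (j : ℕ) : (EE j).card = 2 * (j / 2) + 1 := by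
  unfold EE; rw [Int.card_Icc]; omega
lemma card_OO (j : ℕ) : (OO j).card = 2 * ((j + 1) / 2) := by
  unfold OO; rw [Int.card_Icc]; omega

/-- the set counted by `chi` -/
lemma chi_eq (m : ℕ) (g : G8) :
    chi act P m g = Set.ncard {v : Fin 4 → ℤ | HrepZ m v ∧ mat g *ᵥ v = v} := by
  unfold chi
  congr 1
  ext v
  simp only [Set.mem_ofPred_eq, mem_smul_P, act_lin, act_trans, smul_zero, add_zero]

lemma fix_ppp (v : Fin 4 → ℤ) : mat (1, 1, 1) *ᵥ v = v ↔ True := by
  rw [mat_ppp]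
  simp only [iff_true]
  ext i
  fin_cases i <;> simp [Matrix.mulVec, dotProduct, Fin.sum_univ_four]

lemma fix_npp (v : Fin 4 → ℤ) : mat (-1, 1, 1) *ᵥ v = v ↔ v 0 = 0 ∧ v 1 = 0 ∧ v 2 = 0 := by
  rw [mat_npp]
  constructor
  · intro h
    have h0 := congrFun h 0
    have h1 := congrFun h 1
    have h2 := congrFun h 2
    simp [Matrix.mulVec, dotProduct, Fin.sum_univ_four] at h0 h1 h2
    omega
  · rintro ⟨h0, h1, h2⟩
    ext i
    fin_cases i <;> simp [Matrix.mulVec, dotProduct, Fin.sum_univ_four] <;> omega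

lemma fix_pnp (v : Fin 4 → ℤ) : mat (1, -1, 1) *ᵥ v = v ↔ v 0 = v 1 := by
  rw [mat_pnp]
  constructor
  · intro h
    have h0 := congrFun h 0
    have h1 := congrFun h 1
    simp [Matrix.mulVec, dotProduct, Fin.sum_univ_four] at h0 h1
    omega
  · intro h0
    ext i
    fin_cases i <;> simp [Matrix.mulVec, dotProduct, Fin.sum_univ_four] <;> omega

lemma fix_nnp (v : Fin 4 → ℤ) : mat (-1, -1, 1) *ᵥ v = v ↔ v 0 = - v 1 ∧ v 2 = 0 := by
  rw [mat_nnp]
  constructor
  · intro h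
    have h0 := congrFun h 0
    have h1 := congrFun h 1
    have h2 := congrFun h 2
    simp [Matrix.mulVec, dotProduct, Fin.sum_univ_four] at h0 h1 h2
    omega
  · rintro ⟨h0, h1⟩
    ext i
    fin_cases i <;> simp [Matrix.mulVec, dotProduct, Fin.sum_univ_four] <;> omega

lemma fix_ppn (v : Fin 4 → ℤ) : mat (1, 1, -1) *ᵥ v = v ↔ v 2 = v 0 + v 1 := by
  rw [mat_ppn]
  constructor
  · intro h
    have h0 := congrFun h 0
    have h1 := congrFun h 1
    have h2 := congrFun h 2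
    simp [Matrix.mulVec, dotProduct, Fin.sum_univ_four] at h0 h1 h2
    omega
  · intro h0
    ext i
    fin_cases i <;> simp [Matrix.mulVec, dotProduct, Fin.sum_univ_four] <;> omega

lemma fix_npn (v : Fin 4 → ℤ) : mat (-1, 1, -1) *ᵥ v = v ↔ v 0 = v 1 ∧ v 2 = 0 := by
  rw [mat_npn]
  constructor
  · intro h
    have h0 := congrFun h 0
    have h1 := congrFun h 1
    have h2 := congrFun h 2
    simp [Matrix.mulVec, dotProduct, Fin.sum_univ_four] at h0 h1 h2
    omega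
  · rintro ⟨h0, h1⟩
    ext i
    fin_cases i <;> simp [Matrix.mulVec, dotProduct, Fin.sum_univ_four] <;> omega

lemma fix_pnn (v : Fin 4 → ℤ) : mat (1, -1, -1) *ᵥ v = v ↔ v 0 = v 1 ∧ v 2 = 2 * v 0 := by
  rw [mat_pnn]
  constructor
  · intro h
    have h0 := congrFun h 0
    have h1 := congrFun h 1
    have h2 := congrFun h 2
    simp [Matrix.mulVec, dotProduct, Fin.sum_univ_four] at h0 h1 h2
    omega
  · rintro ⟨h0, h1⟩
    ext i
    fin_cases i <;> simp [Matrix.mulVec, dotProduct, Fin.sum_univ_four] <;> omega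

lemma fix_nnn (v : Fin 4 → ℤ) : mat (-1, -1, -1) *ᵥ v = v ↔ v 2 = 0 := by
  rw [mat_nnn]
  constructor
  · intro h
    have h0 := congrFun h 0
    have h1 := congrFun h 1
    have h2 := congrFun h 2
    simp [Matrix.mulVec, dotProduct, Fin.sum_univ_four] at h0 h1 h2
    omega
  · intro h0
    ext i
    fin_cases i <;> simp [Matrix.mulVec, dotProduct, Fin.sum_univ_four] <;> omega

lemma chi_npp (m : ℕ) : chi act P m (-1, 1, 1) = E (fun _ => 1) m := by
  rw [chi_eq]
  rw [ncard_slices (fun _ => ({()} : Finset Unit)) (fun s => ![0, 0, 0, s.1]) m]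
  · simp
  · rintro ⟨w, a⟩ ⟨w', a'⟩ h
    have := congrFun h 3
    simp at this
    subst this
    rfl
  · ext v
    simp only [Set.mem_ofPred_eq, fix_npp, HrepZ, Set.mem_image, Finset.mem_coe, Finset.mem_sigma,
      Finset.mem_Icc, Finset.mem_singleton]
    constructor
    · rintro ⟨h, h0, h1, h2⟩
      refine ⟨⟨v 3, ()⟩, ⟨⟨?_, ?_⟩, trivial⟩, ?_⟩
      · show -(m : ℤ) ≤ v 3
        omega
      · show v 3 ≤ (m : ℤ)
        omega
      · ext i
        fin_cases i <;> simp <;> omega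
    · rintro ⟨⟨w, a⟩, ⟨⟨h1, h2⟩, -⟩, rfl⟩
      simp only at h1 h2
      simp
      omega

lemma chi_npn (m : ℕ) : chi act P m (-1, 1, -1) = E (fun j => 2 * (j / 2) + 1) m := by
  rw [chi_eq]
  rw [ncard_slices EE (fun s => ![s.2, s.2, 0, s.1]) m]
  · simp only [card_EE]
  · rintro ⟨w, a⟩ ⟨w', a'⟩ h
    have h3 := congrFun h 3
    have h0 := congrFun h 0
    simp at h3 h0
    subst h3 h0
    rfl
  · ext v
    simp only [Set.mem_ofPred_eq, fix_npn, HrepZ, Set.mem_image, Finset.mem_coe,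
      Finset.mem_sigma, EE, Finset.mem_Icc]
    constructor
    · rintro ⟨h, h0, h1⟩
      refine ⟨⟨v 3, v 0⟩, ⟨?_, ?_⟩, ?_⟩
      · simp only; omega
      · simp only; omega
      · ext i
        fin_cases i <;> simp <;> omega
    · rintro ⟨⟨w, a⟩, ⟨h1, h2⟩, rfl⟩
      simp only at h1 h2
      simp
      omega

lemma chi_pnn (m : ℕ) : chi act P m (1, -1, -1) = E (fun j => 2 * (j / 2) + 1) m := by
  rw [chi_eq]
  rw [ncard_slices EE (fun s => ![s.2, s.2, 2 * s.2, s.1]) m]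
  · simp only [card_EE]
  · rintro ⟨w, a⟩ ⟨w', a'⟩ h
    have h3 := congrFun h 3
    have h0 := congrFun h 0
    simp at h3 h0
    subst h3 h0
    rfl
  · ext v
    simp only [Set.mem_ofPred_eq, fix_pnn, HrepZ, Set.mem_image, Finset.mem_coe,
      Finset.mem_sigma, EE, Finset.mem_Icc]
    constructor
    · rintro ⟨h, h0, h1⟩
      refine ⟨⟨v 3, v 0⟩, ⟨?_, ?_⟩, ?_⟩
      · simp only; omega
      · simp only; omega
      · ext i
        fin_cases i <;> simp <;> omega
    · rintro ⟨⟨w, a⟩, ⟨h1, h2⟩, rfl⟩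
      simp only at h1 h2
      simp
      omega

lemma chi_nnp (m : ℕ) : chi act P m (-1, -1, 1) = E (fun j => 2 * (j / 2) + 1) m := by
  rw [chi_eq]
  rw [ncard_slices EE (fun s => ![-s.2, s.2, 0, s.1]) m]
  · simp only [card_EE]
  · rintro ⟨w, a⟩ ⟨w', a'⟩ h
    have h3 := congrFun h 3
    have h0 := congrFun h 1
    simp at h3 h0
    subst h3 h0
    rfl
  · ext v
    simp only [Set.mem_ofPred_eq, fix_nnp, HrepZ, Set.mem_image, Finset.mem_coe,
      Finset.mem_sigma, EE, Finset.mem_Icc]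
    constructor
    · rintro ⟨h, h0, h1⟩
      refine ⟨⟨v 3, v 1⟩, ⟨?_, ?_⟩, ?_⟩
      · simp only; omega
      · simp only; omega
      · ext i
        fin_cases i <;> simp <;> omega
    · rintro ⟨⟨w, a⟩, ⟨h1, h2⟩, rfl⟩
      simp only at h1 h2
      simp
      omega

lemma chi_ppn (m : ℕ) :
    chi act P m (1, 1, -1) = E (fun j => (2 * (j / 2) + 1) * (2 * (j / 2) + 1)) m := by
  rw [chi_eq]
  rw [ncard_slices (fun j => EE j ×ˢ EE j) (fun s => ![s.2.2, s.2.1, s.2.1 + s.2.2, s.1]) m]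
  · simp only [Finset.card_product, card_EE]
  · rintro ⟨w, a, b⟩ ⟨w', a', b'⟩ h
    have h3 := congrFun h 3
    have h0 := congrFun h 0
    have h1 := congrFun h 1
    simp at h3 h0 h1
    subst h3 h0 h1
    rfl
  · ext v
    simp only [Set.mem_ofPred_eq, fix_ppn, HrepZ, Set.mem_image, Finset.mem_coe,
      Finset.mem_sigma, EE, Finset.mem_product, Finset.mem_Icc]
    constructor
    · rintro ⟨h, h0⟩
      refine ⟨⟨v 3, v 1, v 0⟩, ⟨?_, ?_⟩, ?_⟩
      · simp only; omega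
      · simp only; omega
      · ext i
        fin_cases i <;> simp <;> omega
    · rintro ⟨⟨w, a, b⟩, ⟨h1, h2⟩, rfl⟩
      simp only at h1 h2
      simp
      omega

lemma chi_pnp (m : ℕ) :
    chi act P m (1, -1, 1) = E (fun j => (2 * (j / 2) + 1) * (2 * (j / 2) + 1) +
      (2 * ((j + 1) / 2)) * (2 * ((j + 1) / 2))) m := by
  rw [chi_eq]
  rw [ncard_slices (fun j => (EE j ×ˢ EE j).disjSum (OO j ×ˢ OO j))
    (fun s => match s.2 with
      | Sum.inl (p, q) => ![p + q, p + q, 2 * p, s.1]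
      | Sum.inr (p, q) => ![p + q + 1, p + q + 1, 2 * p + 1, s.1]) m]
  · simp only [Finset.card_disjSum, Finset.card_product, card_EE, card_OO]
  · rintro ⟨w, ⟨p, q⟩ | ⟨p, q⟩⟩ ⟨w', ⟨p', q'⟩ | ⟨p', q'⟩⟩ h
    · have h3 := congrFun h 3
      have h0 := congrFun h 0
      have h2 := congrFun h 2
      simp at h3 h0 h2
      subst h3 h2
      obtain rfl : q = q' := by omega
      rfl
    · have h2 := congrFun h 2
      simp at h2
      omega
    · have h2 := congrFun h 2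
      simp at h2
      omega
    · have h3 := congrFun h 3
      have h0 := congrFun h 0
      have h2 := congrFun h 2
      simp at h3 h0 h2
      subst h3 h2
      obtain rfl : q = q' := by omega
      rfl
  · ext v
    simp only [Set.mem_ofPred_eq, fix_pnp, HrepZ, Set.mem_image, Finset.mem_coe,
      Finset.mem_sigma, EE, OO, Finset.mem_disjSum, Finset.mem_product, Finset.mem_Icc]
    constructor
    · rintro ⟨h, h0⟩
      rcases Int.even_or_odd' (v 2) with ⟨k, hk | hk⟩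
      · refine ⟨⟨v 3, Sum.inl (k, v 0 - k)⟩, ⟨?_, Or.inl ⟨_, ?_, rfl⟩⟩, ?_⟩
        · simp only; omega
        · simp only; omega
        · ext i
          fin_cases i <;> simp <;> omega
      · refine ⟨⟨v 3, Sum.inr (k, v 0 - k - 1)⟩, ⟨?_, Or.inr ⟨_, ?_, rfl⟩⟩, ?_⟩
        · simp only; omega
        · simp only; omega
        · ext i
          fin_cases i <;> simp <;> omega
    · rintro ⟨⟨w, ⟨p, q⟩ | ⟨p, q⟩⟩, ⟨h1, h2⟩, rfl⟩
      · rcases h2 with ⟨_, h2, h4⟩ | ⟨_, h2, h4⟩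
        · cases h4
          simp only at h1 h2
          simp
          omega
        · cases h4
      · rcases h2 with ⟨_, h2, h4⟩ | ⟨_, h2, h4⟩
        · cases h4
        · cases h4
          simp only at h1 h2
          simp
          omega

lemma chi_nnn (m : ℕ) :
    chi act P m (-1, -1, -1) = E (fun j => (2 * (j / 2) + 1) * (2 * (j / 2) + 1) +
      (2 * ((j + 1) / 2)) * (2 * ((j + 1) / 2))) m := by
  rw [chi_eq]
  rw [ncard_slices (fun j => (EE j ×ˢ EE j).disjSum (OO j ×ˢ OO j))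
    (fun s => match s.2 with
      | Sum.inl (p, q) => ![q - p, p + q, 0, s.1]
      | Sum.inr (p, q) => ![q - p, p + q + 1, 0, s.1]) m]
  · simp only [Finset.card_disjSum, Finset.card_product, card_EE, card_OO]
  · rintro ⟨w, ⟨p, q⟩ | ⟨p, q⟩⟩ ⟨w', ⟨p', q'⟩ | ⟨p', q'⟩⟩ h
    · have h3 := congrFun h 3
      have h0 := congrFun h 0
      have h2 := congrFun h 1
      simp at h3 h0 h2
      subst h3
      obtain rfl : q = q' := by omega
      obtain rfl : p = p' := by omega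
      rfl
    · have h2 := congrFun h 1
      have h0 := congrFun h 0
      simp at h2 h0
      omega
    · have h2 := congrFun h 1
      have h0 := congrFun h 0
      simp at h2 h0
      omega
    · have h3 := congrFun h 3
      have h0 := congrFun h 0
      have h2 := congrFun h 1
      simp at h3 h0 h2
      subst h3
      obtain rfl : q = q' := by omega
      obtain rfl : p = p' := by omega
      rfl
  · ext v
    simp only [Set.mem_ofPred_eq, fix_nnn, HrepZ, Set.mem_image, Finset.mem_coe,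
      Finset.mem_sigma, EE, OO, Finset.mem_disjSum, Finset.mem_product, Finset.mem_Icc]
    constructor
    · rintro ⟨h, h0⟩
      rcases Int.even_or_odd' (v 0 + v 1) with ⟨k, hk | hk⟩
      · refine ⟨⟨v 3, Sum.inl (k - v 0, k)⟩, ⟨?_, Or.inl ⟨_, ?_, rfl⟩⟩, ?_⟩
        · simp only; omega
        · simp only; omega
        · ext i
          fin_cases i <;> simp <;> omega
      · refine ⟨⟨v 3, Sum.inr (k - v 0, k)⟩, ⟨?_, Or.inr ⟨_, ?_, rfl⟩⟩, ?_⟩
        · simp only; omega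
        · simp only; omega
        · ext i
          fin_cases i <;> simp <;> omega
    · rintro ⟨⟨w, ⟨p, q⟩ | ⟨p, q⟩⟩, ⟨h1, h2⟩, rfl⟩
      · rcases h2 with ⟨_, h2, h4⟩ | ⟨_, h2, h4⟩
        · cases h4
          simp only at h1 h2
          simp
          omega
        · cases h4
      · rcases h2 with ⟨_, h2, h4⟩ | ⟨_, h2, h4⟩
        · cases h4
        · cases h4
          simp only at h1 h2
          simp
          omega

lemma chi_ppp (m : ℕ) :
    chi act P m (1, 1, 1) =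
      E (fun j => (2 * (j / 2) + 1) * ((2 * (j / 2) + 1) * (2 * (j / 2) + 1)) +
      (2 * ((j + 1) / 2)) * ((2 * ((j + 1) / 2)) * (2 * ((j + 1) / 2)))) m := by
  rw [chi_eq]
  rw [ncard_slices (fun j => (EE j ×ˢ EE j ×ˢ EE j).disjSum (OO j ×ˢ OO j ×ˢ OO j))
    (fun s => match s.2 with
      | Sum.inl (p, q, r) => ![q + r, p + r, p + q, s.1]
      | Sum.inr (p, q, r) => ![q + r + 1, p + r + 1, p + q + 1, s.1]) m]
  · simp only [Finset.card_disjSum, Finset.card_product, card_EE, card_OO]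
  · rintro ⟨w, ⟨p, q, r⟩ | ⟨p, q, r⟩⟩ ⟨w', ⟨p', q', r'⟩ | ⟨p', q', r'⟩⟩ h
    · have h3 := congrFun h 3
      have h0 := congrFun h 0
      have h1 := congrFun h 1
      have h2 := congrFun h 2
      simp at h3 h0 h1 h2
      subst h3
      obtain rfl : q = q' := by omega
      obtain rfl : p = p' := by omega
      obtain rfl : r = r' := by omega
      rfl
    · have h0 := congrFun h 0
      have h1 := congrFun h 1
      have h2 := congrFun h 2
      simp at h0 h1 h2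
      omega
    · have h0 := congrFun h 0
      have h1 := congrFun h 1
      have h2 := congrFun h 2
      simp at h0 h1 h2
      omega
    · have h3 := congrFun h 3
      have h0 := congrFun h 0
      have h1 := congrFun h 1
      have h2 := congrFun h 2
      simp at h3 h0 h1 h2
      subst h3
      obtain rfl : q = q' := by omega
      obtain rfl : p = p' := by omega
      obtain rfl : r = r' := by omega
      rfl
  · ext v
    simp only [Set.mem_ofPred_eq, fix_ppp, and_true, HrepZ, Set.mem_image, Finset.mem_coe,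
      Finset.mem_sigma, EE, OO, Finset.mem_disjSum, Finset.mem_product, Finset.mem_Icc]
    constructor
    · intro h
      rcases Int.even_or_odd' (v 0 + v 1 + v 2) with ⟨k, hk | hk⟩
      · refine ⟨⟨v 3, Sum.inl (k - v 0, k - v 1, k - v 2)⟩, ⟨?_, Or.inl ⟨_, ?_, rfl⟩⟩, ?_⟩
        · simp only; omega
        · simp only; omega
        · ext i
          fin_cases i <;> simp <;> omega
      · refine ⟨⟨v 3, Sum.inr (k - v 0, k - v 1, k - v 2)⟩, ⟨?_, Or.inr ⟨_, ?_, rfl⟩⟩, ?_⟩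
        · simp only; omega
        · simp only; omega
        · ext i
          fin_cases i <;> simp <;> omega
    · rintro ⟨⟨w, ⟨p, q, r⟩ | ⟨p, q, r⟩⟩, ⟨h1, h2⟩, rfl⟩
      · rcases h2 with ⟨_, h2, h4⟩ | ⟨_, h2, h4⟩
        · cases h4
          simp only at h1 h2
          simp
          omega
        · cases h4
      · rcases h2 with ⟨_, h2, h4⟩ | ⟨_, h2, h4⟩
        · cases h4
        · cases h4
          simp only at h1 h2
          simp
          omega

/-! ### The `H*`-series -/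

open PowerSeries in
lemma mk_E_mul (F : ℕ → ℕ) :
    PowerSeries.mk (fun m => (E F m : ℤ)) * (1 - X) =
      PowerSeries.mk (fun m => (F m : ℤ)) * (1 + X) := by
  ext n
  rw [mul_sub, mul_add, mul_one, mul_one, map_sub, map_add]
  rcases n with _ | n
  · rw [coeff_zero_mul_X, coeff_zero_mul_X, coeff_mk, coeff_mk, E_zero]
    ring
  · rw [coeff_succ_mul_X, coeff_succ_mul_X, coeff_mk, coeff_mk, coeff_mk, coeff_mk, E_succ]
    push_cast
    ring

open PowerSeries in
/-- the polynomial with the six given coefficients -/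
noncomputable def poly5 (c0 c1 c2 c3 c4 c5 : ℤ) : PowerSeries ℤ :=
  C c0 + C c1 * X + C c2 * X ^ 2 + C c3 * X ^ 3 + C c4 * X ^ 4 + C c5 * X ^ 5

open PowerSeries in
lemma coeff_mk_poly5 (f : ℕ → ℤ) (c0 c1 c2 c3 c4 c5 : ℤ) (d : ℕ) :
    coeff d (PowerSeries.mk f * poly5 c0 c1 c2 c3 c4 c5) =
      f d * c0 + (if 1 ≤ d then f (d - 1) * c1 else 0) + (if 2 ≤ d then f (d - 2) * c2 else 0) +
      (if 3 ≤ d then f (d - 3) * c3 else 0) + (if 4 ≤ d then f (d - 4) * c4 else 0) +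
      (if 5 ≤ d then f (d - 5) * c5 else 0) := by
  unfold poly5
  have hX : (X : PowerSeries ℤ) = X ^ 1 := (pow_one _).symm
  rw [mul_add, mul_add, mul_add, mul_add, mul_add, ← mul_assoc, ← mul_assoc, ← mul_assoc,
    ← mul_assoc, ← mul_assoc]
  simp only [map_add, coeff_mul_X_pow', coeff_mul_C, coeff_mk]
  congr 5
  nth_rewrite 1 [hX]
  rw [coeff_mul_X_pow']
  simp only [coeff_mul_C, coeff_mk]

/-- `(1 + t) det (1 - t A)` -/
noncomputable def den (A : Matrix (Fin 4) (Fin 4) ℤ) : PowerSeries ℤ :=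
  (1 + PowerSeries.X) * Matrix.det (1 - (PowerSeries.X : PowerSeries ℤ) •
    A.map (PowerSeries.C (R := ℤ)))

lemma hstar_coeff (g : G8) (F : ℕ → ℕ) {c0 c1 c2 c3 c4 c5 : ℤ}
    (hchi : ∀ m, chi act P m g = E F m) (hden : den (mat g) = poly5 c0 c1 c2 c3 c4 c5) (d : ℕ) :
    hstarCoeff act P d g = F d * c0 + (if 1 ≤ d then (F (d - 1) : ℤ) * c1 else 0) +
      (if 2 ≤ d then (F (d - 2) : ℤ) * c2 else 0) +
      (if 3 ≤ d then (F (d - 3) : ℤ) * c3 else 0) + (if 4 ≤ d then (F (d - 4) : ℤ) * c4 else 0) +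
      (if 5 ≤ d then (F (d - 5) : ℤ) * c5 else 0) := by
  unfold hstarCoeff hstar
  have h1 : (fun m => (chi act P m g : ℤ)) = fun m => (E F m : ℤ) := by
    funext m; rw [hchi]
  rw [h1, ← mul_assoc, mk_E_mul, mul_assoc]
  have h2 : (1 + PowerSeries.X) * Matrix.det (1 - (PowerSeries.X : PowerSeries ℤ) •
    (act.lin g).map (PowerSeries.C (R := ℤ))) = den (mat g) := rfl
  rw [h2, hden, coeff_mk_poly5]

lemma den_ppp : den (mat (1, 1, 1)) = poly5 1 (-3) 2 2 (-3) 1 := by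
  rw [mat_ppp]
  simp [den, poly5, Matrix.det_succ_row_zero, Fin.sum_univ_succ, Matrix.one_apply, Fin.succAbove]
  ring

lemma den_npp : den (mat (-1, 1, 1)) = poly5 1 3 2 (-2) (-3) (-1) := by
  rw [mat_npp]
  simp [den, poly5, Matrix.det_succ_row_zero, Fin.sum_univ_succ, Matrix.one_apply, Fin.succAbove]
  ring

lemma den_pnp : den (mat (1, -1, 1)) = poly5 1 (-1) (-2) 2 1 (-1) := by
  rw [mat_pnp]
  simp [den, poly5, Matrix.det_succ_row_zero, Fin.sum_univ_succ, Matrix.one_apply, Fin.succAbove]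
  ring

lemma den_nnp : den (mat (-1, -1, 1)) = poly5 1 1 (-2) (-2) 1 1 := by
  rw [mat_nnp]
  simp [den, poly5, Matrix.det_succ_row_zero, Fin.sum_univ_succ, Matrix.one_apply, Fin.succAbove]
  ring

lemma den_ppn : den (mat (1, 1, -1)) = poly5 1 (-1) (-2) 2 1 (-1) := by
  rw [mat_ppn]
  simp [den, poly5, Matrix.det_succ_row_zero, Fin.sum_univ_succ, Matrix.one_apply, Fin.succAbove]
  ring

lemma den_npn : den (mat (-1, 1, -1)) = poly5 1 1 (-2) (-2) 1 1 := by
  rw [mat_npn]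
  simp [den, poly5, Matrix.det_succ_row_zero, Fin.sum_univ_succ, Matrix.one_apply, Fin.succAbove]
  ring

lemma den_pnn : den (mat (1, -1, -1)) = poly5 1 1 (-2) (-2) 1 1 := by
  rw [mat_pnn]
  simp [den, poly5, Matrix.det_succ_row_zero, Fin.sum_univ_succ, Matrix.one_apply, Fin.succAbove]
  ring

lemma den_nnn : den (mat (-1, -1, -1)) = poly5 1 (-1) (-2) 2 1 (-1) := by
  rw [mat_nnn]
  simp [den, poly5, Matrix.det_succ_row_zero, Fin.sum_univ_succ, Matrix.one_apply, Fin.succAbove]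
  ring

lemma two_ppp : hstarCoeff act P 2 (1, 1, 1) = 10 := by
  rw [hstar_coeff (1, 1, 1) _ chi_ppp den_ppp]
  norm_num

lemma two_npp : hstarCoeff act P 2 (-1, 1, 1) = 6 := by
  rw [hstar_coeff (-1, 1, 1) _ chi_npp den_npp]
  norm_num

lemma two_pnp : hstarCoeff act P 2 (1, -1, 1) = 6 := by
  rw [hstar_coeff (1, -1, 1) _ chi_pnp den_pnp]
  norm_num

lemma two_nnp : hstarCoeff act P 2 (-1, -1, 1) = 2 := by
  rw [hstar_coeff (-1, -1, 1) _ chi_nnp den_nnp]
  norm_num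

lemma two_ppn : hstarCoeff act P 2 (1, 1, -1) = 6 := by
  rw [hstar_coeff (1, 1, -1) _ chi_ppn den_ppn]
  norm_num

lemma two_npn : hstarCoeff act P 2 (-1, 1, -1) = 2 := by
  rw [hstar_coeff (-1, 1, -1) _ chi_npn den_npn]
  norm_num

lemma two_pnn : hstarCoeff act P 2 (1, -1, -1) = 2 := by
  rw [hstar_coeff (1, -1, -1) _ chi_pnn den_pnn]
  norm_num

lemma two_nnn : hstarCoeff act P 2 (-1, -1, -1) = 6 := by
  rw [hstar_coeff (-1, -1, -1) _ chi_nnn den_nnn]
  norm_num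

lemma hstar_big (g : G8) (F : ℕ → ℕ) {c0 c1 c2 c3 c4 c5 : ℤ}
    (hchi : ∀ m, chi act P m g = E F m) (hden : den (mat g) = poly5 c0 c1 c2 c3 c4 c5) (n : ℕ)
    (h : (F (n + 5) : ℤ) * c0 + F (n + 4) * c1 + F (n + 3) * c2 + F (n + 2) * c3 +
      F (n + 1) * c4 + F n * c5 = 0) : hstarCoeff act P (n + 5) g = 0 := by
  rw [hstar_coeff g F hchi hden, if_pos (by omega), if_pos (by omega), if_pos (by omega),
    if_pos (by omega), if_pos (by omega)]
  exact h

lemma big_ppp (n : ℕ) : hstarCoeff act P (n + 5) (1, 1, 1) = 0 := by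
  refine hstar_big (1, 1, 1) _ chi_ppp den_ppp n ?_

  obtain ⟨k, rfl | rfl⟩ := Nat.even_or_odd' n
  · have e0 : (2 * k) / 2 = k := by omega
    have e1 : (2 * k + 1) / 2 = k := by omega
    have e2 : (2 * k + 2) / 2 = k + 1 := by omega
    have e3 : (2 * k + 3) / 2 = k + 1 := by omega
    have e4 : (2 * k + 4) / 2 = k + 2 := by omega
    have e5 : (2 * k + 5) / 2 = k + 2 := by omega
    have e6 : (2 * k + 5 + 1) / 2 = k + 3 := by omega
    have e7 : (2 * k + 4 + 1) / 2 = k + 2 := by omega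
    have e8 : (2 * k + 3 + 1) / 2 = k + 2 := by omega
    have e9 : (2 * k + 2 + 1) / 2 = k + 1 := by omega
    have e10 : (2 * k + 1 + 1) / 2 = k + 1 := by omega
    simp only [e0, e1, e2, e3, e4, e5, e6, e7, e8, e9, e10]
    push_cast
    ring
  · have e0 : (2 * k + 1) / 2 = k := by omega
    have e1 : (2 * k + 1 + 1) / 2 = k + 1 := by omega
    have e2 : (2 * k + 1 + 2) / 2 = k + 1 := by omega
    have e3 : (2 * k + 1 + 3) / 2 = k + 2 := by omega
    have e4 : (2 * k + 1 + 4) / 2 = k + 2 := by omega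
    have e5 : (2 * k + 1 + 5) / 2 = k + 3 := by omega
    have e6 : (2 * k + 1 + 5 + 1) / 2 = k + 3 := by omega
    have e7 : (2 * k + 1 + 4 + 1) / 2 = k + 3 := by omega
    have e8 : (2 * k + 1 + 3 + 1) / 2 = k + 2 := by omega
    have e9 : (2 * k + 1 + 2 + 1) / 2 = k + 2 := by omega
    have e10 : (2 * k + 1 + 1 + 1) / 2 = k + 1 := by omega
    simp only [e0, e1, e2, e3, e4, e5, e6, e7, e8, e9, e10]
    push_cast
    ring

lemma big_npp (n : ℕ) : hstarCoeff act P (n + 5) (-1, 1, 1) = 0 := by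
  refine hstar_big (-1, 1, 1) _ chi_npp den_npp n ?_

  norm_num

lemma big_pnp (n : ℕ) : hstarCoeff act P (n + 5) (1, -1, 1) = 0 := by
  refine hstar_big (1, -1, 1) _ chi_pnp den_pnp n ?_

  obtain ⟨k, rfl | rfl⟩ := Nat.even_or_odd' n
  · have e0 : (2 * k) / 2 = k := by omega
    have e1 : (2 * k + 1) / 2 = k := by omega
    have e2 : (2 * k + 2) / 2 = k + 1 := by omega
    have e3 : (2 * k + 3) / 2 = k + 1 := by omega
    have e4 : (2 * k + 4) / 2 = k + 2 := by omega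
    have e5 : (2 * k + 5) / 2 = k + 2 := by omega
    have e6 : (2 * k + 5 + 1) / 2 = k + 3 := by omega
    have e7 : (2 * k + 4 + 1) / 2 = k + 2 := by omega
    have e8 : (2 * k + 3 + 1) / 2 = k + 2 := by omega
    have e9 : (2 * k + 2 + 1) / 2 = k + 1 := by omega
    have e10 : (2 * k + 1 + 1) / 2 = k + 1 := by omega
    simp only [e0, e1, e2, e3, e4, e5, e6, e7, e8, e9, e10]
    push_cast
    ring
  · have e0 : (2 * k + 1) / 2 = k := by omega
    have e1 : (2 * k + 1 + 1) / 2 = k + 1 := by omega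
    have e2 : (2 * k + 1 + 2) / 2 = k + 1 := by omega
    have e3 : (2 * k + 1 + 3) / 2 = k + 2 := by omega
    have e4 : (2 * k + 1 + 4) / 2 = k + 2 := by omega
    have e5 : (2 * k + 1 + 5) / 2 = k + 3 := by omega
    have e6 : (2 * k + 1 + 5 + 1) / 2 = k + 3 := by omega
    have e7 : (2 * k + 1 + 4 + 1) / 2 = k + 3 := by omega
    have e8 : (2 * k + 1 + 3 + 1) / 2 = k + 2 := by omega
    have e9 : (2 * k + 1 + 2 + 1) / 2 = k + 2 := by omega
    have e10 : (2 * k + 1 + 1 + 1) / 2 = k + 1 := by omega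
    simp only [e0, e1, e2, e3, e4, e5, e6, e7, e8, e9, e10]
    push_cast
    ring

lemma big_nnp (n : ℕ) : hstarCoeff act P (n + 5) (-1, -1, 1) = 0 := by
  refine hstar_big (-1, -1, 1) _ chi_nnp den_nnp n ?_

  obtain ⟨k, rfl | rfl⟩ := Nat.even_or_odd' n
  · have e0 : (2 * k) / 2 = k := by omega
    have e1 : (2 * k + 1) / 2 = k := by omega
    have e2 : (2 * k + 2) / 2 = k + 1 := by omega
    have e3 : (2 * k + 3) / 2 = k + 1 := by omega
    have e4 : (2 * k + 4) / 2 = k + 2 := by omega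
    have e5 : (2 * k + 5) / 2 = k + 2 := by omega
    have e6 : (2 * k + 5 + 1) / 2 = k + 3 := by omega
    have e7 : (2 * k + 4 + 1) / 2 = k + 2 := by omega
    have e8 : (2 * k + 3 + 1) / 2 = k + 2 := by omega
    have e9 : (2 * k + 2 + 1) / 2 = k + 1 := by omega
    have e10 : (2 * k + 1 + 1) / 2 = k + 1 := by omega
    simp only [e0, e1, e2, e3, e4, e5, e6, e7, e8, e9, e10]
    push_cast
    ring
  · have e0 : (2 * k + 1) / 2 = k := by omega
    have e1 : (2 * k + 1 + 1) / 2 = k + 1 := by omega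
    have e2 : (2 * k + 1 + 2) / 2 = k + 1 := by omega
    have e3 : (2 * k + 1 + 3) / 2 = k + 2 := by omega
    have e4 : (2 * k + 1 + 4) / 2 = k + 2 := by omega
    have e5 : (2 * k + 1 + 5) / 2 = k + 3 := by omega
    have e6 : (2 * k + 1 + 5 + 1) / 2 = k + 3 := by omega
    have e7 : (2 * k + 1 + 4 + 1) / 2 = k + 3 := by omega
    have e8 : (2 * k + 1 + 3 + 1) / 2 = k + 2 := by omega
    have e9 : (2 * k + 1 + 2 + 1) / 2 = k + 2 := by omega
    have e10 : (2 * k + 1 + 1 + 1) / 2 = k + 1 := by omega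
    simp only [e0, e1, e2, e3, e4, e5, e6, e7, e8, e9, e10]
    push_cast
    ring

lemma big_ppn (n : ℕ) : hstarCoeff act P (n + 5) (1, 1, -1) = 0 := by
  refine hstar_big (1, 1, -1) _ chi_ppn den_ppn n ?_

  obtain ⟨k, rfl | rfl⟩ := Nat.even_or_odd' n
  · have e0 : (2 * k) / 2 = k := by omega
    have e1 : (2 * k + 1) / 2 = k := by omega
    have e2 : (2 * k + 2) / 2 = k + 1 := by omega
    have e3 : (2 * k + 3) / 2 = k + 1 := by omega
    have e4 : (2 * k + 4) / 2 = k + 2 := by omega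
    have e5 : (2 * k + 5) / 2 = k + 2 := by omega
    have e6 : (2 * k + 5 + 1) / 2 = k + 3 := by omega
    have e7 : (2 * k + 4 + 1) / 2 = k + 2 := by omega
    have e8 : (2 * k + 3 + 1) / 2 = k + 2 := by omega
    have e9 : (2 * k + 2 + 1) / 2 = k + 1 := by omega
    have e10 : (2 * k + 1 + 1) / 2 = k + 1 := by omega
    simp only [e0, e1, e2, e3, e4, e5, e6, e7, e8, e9, e10]
    push_cast
    ring
  · have e0 : (2 * k + 1) / 2 = k := by omega
    have e1 : (2 * k + 1 + 1) / 2 = k + 1 := by omega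
    have e2 : (2 * k + 1 + 2) / 2 = k + 1 := by omega
    have e3 : (2 * k + 1 + 3) / 2 = k + 2 := by omega
    have e4 : (2 * k + 1 + 4) / 2 = k + 2 := by omega
    have e5 : (2 * k + 1 + 5) / 2 = k + 3 := by omega
    have e6 : (2 * k + 1 + 5 + 1) / 2 = k + 3 := by omega
    have e7 : (2 * k + 1 + 4 + 1) / 2 = k + 3 := by omega
    have e8 : (2 * k + 1 + 3 + 1) / 2 = k + 2 := by omega
    have e9 : (2 * k + 1 + 2 + 1) / 2 = k + 2 := by omega
    have e10 : (2 * k + 1 + 1 + 1) / 2 = k + 1 := by omega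
    simp only [e0, e1, e2, e3, e4, e5, e6, e7, e8, e9, e10]
    push_cast
    ring

lemma big_npn (n : ℕ) : hstarCoeff act P (n + 5) (-1, 1, -1) = 0 := by
  refine hstar_big (-1, 1, -1) _ chi_npn den_npn n ?_

  obtain ⟨k, rfl | rfl⟩ := Nat.even_or_odd' n
  · have e0 : (2 * k) / 2 = k := by omega
    have e1 : (2 * k + 1) / 2 = k := by omega
    have e2 : (2 * k + 2) / 2 = k + 1 := by omega
    have e3 : (2 * k + 3) / 2 = k + 1 := by omega
    have e4 : (2 * k + 4) / 2 = k + 2 := by omega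
    have e5 : (2 * k + 5) / 2 = k + 2 := by omega
    have e6 : (2 * k + 5 + 1) / 2 = k + 3 := by omega
    have e7 : (2 * k + 4 + 1) / 2 = k + 2 := by omega
    have e8 : (2 * k + 3 + 1) / 2 = k + 2 := by omega
    have e9 : (2 * k + 2 + 1) / 2 = k + 1 := by omega
    have e10 : (2 * k + 1 + 1) / 2 = k + 1 := by omega
    simp only [e0, e1, e2, e3, e4, e5, e6, e7, e8, e9, e10]
    push_cast
    ring
  · have e0 : (2 * k + 1) / 2 = k := by omega
    have e1 : (2 * k + 1 + 1) / 2 = k + 1 := by omega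
    have e2 : (2 * k + 1 + 2) / 2 = k + 1 := by omega
    have e3 : (2 * k + 1 + 3) / 2 = k + 2 := by omega
    have e4 : (2 * k + 1 + 4) / 2 = k + 2 := by omega
    have e5 : (2 * k + 1 + 5) / 2 = k + 3 := by omega
    have e6 : (2 * k + 1 + 5 + 1) / 2 = k + 3 := by omega
    have e7 : (2 * k + 1 + 4 + 1) / 2 = k + 3 := by omega
    have e8 : (2 * k + 1 + 3 + 1) / 2 = k + 2 := by omega
    have e9 : (2 * k + 1 + 2 + 1) / 2 = k + 2 := by omega
    have e10 : (2 * k + 1 + 1 + 1) / 2 = k + 1 := by omega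
    simp only [e0, e1, e2, e3, e4, e5, e6, e7, e8, e9, e10]
    push_cast
    ring

lemma big_pnn (n : ℕ) : hstarCoeff act P (n + 5) (1, -1, -1) = 0 := by
  refine hstar_big (1, -1, -1) _ chi_pnn den_pnn n ?_

  obtain ⟨k, rfl | rfl⟩ := Nat.even_or_odd' n
  · have e0 : (2 * k) / 2 = k := by omega
    have e1 : (2 * k + 1) / 2 = k := by omega
    have e2 : (2 * k + 2) / 2 = k + 1 := by omega
    have e3 : (2 * k + 3) / 2 = k + 1 := by omega
    have e4 : (2 * k + 4) / 2 = k + 2 := by omega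
    have e5 : (2 * k + 5) / 2 = k + 2 := by omega
    have e6 : (2 * k + 5 + 1) / 2 = k + 3 := by omega
    have e7 : (2 * k + 4 + 1) / 2 = k + 2 := by omega
    have e8 : (2 * k + 3 + 1) / 2 = k + 2 := by omega
    have e9 : (2 * k + 2 + 1) / 2 = k + 1 := by omega
    have e10 : (2 * k + 1 + 1) / 2 = k + 1 := by omega
    simp only [e0, e1, e2, e3, e4, e5, e6, e7, e8, e9, e10]
    push_cast
    ring
  · have e0 : (2 * k + 1) / 2 = k := by omega
    have e1 : (2 * k + 1 + 1) / 2 = k + 1 := by omega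
    have e2 : (2 * k + 1 + 2) / 2 = k + 1 := by omega
    have e3 : (2 * k + 1 + 3) / 2 = k + 2 := by omega
    have e4 : (2 * k + 1 + 4) / 2 = k + 2 := by omega
    have e5 : (2 * k + 1 + 5) / 2 = k + 3 := by omega
    have e6 : (2 * k + 1 + 5 + 1) / 2 = k + 3 := by omega
    have e7 : (2 * k + 1 + 4 + 1) / 2 = k + 3 := by omega
    have e8 : (2 * k + 1 + 3 + 1) / 2 = k + 2 := by omega
    have e9 : (2 * k + 1 + 2 + 1) / 2 = k + 2 := by omega
    have e10 : (2 * k + 1 + 1 + 1) / 2 = k + 1 := by omega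
    simp only [e0, e1, e2, e3, e4, e5, e6, e7, e8, e9, e10]
    push_cast
    ring

lemma big_nnn (n : ℕ) : hstarCoeff act P (n + 5) (-1, -1, -1) = 0 := by
  refine hstar_big (-1, -1, -1) _ chi_nnn den_nnn n ?_

  obtain ⟨k, rfl | rfl⟩ := Nat.even_or_odd' n
  · have e0 : (2 * k) / 2 = k := by omega
    have e1 : (2 * k + 1) / 2 = k := by omega
    have e2 : (2 * k + 2) / 2 = k + 1 := by omega
    have e3 : (2 * k + 3) / 2 = k + 1 := by omega
    have e4 : (2 * k + 4) / 2 = k + 2 := by omega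
    have e5 : (2 * k + 5) / 2 = k + 2 := by omega
    have e6 : (2 * k + 5 + 1) / 2 = k + 3 := by omega
    have e7 : (2 * k + 4 + 1) / 2 = k + 2 := by omega
    have e8 : (2 * k + 3 + 1) / 2 = k + 2 := by omega
    have e9 : (2 * k + 2 + 1) / 2 = k + 1 := by omega
    have e10 : (2 * k + 1 + 1) / 2 = k + 1 := by omega
    simp only [e0, e1, e2, e3, e4, e5, e6, e7, e8, e9, e10]
    push_cast
    ring
  · have e0 : (2 * k + 1) / 2 = k := by omega
    have e1 : (2 * k + 1 + 1) / 2 = k + 1 := by omega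
    have e2 : (2 * k + 1 + 2) / 2 = k + 1 := by omega
    have e3 : (2 * k + 1 + 3) / 2 = k + 2 := by omega
    have e4 : (2 * k + 1 + 4) / 2 = k + 2 := by omega
    have e5 : (2 * k + 1 + 5) / 2 = k + 3 := by omega
    have e6 : (2 * k + 1 + 5 + 1) / 2 = k + 3 := by omega
    have e7 : (2 * k + 1 + 4 + 1) / 2 = k + 3 := by omega
    have e8 : (2 * k + 1 + 3 + 1) / 2 = k + 2 := by omega
    have e9 : (2 * k + 1 + 2 + 1) / 2 = k + 2 := by omega
    have e10 : (2 * k + 1 + 1 + 1) / 2 = k + 1 := by omega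
    simp only [e0, e1, e2, e3, e4, e5, e6, e7, e8, e9, e10]
    push_cast
    ring

lemma polynomial_P : IsPolynomial act P := by
  refine ⟨4, fun i hi => ?_⟩
  obtain ⟨n, rfl⟩ : ∃ n, i = n + 5 := ⟨i - 5, by omega⟩
  exact G8_cases (big_ppp n) (big_npp n) (big_pnp n) (big_nnp n) (big_ppn n) (big_npn n)
    (big_pnn n) (big_nnn n)

lemma sum_sgn : ∑ g, sgn g * hstarCoeff act P 2 g = -8 := by
  have h1 : ∀ f : G8 → ℤ, ∑ g, f g = f (1, 1, 1) + f (-1, 1, 1) + f (1, -1, 1) + f (-1, -1, 1) +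
      f (1, 1, -1) + f (-1, 1, -1) + f (1, -1, -1) + f (-1, -1, -1) := by
    intro f
    rw [Fintype.sum_prod_type]
    simp only [Fintype.sum_prod_type]
    have h2 : (Finset.univ : Finset ℤˣ) = {1, -1} := by decide
    rw [h2]
    simp only [Finset.sum_pair (show (1 : ℤˣ) ≠ -1 by decide)]
    ring
  rw [h1, two_ppp, two_npp, two_pnp, two_nnp, two_ppn, two_npn, two_pnn, two_nnn]
  decide

end Pool.Agent.X162.PolyNotEff
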