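import Mathlib

/-!
# The algebraic inequality behind the perimeter of a figure with perpendicular quadrisecting chords
-/

namespace Pool.Agent.X162.Quad

lemma le_one_of_sq {x y : ℝ} (h : x ^ 2 + y ^ 2 = 1) : x ≤ 1 := by
  nlinarith [sq_nonneg y, sq_nonneg (x - 1)]

lemma abs_lt_one_of_sq {x y : ℝ} (h : x ^ 2 + y ^ 2 = 1) (hx : 0 < x) : -1 < y ∧ y < 1 := by
  have : y ^ 2 < 1 := by nlinarith
  constructor <;> nlinarith

/-- The bad case of the key inequality. -/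
lemma bad (a b l c s C S : ℝ) (hl : 0 < l) (hc : 0 < c) (hs : 0 < s)
    (hcs : c ^ 2 + s ^ 2 = 1) (hC : 0 < C) (hS : 0 < S) (hCS : S ^ 2 + C ^ 2 = 1)
    (h4 : l * s ≤ a * (1 + c)) (h2 : (l + a) * S ≤ b * (1 + C)) (hbad : c < S) :
    l * (1 - s + S) < a * (1 - s) + b * (1 + S) := by
  obtain ⟨σ, hσ⟩ : ∃ σ, σ = s / (1 + c) := ⟨_, rfl⟩
  obtain ⟨τ, hτ⟩ : ∃ τ, τ = S / (1 + C) := ⟨_, rfl⟩
  have hc1 : 0 < 1 + c := by linarith
  have hC1 : 0 < 1 + C := by linarith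
  have hσ0 : 0 < σ := by rw [hσ]; positivity
  have hτ0 : 0 < τ := by rw [hτ]; positivity
  have hs1 : s < 1 := (abs_lt_one_of_sq hcs hc).2
  have hS1 : S < 1 := (abs_lt_one_of_sq (by linarith : C ^ 2 + S ^ 2 = 1) hC).2
  have hσ1 : σ < 1 := by rw [hσ, div_lt_one hc1]; linarith
  have hτ1 : τ < 1 := by rw [hτ, div_lt_one hC1]; linarith
  have es : σ * (1 + c) = s := by rw [hσ]; field_simp
  have eS : τ * (1 + C) = S := by rw [hτ]; field_simp
  -- half-angle formulas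
  have eσ : σ ^ 2 * (1 + c) = 1 - c := by
    have h : σ ^ 2 * (1 + c) * (1 + c) = (1 - c) * (1 + c) := by
      have : σ ^ 2 * (1 + c) * (1 + c) = (σ * (1 + c)) ^ 2 := by ring
      rw [this, es]; linarith
    exact mul_right_cancel₀ hc1.ne' h
  have eτ : τ ^ 2 * (1 + C) = 1 - C := by
    have h : τ ^ 2 * (1 + C) * (1 + C) = (1 - C) * (1 + C) := by
      have : τ ^ 2 * (1 + C) * (1 + C) = (τ * (1 + C)) ^ 2 := by ring
      rw [this, eS]; linarith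
    exact mul_right_cancel₀ hC1.ne' h
  have ec : (1 + σ ^ 2) * (1 + c) = 2 := by linarith
  have eC : (1 + τ ^ 2) * (1 + C) = 2 := by linarith
  have es' : s * (1 + σ ^ 2) = 2 * σ := by
    rw [← es]; linear_combination σ * ec
  have eS' : S * (1 + τ ^ 2) = 2 * τ := by
    rw [← eS]; linear_combination τ * eC
  have ec' : c * (1 + σ ^ 2) = 1 - σ ^ 2 := by linarith
  have hp1 : 0 < 1 + σ ^ 2 := by positivity
  have hp2 : 0 < 1 + τ ^ 2 := by positivity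
  -- (1 + σ)(1 + τ) > 2
  have hP : 2 < (1 + σ) * (1 + τ) := by
    have h : c * ((1 + σ ^ 2) * (1 + τ ^ 2)) < S * ((1 + σ ^ 2) * (1 + τ ^ 2)) :=
      mul_lt_mul_of_pos_right hbad (mul_pos hp1 hp2)
    have h' : (1 - σ ^ 2) * (1 + τ ^ 2) < 2 * τ * (1 + σ ^ 2) := by
      calc (1 - σ ^ 2) * (1 + τ ^ 2) = c * ((1 + σ ^ 2) * (1 + τ ^ 2)) := by rw [← ec']; ring
        _ < S * ((1 + σ ^ 2) * (1 + τ ^ 2)) := h
        _ = 2 * τ * (1 + σ ^ 2) := by rw [← eS']; ring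
    have h'' : 0 < (σ * (1 + τ) - (1 - τ)) * (σ * (1 + τ) + (1 - τ)) := by linarith
    have h3 : 0 < σ * (1 + τ) + (1 - τ) := by
      have := mul_pos hσ0 (show 0 < 1 + τ by linarith)
      linarith
    have h4 := (pos_iff_pos_of_mul_pos h'').mpr h3
    linarith
  have hr : 1 - σ ≤ τ * (1 + σ) := by linarith
  -- the final polynomial inequality
  have hkey : (1 - s + S) < σ * (1 - s) + (1 + σ) * τ * (1 + S) := by
    have hpp : 0 < (1 + σ ^ 2) * (1 + τ ^ 2) := mul_pos hp1 hp2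
    have e1 : (1 - s + S) * ((1 + σ ^ 2) * (1 + τ ^ 2)) =
        (1 - σ) ^ 2 * (1 + τ ^ 2) + 2 * τ * (1 + σ ^ 2) := by
      linear_combination (-(1 + τ ^ 2)) * es' + (1 + σ ^ 2) * eS'
    have e2 : (σ * (1 - s) + (1 + σ) * τ * (1 + S)) * ((1 + σ ^ 2) * (1 + τ ^ 2)) =
        σ * (1 - σ) ^ 2 * (1 + τ ^ 2) + (1 + σ) * τ * (1 + τ) ^ 2 * (1 + σ ^ 2) := by
      linear_combination (-σ * (1 + τ ^ 2)) * es' + (1 + σ) * τ * (1 + σ ^ 2) * eS'
    have e3 : (1 - σ) ^ 2 * (1 + τ ^ 2) + 2 * τ * (1 + σ ^ 2) <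
        σ * (1 - σ) ^ 2 * (1 + τ ^ 2) + (1 + σ) * τ * (1 + τ) ^ 2 * (1 + σ ^ 2) := by
      have f1 : 2 * τ ^ 2 < τ * ((1 + σ) * (1 + τ) ^ 2 - 2) := by
        have h1 : 2 * (1 + τ) < (1 + σ) * (1 + τ) * (1 + τ) :=
          mul_lt_mul_of_pos_right hP (by linarith)
        have h2 := mul_lt_mul_of_pos_left h1 hτ0
        linarith
      have f2 : (1 - σ) ^ 2 ≤ τ ^ 2 * (1 + σ) ^ 2 := by
        rw [← mul_pow]
        exact pow_le_pow_left₀ (by linarith) hr 2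
      have f3 : (1 - σ) ^ 2 * (1 + τ ^ 2) ≤ 2 * τ ^ 2 * (1 + σ ^ 2) := by linarith
      have f4 : (1 - σ) * ((1 - σ) ^ 2 * (1 + τ ^ 2)) ≤ (1 - σ) ^ 2 * (1 + τ ^ 2) := by
        have h1 : 0 ≤ (1 - σ) ^ 2 * (1 + τ ^ 2) := by positivity
        have h2 := mul_nonneg hσ0.le h1
        linarith
      have f5 : 2 * τ ^ 2 * (1 + σ ^ 2) < τ * ((1 + σ) * (1 + τ) ^ 2 - 2) * (1 + σ ^ 2) :=
        mul_lt_mul_of_pos_right f1 hp1
      linarith
    have e4 : (1 - s + S) * ((1 + σ ^ 2) * (1 + τ ^ 2)) <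
        (σ * (1 - s) + (1 + σ) * τ * (1 + S)) * ((1 + σ ^ 2) * (1 + τ ^ 2)) := by
      rw [e1, e2]; exact e3
    exact lt_of_mul_lt_mul_right e4 hpp.le
  -- combine
  have ha' : l * σ ≤ a := by
    have : l * σ * (1 + c) ≤ a * (1 + c) := by
      calc l * σ * (1 + c) = l * s := by rw [mul_assoc, es]
        _ ≤ _ := h4
    exact le_of_mul_le_mul_right this hc1
  have hb' : (l + a) * τ ≤ b := by
    have : (l + a) * τ * (1 + C) ≤ b * (1 + C) := by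
      calc (l + a) * τ * (1 + C) = (l + a) * S := by rw [mul_assoc, eS]
        _ ≤ _ := h2
    exact le_of_mul_le_mul_right this hC1
  have g1 : (l + a) * τ * (1 + S) ≤ b * (1 + S) := mul_le_mul_of_nonneg_right hb' (by linarith)
  have g2 : l * σ * ((1 - s) + τ * (1 + S)) ≤ a * ((1 - s) + τ * (1 + S)) :=
    mul_le_mul_of_nonneg_right ha' (by
      have : 0 ≤ τ * (1 + S) := by positivity
      linarith)
  have g3 : l * (1 - s + S) < l * (σ * (1 - s) + (1 + σ) * τ * (1 + S)) :=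
    mul_lt_mul_of_pos_left hkey hl
  linarith

/-- The good case of the key inequality. -/
lemma good (a b l n₁ n₂ m₁ m₂ : ℝ) (hn₁ : 0 < n₁) (hm₂ : 0 < m₂) (hn : n₁ ^ 2 + n₂ ^ 2 = 1)
    (hm : m₁ ^ 2 + m₂ ^ 2 = 1) (hA : n₂ * b ≤ n₁ * a) (hB : m₁ * a ≤ m₂ * b)
    (hD : 0 < n₁ * m₂ - n₂ * m₁)
    (hl1 : l * (n₁ * m₂ - n₂ * m₁) ≤ (n₁ * a - n₂ * b) + (m₂ * b - m₁ * a))
    (hK : 0 < 1 + n₂ + m₁) (hbad1 : m₁ ≤ n₁) (hbad2 : n₂ ≤ m₂) :
    l * (1 + n₂ + m₁) ≤ a * (1 + n₂) + b * (1 + m₁) ∧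
    (l * (1 + n₂ + m₁) = a * (1 + n₂) + b * (1 + m₁) →
      (n₁ = 1 ∧ m₂ = 1) ∨ l ^ 2 = a ^ 2 + b ^ 2) := by
  obtain ⟨D, hDdef⟩ : ∃ D, D = n₁ * m₂ - n₂ * m₁ := ⟨_, rfl⟩
  rw [← hDdef] at hD hl1
  obtain ⟨P, hP⟩ : ∃ P, P = (m₂ * b - m₁ * a) / D := ⟨_, rfl⟩
  obtain ⟨Q, hQ⟩ : ∃ Q, Q = (n₁ * a - n₂ * b) / D := ⟨_, rfl⟩
  have hP0 : 0 ≤ P := by rw [hP]; exact div_nonneg (by linarith) hD.le
  have hQ0 : 0 ≤ Q := by rw [hQ]; exact div_nonneg (by linarith) hD.le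
  have ePD : P * D = m₂ * b - m₁ * a := by rw [hP]; field_simp
  have eQD : Q * D = n₁ * a - n₂ * b := by rw [hQ]; field_simp
  have ea : a = P * n₂ + Q * m₂ := by
    have : a * D = (P * n₂ + Q * m₂) * D := by
      linear_combination (-n₂) * ePD - m₂ * eQD + a * hDdef
    exact mul_right_cancel₀ hD.ne' this
  have eb : b = P * n₁ + Q * m₁ := by
    have : b * D = (P * n₁ + Q * m₁) * D := by
      linear_combination (-n₁) * ePD - m₁ * eQD + b * hDdef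
    exact mul_right_cancel₀ hD.ne' this
  have hlPQ : l ≤ P + Q := by
    have : l * D ≤ (P + Q) * D := by linarith
    exact le_of_mul_le_mul_right this hD
  have hn1le : n₁ ≤ 1 := le_one_of_sq hn
  have hm2le : m₂ ≤ 1 := le_one_of_sq (by linarith : m₂ ^ 2 + m₁ ^ 2 = 1)
  have hdiff : a * (1 + n₂) + b * (1 + m₁) - (P + Q) * (1 + n₂ + m₁) =
      P * ((1 - n₁) * (n₁ - m₁)) + Q * ((1 - m₂) * (m₂ - n₂)) := by
    rw [ea, eb]; linear_combination P * hn + Q * hm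
  have t1 : 0 ≤ P * ((1 - n₁) * (n₁ - m₁)) :=
    mul_nonneg hP0 (mul_nonneg (by linarith) (by linarith))
  have t2 : 0 ≤ Q * ((1 - m₂) * (m₂ - n₂)) :=
    mul_nonneg hQ0 (mul_nonneg (by linarith) (by linarith))
  have t3 : l * (1 + n₂ + m₁) ≤ (P + Q) * (1 + n₂ + m₁) := mul_le_mul_of_nonneg_right hlPQ hK.le
  refine ⟨by linarith, fun heq => ?_⟩
  have t4 : P * ((1 - n₁) * (n₁ - m₁)) = 0 := by linarith
  have t5 : Q * ((1 - m₂) * (m₂ - n₂)) = 0 := by linarith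
  have t6 : l = P + Q := by
    have : l * (1 + n₂ + m₁) = (P + Q) * (1 + n₂ + m₁) := by linarith
    exact mul_right_cancel₀ hK.ne' this
  rcases hP0.eq_or_lt with hPz | hPpos
  · right
    rw [t6, ea, eb, ← hPz]
    linear_combination (-Q ^ 2) * hm
  rcases hQ0.eq_or_lt with hQz | hQpos
  · right
    rw [t6, ea, eb, ← hQz]
    linear_combination (-P ^ 2) * hn
  left
  have t7 := (mul_eq_zero.mp t4).resolve_left hPpos.ne'
  have t8 := (mul_eq_zero.mp t5).resolve_left hQpos.ne'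
  clear ea eb t1 t2 t3 hdiff heq hP hQ ePD eQD hlPQ t4 t5 t6 hP0 hQ0 hPpos hQpos hA hB hl1
  rcases mul_eq_zero.mp t7 with u | u
  · rcases mul_eq_zero.mp t8 with v | v
    · exact ⟨by linarith, by linarith⟩
    · -- n₁ = 1, m₂ = n₂
      exfalso
      have h1 : n₁ = 1 := by linarith
      have h2 : n₂ ^ 2 = 0 := by rw [h1] at hn; linarith
      have h3 : n₂ = 0 := pow_eq_zero_iff two_ne_zero |>.mp h2
      linarith
  · -- n₁ = m₁
    have e1 : m₁ = n₁ := by linarith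
    rcases mul_eq_zero.mp t8 with v | v
    · exfalso
      have h1 : m₂ = 1 := by linarith
      have h2 : m₁ ^ 2 = 0 := by rw [h1] at hm; linarith
      have h3 : m₁ = 0 := pow_eq_zero_iff two_ne_zero |>.mp h2
      linarith
    · exfalso
      have e2 : m₂ = n₂ := by linarith
      rw [e1, e2] at hDdef
      rw [hDdef] at hD
      linarith

/-- The key inequality. -/
theorem algK (a b l n₁ n₂ m₁ m₂ : ℝ) (ha : 0 < a) (hb : 0 < b) (hl : 0 < l) (hn₁ : 0 < n₁)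
    (hm₂ : 0 < m₂) (hn : n₁ ^ 2 + n₂ ^ 2 = 1) (hm : m₁ ^ 2 + m₂ ^ 2 = 1)
    (hA : n₂ * b ≤ n₁ * a) (hB : m₁ * a ≤ m₂ * b)
    (h1 : 0 < n₁ * m₂ - n₂ * m₁ →
      l * (n₁ * m₂ - n₂ * m₁) ≤ (n₁ * a - n₂ * b) + (m₂ * b - m₁ * a))
    (h2 : (l + a) * m₁ ≤ b * (1 + m₂)) (h3 : (l + b) * n₂ ≤ a * (1 + n₁))
    (h4 : -(l * n₂) ≤ a * (1 + n₁)) (h5 : -(l * m₁) ≤ b * (1 + m₂)) :
    l * (1 + n₂ + m₁) ≤ a * (1 + n₂) + b * (1 + m₁) ∧
    (l * (1 + n₂ + m₁) = a * (1 + n₂) + b * (1 + m₁) →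
      (n₁ = 1 ∧ m₂ = 1) ∨ l ^ 2 = a ^ 2 + b ^ 2) := by
  have hn2' : -1 < n₂ := (abs_lt_one_of_sq hn hn₁).1
  have hm1' : -1 < m₁ := (abs_lt_one_of_sq (by linarith : m₂ ^ 2 + m₁ ^ 2 = 1) hm₂).1
  have hRpos : 0 < a * (1 + n₂) + b * (1 + m₁) := by
    have := mul_pos ha (show 0 < 1 + n₂ by linarith)
    have := mul_pos hb (show 0 < 1 + m₁ by linarith)
    linarith
  have hstrict : l * (1 + n₂ + m₁) < a * (1 + n₂) + b * (1 + m₁) →
      l * (1 + n₂ + m₁) ≤ a * (1 + n₂) + b * (1 + m₁) ∧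
      (l * (1 + n₂ + m₁) = a * (1 + n₂) + b * (1 + m₁) →
      (n₁ = 1 ∧ m₂ = 1) ∨ l ^ 2 = a ^ 2 + b ^ 2) :=
    fun h => ⟨h.le, fun h' => absurd h' h.ne⟩
  rcases le_or_gt (1 + n₂ + m₁) 0 with hK | hK
  · apply hstrict
    have : l * (1 + n₂ + m₁) ≤ 0 := mul_nonpos_of_nonneg_of_nonpos hl.le hK
    linarith
  rcases le_or_gt (n₁ * m₂ - n₂ * m₁) 0 with hD | hD
  · by_cases hpos : 0 < n₂ ∧ 0 < m₁
    · obtain ⟨hn₂, hm₁⟩ := hpos
      have hDge : n₂ * m₁ ≤ n₁ * m₂ := by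
        have h : (n₂ * b) * (m₁ * a) ≤ (n₁ * a) * (m₂ * b) :=
          mul_le_mul hA hB (by positivity) (by positivity)
        have hab : 0 < a * b := by positivity
        have h' : (n₂ * m₁) * (a * b) ≤ (n₁ * m₂) * (a * b) := by linarith
        exact le_of_mul_le_mul_right h' hab
      have hD0 : n₁ * m₂ - n₂ * m₁ = 0 := by linarith
      have hE : (n₁ * m₁ + n₂ * m₂) ^ 2 = 1 := by
        have : (n₁ * m₁ + n₂ * m₂) ^ 2 + (n₁ * m₂ - n₂ * m₁) ^ 2 =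
          (n₁ ^ 2 + n₂ ^ 2) * (m₁ ^ 2 + m₂ ^ 2) := by ring
        rw [hD0, hn, hm] at this
        linarith
      have hE1 : n₁ * m₁ + n₂ * m₂ = 1 := by
        have hpos : 0 < n₁ * m₁ + n₂ * m₂ := by positivity
        nlinarith
      have hs : (n₁ - m₁) ^ 2 + (n₂ - m₂) ^ 2 = 0 := by nlinarith
      have e1 : n₁ = m₁ := by
        have : (n₁ - m₁) ^ 2 = 0 := by nlinarith [sq_nonneg (n₁ - m₁), sq_nonneg (n₂ - m₂)]
        have := pow_eq_zero_iff (two_ne_zero) |>.mp this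
        linarith
      have e2 : n₂ = m₂ := by
        have : (n₂ - m₂) ^ 2 = 0 := by nlinarith [sq_nonneg (n₁ - m₁), sq_nonneg (n₂ - m₂)]
        have := pow_eq_zero_iff (two_ne_zero) |>.mp this
        linarith
      subst e1 e2
      have hab : n₁ * a = n₂ * b := le_antisymm hB hA
      obtain ⟨r, hr⟩ : ∃ r, r = a * n₂ + b * n₁ := ⟨_, rfl⟩
      have ea : a = r * n₂ := by rw [hr]; linear_combination (-a) * hn + n₁ * hab
      have eb : b = r * n₁ := by rw [hr]; linear_combination (-b) * hn - n₂ * hab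
      have hlr : l ≤ r := by
        have : l * n₂ ≤ r * n₂ := by rw [← ea]; linarith
        exact le_of_mul_le_mul_right this hn₂
      have hRr : a * (1 + n₂) + b * (1 + n₁) = r * (1 + n₂ + n₁) := by
        rw [ea, eb]; linear_combination r * hn
      rw [hRr]
      refine ⟨mul_le_mul_of_nonneg_right hlr hK.le, fun h => Or.inr ?_⟩
      have h' : l = r := mul_right_cancel₀ hK.ne' h
      rw [h', ea, eb]
      linear_combination (-r ^ 2) * hn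
    · exfalso
      have h12 : 0 < n₁ * m₂ := by positivity
      have hnm : 0 < n₂ * m₁ := by linarith
      have hneg : n₂ < 0 ∧ m₁ < 0 := by
        rcases lt_trichotomy n₂ 0 with h | h | h
        · exact ⟨h, by by_contra h'; push Not at h'; nlinarith⟩
        · rw [h] at hnm; simp at hnm
        · exact absurd ⟨h, by by_contra h'; push Not at h'; nlinarith⟩ hpos
      have h5' : (n₁ * m₂) ^ 2 ≤ (n₂ * m₁) ^ 2 := pow_le_pow_left₀ h12.le (by linarith) 2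
      have h6 : 1 ≤ n₂ ^ 2 + m₁ ^ 2 := by
        have e : (n₁ * m₂) ^ 2 = (1 - n₂ ^ 2) * (1 - m₁ ^ 2) := by
          rw [mul_pow]
          rw [show n₁ ^ 2 = 1 - n₂ ^ 2 by linarith, show m₂ ^ 2 = 1 - m₁ ^ 2 by linarith]
        rw [e] at h5'
        nlinarith
      nlinarith [hneg.1, hneg.2]
  · -- D > 0
    have hl1 := h1 hD
    by_cases hbad1 : n₁ < m₁
    · -- bad case
      apply hstrict
      have hm₁ : 0 < m₁ := by linarith
      have hn₂ : n₂ < 0 := by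
        by_contra h
        push Not at h
        have h7 : n₁ ^ 2 < m₁ ^ 2 := pow_lt_pow_left₀ hbad1 hn₁.le two_ne_zero
        have h8 : m₂ ^ 2 < n₂ ^ 2 := by linarith
        have h9 : m₂ < n₂ := lt_of_pow_lt_pow_left₀ 2 h h8
        have h10 : n₁ * m₂ ≤ m₁ * n₂ := mul_le_mul hbad1.le h9.le hm₂.le hm₁.le
        linarith
      have := bad a b l n₁ (-n₂) m₂ m₁ hl hn₁ (by linarith) (by rw [neg_sq]; exact hn) hm₂ hm₁
        hm (by linarith) h2 hbad1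
      linarith
    push Not at hbad1
    by_cases hbad2 : m₂ < n₂
    · apply hstrict
      have hn₂ : 0 < n₂ := by linarith
      have hm₁ : m₁ < 0 := by
        by_contra h
        push Not at h
        have h7 : m₂ ^ 2 < n₂ ^ 2 := pow_lt_pow_left₀ hbad2 hm₂.le two_ne_zero
        have h8 : n₁ ^ 2 < m₁ ^ 2 := by linarith
        have h9 : n₁ < m₁ := lt_of_pow_lt_pow_left₀ 2 h h8
        linarith
      have := bad b a l m₂ (-m₁) n₁ n₂ hl hm₂ (by linarith) (by rw [neg_sq]; linarith) hn₁ hn₂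
        (by linarith) (by linarith) h3 hbad2
      linarith
    push Not at hbad2
    exact good a b l n₁ n₂ m₁ m₂ hn₁ hm₂ hn hm hA hB hD hl1 hK hbad1 hbad2

end Pool.Agent.X162.Quad
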