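import Pool.Agent.X162.QuadMain

/-!
# Perpendicular chords quadrisecting the perimeter of a plane convex figure
-/

namespace Pool.Agent.X162.Quad

open Set MeasureTheory Metric
open scoped RealInnerProductSpace ENNReal

/-- A plane convex figure: a compact convex set with nonempty interior. -/
structure IsConvexFigure (F : Set Plane) : Prop where
  isCompact : IsCompact F
  convex : Convex ℝ F
  interior_nonempty : (interior F).Nonempty

/-- The perimeter: the length (one-dimensional Hausdorff measure) of the boundary curve. -/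
noncomputable def perimeter (F : Set Plane) : ℝ≥0∞ := μH[1] (frontier F)

/-- `γ` runs exactly once around the boundary of `F` during `[0, 1)`, and has period `1`. -/
structure IsBoundaryCurve (F : Set Plane) (γ : ℝ → Plane) : Prop where
  continuous : Continuous γ
  periodic : Function.Periodic γ 1
  injOn : InjOn γ (Ico 0 1)
  range_eq : range γ = frontier F

/-- The points `p₁, p₂, q₁, q₂` occur in this cyclic order along the boundary of `F` and each of the
four boundary arcs between consecutive points has length one quarter of the perimeter. -/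
def QuadrisectPerimeter (F : Set Plane) (p₁ p₂ q₁ q₂ : Plane) : Prop :=
  ∃ (γ : ℝ → Plane) (t₁ t₂ t₃ t₄ : ℝ), IsBoundaryCurve F γ ∧
    t₁ < t₂ ∧ t₂ < t₃ ∧ t₃ < t₄ ∧ t₄ < t₁ + 1 ∧
    γ t₁ = p₁ ∧ γ t₂ = p₂ ∧ γ t₃ = q₁ ∧ γ t₄ = q₂ ∧
    μH[1] (γ '' Icc t₁ t₂) = perimeter F / 4 ∧ μH[1] (γ '' Icc t₂ t₃) = perimeter F / 4 ∧
    μH[1] (γ '' Icc t₃ t₄) = perimeter F / 4 ∧ μH[1] (γ '' Icc t₄ (t₁ + 1)) = perimeter F / 4

section curve

variable {F : Set Plane} {γ : ℝ → Plane}

lemma IsBoundaryCurve.inj (h : IsBoundaryCurve F γ) {s t : ℝ} (hst : |s - t| < 1)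
    (he : γ s = γ t) : s = t := by
  have e1 : γ (s - ⌊s⌋) = γ s := by
    have := h.periodic.sub_zsmul_eq ⌊s⌋ (x := s)
    rwa [zsmul_one] at this
  have e2 : γ (t - ⌊t⌋) = γ t := by
    have := h.periodic.sub_zsmul_eq ⌊t⌋ (x := t)
    rwa [zsmul_one] at this
  have m1 : s - ⌊s⌋ ∈ Ico (0:ℝ) 1 := ⟨Int.fract_nonneg s, Int.fract_lt_one s⟩
  have m2 : t - ⌊t⌋ ∈ Ico (0:ℝ) 1 := ⟨Int.fract_nonneg t, Int.fract_lt_one t⟩
  have h1 := h.injOn m1 m2 (by rw [e1, e2, he])
  have h2 : s - t = ((⌊s⌋ - ⌊t⌋ : ℤ) : ℝ) := by push_cast; linarith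
  rw [h2] at hst
  have h3 : |⌊s⌋ - ⌊t⌋| < 1 := by exact_mod_cast hst
  have h4 : ⌊s⌋ - ⌊t⌋ = 0 := Int.abs_lt_one_iff.mp h3
  rw [h4] at h2
  simp at h2
  linarith

lemma IsBoundaryCurve.mem (h : IsBoundaryCurve F γ) (t : ℝ) : γ t ∈ frontier F := by
  rw [← h.range_eq]; exact mem_range_self t

lemma IsBoundaryCurve.exists_time (h : IsBoundaryCurve F γ) {z : Plane} (hz : z ∈ frontier F)
    (a : ℝ) : ∃ t ∈ Ico a (a + 1), γ t = z := by
  rw [← h.range_eq] at hz
  obtain ⟨x, rfl⟩ := hz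
  obtain ⟨y, hy, hxy⟩ := h.periodic.exists_mem_Ico one_pos x a
  exact ⟨y, hy, hxy.symm⟩

lemma const_sign {φ : ℝ → ℝ} (hφ : Continuous φ) {s u : ℝ} (hne : ∀ r ∈ Ioo s u, φ r ≠ 0)
    {r r' : ℝ} (hr : r ∈ Ioo s u) (hr' : r' ∈ Ioo s u) (h : 0 < φ r) : 0 < φ r' := by
  by_contra hcon
  push Not at hcon
  have h1 := intermediate_value_uIcc (a := r') (b := r) (f := φ) hφ.continuousOn
  have h2 : (0:ℝ) ∈ uIcc (φ r') (φ r) := by
    rw [mem_uIcc]; left; exact ⟨hcon, h.le⟩
  obtain ⟨x, hx, hx0⟩ := h1 h2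
  have hx' : x ∈ Ioo s u := by
    have : uIcc r' r ⊆ Ioo s u := (ordConnected_Ioo).uIcc_subset hr' hr
    exact this hx
  exact hne x hx' hx0

/-- The two arcs between the endpoints of a chord lie on different sides of the chord. -/
lemma side (h : IsBoundaryCurve F γ) {g : Plane → ℝ} (hg : Continuous g) {s u : ℝ} (hsu : s < u)
    (hu : u < s + 1) (hs0 : g (γ s) = 0) (hu0 : g (γ u) = 0)
    (hz : ∀ z ∈ frontier F, g z = 0 → z = γ s ∨ z = γ u) (hpos : ∃ z ∈ frontier F, 0 < g z)
    (hneg : ∃ z ∈ frontier F, g z < 0) {t t' : ℝ} (ht : t ∈ Ioo s u) (ht' : t' ∈ Ioo u (s + 1))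
    (hlt : g (γ t') < g (γ t)) :
    (∀ r ∈ Ioo s u, 0 < g (γ r)) ∧ ∀ r ∈ Ioo u (s + 1), g (γ r) < 0 := by
  have hc : Continuous (fun r => g (γ r)) := hg.comp h.continuous
  have n1 : ∀ r ∈ Ioo s u, g (γ r) ≠ 0 := by
    intro r hr h0
    rcases hz _ (h.mem r) h0 with h1 | h1
    · have := h.inj (by rw [abs_lt]; constructor <;> linarith [hr.1, hr.2]) h1
      linarith [hr.1]
    · have := h.inj (by rw [abs_lt]; constructor <;> linarith [hr.1, hr.2]) h1
      linarith [hr.2]
  have n2 : ∀ r ∈ Ioo u (s + 1), g (γ r) ≠ 0 := by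
    intro r hr h0
    rcases hz _ (h.mem r) h0 with h1 | h1
    · have := h.inj (by rw [abs_lt]; constructor <;> linarith [hr.1, hr.2]) h1
      linarith [hr.1]
    · have := h.inj (by rw [abs_lt]; constructor <;> linarith [hr.1, hr.2]) h1
      linarith [hr.1]
  have hcn : Continuous (fun r => -g (γ r)) := hc.neg
  have n1' : ∀ r ∈ Ioo s u, -g (γ r) ≠ 0 := fun r hr => neg_ne_zero.mpr (n1 r hr)
  have n2' : ∀ r ∈ Ioo u (s + 1), -g (γ r) ≠ 0 := fun r hr => neg_ne_zero.mpr (n2 r hr)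
  rcases lt_or_gt_of_ne (n1 t ht) with h1 | h1
  · -- negative on the first arc
    have hall : ∀ r ∈ Ioo u (s + 1), g (γ r) < 0 := by
      intro r hr
      have := const_sign hcn n2' ht' hr (by
        show 0 < -g (γ t')
        linarith)
      linarith
    have hall' : ∀ r ∈ Ioo s u, g (γ r) < 0 := by
      intro r hr
      have := const_sign hcn n1' ht hr (by
        show 0 < -g (γ t)
        linarith)
      linarith
    exfalso
    obtain ⟨z, hzF, hzg⟩ := hpos
    obtain ⟨r, hr, rfl⟩ := h.exists_time hzF s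
    rcases hr.1.eq_or_lt with e | e
    · rw [← e] at hzg; linarith
    rcases lt_trichotomy r u with e' | e' | e'
    · linarith [hall' r ⟨e, e'⟩]
    · rw [e'] at hzg; linarith
    · linarith [hall r ⟨e', hr.2⟩]
  · have hall : ∀ r ∈ Ioo s u, 0 < g (γ r) := fun r hr => const_sign hc n1 ht hr h1
    refine ⟨hall, ?_⟩
    rcases lt_or_gt_of_ne (n2 t' ht') with h2 | h2
    · intro r hr
      have := const_sign hcn n2' ht' hr (by
        show 0 < -g (γ t')
        linarith)
      linarith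
    · exfalso
      have hall' : ∀ r ∈ Ioo u (s + 1), 0 < g (γ r) := fun r hr => const_sign hc n2 ht' hr h2
      obtain ⟨z, hzF, hzg⟩ := hneg
      obtain ⟨r, hr, rfl⟩ := h.exists_time hzF s
      rcases hr.1.eq_or_lt with e | e
      · rw [← e] at hzg; linarith
      rcases lt_trichotomy r u with e' | e' | e'
      · linarith [hall r ⟨e, e'⟩]
      · rw [e'] at hzg; linarith
      · linarith [hall' r ⟨e', hr.2⟩]

/-- If the line of a chord misses the interior, the chord is half as long as the perimeter. -/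
lemma degenerate (hcomp : IsCompact F) (hc : Convex ℝ F) (h : IsBoundaryCurve F γ) {f O : Plane}
    {s u : ℝ}
    (hsu : s < u) (hu : u < s + 1) (hs0 : ⟪γ s - O, f⟫ = 0) (hu0 : ⟪γ u - O, f⟫ = 0)
    (hmiss : ∀ w ∈ interior F, ⟪w - O, f⟫ ≠ 0) {r₁ r₂ : ℝ} (hr1 : r₁ ∈ Ioo s u)
    (hr2 : r₂ ∈ Ioo u (s + 1)) {L : ℝ≥0∞} (a1 : μH[1] (γ '' Icc s r₁) = L / 4)
    (a2 : μH[1] (γ '' Icc r₁ u) = L / 4) (a3 : μH[1] (γ '' Icc u r₂) = L / 4)
    (a4 : μH[1] (γ '' Icc r₂ (s + 1)) = L / 4) : L ≤ 2 * edist (γ s) (γ u) := by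
  have hcl : ∀ z ∈ frontier F, z ∈ F := fun z hz => closed_sub hcomp (subset_refl _) hz
  have hne : γ s ≠ γ u := by
    intro he
    have := h.inj (by rw [abs_lt]; constructor <;> linarith) he
    linarith
  have hseg : segment ℝ (γ s) (γ u) ⊆ frontier F := by
    intro z hz
    have hzF : z ∈ F := hc.segment_subset (hcl _ (h.mem s)) (hcl _ (h.mem u)) hz
    refine ⟨subset_closure hzF, fun hint => hmiss z hint ?_⟩
    obtain ⟨a, b, _, _, hab, rfl⟩ := hz
    have e1 : a • γ s + b • γ u - O = a • (γ s - O) + b • (γ u - O) := by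
      have : O = (a + b) • O := by rw [hab, one_smul]
      nth_rewrite 1 [this]
      module
    rw [e1, inner_add_left, inner_smul_left, inner_smul_left, hs0, hu0]
    simp
  have hper : γ (s + 1) = γ s := h.periodic s
  -- the two closed arcs
  have hcomp1 : IsCompact (γ '' Icc s u) := isCompact_Icc.image h.continuous
  have hcomp2 : IsCompact (γ '' Icc u (s + 1)) := isCompact_Icc.image h.continuous
  have hcover : frontier F ⊆ γ '' Icc s u ∪ γ '' Icc u (s + 1) := by
    intro z hz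
    obtain ⟨t, ht, rfl⟩ := h.exists_time hz s
    rcases le_or_gt t u with h1 | h1
    · left; exact ⟨t, ⟨ht.1, h1⟩, rfl⟩
    · right; exact ⟨t, ⟨h1.le, ht.2.le⟩, rfl⟩
  have hinter : ∀ z, z ∈ γ '' Icc s u → z ∈ γ '' Icc u (s + 1) → z = γ s ∨ z = γ u := by
    rintro z ⟨t, ht, rfl⟩ ⟨t', ht', he⟩
    rcases lt_or_ge t' (s + 1) with h1 | h1
    · rcases ht.1.eq_or_lt with h2 | h2
      · left; rw [← h2]
      · have := h.inj (s := t') (t := t) (by
          rw [abs_lt]; constructor <;> linarith [ht.1, ht.2, ht'.1]) he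
        right
        have : t = u := by linarith [ht.2, ht'.1]
        rw [this]
    · left
      have : t' = s + 1 := le_antisymm ht'.2 h1
      rw [← he, this, hper]
  -- an arc containing the segment is contained in it
  have hsub : ∀ x y : ℝ, x ≤ y → y < x + 1 → segment ℝ (γ x) (γ y) ⊆ γ '' Icc x y →
      γ '' Icc x y ⊆ segment ℝ (γ x) (γ y) := by
    intro x y hxy hyx hss
    have hmap : IsClosedMap (fun t : Icc x y => γ t) := by
      apply Continuous.isClosedMap
      exact h.continuous.comp continuous_subtype_val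
    have hinj : Function.Injective (fun t : Icc x y => γ t) := by
      intro t t' htt
      apply Subtype.ext
      apply h.inj _ htt
      rw [abs_lt]
      constructor <;> linarith [t.2.1, t.2.2, t'.2.1, t'.2.2]
    have hpre := (convex_segment (𝕜 := ℝ) (γ x) (γ y)).isPreconnected.preimage_of_isClosedMap hinj
      hmap (by
        intro z hz
        obtain ⟨t, ht, rfl⟩ := hss hz
        exact ⟨⟨t, ht⟩, rfl⟩)
    have himg : IsPreconnected (Subtype.val '' ((fun t : Icc x y => γ t) ⁻¹' segment ℝ (γ x) (γ y))) :=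
      hpre.image _ continuous_subtype_val.continuousOn
    have hIcc := himg.Icc_subset (a := x) (b := y)
      ⟨⟨x, left_mem_Icc.mpr hxy⟩, left_mem_segment ℝ _ _, rfl⟩
      ⟨⟨y, right_mem_Icc.mpr hxy⟩, right_mem_segment ℝ _ _, rfl⟩
    rintro z ⟨t, ht, rfl⟩
    obtain ⟨t', ht', rfl⟩ := hIcc ht
    exact ht'
  -- measure of two consecutive arcs inside a segment
  have hmeas : ∀ x m y : ℝ, x ≤ m → m ≤ y → y < x + 1 → ∀ p q : Plane,
      γ '' Icc x y ⊆ segment ℝ p q →
      μH[1] (γ '' Icc x m) = L / 4 → μH[1] (γ '' Icc m y) = L / 4 → L ≤ 2 * edist p q := by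
    intro x m y hxm hmy hyx p q hs' b1 b2
    have hui := measure_union_add_inter (μ := (μH[1] : Measure Plane)) (γ '' Icc x m)
      (isCompact_Icc.image h.continuous : IsCompact (γ '' Icc m y)).measurableSet
    have hi0 : μH[1] (γ '' Icc x m ∩ γ '' Icc m y) = 0 := by
      apply measure_mono_null (t := {γ m})
      · rintro z ⟨⟨t, ht, rfl⟩, ⟨t', ht', he⟩⟩
        have := h.inj (s := t') (t := t) (by
          rw [abs_lt]; constructor <;> linarith [ht.1, ht.2, ht'.1, ht'.2]) he
        have : t = m := by linarith [ht.2, ht'.1]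
        rw [this]; rfl
      · haveI := Measure.nullSingletonClass_hausdorff Plane (d := 1) one_pos
        exact measure_singleton _
    rw [hi0, add_zero, b1, b2] at hui
    have hle : μH[1] (γ '' Icc x m ∪ γ '' Icc m y) ≤ edist p q := by
      rw [← hausdorffMeasure_segment]
      apply measure_mono
      rintro z (⟨t, ht, rfl⟩ | ⟨t, ht, rfl⟩)
      · exact hs' ⟨t, ⟨ht.1, ht.2.trans hmy⟩, rfl⟩
      · exact hs' ⟨t, ⟨hxm.trans ht.1, ht.2⟩, rfl⟩
    rw [hui] at hle
    calc L = 2 * (L / 4 + L / 4) := by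
          rw [← two_mul, ← mul_assoc, show (2:ℝ≥0∞) * 2 = 4 by norm_num]
          exact (ENNReal.mul_div_cancel (by norm_num) (by norm_num)).symm
      _ ≤ 2 * edist p q := by gcongr
  -- the open segment lies in one of the arcs
  have hopen : openSegment ℝ (γ s) (γ u) ⊆ γ '' Icc s u ∨
      openSegment ℝ (γ s) (γ u) ⊆ γ '' Icc u (s + 1) := by
    by_contra hcon
    push Not at hcon
    obtain ⟨h1, h2⟩ := hcon
    rw [not_subset] at h1 h2
    obtain ⟨z1, hz1, hz1'⟩ := h1
    obtain ⟨z2, hz2, hz2'⟩ := h2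
    have hos : openSegment ℝ (γ s) (γ u) ⊆ γ '' Icc s u ∪ γ '' Icc u (s + 1) :=
      (openSegment_subset_segment ℝ _ _).trans (hseg.trans hcover)
    have hpc : IsPreconnected (openSegment ℝ (γ s) (γ u)) := (convex_openSegment _ _).isPreconnected
    obtain ⟨w, hw, hw1, hw2⟩ := isPreconnected_closed_iff.mp hpc _ _ hcomp1.isClosed hcomp2.isClosed
      hos ⟨z2, hz2, (hos hz2).resolve_right hz2'⟩ ⟨z1, hz1, (hos hz1).resolve_left hz1'⟩
    rcases hinter w hw1 hw2 with h3 | h3
    · rw [h3] at hw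
      exact hne (left_mem_openSegment_iff.mp hw)
    · rw [h3] at hw
      exact hne (right_mem_openSegment_iff.mp hw)
  rcases hopen with h1 | h1
  · have h2 : segment ℝ (γ s) (γ u) ⊆ γ '' Icc s u := by
      rw [← closure_openSegment]
      exact closure_minimal h1 hcomp1.isClosed
    exact hmeas s r₁ u hr1.1.le hr1.2.le hu _ _ (hsub s u hsu.le hu h2) a1 a2
  · have h2 : segment ℝ (γ u) (γ (s + 1)) ⊆ γ '' Icc u (s + 1) := by
      rw [hper, segment_symm, ← closure_openSegment]
      exact closure_minimal h1 hcomp2.isClosed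
    have h3 := hmeas u r₂ (s + 1) hr2.1.le hr2.2.le (by linarith) _ _
      (hsub u (s + 1) hu.le (by linarith) h2) a3 a4
    rw [hper, edist_comm] at h3
    exact h3

end curve

end Pool.Agent.X162.Quad
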