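import Pool.Agent.X162.QuadThm

/-!
# Perimeter and diameter
-/

namespace Pool.Agent.X162.Quad

open Set MeasureTheory Metric
open scoped RealInnerProductSpace ENNReal

/-- The rotation of a vector by a right angle. -/
noncomputable def perp (e : Plane) : Plane := !₂[-(e 1), e 0]

lemma fr_perp {e : Plane} (he : ‖e‖ = 1) : Fr e (perp e) := by
  have h1 : e 0 * e 0 + e 1 * e 1 = 1 := by
    rw [← inner_coord, real_inner_self_eq_norm_sq, he]; norm_num
  refine ⟨he, ?_, ?_⟩
  · have h2 : ‖perp e‖ ^ 2 = 1 := by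
      rw [← real_inner_self_eq_norm_sq, inner_coord]
      simp only [perp, Matrix.cons_val_zero, Matrix.cons_val_one]
      linarith
    have h3 : 0 ≤ ‖perp e‖ := norm_nonneg _
    nlinarith
  · rw [inner_coord]
    simp only [perp, Matrix.cons_val_zero, Matrix.cons_val_one]
    ring

lemma half_len {e : Plane} (he : ‖e‖ = 1) (x : Plane) {S : Set Plane} {D : ℝ}
    (hS : ∀ s ∈ Ioo 0 D, ∃ z ∈ S, ⟪z - x, e⟫ = s) : ENNReal.ofReal D ≤ μH[1] S := by
  have hL : LipschitzWith 1 (fun z : Plane => ⟪z - x, e⟫) := by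
    apply LipschitzWith.of_dist_le_mul
    intro z w
    rw [Real.dist_eq, ← inner_sub_left, sub_sub_sub_cancel_right, NNReal.coe_one, one_mul,
      dist_eq_norm]
    have := abs_real_inner_le_norm (z - w) e
    rwa [he, mul_one] at this
  have h1 := hL.hausdorffMeasure_image_le (d := 1) (by norm_num) S
  simp only [ENNReal.coe_one, ENNReal.one_rpow, one_mul] at h1
  refine le_trans ?_ h1
  have h2 : Ioo 0 D ⊆ (fun z : Plane => ⟪z - x, e⟫) '' S := by
    intro s hs
    obtain ⟨z, hz, hzs⟩ := hS s hs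
    exact ⟨z, hz, hzs⟩
  refine le_trans ?_ (measure_mono h2)
  rw [hausdorffMeasure_real, Real.volume_Ioo, sub_zero]

lemma two_mul_dist_le_perimeter_aux {F : Set Plane} (hF : IsConvexFigure F) {e f : Plane}
    (hfr : Fr e f) {x y : Plane} (hx : x ∈ F) (hy : y ∈ F) {D : ℝ}
    (hxy : y = x + D • e) {w : Plane} (hw : w ∈ F) (hw0 : 0 < ⟪w - x, f⟫) :
    ENNReal.ofReal D + ENNReal.ofReal D ≤ perimeter F := by
  have hcomp := hF.isCompact
  have hc := hF.convex
  have hm : MeasurableSet {z : Plane | 0 < ⟪z - x, f⟫} :=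
    (isOpen_lt (by fun_prop) (by fun_prop)).measurableSet
  have hsplit := measure_inter_add_sdiff (μ := (μH[1] : Measure Plane)) (frontier F) hm
  unfold perimeter
  rw [← hsplit]
  have hline : ∀ s ∈ Ioo 0 D, x + s • e ∈ F := by
    intro s hs
    have hD : 0 < D := hs.1.trans hs.2
    have := hc hx hy (a := 1 - s / D) (b := s / D)
      (by rw [sub_nonneg, div_le_one hD]; exact hs.2.le) (div_nonneg hs.1.le hD.le) (by ring)
    have e1 : (1 - s / D) • x + (s / D) • y = x + s • e := by
      have e2 : s • e = (s / D) • D • e := by rw [smul_smul, div_mul_cancel₀ s hD.ne']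
      rw [hxy, e2]; module
    rwa [e1] at this
  apply add_le_add
  · apply half_len hfr.he x
    intro s hs
    have hD : 0 < D := hs.1.trans hs.2
    -- a point of `F` above `x + s e`
    obtain ⟨t₀, ht₀, hin⟩ : ∃ t₀ : ℝ, 0 < t₀ ∧ x + s • e + t₀ • f ∈ F := by
      obtain ⟨c, hcd⟩ : ∃ c, c = ⟪w - x, e⟫ := ⟨_, rfl⟩
      obtain ⟨k, hk⟩ : ∃ k, k = ⟪w - x, f⟫ := ⟨_, rfl⟩
      have hwd := hfr.decomp x w
      rw [← hcd, ← hk] at hwd
      rw [← hk] at hw0
      rcases le_or_gt s c with h1 | h1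
      · have hc0 : 0 < c := hs.1.trans_le h1
        refine ⟨s / c * k, mul_pos (div_pos hs.1 hc0) hw0, ?_⟩
        have := hc hx hw (a := 1 - s / c) (b := s / c)
          (by rw [sub_nonneg, div_le_one hc0]; exact h1) (div_nonneg hs.1.le hc0.le) (by ring)
        have e1 : (1 - s / c) • x + (s / c) • w = x + s • e + (s / c * k) • f := by
          have e2 : s • e = (s / c) • c • e := by rw [smul_smul, div_mul_cancel₀ s hc0.ne']
          rw [hwd, e2]; module
        rwa [e1] at this
      · have hc0 : 0 < D - c := by linarith [hs.2]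
        refine ⟨(D - s) / (D - c) * k, mul_pos (div_pos (by linarith [hs.2]) hc0) hw0, ?_⟩
        have := hc hy hw (a := 1 - (D - s) / (D - c)) (b := (D - s) / (D - c))
          (by rw [sub_nonneg, div_le_one hc0]; linarith)
          (div_nonneg (by linarith [hs.2]) hc0.le) (by ring)
        have e1 : (1 - (D - s) / (D - c)) • y + ((D - s) / (D - c)) • w =
            x + s • e + ((D - s) / (D - c) * k) • f := by
          obtain ⟨r, hr⟩ : ∃ r, r = (D - s) / (D - c) := ⟨_, rfl⟩
          have e3 : s = D - r * (D - c) := by rw [hr, div_mul_cancel₀ _ hc0.ne']; ring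
          have e4 : s • e = (D - r * (D - c)) • e := by rw [← e3]
          rw [← hr, hwd, hxy, e4]
          module
        rwa [e1] at this
    obtain ⟨t, ht, hz⟩ := exit hcomp hin hfr.hf
    refine ⟨_, ⟨hz, ?_⟩, ?_⟩
    · show 0 < ⟪x + s • e + t₀ • f + t • f - x, f⟫
      rw [show x + s • e + t₀ • f + t • f - x = s • e + (t₀ + t) • f by module, hfr.coord_f]
      linarith
    · rw [show x + s • e + t₀ • f + t • f - x = s • e + (t₀ + t) • f by module, hfr.coord_e]
  · apply half_len hfr.he x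
    intro s hs
    obtain ⟨t, ht, hz⟩ := exit hcomp (hline s hs) (ν := -f) (by rw [norm_neg, hfr.hf])
    refine ⟨_, ⟨hz, ?_⟩, ?_⟩
    · show ¬ 0 < ⟪x + s • e + t • (-f) - x, f⟫
      rw [show x + s • e + t • (-f) - x = s • e + (-t) • f by module, hfr.coord_f]
      linarith
    · rw [show x + s • e + t • (-f) - x = s • e + (-t) • f by module, hfr.coord_e]

lemma two_mul_dist_le_perimeter {F : Set Plane} (hF : IsConvexFigure F) {x y : Plane} (hx : x ∈ F)
    (hy : y ∈ F) : ENNReal.ofReal (2 * dist x y) ≤ perimeter F := by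
  rcases eq_or_ne x y with h0 | h0
  · rw [h0]; simp
  have hn : 0 < ‖y - x‖ := norm_pos_iff.mpr (sub_ne_zero.mpr h0.symm)
  obtain ⟨e, he⟩ : ∃ e, e = ‖y - x‖⁻¹ • (y - x) := ⟨_, rfl⟩
  have he1 : ‖e‖ = 1 := by rw [he, norm_smul, norm_inv, norm_norm, inv_mul_cancel₀ hn.ne']
  have hxy : y = x + ‖y - x‖ • e := by
    rw [he, smul_smul, mul_inv_cancel₀ hn.ne', one_smul]; abel
  have hfr := fr_perp he1
  obtain ⟨f, hf⟩ : ∃ f, f = perp e := ⟨_, rfl⟩
  rw [← hf] at hfr
  have hgoal : ENNReal.ofReal (2 * dist x y) = ENNReal.ofReal ‖y - x‖ + ENNReal.ofReal ‖y - x‖ := by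
    rw [← ENNReal.ofReal_add hn.le hn.le, dist_comm, dist_eq_norm]
    congr 1
    ring
  rw [hgoal]
  obtain ⟨w, hw, hw0⟩ : ∃ w ∈ F, ⟪w - x, f⟫ ≠ 0 := by
    by_contra hcon
    push Not at hcon
    obtain ⟨w, hw⟩ := hF.interior_nonempty
    have hopen : IsOpen ((fun t : ℝ => w + t • f) ⁻¹' interior F) :=
      isOpen_interior.preimage (by fun_prop)
    obtain ⟨r, hr, hball⟩ := Metric.isOpen_iff.mp hopen 0 (by simpa using hw)
    have h1 : w + (r / 2) • f ∈ interior F := by
      apply hball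
      rw [mem_ball, Real.dist_eq, sub_zero, abs_of_pos (by positivity)]
      linarith
    have h2 := hcon _ (interior_subset h1)
    rw [show w + (r / 2) • f - x = (w - x) + (r / 2) • f by abel, inner_add_left,
      hcon _ (interior_subset hw), inner_smul_left, hfr.ff] at h2
    simp at h2
    linarith
  rcases lt_or_gt_of_ne hw0 with h | h
  · have hfr' : Fr e (-f) := ⟨hfr.he, by rw [norm_neg, hfr.hf], by rw [inner_neg_right, hfr.hef,
      neg_zero]⟩
    exact two_mul_dist_le_perimeter_aux hF hfr' hx hy hxy hw (by rw [inner_neg_right]; linarith)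
  · exact two_mul_dist_le_perimeter_aux hF hfr hx hy hxy hw h

/-- The diameter is at most the total length of two perpendicular quadrisecting chords. -/
theorem diam_le {F : Set Plane} (hF : IsConvexFigure F) {p₁ p₂ q₁ q₂ : Plane}
    (hq : QuadrisectPerimeter F p₁ p₂ q₁ q₂) (hperp : ⟪p₁ - q₁, p₂ - q₂⟫ = 0) :
    Metric.diam F ≤ dist p₁ q₁ + dist p₂ q₂ := by
  apply Metric.diam_le_of_forall_dist_le (by positivity)
  intro x hx y hy
  have h1 := (two_mul_dist_le_perimeter hF hx hy).trans (main hF hq hperp).1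
  have h2 := (ENNReal.ofReal_le_ofReal_iff (by positivity)).mp h1
  linarith

end Pool.Agent.X162.Quad
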