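import Mathlib

/-!
# Lengths of boundary arcs of plane convex figures: geometric lemmas
-/

namespace Pool.Agent.X162.Quad

open Set MeasureTheory Metric
open scoped RealInnerProductSpace ENNReal

/-- The Euclidean plane. -/
abbrev Plane := EuclideanSpace ℝ (Fin 2)

/-- `(e, f)` is an orthonormal frame. -/
structure Fr (e f : Plane) : Prop where
  he : ‖e‖ = 1
  hf : ‖f‖ = 1
  hef : ⟪e, f⟫ = 0

lemma inner_coord (v w : Plane) : ⟪v, w⟫ = v 0 * w 0 + v 1 * w 1 := by
  rw [PiLp.inner_apply, Fin.sum_univ_two]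
  simp [mul_comm]

lemma Fr.ee {e f : Plane} (h : Fr e f) : ⟪e, e⟫ = 1 := by
  rw [real_inner_self_eq_norm_sq, h.he]; norm_num

lemma Fr.ff {e f : Plane} (h : Fr e f) : ⟪f, f⟫ = 1 := by
  rw [real_inner_self_eq_norm_sq, h.hf]; norm_num

lemma Fr.fe {e f : Plane} (h : Fr e f) : ⟪f, e⟫ = 0 := by
  rw [real_inner_comm]; exact h.hef

lemma Fr.rot {e f : Plane} (h : Fr e f) : Fr f (-e) :=
  ⟨h.hf, by rw [norm_neg, h.he], by rw [inner_neg_right, h.fe, neg_zero]⟩

lemma Fr.inner_eq {e f : Plane} (h : Fr e f) (v w : Plane) :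
    ⟪v, w⟫ = ⟪v, e⟫ * ⟪w, e⟫ + ⟪v, f⟫ * ⟪w, f⟫ := by
  have h1 := h.ee
  have h2 := h.ff
  have h3 := h.hef
  rw [inner_coord] at h1 h2 h3
  simp only [inner_coord]
  obtain ⟨d, hd⟩ : ∃ d, d = e 0 * f 1 - e 1 * f 0 := ⟨_, rfl⟩
  have f0 : f 0 = -(e 1) * d := by
    rw [hd]; linear_combination (-(f 0)) * h1 + (e 0) * h3
  have f1 : f 1 = e 0 * d := by
    rw [hd]; linear_combination (-(f 1)) * h1 + (e 1) * h3
  have d2 : d ^ 2 = 1 := by
    rw [f0, f1] at h2
    linear_combination h2 - d ^ 2 * h1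
  rw [f0, f1]
  linear_combination (-(v 0 * w 0 + v 1 * w 1)) * h1 -
    ((v 1 * e 0 - v 0 * e 1) * (w 1 * e 0 - w 0 * e 1)) * d2

lemma Fr.expand {e f : Plane} (h : Fr e f) (v : Plane) : v = ⟪v, e⟫ • e + ⟪v, f⟫ • f := by
  apply ext_inner_right ℝ
  intro w
  rw [h.inner_eq v w, inner_add_left, inner_smul_left, inner_smul_left, real_inner_comm w e,
    real_inner_comm w f]
  simp

lemma Fr.norm_sq {e f : Plane} (h : Fr e f) (v : Plane) : ‖v‖ ^ 2 = ⟪v, e⟫ ^ 2 + ⟪v, f⟫ ^ 2 := by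
  rw [← real_inner_self_eq_norm_sq, h.inner_eq]; ring

lemma Fr.coord_e {e f : Plane} (h : Fr e f) (s t : ℝ) : ⟪s • e + t • f, e⟫ = s := by
  rw [inner_add_left, inner_smul_left, inner_smul_left, h.ee, h.fe]; simp

lemma Fr.coord_f {e f : Plane} (h : Fr e f) (s t : ℝ) : ⟪s • e + t • f, f⟫ = t := by
  rw [inner_add_left, inner_smul_left, inner_smul_left, h.ff, h.hef]; simp

/-- Supporting unit normals at boundary points. -/
lemma support {F : Set Plane} (hc : Convex ℝ F) (hi : (interior F).Nonempty) {q : Plane}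
    (hq : q ∈ frontier F) :
    ∃ ν : Plane, ‖ν‖ = 1 ∧ (∀ w ∈ F, ⟪w - q, ν⟫ ≤ 0) ∧ ∀ w ∈ interior F, ⟪w - q, ν⟫ < 0 := by
  obtain ⟨g, hg⟩ := geometric_hahn_banach_open_point hc.interior isOpen_interior hq.2
  obtain ⟨v, hv⟩ : ∃ v : Plane, ∀ w, ⟪v, w⟫ = g w :=
    ⟨(InnerProductSpace.toDual ℝ Plane).symm g, fun w => InnerProductSpace.toDual_symm_apply⟩
  have hv0 : v ≠ 0 := by
    rintro rfl
    obtain ⟨w, hw⟩ := hi
    have h1 := hg w hw
    rw [← hv, ← hv] at h1
    simp at h1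
  have hn : 0 < ‖v‖ := norm_pos_iff.mpr hv0
  have hint : ∀ w ∈ interior F, ⟪w - q, v⟫ < 0 := by
    intro w hw
    rw [real_inner_comm, inner_sub_right, hv, hv]
    linarith [hg w hw]
  refine ⟨‖v‖⁻¹ • v, ?_, ?_, ?_⟩
  · rw [norm_smul, norm_inv, norm_norm, inv_mul_cancel₀ hn.ne']
  · intro w hw
    have hcl : w ∈ closure (interior F) := by
      rw [hc.closure_interior_eq_closure_of_nonempty_interior hi]
      exact subset_closure hw
    have hclosed : IsClosed {w : Plane | ⟪w - q, v⟫ ≤ 0} := isClosed_le (by fun_prop) (by fun_prop)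
    have h2 : w ∈ {w : Plane | ⟪w - q, v⟫ ≤ 0} :=
      closure_minimal (fun w hw => (hint w hw).le) hclosed hcl
    rw [inner_smul_right]
    exact mul_nonpos_of_nonneg_of_nonpos (by positivity) h2
  · intro w hw
    rw [inner_smul_right]
    exact mul_neg_of_pos_of_neg (by positivity) (hint w hw)

/-- A ray from a point of a compact set leaves it through the frontier. -/
lemma exit {K : Set Plane} (hK : IsCompact K) {q ν : Plane} (hq : q ∈ K) (hν : ‖ν‖ = 1) :
    ∃ t : ℝ, 0 ≤ t ∧ q + t • ν ∈ frontier K := by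
  have hiso : Isometry (fun t : ℝ => q + t • ν) := by
    apply Isometry.of_dist_eq
    intro s t
    rw [dist_eq_norm, Real.dist_eq, add_sub_add_left_eq_sub, ← sub_smul, norm_smul, hν, mul_one,
      Real.norm_eq_abs]
  have hcomp : IsCompact ((fun t : ℝ => q + t • ν) ⁻¹' K ∩ Ici 0) :=
    (hiso.isClosedEmbedding.isCompact_preimage hK).inter_right isClosed_Ici
  obtain ⟨t, ⟨htK, ht0⟩, hmax⟩ := hcomp.exists_isGreatest ⟨0, by simpa using hq, le_refl (0:ℝ)⟩
  refine ⟨t, ht0, subset_closure htK, fun hint => ?_⟩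
  have hopen : IsOpen ((fun t : ℝ => q + t • ν) ⁻¹' interior K) :=
    isOpen_interior.preimage (by fun_prop)
  obtain ⟨r, hr, hball⟩ := Metric.isOpen_iff.mp hopen t hint
  have h1 : t + r / 2 ∈ (fun t : ℝ => q + t • ν) ⁻¹' interior K := by
    apply hball
    rw [mem_ball, Real.dist_eq, add_sub_cancel_left, abs_of_pos (by positivity)]
    linarith
  have h1' : q + (t + r / 2) • ν ∈ interior K := h1
  have h2 := hmax ⟨(interior_subset h1' : q + (t + r / 2) • ν ∈ K), by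
    have h0 : (0:ℝ) ≤ t := ht0
    have : 0 ≤ t + r / 2 := by positivity
    exact this⟩
  linarith

/-- Comparison of lengths through the nearest point projection. -/
lemma cover {F : Set Plane} (hc : Convex ℝ F) (hi : (interior F).Nonempty) {A K B : Set Plane}
    (hA : A ⊆ frontier F) (hAK : A ⊆ K) (hK : IsCompact K)
    (hB : ∀ z ∈ frontier K, (z ∈ F → z ∈ A) → z ∈ B) : μH[1] A ≤ μH[1] B := by
  have hex : ∀ q : A, ∃ z ∈ B, ∀ w ∈ F, ⟪w - q.1, z - q.1⟫ ≤ 0 := by
    rintro ⟨q, hq⟩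
    obtain ⟨ν, hν, hsup, -⟩ := support hc hi (hA hq)
    obtain ⟨t, ht, hz⟩ := exit hK (hAK hq) hν
    refine ⟨q + t • ν, hB _ hz ?_, ?_⟩
    · intro hzF
      have h1 := hsup _ hzF
      rw [add_sub_cancel_left, inner_smul_left, real_inner_self_eq_norm_sq, hν] at h1
      have h1' : t * 1 ^ 2 ≤ 0 := h1
      have h2 : t = 0 := by linarith
      rw [h2, zero_smul, add_zero]
      exact hq
    · intro w hw
      change ⟪w - q, q + t • ν - q⟫ ≤ 0
      rw [add_sub_cancel_left, inner_smul_right]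
      exact mul_nonpos_of_nonneg_of_nonpos ht (hsup w hw)
  choose z hzB hz using hex
  have hclosureF : ∀ q : A, q.1 ∈ closure F := fun q => frontier_subset_closure (hA q.2)
  have hz' : ∀ q : A, ∀ w ∈ closure F, ⟪w - q.1, z q - q.1⟫ ≤ 0 := by
    intro q w hw
    have hcl : IsClosed {w : Plane | ⟪w - q.1, z q - q.1⟫ ≤ 0} :=
      isClosed_le (by fun_prop) (by fun_prop)
    exact closure_minimal (fun w hw => hz q w hw) hcl hw
  have hanti : AntilipschitzWith 1 z := by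
    apply AntilipschitzWith.of_le_mul_dist
    intro q q'
    rw [NNReal.coe_one, one_mul, Subtype.dist_eq, dist_eq_norm, dist_eq_norm]
    have h1 := hz' q q'.1 (hclosureF q')
    have h2 := hz' q' q.1 (hclosureF q)
    have h3 : ‖q.1 - q'.1‖ ^ 2 ≤ ⟪z q - z q', q.1 - q'.1⟫ := by
      rw [← real_inner_self_eq_norm_sq]
      have e1 : ⟪q'.1 - q.1, z q - q.1⟫ = ⟪q.1, z q⟫ * (-1) + ⟪q'.1, z q⟫ + ⟪q.1, q.1⟫
          - ⟪q'.1, q.1⟫ := by
        simp only [inner_sub_left, inner_sub_right]; ring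
      have e2 : ⟪q.1 - q'.1, z q' - q'.1⟫ = ⟪q.1, z q'⟫ - ⟪q'.1, z q'⟫ - ⟪q.1, q'.1⟫
          + ⟪q'.1, q'.1⟫ := by
        simp only [inner_sub_left, inner_sub_right]; ring
      have e3 : ⟪q.1 - q'.1, q.1 - q'.1⟫ = ⟪q.1, q.1⟫ - ⟪q.1, q'.1⟫ - ⟪q'.1, q.1⟫
          + ⟪q'.1, q'.1⟫ := by
        simp only [inner_sub_left, inner_sub_right]; ring
      have e4 : ⟪z q - z q', q.1 - q'.1⟫ = ⟪q.1, z q⟫ - ⟪q'.1, z q⟫ - ⟪q.1, z q'⟫
          + ⟪q'.1, z q'⟫ := by
        simp only [inner_sub_left, inner_sub_right]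
        rw [real_inner_comm q.1 (z q), real_inner_comm q'.1 (z q), real_inner_comm q.1 (z q'),
          real_inner_comm q'.1 (z q')]
        ring
      rw [e1] at h1
      rw [e2] at h2
      rw [e3, e4]
      linarith
    have h4 : ⟪z q - z q', q.1 - q'.1⟫ ≤ ‖z q - z q'‖ * ‖q.1 - q'.1‖ := real_inner_le_norm _ _
    rcases (norm_nonneg (q.1 - q'.1)).eq_or_lt with h0 | hpos
    · rw [← h0]; exact norm_nonneg _
    · have : ‖q.1 - q'.1‖ * ‖q.1 - q'.1‖ ≤ ‖z q - z q'‖ * ‖q.1 - q'.1‖ := by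
        rw [← sq]; exact h3.trans h4
      exact le_of_mul_le_mul_right this hpos
  have h1 := hanti.le_hausdorffMeasure_image (d := 1) (by norm_num) univ
  have h2 : (μH[1] : Measure A) univ = μH[1] A := by
    have := isometry_subtype_coe.hausdorffMeasure_image (d := 1) (Or.inl (by norm_num))
      (univ : Set A)
    rw [image_univ, Subtype.range_coe] at this
    exact this.symm
  rw [h2] at h1
  simp only [ENNReal.coe_one, ENNReal.one_rpow, one_mul] at h1
  refine h1.trans (measure_mono ?_)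
  rintro _ ⟨q, -, rfl⟩
  exact hzB q

/-- Points on the first axis between the centre and a point of the figure are interior. -/
lemma axis_interior {F : Set Plane} (hc : Convex ℝ F) {O v : Plane} (hO : O ∈ interior F) {a x : ℝ}
    (ha : 0 < a) (hx0 : 0 ≤ x) (hxa : x < a) (hp : O + a • v ∈ F) : O + x • v ∈ interior F := by
  have h := hc.combo_interior_self_mem_interior hO hp (a := 1 - x / a) (b := x / a)
    (by rw [sub_pos, div_lt_one ha]; exact hxa) (by positivity) (by ring)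
  have e : (1 - x / a) • O + (x / a) • (O + a • v) = O + x • v := by
    rw [smul_add, smul_smul, div_mul_cancel₀ x ha.ne', sub_smul, one_smul]
    abel
  rwa [e] at h

lemma Fr.decomp {e f : Plane} (h : Fr e f) (O z : Plane) :
    z = O + ⟪z - O, e⟫ • e + ⟪z - O, f⟫ • f := by
  have := h.expand (z - O)
  rw [add_assoc, ← this]
  abel

/-- The sector polygon cut out by two half planes. -/
def Kset (O e f : Plane) (n₁ n₂ m₁ m₂ a b : ℝ) : Set Plane :=
  {z | (0 ≤ ⟪z - O, e⟫ ∧ 0 ≤ ⟪z - O, f⟫) ∧ (n₁ * ⟪z - O, e⟫ + n₂ * ⟪z - O, f⟫ ≤ n₁ * a ∧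
    m₁ * ⟪z - O, e⟫ + m₂ * ⟪z - O, f⟫ ≤ m₂ * b)}

lemma Kset_closed (O e f : Plane) (n₁ n₂ m₁ m₂ a b : ℝ) : IsClosed (Kset O e f n₁ n₂ m₁ m₂ a b) := by
  have c1 : IsClosed {z : Plane | 0 ≤ ⟪z - O, e⟫} := isClosed_le (by fun_prop) (by fun_prop)
  have c2 : IsClosed {z : Plane | 0 ≤ ⟪z - O, f⟫} := isClosed_le (by fun_prop) (by fun_prop)
  have c3 : IsClosed {z : Plane | n₁ * ⟪z - O, e⟫ + n₂ * ⟪z - O, f⟫ ≤ n₁ * a} :=
    isClosed_le (by fun_prop) (by fun_prop)
  have c4 : IsClosed {z : Plane | m₁ * ⟪z - O, e⟫ + m₂ * ⟪z - O, f⟫ ≤ m₂ * b} :=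
    isClosed_le (by fun_prop) (by fun_prop)
  exact (c1.inter c2).inter (c3.inter c4)

lemma bounded_of_coord {e f : Plane} (h : Fr e f) (O : Plane) (K : Set Plane) (M : ℝ)
    (hK : ∀ z ∈ K, (0 ≤ ⟪z - O, e⟫ ∧ 0 ≤ ⟪z - O, f⟫) ∧ ⟪z - O, e⟫ ≤ M ∧ ⟪z - O, f⟫ ≤ M) :
    Bornology.IsBounded K := by
  rw [isBounded_iff_subset_closedBall O]
  refine ⟨2 * M, fun z hz => ?_⟩
  obtain ⟨⟨h1, h2⟩, h3, h4⟩ := hK z hz
  rw [mem_closedBall, dist_eq_norm]
  have h5 : ‖z - O‖ ^ 2 ≤ (2 * M) ^ 2 := by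
    rw [h.norm_sq]
    nlinarith
  have hM : 0 ≤ 2 * M := by linarith
  exact abs_le_of_sq_le_sq' h5 hM |>.2

lemma eq_neg_one {x : ℝ} (h : x ≤ 0) (h2 : x ^ 2 = 1) : x = -1 := by nlinarith

lemma Kset_compact {O e f : Plane} (h : Fr e f) {n₁ n₂ m₁ m₂ a b : ℝ}
    (hn₁ : 0 ≤ n₁) (hm₂ : 0 ≤ m₂) (hn' : n₂ ≤ 0 ∨ 0 < n₁) (hm' : m₁ ≤ 0 ∨ 0 < m₂)
    (hD : 0 < n₁ * m₂ - n₂ * m₁) : IsCompact (Kset O e f n₁ n₂ m₁ m₂ a b) := by
  apply Metric.isCompact_of_isClosed_isBounded (Kset_closed _ _ _ _ _ _ _ _ _)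
  obtain ⟨Mx, hMx⟩ : ∃ Mx : ℝ, ∀ x y : ℝ, 0 ≤ x → 0 ≤ y → n₁ * x + n₂ * y ≤ n₁ * a →
      m₁ * x + m₂ * y ≤ m₂ * b → x ≤ Mx := by
    rcases le_or_gt n₂ 0 with h2 | h2
    · refine ⟨(m₂ * (n₁ * a) - n₂ * (m₂ * b)) / (n₁ * m₂ - n₂ * m₁), fun x y hx hy h3 h4 => ?_⟩
      rw [le_div_iff₀ hD]
      have := mul_le_mul_of_nonneg_left h3 hm₂
      have := mul_le_mul_of_nonneg_left h4 (show 0 ≤ -n₂ by linarith)
      nlinarith
    · have hn1 : 0 < n₁ := hn'.resolve_left (by linarith)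
      refine ⟨a, fun x y hx hy h3 h4 => ?_⟩
      have : n₁ * x ≤ n₁ * a := by
        have := mul_nonneg h2.le hy
        linarith
      exact le_of_mul_le_mul_left this hn1
  obtain ⟨My, hMy⟩ : ∃ My : ℝ, ∀ x y : ℝ, 0 ≤ x → 0 ≤ y → n₁ * x + n₂ * y ≤ n₁ * a →
      m₁ * x + m₂ * y ≤ m₂ * b → y ≤ My := by
    rcases le_or_gt m₁ 0 with h2 | h2
    · refine ⟨(n₁ * (m₂ * b) - m₁ * (n₁ * a)) / (n₁ * m₂ - n₂ * m₁), fun x y hx hy h3 h4 => ?_⟩
      rw [le_div_iff₀ hD]
      have := mul_le_mul_of_nonneg_left h4 hn₁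
      have := mul_le_mul_of_nonneg_left h3 (show 0 ≤ -m₁ by linarith)
      nlinarith
    · have hm2 : 0 < m₂ := hm'.resolve_left (by linarith)
      refine ⟨b, fun x y hx hy h3 h4 => ?_⟩
      have : m₂ * y ≤ m₂ * b := by
        have := mul_nonneg h2.le hx
        linarith
      exact le_of_mul_le_mul_left this hm2
  apply bounded_of_coord h O _ (max Mx My)
  rintro z ⟨⟨h1, h2⟩, h3, h4⟩
  exact ⟨⟨h1, h2⟩, (hMx _ _ h1 h2 h3 h4).trans (le_max_left _ _),
    (hMy _ _ h1 h2 h3 h4).trans (le_max_right _ _)⟩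

/-- Length of a segment in frame coordinates. -/
lemma seg_len {e f : Plane} (h : Fr e f) (O : Plane) (x y x' y' r : ℝ) (hr : 0 ≤ r)
    (hxy : (x' - x) ^ 2 + (y' - y) ^ 2 = r ^ 2) :
    μH[1] (segment ℝ (O + x • e + y • f) (O + x' • e + y' • f)) = ENNReal.ofReal r := by
  rw [hausdorffMeasure_segment, edist_dist, dist_comm, dist_eq_norm]
  congr 1
  have e1 : O + x' • e + y' • f - (O + x • e + y • f) = (x' - x) • e + (y' - y) • f := by module
  have e2 : ‖(x' - x) • e + (y' - y) • f‖ ^ 2 = r ^ 2 := by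
    rw [h.norm_sq, h.coord_e, h.coord_f, hxy]
  rw [e1]
  have h1 : 0 ≤ ‖(x' - x) • e + (y' - y) • f‖ := norm_nonneg _
  nlinarith [sq_nonneg (‖(x' - x) • e + (y' - y) • f‖ + r), sq_nonneg (‖(x' - x) • e + (y' - y) • f‖ - r)]

/-- Upper bound for the length of a boundary arc in a sector. -/
theorem arc {F : Set Plane} (hc : Convex ℝ F) {O e f : Plane} (hfr : Fr e f) (hO : O ∈ interior F)
    {n₁ n₂ m₁ m₂ a b : ℝ} (ha : 0 < a) (hb : 0 < b) (hn₁ : 0 ≤ n₁) (hm₂ : 0 ≤ m₂)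
    (hn : n₁ ^ 2 + n₂ ^ 2 = 1) (hm : m₁ ^ 2 + m₂ ^ 2 = 1) (hn' : n₂ ≤ 0 ∨ 0 < n₁)
    (hm' : m₁ ≤ 0 ∨ 0 < m₂) (hD : 0 < n₁ * m₂ - n₂ * m₁) (hAa : n₂ * b ≤ n₁ * a)
    (hBb : m₁ * a ≤ m₂ * b) (hp : O + a • e ∈ F) (hp' : O + b • f ∈ F) {A : Set Plane}
    (hA : A ⊆ frontier F) (hAK : A ⊆ Kset O e f n₁ n₂ m₁ m₂ a b) :
    μH[1] A ≤ ENNReal.ofReal (((n₁ * a - n₂ * b) + (m₂ * b - m₁ * a)) / (n₁ * m₂ - n₂ * m₁)) := by
  obtain ⟨D, hDd⟩ : ∃ D, D = n₁ * m₂ - n₂ * m₁ := ⟨_, rfl⟩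
  have hD0 : 0 < D := by rw [hDd]; exact hD
  obtain ⟨P, hP⟩ : ∃ P, P = (m₂ * b - m₁ * a) / D := ⟨_, rfl⟩
  obtain ⟨Q, hQ⟩ : ∃ Q, Q = (n₁ * a - n₂ * b) / D := ⟨_, rfl⟩
  have hP0 : 0 ≤ P := by rw [hP]; exact div_nonneg (by linarith) hD0.le
  have hQ0 : 0 ≤ Q := by rw [hQ]; exact div_nonneg (by linarith) hD0.le
  have ePD : P * D = m₂ * b - m₁ * a := by rw [hP]; field_simp
  have eQD : Q * D = n₁ * a - n₂ * b := by rw [hQ]; field_simp
  have ea : a = P * n₂ + Q * m₂ := by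
    have : a * D = (P * n₂ + Q * m₂) * D := by
      linear_combination (-n₂) * ePD - m₂ * eQD + a * hDd
    exact mul_right_cancel₀ hD0.ne' this
  have eb : b = P * n₁ + Q * m₁ := by
    have : b * D = (P * n₁ + Q * m₁) * D := by
      linear_combination (-n₁) * ePD - m₁ * eQD + b * hDd
    exact mul_right_cancel₀ hD0.ne' this
  have hres : ((n₁ * a - n₂ * b) + (m₂ * b - m₁ * a)) / (n₁ * m₂ - n₂ * m₁) = P + Q := by
    rw [← hDd, ← ePD, ← eQD]
    field_simp
    ring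
  rw [hres]
  -- the covering path
  have hcov := cover hc ⟨O, hO⟩ hA hAK
    (Kset_compact (O := O) hfr hn₁ hm₂ hn' hm' hD)
    (B := segment ℝ (O + a • e + (0:ℝ) • f) (O + (a - P * n₂) • e + (P * n₁) • f) ∪
      segment ℝ (O + (a - P * n₂) • e + (P * n₁) • f) (O + (0:ℝ) • e + b • f)) ?_
  · refine hcov.trans ((measure_union_le _ _).trans ?_)
    rw [seg_len hfr O _ _ _ _ P hP0 (by linear_combination P ^ 2 * hn),
      seg_len hfr O _ _ _ _ Q hQ0 (by
        have e1 : a - P * n₂ = Q * m₂ := by linarith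
        have e2 : b - P * n₁ = Q * m₁ := by linarith
        rw [e1, e2]
        linear_combination Q ^ 2 * hm), ← ENNReal.ofReal_add hP0 hQ0]
  · intro z hz hzF
    have hzK : z ∈ Kset O e f n₁ n₂ m₁ m₂ a b := by
      have := frontier_subset_closure hz
      rwa [(Kset_closed _ _ _ _ _ _ _ _ _).closure_eq] at this
    obtain ⟨x, hx⟩ : ∃ x, x = ⟪z - O, e⟫ := ⟨_, rfl⟩
    obtain ⟨y, hy⟩ : ∃ y, y = ⟪z - O, f⟫ := ⟨_, rfl⟩
    have hzd : z = O + x • e + y • f := by rw [hx, hy]; exact hfr.decomp O z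
    obtain ⟨⟨h1, h2⟩, h3, h4⟩ := hzK
    rw [← hx] at h1
    rw [← hy] at h2
    rw [← hx, ← hy] at h3 h4
    have hnotint : ∀ w, w = z → w ∉ interior F := by
      rintro w rfl hw
      exact (hA (hzF (interior_subset hw))).2 hw
    have hY0 : y = 0 → a ≤ x := by
      intro h0
      by_contra hlt
      push Not at hlt
      apply hnotint (O + x • e) _ (axis_interior hc hO ha h1 hlt hp)
      rw [hzd, h0]; simp
    have hX0 : x = 0 → b ≤ y := by
      intro h0
      by_contra hlt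
      push Not at hlt
      apply hnotint (O + y • f) _ (axis_interior hc hO hb h2 hlt hp')
      rw [hzd, h0]; simp
    -- some constraint is active
    have hact : x = 0 ∨ y = 0 ∨ n₁ * x + n₂ * y = n₁ * a ∨ m₁ * x + m₂ * y = m₂ * b := by
      by_contra hcon
      push Not at hcon
      obtain ⟨c1, c2, c3, c4⟩ := hcon
      apply hz.2
      rw [mem_interior]
      refine ⟨{w | 0 < ⟪w - O, e⟫} ∩ {w | 0 < ⟪w - O, f⟫} ∩
        ({w | n₁ * ⟪w - O, e⟫ + n₂ * ⟪w - O, f⟫ < n₁ * a} ∩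
        {w | m₁ * ⟪w - O, e⟫ + m₂ * ⟪w - O, f⟫ < m₂ * b}), ?_, ?_, ?_⟩
      · rintro w ⟨⟨w1, w2⟩, w3, w4⟩
        exact ⟨⟨le_of_lt w1, le_of_lt w2⟩, le_of_lt w3, le_of_lt w4⟩
      · exact ((isOpen_lt (by fun_prop) (by fun_prop)).inter
          (isOpen_lt (by fun_prop) (by fun_prop))).inter
          ((isOpen_lt (by fun_prop) (by fun_prop)).inter (isOpen_lt (by fun_prop) (by fun_prop)))
      · refine ⟨⟨?_, ?_⟩, ?_, ?_⟩
        · change 0 < ⟪z - O, e⟫
          rw [← hx]; exact lt_of_le_of_ne h1 (Ne.symm c1)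
        · change 0 < ⟪z - O, f⟫
          rw [← hy]; exact lt_of_le_of_ne h2 (Ne.symm c2)
        · change n₁ * ⟪z - O, e⟫ + n₂ * ⟪z - O, f⟫ < n₁ * a
          rw [← hx, ← hy]; exact lt_of_le_of_ne h3 c3
        · change m₁ * ⟪z - O, e⟫ + m₂ * ⟪z - O, f⟫ < m₂ * b
          rw [← hx, ← hy]; exact lt_of_le_of_ne h4 c4
    have hact' : n₁ * x + n₂ * y = n₁ * a ∨ m₁ * x + m₂ * y = m₂ * b := by
      rcases hact with h | h | h | h
      · right
        have hby := hX0 h
        rw [h] at h4 ⊢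
        have : m₂ * b ≤ m₂ * y := mul_le_mul_of_nonneg_left hby hm₂
        linarith
      · left
        have hax := hY0 h
        rw [h] at h3 ⊢
        have : n₁ * a ≤ n₁ * x := mul_le_mul_of_nonneg_left hax hn₁
        linarith
      · exact Or.inl h
      · exact Or.inr h
    rcases hact' with h | h
    · left
      -- z = p + s d
      obtain ⟨s, hs⟩ : ∃ s, s = n₁ * y - n₂ * (x - a) := ⟨_, rfl⟩
      have exs : x = a - s * n₂ := by
        rw [hs]; linear_combination (-(x - a)) * hn + n₁ * h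
      have eys : y = s * n₁ := by
        rw [hs]; linear_combination (-y) * hn + n₂ * h
      have hsP : s ≤ P := by
        have : s * D ≤ P * D := by
          rw [ePD, hDd]
          rw [exs, eys] at h4
          linarith
        exact le_of_mul_le_mul_right this hD0
      have hs0 : 0 ≤ s := by
        rcases hn₁.eq_or_lt with h0 | h0
        · have hn2 : n₂ = -1 := by
            have h5 : n₂ ≤ 0 := hn'.resolve_right (by rw [← h0]; exact lt_irrefl _)
            have h6 : n₂ ^ 2 = 1 := by rw [← h0] at hn; linarith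
            exact eq_neg_one h5 h6
          have hy0 : y = 0 := by rw [eys, ← h0]; ring
          have := hY0 hy0
          rw [exs, hn2] at this
          linarith
        · by_contra hneg
          push Not at hneg
          have : s * n₁ < 0 := mul_neg_of_neg_of_pos hneg h0
          linarith
      rcases hP0.eq_or_lt with hPz | hPpos
      · have hs' : s = 0 := le_antisymm (by rw [hPz]; exact hsP) hs0
        rw [hzd, exs, eys, hs', ← hPz]
        have e1 : O + (a - 0 * n₂) • e + (0 * n₁ : ℝ) • f = O + a • e + (0:ℝ) • f := by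
          simp
        rw [e1]
        exact left_mem_segment ℝ _ _
      · refine ⟨1 - s / P, s / P, ?_, by positivity, by ring, ?_⟩
        · rw [sub_nonneg, div_le_one hPpos]; exact hsP
        · rw [hzd, exs, eys]
          have : s = s / P * P := by field_simp
          generalize s / P = r at this
          rw [this]
          module
    · right
      obtain ⟨s, hs⟩ : ∃ s, s = m₂ * x - m₁ * (y - b) := ⟨_, rfl⟩
      have exs : x = s * m₂ := by
        rw [hs]; linear_combination (-x) * hm + m₁ * h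
      have eys : y = b - s * m₁ := by
        rw [hs]; linear_combination (-(y - b)) * hm + m₂ * h
      have hsQ : s ≤ Q := by
        have : s * D ≤ Q * D := by
          rw [eQD, hDd]
          rw [exs, eys] at h3
          linarith
        exact le_of_mul_le_mul_right this hD0
      have hs0 : 0 ≤ s := by
        rcases hm₂.eq_or_lt with h0 | h0
        · have hm1 : m₁ = -1 := by
            have h5 : m₁ ≤ 0 := hm'.resolve_right (by rw [← h0]; exact lt_irrefl _)
            have h6 : m₁ ^ 2 = 1 := by rw [← h0] at hm; linarith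
            exact eq_neg_one h5 h6
          have hx0 : x = 0 := by rw [exs, ← h0]; ring
          have := hX0 hx0
          rw [eys, hm1] at this
          linarith
        · by_contra hneg
          push Not at hneg
          have : s * m₂ < 0 := mul_neg_of_neg_of_pos hneg h0
          linarith
      have ec1 : a - P * n₂ = Q * m₂ := by linarith
      have ec2 : P * n₁ = b - Q * m₁ := by linarith
      rw [ec1, ec2]
      rcases hQ0.eq_or_lt with hQz | hQpos
      · have hs' : s = 0 := le_antisymm (by rw [hQz]; exact hsQ) hs0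
        rw [hzd, exs, eys, hs', ← hQz]
        have e1 : O + (0 * m₂ : ℝ) • e + (b - 0 * m₁) • f = O + (0:ℝ) • e + b • f := by
          simp
        rw [e1]
        exact left_mem_segment ℝ _ _
      · refine ⟨s / Q, 1 - s / Q, by positivity, ?_, by ring, ?_⟩
        · rw [sub_nonneg, div_le_one hQpos]; exact hsQ
        · rw [hzd, exs, eys]
          have : s = s / Q * Q := by field_simp
          generalize s / Q = r at this
          rw [this]
          module

lemma mem_seg {O e f : Plane} {x₁ y₁ x₂ y₂ x y s : ℝ} (h0 : 0 ≤ s) (h1 : s ≤ 1)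
    (hx : x = (1 - s) * x₁ + s * x₂) (hy : y = (1 - s) * y₁ + s * y₂) :
    O + x • e + y • f ∈ segment ℝ (O + x₁ • e + y₁ • f) (O + x₂ • e + y₂ • f) :=
  ⟨1 - s, s, by linarith, h0, by ring, by rw [hx, hy]; module⟩

/-- Boundary arcs of compact convex sets in a sector have finite length. -/
lemma arc_finite {F : Set Plane} (hcomp : IsCompact F) (hc : Convex ℝ F) {O e f : Plane}
    (hfr : Fr e f) (hO : O ∈ interior F) {A : Set Plane} (hA : A ⊆ frontier F)
    (hX : ∀ z ∈ A, 0 ≤ ⟪z - O, e⟫) (hY : ∀ z ∈ A, 0 ≤ ⟪z - O, f⟫) : μH[1] A ≠ ⊤ := by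
  obtain ⟨M, hM0, hM⟩ : ∃ M : ℝ, 0 < M ∧ ∀ z ∈ F, ⟪z - O, e⟫ ≤ M ∧ ⟪z - O, f⟫ ≤ M := by
    obtain ⟨B₁, h1⟩ := hcomp.exists_bound_of_continuousOn (f := fun z : Plane => ⟪z - O, e⟫)
      (Continuous.continuousOn (by fun_prop))
    obtain ⟨B₂, h2⟩ := hcomp.exists_bound_of_continuousOn (f := fun z : Plane => ⟪z - O, f⟫)
      (Continuous.continuousOn (by fun_prop))
    refine ⟨|B₁| + |B₂| + 1, by positivity, fun z hz => ⟨?_, ?_⟩⟩
    · have := (le_abs_self _).trans (h1 z hz)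
      have h3 := le_abs_self B₁
      have h4 := abs_nonneg B₂
      linarith [le_abs_self ⟪z - O, e⟫]
    · have := (le_abs_self _).trans (h2 z hz)
      have h3 := le_abs_self B₂
      have h4 := abs_nonneg B₁
      linarith [le_abs_self ⟪z - O, f⟫]
  have hAF : A ⊆ F := by
    intro z hz
    have := frontier_subset_closure (hA hz)
    rwa [hcomp.isClosed.closure_eq] at this
  have hcov := cover hc ⟨O, hO⟩ hA (K := Kset O e f 1 0 0 1 M M)
    (by
      intro z hz
      have h1 := hM z (hAF hz)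
      exact ⟨⟨hX z hz, hY z hz⟩, by linarith [h1.1], by linarith [h1.2]⟩)
    (Kset_compact hfr (by norm_num) (by norm_num) (Or.inl le_rfl) (Or.inl le_rfl) (by norm_num))
    (B := (segment ℝ (O + (0:ℝ) • e + (0:ℝ) • f) (O + (0:ℝ) • e + M • f) ∪
      segment ℝ (O + (0:ℝ) • e + (0:ℝ) • f) (O + M • e + (0:ℝ) • f)) ∪
      (segment ℝ (O + M • e + (0:ℝ) • f) (O + M • e + M • f) ∪
      segment ℝ (O + (0:ℝ) • e + M • f) (O + M • e + M • f))) ?_
  · apply ne_top_of_le_ne_top _ hcov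
    apply ne_top_of_le_ne_top _ ((measure_union_le _ _).trans (add_le_add (measure_union_le _ _)
      (measure_union_le _ _)))
    rw [seg_len hfr O _ _ _ _ M hM0.le (by ring), seg_len hfr O _ _ _ _ M hM0.le (by ring),
      seg_len hfr O _ _ _ _ M hM0.le (by ring), seg_len hfr O _ _ _ _ M hM0.le (by ring)]
    exact ENNReal.add_ne_top.mpr ⟨ENNReal.add_ne_top.mpr ⟨ENNReal.ofReal_ne_top,
      ENNReal.ofReal_ne_top⟩, ENNReal.add_ne_top.mpr ⟨ENNReal.ofReal_ne_top,
      ENNReal.ofReal_ne_top⟩⟩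
  · intro z hz _
    have hzK : z ∈ Kset O e f 1 0 0 1 M M := by
      have := frontier_subset_closure hz
      rwa [(Kset_closed _ _ _ _ _ _ _ _ _).closure_eq] at this
    obtain ⟨x, hx⟩ : ∃ x, x = ⟪z - O, e⟫ := ⟨_, rfl⟩
    obtain ⟨y, hy⟩ : ∃ y, y = ⟪z - O, f⟫ := ⟨_, rfl⟩
    have hzd : z = O + x • e + y • f := by rw [hx, hy]; exact hfr.decomp O z
    obtain ⟨⟨h1, h2⟩, h3, h4⟩ := hzK
    rw [← hx] at h1
    rw [← hy] at h2
    rw [← hx, ← hy] at h3 h4
    have h3' : x ≤ M := by linarith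
    have h4' : y ≤ M := by linarith
    have hact : x = 0 ∨ y = 0 ∨ x = M ∨ y = M := by
      by_contra hcon
      push Not at hcon
      obtain ⟨c1, c2, c3, c4⟩ := hcon
      apply hz.2
      rw [mem_interior]
      refine ⟨{w | 0 < ⟪w - O, e⟫} ∩ {w | 0 < ⟪w - O, f⟫} ∩
        ({w | ⟪w - O, e⟫ < M} ∩ {w | ⟪w - O, f⟫ < M}), ?_, ?_, ?_⟩
      · rintro w ⟨⟨w1, w2⟩, w3, w4⟩
        have w3' : ⟪w - O, e⟫ < M := w3
        have w4' : ⟪w - O, f⟫ < M := w4
        exact ⟨⟨le_of_lt w1, le_of_lt w2⟩, by linarith, by linarith⟩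
      · exact ((isOpen_lt (by fun_prop) (by fun_prop)).inter
          (isOpen_lt (by fun_prop) (by fun_prop))).inter
          ((isOpen_lt (by fun_prop) (by fun_prop)).inter (isOpen_lt (by fun_prop) (by fun_prop)))
      · refine ⟨⟨?_, ?_⟩, ?_, ?_⟩
        · change 0 < ⟪z - O, e⟫
          rw [← hx]; exact lt_of_le_of_ne h1 (Ne.symm c1)
        · change 0 < ⟪z - O, f⟫
          rw [← hy]; exact lt_of_le_of_ne h2 (Ne.symm c2)
        · change ⟪z - O, e⟫ < M
          rw [← hx]; exact lt_of_le_of_ne h3' c3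
        · change ⟪z - O, f⟫ < M
          rw [← hy]; exact lt_of_le_of_ne h4' c4
    have hxM : x / M ≤ 1 := by rw [div_le_one hM0]; exact h3'
    have hyM : y / M ≤ 1 := by rw [div_le_one hM0]; exact h4'
    have hx0 : 0 ≤ x / M := by positivity
    have hy0 : 0 ≤ y / M := by positivity
    rcases hact with h | h | h | h
    · left; left
      rw [hzd]
      exact mem_seg hy0 hyM (by rw [h]; ring) (by field_simp; ring)
    · left; right
      rw [hzd]
      exact mem_seg hx0 hxM (by field_simp; ring) (by rw [h]; ring)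
    · right; left
      rw [hzd]
      exact mem_seg hy0 hyM (by rw [h]; ring) (by field_simp; ring)
    · right; right
      rw [hzd]
      exact mem_seg hx0 hxM (by field_simp; ring) (by rw [h]; ring)

/-- If a corner of the bounding box is missing, the arc is strictly shorter. -/
lemma corner {F : Set Plane} (hcomp : IsCompact F) (hc : Convex ℝ F) {O e f : Plane}
    (hfr : Fr e f) (hO : O ∈ interior F) {a b : ℝ} (ha : 0 < a) (hb : 0 < b)
    (hFa : ∀ z ∈ F, ⟪z - O, e⟫ ≤ a) (hFb : ∀ z ∈ F, ⟪z - O, f⟫ ≤ b)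
    (hp : O + a • e ∈ F) (hp' : O + b • f ∈ F)
    (hcor : O + a • e + b • f ∉ F) {A : Set Plane} (hA : A ⊆ frontier F)
    (hX : ∀ z ∈ A, 0 ≤ ⟪z - O, e⟫) (hY : ∀ z ∈ A, 0 ≤ ⟪z - O, f⟫) :
    μH[1] A < ENNReal.ofReal (a + b) := by
  have hAF : A ⊆ F := by
    intro z hz
    have := frontier_subset_closure (hA hz)
    rwa [hcomp.isClosed.closure_eq] at this
  obtain ⟨z₀, hz₀, hmax⟩ := hcomp.exists_isMaxOn (f := fun z : Plane => ⟪z - O, e⟫ + ⟪z - O, f⟫)
    ⟨_, hp⟩ (Continuous.continuousOn (by fun_prop))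
  have hmax' : ∀ z ∈ F, ⟪z - O, e⟫ + ⟪z - O, f⟫ ≤ ⟪z₀ - O, e⟫ + ⟪z₀ - O, f⟫ := fun z hz => hmax hz
  have hlt : ⟪z₀ - O, e⟫ + ⟪z₀ - O, f⟫ < a + b := by
    apply lt_of_le_of_ne (add_le_add (hFa z₀ hz₀) (hFb z₀ hz₀))
    intro heq
    have h1 := hFa z₀ hz₀
    have h2 := hFb z₀ hz₀
    have e1 : ⟪z₀ - O, e⟫ = a := by linarith
    have e2 : ⟪z₀ - O, f⟫ = b := by linarith
    apply hcor
    have := hfr.decomp O z₀
    rw [e1, e2] at this
    rw [← this]
    exact hz₀
  obtain ⟨ε, hε0, hεa, hεb, hε⟩ : ∃ ε : ℝ, 0 < ε ∧ ε < a ∧ ε < b ∧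
      ∀ z ∈ F, ⟪z - O, e⟫ + ⟪z - O, f⟫ ≤ a + b - ε := by
    obtain ⟨ε, h1, h2⟩ := exists_between (show 0 < min (a + b - (⟪z₀ - O, e⟫ + ⟪z₀ - O, f⟫)) (min a b)
      from lt_min (by linarith) (lt_min ha hb))
    rw [lt_min_iff, lt_min_iff] at h2
    exact ⟨ε, h1, h2.2.1, h2.2.2, fun z hz => by linarith [hmax' z hz, h2.1]⟩
  obtain ⟨K, hK⟩ : ∃ K : Set Plane, K = Kset O e f 1 0 0 1 a b ∩
    {z | ⟪z - O, e⟫ + ⟪z - O, f⟫ ≤ a + b - ε} := ⟨_, rfl⟩
  have hKcl : IsClosed K := by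
    rw [hK]
    exact (Kset_closed _ _ _ _ _ _ _ _ _).inter (isClosed_le (by fun_prop) (by fun_prop))
  have hKco : IsCompact K := by
    rw [hK]
    exact (Kset_compact hfr (by norm_num) (by norm_num) (Or.inl le_rfl) (Or.inl le_rfl)
      (by norm_num)).inter_right (isClosed_le (by fun_prop) (by fun_prop))
  have hs2 : Real.sqrt 2 * Real.sqrt 2 = 2 := Real.mul_self_sqrt (by norm_num)
  have hs2' : Real.sqrt 2 < 2 := by
    rw [Real.sqrt_lt' (by norm_num)]; norm_num
  have hs0 : 0 < Real.sqrt 2 := by positivity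
  have hcov := cover hc ⟨O, hO⟩ hA (K := K)
    (by
      rw [hK]
      intro z hz
      have h1 := hFa z (hAF hz)
      have h2 := hFb z (hAF hz)
      exact ⟨⟨⟨hX z hz, hY z hz⟩, by linarith, by linarith⟩, hε z (hAF hz)⟩) hKco
    (B := segment ℝ (O + a • e + (0:ℝ) • f) (O + a • e + (b - ε) • f) ∪
      (segment ℝ (O + a • e + (b - ε) • f) (O + (a - ε) • e + b • f) ∪
      segment ℝ (O + (0:ℝ) • e + b • f) (O + (a - ε) • e + b • f))) ?_
  · refine lt_of_le_of_lt (hcov.trans ((measure_union_le _ _).trans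
      (add_le_add le_rfl (measure_union_le _ _)))) ?_
    rw [seg_len hfr O _ _ _ _ (b - ε) (by linarith) (by ring),
      seg_len hfr O _ _ _ _ (Real.sqrt 2 * ε) (by positivity) (by linear_combination (-ε ^ 2) * hs2),
      seg_len hfr O _ _ _ _ (a - ε) (by linarith) (by ring),
      ← ENNReal.ofReal_add (by positivity) (by linarith),
      ← ENNReal.ofReal_add (by linarith) (by
        have : 0 ≤ Real.sqrt 2 * ε := by positivity
        linarith)]
    apply (ENNReal.ofReal_lt_ofReal_iff (by linarith)).mpr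
    have : Real.sqrt 2 * ε < 2 * ε := mul_lt_mul_of_pos_right hs2' hε0
    linarith
  · intro z hz hzF
    have hzK : z ∈ K := by
      have := frontier_subset_closure hz
      rwa [hKcl.closure_eq] at this
    obtain ⟨x, hx⟩ : ∃ x, x = ⟪z - O, e⟫ := ⟨_, rfl⟩
    obtain ⟨y, hy⟩ : ∃ y, y = ⟪z - O, f⟫ := ⟨_, rfl⟩
    have hzd : z = O + x • e + y • f := by rw [hx, hy]; exact hfr.decomp O z
    rw [hK] at hzK
    obtain ⟨⟨⟨h1, h2⟩, h3, h4⟩, h5⟩ := hzK
    have h5' : ⟪z - O, e⟫ + ⟪z - O, f⟫ ≤ a + b - ε := h5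
    rw [← hx] at h1
    rw [← hy] at h2
    rw [← hx, ← hy] at h3 h4 h5'
    have h3' : x ≤ a := by linarith
    have h4' : y ≤ b := by linarith
    have hnotint : ∀ w, w = z → w ∉ interior F := by
      rintro w rfl hw
      exact (hA (hzF (interior_subset hw))).2 hw
    have hY0 : y = 0 → a ≤ x := by
      intro h0
      by_contra hlt
      push Not at hlt
      apply hnotint (O + x • e) _ (axis_interior hc hO ha h1 hlt hp)
      rw [hzd, h0]; simp
    have hX0 : x = 0 → b ≤ y := by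
      intro h0
      by_contra hlt
      push Not at hlt
      apply hnotint (O + y • f) _ (axis_interior hc hO hb h2 hlt hp')
      rw [hzd, h0]; simp
    have hact : x = 0 ∨ y = 0 ∨ x = a ∨ y = b ∨ x + y = a + b - ε := by
      by_contra hcon
      push Not at hcon
      obtain ⟨c1, c2, c3, c4, c5⟩ := hcon
      apply hz.2
      rw [mem_interior]
      refine ⟨{w | 0 < ⟪w - O, e⟫} ∩ {w | 0 < ⟪w - O, f⟫} ∩
        ({w | ⟪w - O, e⟫ < a} ∩ {w | ⟪w - O, f⟫ < b}) ∩ {w | ⟪w - O, e⟫ + ⟪w - O, f⟫ < a + b - ε},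
        ?_, ?_, ?_⟩
      · rintro w ⟨⟨⟨w1, w2⟩, w3, w4⟩, w5⟩
        have w3' : ⟪w - O, e⟫ < a := w3
        have w4' : ⟪w - O, f⟫ < b := w4
        have w5' : ⟪w - O, e⟫ + ⟪w - O, f⟫ < a + b - ε := w5
        rw [hK]
        exact ⟨⟨⟨le_of_lt w1, le_of_lt w2⟩, by linarith, by linarith⟩,
          (w5'.le : ⟪w - O, e⟫ + ⟪w - O, f⟫ ≤ a + b - ε)⟩
      · exact (((isOpen_lt (by fun_prop) (by fun_prop)).inter
          (isOpen_lt (by fun_prop) (by fun_prop))).inter
          ((isOpen_lt (by fun_prop) (by fun_prop)).inter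
          (isOpen_lt (by fun_prop) (by fun_prop)))).inter (isOpen_lt (by fun_prop) (by fun_prop))
      · refine ⟨⟨⟨?_, ?_⟩, ?_, ?_⟩, ?_⟩
        · change 0 < ⟪z - O, e⟫
          rw [← hx]; exact lt_of_le_of_ne h1 (Ne.symm c1)
        · change 0 < ⟪z - O, f⟫
          rw [← hy]; exact lt_of_le_of_ne h2 (Ne.symm c2)
        · change ⟪z - O, e⟫ < a
          rw [← hx]; exact lt_of_le_of_ne h3' c3
        · change ⟪z - O, f⟫ < b
          rw [← hy]; exact lt_of_le_of_ne h4' c4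
        · change ⟪z - O, e⟫ + ⟪z - O, f⟫ < a + b - ε
          rw [← hx, ← hy]; exact lt_of_le_of_ne h5' c5
    have hcase1 : x = a → z ∈ segment ℝ (O + a • e + (0:ℝ) • f) (O + a • e + (b - ε) • f) := by
      intro h
      have hy1 : y ≤ b - ε := by linarith
      have hbε : 0 < b - ε := by linarith
      rw [hzd]
      exact mem_seg (s := y / (b - ε)) (by positivity) (by rw [div_le_one hbε]; exact hy1)
        (by rw [h]; ring) (by field_simp; ring)
    have hcase2 : y = b → z ∈ segment ℝ (O + (0:ℝ) • e + b • f) (O + (a - ε) • e + b • f) := by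
      intro h
      have hx1 : x ≤ a - ε := by linarith
      have haε : 0 < a - ε := by linarith
      rw [hzd]
      exact mem_seg (s := x / (a - ε)) (by positivity) (by rw [div_le_one haε]; exact hx1)
        (by field_simp; ring) (by rw [h]; ring)
    rcases hact with h | h | h | h | h
    · right; right
      exact hcase2 (le_antisymm h4' (hX0 h))
    · left
      exact hcase1 (le_antisymm h3' (hY0 h))
    · left; exact hcase1 h
    · right; right; exact hcase2 h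
    · right; left
      rw [hzd]
      exact mem_seg (s := (a - x) / ε) (div_nonneg (by linarith) hε0.le)
        (by rw [div_le_one hε0]; linarith) (by field_simp; ring) (by
          have : y = a + b - ε - x := by linarith
          rw [this]; field_simp; ring)

end Pool.Agent.X162.Quad
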