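import Pool.Agent.X162.QuadAlg
import Pool.Agent.X162.QuadGeo

/-!
# The inequality for four arcs in the four quadrants
-/

namespace Pool.Agent.X162.Quad

open Set MeasureTheory Metric
open scoped RealInnerProductSpace ENNReal

lemma closed_sub {F A : Set Plane} (hcomp : IsCompact F) (hA : A ⊆ frontier F) : A ⊆ F := by
  intro z hz
  have := frontier_subset_closure (hA hz)
  rwa [hcomp.isClosed.closure_eq] at this

theorem arc_data {F : Set Plane} (hcomp : IsCompact F) (hc : Convex ℝ F) {O e f : Plane}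
    (hfr : Fr e f) (hO : O ∈ interior F) {a b : ℝ} (ha : 0 < a) (hb : 0 < b)
    (hp : O + a • e ∈ F) (hp' : O + b • f ∈ F) {N N' : Plane} (hN : ‖N‖ = 1)
    (hNs : ∀ w ∈ F, ⟪w - (O + a • e), N⟫ ≤ 0) (hN0 : ⟪O - (O + a • e), N⟫ < 0)
    (hN' : ‖N'‖ = 1) (hNs' : ∀ w ∈ F, ⟪w - (O + b • f), N'⟫ ≤ 0)
    (hN0' : ⟪O - (O + b • f), N'⟫ < 0) {A : Set Plane} (hA : A ⊆ frontier F)
    (hX : ∀ z ∈ A, 0 ≤ ⟪z - O, e⟫) (hY : ∀ z ∈ A, 0 ≤ ⟪z - O, f⟫) {l : ℝ} (hl : 0 < l)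
    (hlA : μH[1] A = ENNReal.ofReal l) :
    0 < ⟪N, e⟫ ∧ 0 < ⟪N', f⟫ ∧ ⟪N, e⟫ ^ 2 + ⟪N, f⟫ ^ 2 = 1 ∧ ⟪N', e⟫ ^ 2 + ⟪N', f⟫ ^ 2 = 1 ∧
    ⟪N, f⟫ * b ≤ ⟪N, e⟫ * a ∧ ⟪N', e⟫ * a ≤ ⟪N', f⟫ * b ∧
    (0 < ⟪N, e⟫ * ⟪N', f⟫ - ⟪N, f⟫ * ⟪N', e⟫ →
      l * (⟪N, e⟫ * ⟪N', f⟫ - ⟪N, f⟫ * ⟪N', e⟫) ≤
      (⟪N, e⟫ * a - ⟪N, f⟫ * b) + (⟪N', f⟫ * b - ⟪N', e⟫ * a)) ∧
    (l + a) * ⟪N', e⟫ ≤ b * (1 + ⟪N', f⟫) ∧ (l + b) * ⟪N, f⟫ ≤ a * (1 + ⟪N, e⟫) := by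
  have hAF := closed_sub hcomp hA
  obtain ⟨n₁, en1⟩ : ∃ x, x = ⟪N, e⟫ := ⟨_, rfl⟩
  obtain ⟨n₂, en2⟩ : ∃ x, x = ⟪N, f⟫ := ⟨_, rfl⟩
  obtain ⟨m₁, em1⟩ : ∃ x, x = ⟪N', e⟫ := ⟨_, rfl⟩
  obtain ⟨m₂, em2⟩ : ∃ x, x = ⟪N', f⟫ := ⟨_, rfl⟩
  have key : ∀ w : Plane, ⟪w - (O + a • e), N⟫ = n₁ * ⟪w - O, e⟫ + n₂ * ⟪w - O, f⟫ - n₁ * a := by
    intro w
    have e1 : w - (O + a • e) = (w - O) - a • e := by abel
    rw [e1, inner_sub_left, inner_smul_left, hfr.inner_eq (w - O) N, real_inner_comm N e, en1, en2]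
    simp only [conj_trivial]
    ring
  have key' : ∀ w : Plane, ⟪w - (O + b • f), N'⟫ = m₁ * ⟪w - O, e⟫ + m₂ * ⟪w - O, f⟫ - m₂ * b := by
    intro w
    have e1 : w - (O + b • f) = (w - O) - b • f := by abel
    rw [e1, inner_sub_left, inner_smul_left, hfr.inner_eq (w - O) N', real_inner_comm N' f, em1,
      em2]
    simp only [conj_trivial]
    ring
  have hn : n₁ ^ 2 + n₂ ^ 2 = 1 := by
    rw [en1, en2, ← hfr.norm_sq, hN]; norm_num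
  have hm : m₁ ^ 2 + m₂ ^ 2 = 1 := by
    rw [em1, em2, ← hfr.norm_sq, hN']; norm_num
  have hn1 : 0 < n₁ := by
    rw [key] at hN0
    simp only [sub_self, inner_zero_left, mul_zero, add_zero, zero_sub, Left.neg_neg_iff] at hN0
    exact (pos_iff_pos_of_mul_pos hN0).mpr ha
  have hm2 : 0 < m₂ := by
    rw [key'] at hN0'
    simp only [sub_self, inner_zero_left, mul_zero, add_zero, zero_sub, Left.neg_neg_iff] at hN0'
    exact (pos_iff_pos_of_mul_pos hN0').mpr hb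
  have hAa : n₂ * b ≤ n₁ * a := by
    have h := hNs _ hp'
    rw [key] at h
    have e1 : ⟪O + b • f - O, e⟫ = 0 := by
      rw [add_sub_cancel_left, inner_smul_left, hfr.fe, mul_zero]
    have e2 : ⟪O + b • f - O, f⟫ = b := by
      rw [add_sub_cancel_left, inner_smul_left, hfr.ff, mul_one]; rfl
    rw [e1, e2] at h
    linarith
  have hBb : m₁ * a ≤ m₂ * b := by
    have h := hNs' _ hp
    rw [key'] at h
    have e1 : ⟪O + a • e - O, e⟫ = a := by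
      rw [add_sub_cancel_left, inner_smul_left, hfr.ee, mul_one]; rfl
    have e2 : ⟪O + a • e - O, f⟫ = 0 := by
      rw [add_sub_cancel_left, inner_smul_left, hfr.hef, mul_zero]
    rw [e1, e2] at h
    linarith
  have hzn : ∀ z ∈ A, n₁ * ⟪z - O, e⟫ + n₂ * ⟪z - O, f⟫ ≤ n₁ * a := by
    intro z hz
    have h := hNs z (hAF hz)
    rw [key] at h
    linarith
  have hzm : ∀ z ∈ A, m₁ * ⟪z - O, e⟫ + m₂ * ⟪z - O, f⟫ ≤ m₂ * b := by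
    intro z hz
    have h := hNs' z (hAF hz)
    rw [key'] at h
    linarith
  have conv : ∀ r : ℝ, 0 ≤ r → μH[1] A ≤ ENNReal.ofReal r → l ≤ r := by
    intro r hr h
    rw [hlA] at h
    exact (ENNReal.ofReal_le_ofReal_iff hr).mp h
  rw [← en1, ← en2, ← em1, ← em2]
  refine ⟨hn1, hm2, hn, hm, hAa, hBb, ?_, ?_, ?_⟩
  · intro hD
    have h := arc hc hfr hO ha hb hn1.le hm2.le hn hm (Or.inr hn1) (Or.inr hm2) hD hAa hBb hp hp' hA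
      (fun z hz => ⟨⟨hX z hz, hY z hz⟩, hzn z hz, hzm z hz⟩)
    have h2 := conv _ (div_nonneg (by linarith) hD.le) h
    rwa [le_div_iff₀ hD] at h2
  · rcases le_or_gt m₁ 0 with h0 | h0
    · have hb1 : 0 < b * (1 + m₂) := mul_pos hb (by linarith)
      have ha1 : (l + a) * m₁ ≤ 0 := mul_nonpos_of_nonneg_of_nonpos (by linarith) h0
      linarith
    · have h := arc hc hfr hO (n₁ := 0) (n₂ := -1) ha hb le_rfl hm2.le (by norm_num) hm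
        (Or.inl (by norm_num)) (Or.inr hm2) (by linarith) (by linarith) hBb hp hp' hA
        (fun z hz => ⟨⟨hX z hz, hY z hz⟩, by linarith [hY z hz], hzm z hz⟩)
      have h2 := conv _ (div_nonneg (by linarith) (by linarith)) h
      rw [le_div_iff₀ (by linarith)] at h2
      linarith
  · rcases le_or_gt n₂ 0 with h0 | h0
    · have hb1 : 0 < a * (1 + n₁) := mul_pos ha (by linarith)
      have ha1 : (l + b) * n₂ ≤ 0 := mul_nonpos_of_nonneg_of_nonpos (by linarith) h0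
      linarith
    · have h := arc hc hfr hO (m₁ := -1) (m₂ := 0) ha hb hn1.le le_rfl hn (by norm_num)
        (Or.inr hn1) (Or.inl (by norm_num)) (by linarith) hAa (by linarith) hp hp' hA
        (fun z hz => ⟨⟨hX z hz, hY z hz⟩, hzn z hz, by linarith [hX z hz]⟩)
      have h2 := conv _ (div_nonneg (by linarith) (by linarith)) h
      rw [le_div_iff₀ (by linarith)] at h2
      linarith

/-- Algebra of the equality case. -/
lemma alg4 {a₁ a₂ a₃ a₄ l c₁ c₂ c₄ s₁ s₂ s₄ : ℝ} (h2 : 0 < a₂) (h4 : 0 < a₄)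
    (h1 : 0 < a₁) (hl : 0 < l) (hS : a₁ + a₂ + a₃ + a₄ = 2 * l) (hc1 : 0 < c₁)
    (u1 : c₁ ^ 2 + s₁ ^ 2 = 1) (u2 : c₂ ^ 2 + s₂ ^ 2 = 1) (u4 : c₄ ^ 2 + s₄ ^ 2 = 1)
    (E1 : (c₁ = 1 ∧ c₂ = 1) ∨ l ^ 2 = a₁ ^ 2 + a₂ ^ 2)
    (E2 : (c₂ = 1) ∨ l ^ 2 = a₂ ^ 2 + a₃ ^ 2)
    (E3 : (c₄ = 1) ∨ l ^ 2 = a₃ ^ 2 + a₄ ^ 2)
    (E4 : (c₄ = 1 ∧ c₁ = 1) ∨ l ^ 2 = a₄ ^ 2 + a₁ ^ 2)
    (K1 : l * (1 + s₁ - s₂) = a₁ * (1 + s₁) + a₂ * (1 - s₂))
    (K4 : l * (1 + s₄ - s₁) = a₄ * (1 + s₄) + a₁ * (1 - s₁)) (h3 : 0 < a₃) : c₁ = 1 := by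
  by_contra hne
  have e1 : l ^ 2 = a₁ ^ 2 + a₂ ^ 2 := E1.resolve_left (fun h => hne h.1)
  have e4 : l ^ 2 = a₄ ^ 2 + a₁ ^ 2 := E4.resolve_left (fun h => hne h.2)
  have e24 : a₂ = a₄ := by
    have : a₂ ^ 2 = a₄ ^ 2 := by linarith
    exact (pow_left_inj₀ h2.le h4.le two_ne_zero).mp this
  have hcontra : a₁ = a₃ → False := by
    intro h
    have : l = a₁ + a₂ := by linarith
    rw [this] at e1
    have : 0 < a₁ * a₂ := mul_pos h1 h2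
    linarith
  have hc2 : c₂ = 1 := by
    rcases E2 with h | h
    · exact h
    · exfalso
      apply hcontra
      have : a₁ ^ 2 = a₃ ^ 2 := by linarith
      exact (pow_left_inj₀ h1.le h3.le two_ne_zero).mp this
  have hc4 : c₄ = 1 := by
    rcases E3 with h | h
    · exact h
    · exfalso
      apply hcontra
      have : a₁ ^ 2 = a₃ ^ 2 := by linarith
      exact (pow_left_inj₀ h1.le h3.le two_ne_zero).mp this
  have hs2 : s₂ = 0 := by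
    rw [hc2] at u2
    have : s₂ ^ 2 = 0 := by linarith
    exact pow_eq_zero_iff two_ne_zero |>.mp this
  have hs4 : s₄ = 0 := by
    rw [hc4] at u4
    have : s₄ ^ 2 = 0 := by linarith
    exact pow_eq_zero_iff two_ne_zero |>.mp this
  rw [hs2] at K1
  rw [hs4] at K4
  have hla : a₁ < l := by
    have : a₁ ^ 2 < l ^ 2 := by
      have : 0 < a₂ ^ 2 := by positivity
      linarith
    exact lt_of_pow_lt_pow_left₀ 2 hl.le this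
  have h5 : (l - a₁) * s₁ = 0 := by linarith
  have hs1 : s₁ = 0 := (mul_eq_zero.mp h5).resolve_left (by linarith)
  rw [hs1] at u1
  have : (c₁ - 1) * (c₁ + 1) = 0 := by linarith
  rcases mul_eq_zero.mp this with h | h
  · exact hne (by linarith)
  · linarith

/-- A rectangle. -/
def IsRectangle (F : Set Plane) : Prop :=
  ∃ c u v : Plane, u ≠ 0 ∧ v ≠ 0 ∧ ⟪u, v⟫ = 0 ∧
    F = {z | ∃ s ∈ Icc (0:ℝ) 1, ∃ t ∈ Icc (0:ℝ) 1, z = c + s • u + t • v}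

/-- The inequality for four arcs of equal length in the four quadrants, with the equality case. -/
theorem quad_ineq {F : Set Plane} (hcomp : IsCompact F) (hc : Convex ℝ F) {O e f : Plane}
    (hfr : Fr e f) (hO : O ∈ interior F) {a₁ a₂ a₃ a₄ : ℝ} (h1 : 0 < a₁) (h2 : 0 < a₂)
    (h3 : 0 < a₃) (h4 : 0 < a₄) (hp1 : O + a₁ • e ∈ frontier F) (hp2 : O + a₂ • f ∈ frontier F)
    (hp3 : O + a₃ • (-e) ∈ frontier F) (hp4 : O + a₄ • (-f) ∈ frontier F)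
    {A₁ A₂ A₃ A₄ : Set Plane} (hA1 : A₁ ⊆ frontier F) (hA2 : A₂ ⊆ frontier F)
    (hA3 : A₃ ⊆ frontier F) (hA4 : A₄ ⊆ frontier F)
    (hX1 : ∀ z ∈ A₁, 0 ≤ ⟪z - O, e⟫ ∧ 0 ≤ ⟪z - O, f⟫)
    (hX2 : ∀ z ∈ A₂, 0 ≤ ⟪z - O, f⟫ ∧ 0 ≤ ⟪z - O, -e⟫)
    (hX3 : ∀ z ∈ A₃, 0 ≤ ⟪z - O, -e⟫ ∧ 0 ≤ ⟪z - O, -f⟫)
    (hX4 : ∀ z ∈ A₄, 0 ≤ ⟪z - O, -f⟫ ∧ 0 ≤ ⟪z - O, e⟫) {l : ℝ} (hl : 0 < l)
    (hl1 : μH[1] A₁ = ENNReal.ofReal l) (hl2 : μH[1] A₂ = ENNReal.ofReal l)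
    (hl3 : μH[1] A₃ = ENNReal.ofReal l) (hl4 : μH[1] A₄ = ENNReal.ofReal l) :
    4 * l ≤ 2 * (a₁ + a₂ + a₃ + a₄) ∧ (4 * l = 2 * (a₁ + a₂ + a₃ + a₄) → IsRectangle F) := by
  have hi : (interior F).Nonempty := ⟨O, hO⟩
  have hcl : ∀ z ∈ frontier F, z ∈ F := fun z hz => closed_sub hcomp (subset_refl _) hz
  obtain ⟨N₁, n1, s1, i1⟩ := support hc hi hp1
  obtain ⟨N₂, n2, s2, i2⟩ := support hc hi hp2
  obtain ⟨N₃, n3, s3, i3⟩ := support hc hi hp3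
  obtain ⟨N₄, n4, s4, i4⟩ := support hc hi hp4
  have fr2 : Fr f (-e) := hfr.rot
  have fr3 : Fr (-e) (-f) := fr2.rot
  have fr4 : Fr (-f) e := by have := fr3.rot; rwa [neg_neg] at this
  have D1 := arc_data hcomp hc hfr hO h1 h2 (hcl _ hp1) (hcl _ hp2) n1 s1 (i1 O hO) n2 s2 (i2 O hO)
    hA1 (fun z hz => (hX1 z hz).1) (fun z hz => (hX1 z hz).2) hl hl1
  have D2 := arc_data hcomp hc fr2 hO h2 h3 (hcl _ hp2) (hcl _ hp3) n2 s2 (i2 O hO) n3 s3 (i3 O hO)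
    hA2 (fun z hz => (hX2 z hz).1) (fun z hz => (hX2 z hz).2) hl hl2
  have D3 := arc_data hcomp hc fr3 hO h3 h4 (hcl _ hp3) (hcl _ hp4) n3 s3 (i3 O hO) n4 s4 (i4 O hO)
    hA3 (fun z hz => (hX3 z hz).1) (fun z hz => (hX3 z hz).2) hl hl3
  have D4 := arc_data hcomp hc fr4 hO h4 h1 (hcl _ hp4) (hcl _ hp1) n4 s4 (i4 O hO) n1 s1 (i1 O hO)
    hA4 (fun z hz => (hX4 z hz).1) (fun z hz => (hX4 z hz).2) hl hl4
  simp only [inner_neg_right] at D1 D2 D3 D4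
  -- names for the components of the normals
  obtain ⟨c₁, ec1⟩ : ∃ x, x = ⟪N₁, e⟫ := ⟨_, rfl⟩
  obtain ⟨t₁, et1⟩ : ∃ x, x = ⟪N₁, f⟫ := ⟨_, rfl⟩
  obtain ⟨c₂, ec2⟩ : ∃ x, x = ⟪N₂, f⟫ := ⟨_, rfl⟩
  obtain ⟨t₂, et2⟩ : ∃ x, x = -⟪N₂, e⟫ := ⟨_, rfl⟩
  obtain ⟨c₃, ec3⟩ : ∃ x, x = -⟪N₃, e⟫ := ⟨_, rfl⟩
  obtain ⟨t₃, et3⟩ : ∃ x, x = -⟪N₃, f⟫ := ⟨_, rfl⟩
  obtain ⟨c₄, ec4⟩ : ∃ x, x = -⟪N₄, f⟫ := ⟨_, rfl⟩
  obtain ⟨t₄, et4⟩ : ∃ x, x = ⟪N₄, e⟫ := ⟨_, rfl⟩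
  have et2' : ⟪N₂, e⟫ = -t₂ := by rw [et2, neg_neg]
  have ec3' : ⟪N₃, e⟫ = -c₃ := by rw [ec3, neg_neg]
  have et3' : ⟪N₃, f⟫ = -t₃ := by rw [et3, neg_neg]
  have ec4' : ⟪N₄, f⟫ = -c₄ := by rw [ec4, neg_neg]
  rw [← ec1, ← et1, ← ec2, et2'] at D1
  rw [← ec2, et2', ec3', et3'] at D2
  rw [ec3', et3', ec4', ← et4] at D3
  rw [ec4', ← et4, ← ec1, ← et1] at D4
  simp only [neg_neg] at D1 D2 D3 D4
  obtain ⟨p1, p2, q1, q2, x1, y1, z1, v1, w1⟩ := D1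
  obtain ⟨-, p3, -, q3, x2, y2, z2, v2, w2⟩ := D2
  obtain ⟨-, p4, -, q4, x3, y3, z3, v3, w3⟩ := D3
  obtain ⟨-, -, -, -, x4, y4, z4, v4, w4⟩ := D4
  have q2' : c₂ ^ 2 + t₂ ^ 2 = 1 := by linarith [q2, neg_sq t₂]
  have q3' : c₃ ^ 2 + t₃ ^ 2 = 1 := by linarith [q3, neg_sq t₃]
  have q4' : c₄ ^ 2 + t₄ ^ 2 = 1 := by linarith [q4, neg_sq t₄]
  -- strengthened neighbour bounds
  have nb : ∀ a a' t c : ℝ, 0 < a → 0 < a' → 0 < c → (l + a') * (-t) ≤ a * (1 + c) →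
      -(l * t) ≤ a * (1 + c) := by
    intro a a' t c ha ha' hc' h
    rcases le_or_gt 0 t with h0 | h0
    · have := mul_nonneg hl.le h0
      have := mul_pos ha (show 0 < 1 + c by linarith)
      linarith
    · have := mul_pos ha' (show 0 < -t by linarith)
      linarith
  have nb' : ∀ a a' t c : ℝ, 0 < a → 0 < a' → 0 < c → (l + a') * t ≤ a * (1 + c) →
      -(l * (-t)) ≤ a * (1 + c) := by
    intro a a' t c ha ha' hc' h
    have := nb a a' (-t) c ha ha' hc' (by rw [neg_neg]; exact h)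
    exact this
  have K1 := algK a₁ a₂ l c₁ t₁ (-t₂) c₂ h1 h2 hl p1 p2 q1 (by linarith) x1 y1 z1 v1 w1
    (nb a₁ a₄ t₁ c₁ h1 h4 p1 v4) (nb' a₂ a₃ t₂ c₂ h2 h3 p2 w2)
  have K2 := algK a₂ a₃ l c₂ t₂ (-t₃) c₃ h2 h3 hl p2 p3 q2' (by linarith) x2 y2 z2 v2 w2
    (nb a₂ a₁ t₂ c₂ h2 h1 p2 v1) (nb' a₃ a₄ t₃ c₃ h3 h4 p3 w3)
  have K3 := algK a₃ a₄ l c₃ t₃ (-t₄) c₄ h3 h4 hl p3 p4 q3' (by linarith) x3 y3 z3 v3 w3
    (nb a₃ a₂ t₃ c₃ h3 h2 p3 v2) (nb' a₄ a₁ t₄ c₄ h4 h1 p4 w4)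
  have K4 := algK a₄ a₁ l c₄ t₄ (-t₁) c₁ h4 h1 hl p4 p1 q4' (by linarith) x4 y4 z4 v4 w4
    (nb a₄ a₃ t₄ c₄ h4 h3 p4 v3) (nb' a₁ a₂ t₁ c₁ h1 h2 p1 w1)
  refine ⟨by linarith [K1.1, K2.1, K3.1, K4.1], fun heq => ?_⟩
  have g1 : l * (1 + t₁ + -t₂) = a₁ * (1 + t₁) + a₂ * (1 + -t₂) := by
    linarith [K1.1, K2.1, K3.1, K4.1]
  have g2 : l * (1 + t₂ + -t₃) = a₂ * (1 + t₂) + a₃ * (1 + -t₃) := by
    linarith [K1.1, K2.1, K3.1, K4.1]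
  have g3 : l * (1 + t₃ + -t₄) = a₃ * (1 + t₃) + a₄ * (1 + -t₄) := by
    linarith [K1.1, K2.1, K3.1, K4.1]
  have g4 : l * (1 + t₄ + -t₁) = a₄ * (1 + t₄) + a₁ * (1 + -t₁) := by
    linarith [K1.1, K2.1, K3.1, K4.1]
  have E1 := K1.2 g1
  have E2 := K2.2 g2
  have E3 := K3.2 g3
  have E4 := K4.2 g4
  clear K1 K2 K3 K4
  have C1 : c₁ = 1 := alg4 h2 h4 h1 hl (by linarith) p1 q1 q2' q4' E1 (E2.imp_left And.left)
    (E3.imp_left And.right) E4 (by linarith) (by linarith) h3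
  have C2 : c₂ = 1 := alg4 h3 h1 h2 hl (by linarith) p2 q2' q3' q1 E2 (E3.imp_left And.left)
    (E4.imp_left And.right) E1 (by linarith) (by linarith) h4
  have C3 : c₃ = 1 := alg4 h4 h2 h3 hl (by linarith) p3 q3' q4' q2' E3 (E4.imp_left And.left)
    (E1.imp_left And.right) E2 (by linarith) (by linarith) h1
  have C4 : c₄ = 1 := alg4 h1 h3 h4 hl (by linarith) p4 q4' q1 q3' E4 (E1.imp_left And.left)
    (E2.imp_left And.right) E3 (by linarith) (by linarith) h2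
  have tz : ∀ c t : ℝ, c = 1 → c ^ 2 + t ^ 2 = 1 → t = 0 := by
    intro c t h h'
    rw [h] at h'
    have : t ^ 2 = 0 := by linarith
    exact pow_eq_zero_iff two_ne_zero |>.mp this
  have T1 := tz _ _ C1 q1
  have T2 := tz _ _ C2 q2'
  have T3 := tz _ _ C3 q3'
  have T4 := tz _ _ C4 q4'
  rw [C1] at ec1
  rw [T1] at et1
  rw [C2] at ec2
  rw [T2] at et2'
  rw [C3] at ec3'
  rw [T3] at et3'
  rw [C4] at ec4'
  rw [T4] at et4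
  rw [T1, T2] at g1
  rw [T2, T3] at g2
  rw [T3, T4] at g3
  rw [T4, T1] at g4
  -- the bounding box
  have B1 : ∀ w ∈ F, ⟪w - O, e⟫ ≤ a₁ := by
    intro w hw
    have h := s1 w hw
    rw [hfr.inner_eq, ← ec1, ← et1] at h
    have e1 : ⟪w - (O + a₁ • e), e⟫ = ⟪w - O, e⟫ - a₁ := by
      rw [show w - (O + a₁ • e) = (w - O) - a₁ • e by abel, inner_sub_left, inner_smul_left, hfr.ee,
        mul_one]; rfl
    rw [e1] at h
    linarith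
  have B2 : ∀ w ∈ F, ⟪w - O, f⟫ ≤ a₂ := by
    intro w hw
    have h := s2 w hw
    rw [hfr.inner_eq, ← ec2, et2'] at h
    have e1 : ⟪w - (O + a₂ • f), f⟫ = ⟪w - O, f⟫ - a₂ := by
      rw [show w - (O + a₂ • f) = (w - O) - a₂ • f by abel, inner_sub_left, inner_smul_left, hfr.ff,
        mul_one]; rfl
    rw [e1] at h
    linarith
  have B3 : ∀ w ∈ F, ⟪w - O, -e⟫ ≤ a₃ := by
    intro w hw
    have h := s3 w hw
    rw [hfr.inner_eq, ec3', et3'] at h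
    have e1 : ⟪w - (O + a₃ • (-e)), e⟫ = ⟪w - O, e⟫ + a₃ := by
      rw [show w - (O + a₃ • (-e)) = (w - O) + a₃ • e by rw [smul_neg]; abel, inner_add_left,
        inner_smul_left, hfr.ee, mul_one]; rfl
    rw [e1] at h
    rw [inner_neg_right]
    linarith
  have B4 : ∀ w ∈ F, ⟪w - O, -f⟫ ≤ a₄ := by
    intro w hw
    have h := s4 w hw
    rw [hfr.inner_eq, ← et4, ec4'] at h
    have e1 : ⟪w - (O + a₄ • (-f)), f⟫ = ⟪w - O, f⟫ + a₄ := by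
      rw [show w - (O + a₄ • (-f)) = (w - O) + a₄ • f by rw [smul_neg]; abel, inner_add_left,
        inner_smul_left, hfr.ff, mul_one]; rfl
    rw [e1] at h
    rw [inner_neg_right]
    linarith
  -- the corners
  have G1 : O + a₁ • e + a₂ • f ∈ F := by
    by_contra hcon
    have := corner hcomp hc hfr hO h1 h2 B1 B2 (hcl _ hp1) (hcl _ hp2) hcon hA1
      (fun z hz => (hX1 z hz).1) (fun z hz => (hX1 z hz).2)
    rw [hl1, show a₁ + a₂ = l by linarith] at this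
    exact lt_irrefl _ this
  have G2 : O + a₂ • f + a₃ • (-e) ∈ F := by
    by_contra hcon
    have := corner hcomp hc fr2 hO h2 h3 B2 B3 (hcl _ hp2) (hcl _ hp3) hcon hA2
      (fun z hz => (hX2 z hz).1) (fun z hz => (hX2 z hz).2)
    rw [hl2, show a₂ + a₃ = l by linarith] at this
    exact lt_irrefl _ this
  have G3 : O + a₃ • (-e) + a₄ • (-f) ∈ F := by
    by_contra hcon
    have := corner hcomp hc fr3 hO h3 h4 B3 B4 (hcl _ hp3) (hcl _ hp4) hcon hA3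
      (fun z hz => (hX3 z hz).1) (fun z hz => (hX3 z hz).2)
    rw [hl3, show a₃ + a₄ = l by linarith] at this
    exact lt_irrefl _ this
  have G4 : O + a₄ • (-f) + a₁ • e ∈ F := by
    by_contra hcon
    have := corner hcomp hc fr4 hO h4 h1 B4 B1 (hcl _ hp4) (hcl _ hp1) hcon hA4
      (fun z hz => (hX4 z hz).1) (fun z hz => (hX4 z hz).2)
    rw [hl4, show a₄ + a₁ = l by linarith] at this
    exact lt_irrefl _ this
  refine ⟨O - a₃ • e - a₄ • f, (a₁ + a₃) • e, (a₂ + a₄) • f, ?_, ?_, ?_, ?_⟩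
  · intro h
    have h' := congrArg norm h
    rw [norm_smul, hfr.he, norm_zero, mul_one, Real.norm_eq_abs, abs_of_pos (by positivity)] at h'
    linarith
  · intro h
    have h' := congrArg norm h
    rw [norm_smul, hfr.hf, norm_zero, mul_one, Real.norm_eq_abs, abs_of_pos (by positivity)] at h'
    linarith
  · rw [inner_smul_left, inner_smul_right, hfr.hef]; simp
  · have h13 : 0 < a₁ + a₃ := by linarith
    have h24 : 0 < a₂ + a₄ := by linarith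
    ext z
    constructor
    · intro hz
      have c1 := B1 z hz
      have c2 := B2 z hz
      have c3 := B3 z hz
      have c4 := B4 z hz
      rw [inner_neg_right] at c3 c4
      refine ⟨(⟪z - O, e⟫ + a₃) / (a₁ + a₃), ⟨div_nonneg (by linarith) h13.le,
        by rw [div_le_one h13]; linarith⟩, (⟪z - O, f⟫ + a₄) / (a₂ + a₄),
        ⟨div_nonneg (by linarith) h24.le, by rw [div_le_one h24]; linarith⟩, ?_⟩
      rw [smul_smul, smul_smul, div_mul_cancel₀ _ h13.ne', div_mul_cancel₀ _ h24.ne']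
      nth_rewrite 1 [hfr.decomp O z]
      module
    · rintro ⟨s, ⟨hs0, hs1⟩, t, ⟨ht0, ht1⟩, rfl⟩
      have U1 := hc G3 G4 (show 0 ≤ 1 - s by linarith) hs0 (by ring)
      have U2 := hc G2 G1 (show 0 ≤ 1 - s by linarith) hs0 (by ring)
      have U := hc U1 U2 (show 0 ≤ 1 - t by linarith) ht0 (by ring)
      have e1 : (1 - t) • ((1 - s) • (O + a₃ • (-e) + a₄ • (-f)) + s • (O + a₄ • (-f) + a₁ • e)) +
          t • ((1 - s) • (O + a₂ • f + a₃ • (-e)) + s • (O + a₁ • e + a₂ • f)) =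
          O - a₃ • e - a₄ • f + s • (a₁ + a₃) • e + t • (a₂ + a₄) • f := by module
      rw [e1] at U
      exact U

end Pool.Agent.X162.Quad
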