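import Pool.Agent.X162.QuadCurve

/-!
# Perpendicular chords quadrisecting the perimeter: the main theorem
-/

namespace Pool.Agent.X162.Quad

open Set MeasureTheory Metric
open scoped RealInnerProductSpace ENNReal

lemma ray_unique {F : Set Plane} (hcomp : IsCompact F) (hc : Convex ℝ F) {w v : Plane}
    (hw : w ∈ interior F) {a b : ℝ} (ha : 0 < a) (hb : 0 < b) (hA : w + a • v ∈ frontier F)
    (hB : w + b • v ∈ frontier F) : a = b := by
  have hcl : ∀ z ∈ frontier F, z ∈ F := fun z hz => closed_sub hcomp (subset_refl _) hz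
  rcases lt_trichotomy a b with h | h | h
  · exact absurd (axis_interior hc hw hb ha.le h (hcl _ hB)) hA.2
  · exact h
  · exact absurd (axis_interior hc hw ha hb.le h (hcl _ hA)) hB.2

/-- A line through an interior point meets the boundary in at most two points. -/
lemma line_two {F : Set Plane} (hcomp : IsCompact F) (hc : Convex ℝ F) {O e f : Plane}
    (hfr : Fr e f) {w : Plane} (hw : w ∈ interior F) (hw0 : ⟪w - O, f⟫ = 0) {p q z : Plane}
    (hp : p ∈ frontier F) (hp0 : ⟪p - O, f⟫ = 0) (hq : q ∈ frontier F) (hq0 : ⟪q - O, f⟫ = 0)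
    (hpq : p ≠ q) (hz : z ∈ frontier F) (hz0 : ⟪z - O, f⟫ = 0) : z = p ∨ z = q := by
  have par : ∀ y ∈ frontier F, ⟪y - O, f⟫ = 0 → ∃ a : ℝ, a ≠ 0 ∧ y = w + a • e := by
    intro y hy hy0
    have e1 : y = w + ⟪y - w, e⟫ • e := by
      have h1 := hfr.decomp w y
      have h2 : ⟪y - w, f⟫ = 0 := by
        have : y - w = (y - O) - (w - O) := by abel
        rw [this, inner_sub_left, hy0, hw0, sub_zero]
      rw [h2, zero_smul, add_zero] at h1
      exact h1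
    refine ⟨⟪y - w, e⟫, ?_, e1⟩
    intro h0
    rw [h0, zero_smul, add_zero] at e1
    rw [e1] at hy
    exact hy.2 hw
  obtain ⟨a, ha, rfl⟩ := par p hp hp0
  obtain ⟨b, hb, rfl⟩ := par q hq hq0
  obtain ⟨c, hc', rfl⟩ := par z hz hz0
  have same : ∀ x y : ℝ, 0 < x * y → w + x • e ∈ frontier F → w + y • e ∈ frontier F → x = y := by
    intro x y hxy hx hy
    rcases pos_and_pos_or_neg_and_neg_of_mul_pos hxy with ⟨h1, h2⟩ | ⟨h1, h2⟩
    · exact ray_unique hcomp hc hw h1 h2 hx hy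
    · have := ray_unique hcomp hc (v := -e) hw (a := -x) (b := -y) (by linarith) (by linarith)
        (by rwa [smul_neg, neg_smul, neg_neg]) (by rwa [smul_neg, neg_smul, neg_neg])
      linarith
  rcases lt_or_gt_of_ne (mul_ne_zero ha hb) with hab | hab
  · rcases lt_or_gt_of_ne (mul_ne_zero hc' ha) with hca | hca
    · right
      have : 0 < c * b := by
        by_contra hcon
        push Not at hcon
        have h1 : 0 < (c * a) * (a * b) := mul_pos_of_neg_of_neg hca hab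
        have h2 : (c * a) * (a * b) = (c * b) * a ^ 2 := by ring
        rw [h2] at h1
        have h3 : (c * b) * a ^ 2 ≤ 0 := mul_nonpos_of_nonpos_of_nonneg hcon (sq_nonneg a)
        linarith
      rw [same c b this hz hq]
    · left
      rw [same c a hca hz hp]
  · exact absurd (by rw [same a b hab hp hq]) hpq

lemma exists_pos {F : Set Plane} (hcomp : IsCompact F) {O f : Plane}
    (hf : ‖f‖ = 1) {w : Plane} (hw : w ∈ interior F) (hw0 : ⟪w - O, f⟫ = 0) :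
    ∃ z ∈ frontier F, 0 < ⟪z - O, f⟫ := by
  obtain ⟨t, ht, hz⟩ := exit hcomp (interior_subset hw) hf
  refine ⟨_, hz, ?_⟩
  have e1 : ⟪w + t • f - O, f⟫ = t := by
    rw [show w + t • f - O = (w - O) + t • f by abel, inner_add_left, hw0, inner_smul_left,
      real_inner_self_eq_norm_sq, hf]
    simp
  rw [e1]
  rcases ht.eq_or_lt with h | h
  · rw [← h, zero_smul, add_zero] at hz
    exact absurd hw hz.2
  · exact h

/-- Main theorem. -/
theorem main {F : Set Plane} (hF : IsConvexFigure F) {p₁ p₂ q₁ q₂ : Plane}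
    (hq : QuadrisectPerimeter F p₁ p₂ q₁ q₂) (hperp : ⟪p₁ - q₁, p₂ - q₂⟫ = 0) :
    perimeter F ≤ ENNReal.ofReal (2 * (dist p₁ q₁ + dist p₂ q₂)) ∧
      (perimeter F = ENNReal.ofReal (2 * (dist p₁ q₁ + dist p₂ q₂)) → IsRectangle F) := by
  obtain ⟨γ, t₁, t₂, t₃, t₄, h, h12, h23, h34, h41, rfl, rfl, rfl, rfl, L1, L2, L3, L4⟩ := hq
  have hcomp := hF.isCompact
  have hc := hF.convex
  have hcl : ∀ z ∈ frontier F, z ∈ F := fun z hz => closed_sub hcomp (subset_refl _) hz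
  have hne1 : γ t₁ ≠ γ t₃ := by
    intro he
    have := h.inj (by rw [abs_lt]; constructor <;> linarith) he
    linarith
  have hne2 : γ t₂ ≠ γ t₄ := by
    intro he
    have := h.inj (by rw [abs_lt]; constructor <;> linarith) he
    linarith
  have hn1 : 0 < ‖γ t₁ - γ t₃‖ := norm_pos_iff.mpr (sub_ne_zero.mpr hne1)
  have hn2 : 0 < ‖γ t₂ - γ t₄‖ := norm_pos_iff.mpr (sub_ne_zero.mpr hne2)
  obtain ⟨e, he⟩ : ∃ e, e = ‖γ t₁ - γ t₃‖⁻¹ • (γ t₁ - γ t₃) := ⟨_, rfl⟩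
  obtain ⟨f, hf⟩ : ∃ f, f = ‖γ t₂ - γ t₄‖⁻¹ • (γ t₂ - γ t₄) := ⟨_, rfl⟩
  have hfr : Fr e f := by
    refine ⟨?_, ?_, ?_⟩
    · rw [he, norm_smul, norm_inv, norm_norm, inv_mul_cancel₀ hn1.ne']
    · rw [hf, norm_smul, norm_inv, norm_norm, inv_mul_cancel₀ hn2.ne']
    · rw [he, hf, inner_smul_left, inner_smul_right, hperp]; simp
  have hv1 : γ t₁ - γ t₃ = ‖γ t₁ - γ t₃‖ • e := by
    rw [he, smul_smul, mul_inv_cancel₀ hn1.ne', one_smul]
  have hv2 : γ t₂ - γ t₄ = ‖γ t₂ - γ t₄‖ • f := by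
    rw [hf, smul_smul, mul_inv_cancel₀ hn2.ne', one_smul]
  obtain ⟨O, hO⟩ : ∃ O, O = γ t₁ + ⟪γ t₂ - γ t₁, e⟫ • e := ⟨_, rfl⟩
  have hY1 : ⟪γ t₁ - O, f⟫ = 0 := by
    rw [hO, show γ t₁ - (γ t₁ + ⟪γ t₂ - γ t₁, e⟫ • e) = -(⟪γ t₂ - γ t₁, e⟫ • e) by abel,
      inner_neg_left, inner_smul_left, hfr.hef]; simp
  have hY3 : ⟪γ t₃ - O, f⟫ = 0 := by
    rw [show γ t₃ - O = (γ t₁ - O) - (γ t₁ - γ t₃) by abel, inner_sub_left, hY1, hv1,
      inner_smul_left, hfr.hef]; simp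
  have hX2 : ⟪γ t₂ - O, e⟫ = 0 := by
    rw [hO, show γ t₂ - (γ t₁ + ⟪γ t₂ - γ t₁, e⟫ • e) = (γ t₂ - γ t₁) - (⟪γ t₂ - γ t₁, e⟫ • e)
      by abel, inner_sub_left, inner_smul_left, hfr.ee]; simp
  have hX4 : ⟪γ t₄ - O, e⟫ = 0 := by
    rw [show γ t₄ - O = (γ t₂ - O) - (γ t₂ - γ t₄) by abel, inner_sub_left, hX2, hv2,
      inner_smul_left, hfr.fe]; simp
  have hXd : ⟪γ t₁ - O, e⟫ - ⟪γ t₃ - O, e⟫ = dist (γ t₁) (γ t₃) := by
    rw [← inner_sub_left, sub_sub_sub_cancel_right, hv1, inner_smul_left, hfr.ee, dist_eq_norm]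
    simp
  have hYd : ⟪γ t₂ - O, f⟫ - ⟪γ t₄ - O, f⟫ = dist (γ t₂) (γ t₄) := by
    rw [← inner_sub_left, sub_sub_sub_cancel_right, hv2, inner_smul_left, hfr.ff, dist_eq_norm]
    simp
  have hd1 : 0 < dist (γ t₁) (γ t₃) := dist_pos.mpr hne1
  have hd2 : 0 < dist (γ t₂) (γ t₄) := dist_pos.mpr hne2
  have hper : ∀ r, γ (r + 1) = γ r := h.periodic
  -- the case of a line missing the interior
  have hlast : ∀ d : ℝ, 0 < d → d < dist (γ t₁) (γ t₃) + dist (γ t₂) (γ t₄) →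
      perimeter F ≤ 2 * ENNReal.ofReal d →
      perimeter F ≤ ENNReal.ofReal (2 * (dist (γ t₁) (γ t₃) + dist (γ t₂) (γ t₄))) ∧
      (perimeter F = ENNReal.ofReal (2 * (dist (γ t₁) (γ t₃) + dist (γ t₂) (γ t₄))) →
        IsRectangle F) := by
    intro d hd hlt hle
    have h2 : (2:ℝ≥0∞) * ENNReal.ofReal d = ENNReal.ofReal (2 * d) := by
      rw [ENNReal.ofReal_mul (by norm_num)]; norm_num
    rw [h2] at hle
    have hlt' : ENNReal.ofReal (2 * d) <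
        ENNReal.ofReal (2 * (dist (γ t₁) (γ t₃) + dist (γ t₂) (γ t₄))) :=
      (ENNReal.ofReal_lt_ofReal_iff (by linarith)).mpr (by linarith)
    have h3 := hle.trans_lt hlt'
    exact ⟨h3.le, fun heq => absurd heq h3.ne⟩
  by_cases hmY : ∀ w ∈ interior F, ⟪w - O, f⟫ ≠ 0
  · have := degenerate hcomp hc h (s := t₁) (u := t₃) (by linarith) (by linarith) hY1 hY3 hmY
      (r₁ := t₂) (r₂ := t₄) ⟨h12, h23⟩ ⟨h34, h41⟩ L1 L2 L3 L4
    rw [edist_dist] at this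
    exact hlast _ hd1 (by linarith) this
  by_cases hmX : ∀ w ∈ interior F, ⟪w - O, e⟫ ≠ 0
  · have L5 : μH[1] (γ '' Icc (t₁ + 1) (t₂ + 1)) = perimeter F / 4 := by
      rw [← L1]
      congr 1
      ext z
      constructor
      · rintro ⟨r, hr, rfl⟩
        refine ⟨r - 1, ⟨by linarith [hr.1], by linarith [hr.2]⟩, ?_⟩
        rw [← hper, sub_add_cancel]
      · rintro ⟨r, hr, rfl⟩
        exact ⟨r + 1, ⟨by linarith [hr.1], by linarith [hr.2]⟩, hper r⟩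
    have := degenerate hcomp hc h (s := t₂) (u := t₄) (by linarith) (by linarith) hX2 hX4 hmX
      (r₁ := t₃) (r₂ := t₁ + 1) ⟨h23, h34⟩ ⟨h41, by linarith⟩ L2 L3 L4 L5
    rw [edist_dist] at this
    exact hlast _ hd2 (by linarith) this
  push Not at hmY hmX
  obtain ⟨w, hw, hw0⟩ := hmY
  obtain ⟨w', hw', hw0'⟩ := hmX
  have fr2 : Fr f (-e) := hfr.rot
  have hneg0 : ∀ z : Plane, ⟪z, e⟫ = 0 → ⟪z, -e⟫ = 0 := by
    intro z hz; rw [inner_neg_right, hz, neg_zero]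
  have S1 := side h (g := fun z => ⟪z - O, f⟫) (by fun_prop) (s := t₁) (u := t₃) (by linarith)
    (by linarith) hY1 hY3
    (fun z hz hz0 => line_two hcomp hc hfr hw hw0 (h.mem _) hY1 (h.mem _) hY3 hne1 hz hz0)
    (exists_pos hcomp hfr.hf hw hw0)
    (by
      obtain ⟨z, hz, hz'⟩ := exists_pos (O := O) (f := -f) hcomp (by rw [norm_neg, hfr.hf]) hw
        (by rw [inner_neg_right, hw0, neg_zero])
      refine ⟨z, hz, ?_⟩
      rw [inner_neg_right] at hz'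
      linarith) (t := t₂) (t' := t₄) ⟨h12, h23⟩ ⟨h34, h41⟩ (by
        show ⟪γ t₄ - O, f⟫ < ⟪γ t₂ - O, f⟫
        linarith)
  have S2 := side h (g := fun z => ⟪z - O, -e⟫) (by fun_prop) (s := t₂) (u := t₄) (by linarith)
    (by linarith) (hneg0 _ hX2) (hneg0 _ hX4)
    (fun z hz hz0 => line_two hcomp hc fr2 hw' (hneg0 _ hw0') (h.mem _) (hneg0 _ hX2) (h.mem _)
      (hneg0 _ hX4) hne2 hz hz0)
    (exists_pos hcomp (by rw [norm_neg, hfr.he]) hw' (hneg0 _ hw0'))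
    (by
      obtain ⟨z, hz, hz'⟩ := exists_pos (O := O) (f := e) hcomp hfr.he hw' hw0'
      refine ⟨z, hz, ?_⟩
      show ⟪z - O, -e⟫ < 0
      rw [inner_neg_right]
      linarith) (t := t₃) (t' := t₁ + 1) ⟨h23, h34⟩ ⟨h41, by linarith⟩ (by
        show ⟪γ (t₁ + 1) - O, -e⟫ < ⟪γ t₃ - O, -e⟫
        rw [hper, inner_neg_right, inner_neg_right]
        linarith)
  simp only [inner_neg_right] at S2
  obtain ⟨S1a, S1b⟩ := S1
  obtain ⟨S2a, S2b⟩ := S2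
  -- signs on closed arcs
  have hYp : ∀ r ∈ Icc t₁ t₃, 0 ≤ ⟪γ r - O, f⟫ := by
    intro r hr
    rcases hr.1.eq_or_lt with h1 | h1
    · rw [← h1, hY1]
    rcases hr.2.eq_or_lt with h2 | h2
    · rw [h2, hY3]
    exact (S1a r ⟨h1, h2⟩).le
  have hYn : ∀ r ∈ Icc t₃ (t₁ + 1), ⟪γ r - O, f⟫ ≤ 0 := by
    intro r hr
    rcases hr.1.eq_or_lt with h1 | h1
    · rw [← h1, hY3]
    rcases hr.2.eq_or_lt with h2 | h2
    · rw [h2, hper, hY1]
    exact (S1b r ⟨h1, h2⟩).le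
  have hXn : ∀ r ∈ Icc t₂ t₄, ⟪γ r - O, e⟫ ≤ 0 := by
    intro r hr
    rcases hr.1.eq_or_lt with h1 | h1
    · rw [← h1, hX2]
    rcases hr.2.eq_or_lt with h2 | h2
    · rw [h2, hX4]
    linarith [S2a r ⟨h1, h2⟩]
  have hXp : ∀ r ∈ Icc t₄ (t₂ + 1), 0 ≤ ⟪γ r - O, e⟫ := by
    intro r hr
    rcases hr.1.eq_or_lt with h1 | h1
    · rw [← h1, hX4]
    rcases hr.2.eq_or_lt with h2 | h2
    · rw [h2, hper, hX2]
    linarith [S2b r ⟨h1, h2⟩]
  obtain ⟨a₁, ha1⟩ : ∃ a, a = ⟪γ t₁ - O, e⟫ := ⟨_, rfl⟩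
  obtain ⟨a₂, ha2⟩ : ∃ a, a = ⟪γ t₂ - O, f⟫ := ⟨_, rfl⟩
  obtain ⟨a₃, ha3⟩ : ∃ a, a = -⟪γ t₃ - O, e⟫ := ⟨_, rfl⟩
  obtain ⟨a₄, ha4⟩ : ∃ a, a = -⟪γ t₄ - O, f⟫ := ⟨_, rfl⟩
  have hp1 : 0 < a₁ := by
    have := S2b (t₁ + 1) ⟨h41, by linarith⟩
    rw [hper] at this
    linarith
  have hp2 : 0 < a₂ := by rw [ha2]; exact S1a t₂ ⟨h12, h23⟩
  have hp3 : 0 < a₃ := by rw [ha3]; exact S2a t₃ ⟨h23, h34⟩
  have hp4 : 0 < a₄ := by
    have := S1b t₄ ⟨h34, h41⟩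
    rw [ha4]; linarith
  have g1 : O + a₁ • e = γ t₁ := by
    have := hfr.decomp O (γ t₁)
    rw [hY1, zero_smul, add_zero, ← ha1] at this
    exact this.symm
  have g2 : O + a₂ • f = γ t₂ := by
    have := hfr.decomp O (γ t₂)
    rw [hX2, zero_smul, add_zero, ← ha2] at this
    exact this.symm
  have g3 : O + a₃ • (-e) = γ t₃ := by
    have := hfr.decomp O (γ t₃)
    rw [hY3, zero_smul, add_zero] at this
    rw [ha3, smul_neg, neg_smul, neg_neg]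
    exact this.symm
  have g4 : O + a₄ • (-f) = γ t₄ := by
    have := hfr.decomp O (γ t₄)
    rw [hX4, zero_smul, add_zero] at this
    rw [ha4, smul_neg, neg_smul, neg_neg]
    exact this.symm
  -- the crossing point is interior
  have hOi : O ∈ interior F := by
    have hwd := hfr.decomp O w
    rw [hw0, zero_smul, add_zero] at hwd
    obtain ⟨x, hx⟩ : ∃ x, x = ⟪w - O, e⟫ := ⟨_, rfl⟩
    rw [← hx] at hwd
    rcases le_or_gt 0 x with h0 | h0
    · have := axis_interior hc hw (v := -e) (a := x + a₃) (x := x) (by linarith) h0 (by linarith)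
        (by
          have : w + (x + a₃) • (-e) = γ t₃ := by
            rw [← g3, hwd]; module
          rw [this]; exact hcl _ (h.mem _))
      have e1 : w + x • (-e) = O := by rw [hwd]; module
      rwa [e1] at this
    · have := axis_interior hc hw (v := e) (a := -x + a₁) (x := -x) (by linarith) (by linarith)
        (by linarith)
        (by
          have : w + (-x + a₁) • e = γ t₁ := by
            rw [← g1, hwd]; module
          rw [this]; exact hcl _ (h.mem _))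
      have e1 : w + (-x) • e = O := by rw [hwd]; module
      rwa [e1] at this
  -- the four arcs
  have hsub : ∀ x y : ℝ, γ '' Icc x y ⊆ frontier F := by
    rintro x y _ ⟨r, -, rfl⟩
    exact h.mem r
  have A1 : ∀ z ∈ γ '' Icc t₁ t₂, 0 ≤ ⟪z - O, e⟫ ∧ 0 ≤ ⟪z - O, f⟫ := by
    rintro _ ⟨r, hr, rfl⟩
    refine ⟨?_, hYp r ⟨hr.1, by linarith [hr.2]⟩⟩
    have := hXp (r + 1) ⟨by linarith [hr.1], by linarith [hr.2]⟩
    rwa [hper] at this
  have A2 : ∀ z ∈ γ '' Icc t₂ t₃, 0 ≤ ⟪z - O, f⟫ ∧ 0 ≤ ⟪z - O, -e⟫ := by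
    rintro _ ⟨r, hr, rfl⟩
    refine ⟨hYp r ⟨by linarith [hr.1], hr.2⟩, ?_⟩
    have := hXn r ⟨hr.1, by linarith [hr.2]⟩
    rw [inner_neg_right]
    linarith
  have A3 : ∀ z ∈ γ '' Icc t₃ t₄, 0 ≤ ⟪z - O, -e⟫ ∧ 0 ≤ ⟪z - O, -f⟫ := by
    rintro _ ⟨r, hr, rfl⟩
    have h1 := hXn r ⟨by linarith [hr.1], hr.2⟩
    have h2 := hYn r ⟨hr.1, by linarith [hr.2]⟩
    rw [inner_neg_right, inner_neg_right]
    exact ⟨by linarith, by linarith⟩
  have A4 : ∀ z ∈ γ '' Icc t₄ (t₁ + 1), 0 ≤ ⟪z - O, -f⟫ ∧ 0 ≤ ⟪z - O, e⟫ := by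
    rintro _ ⟨r, hr, rfl⟩
    have h1 := hYn r ⟨by linarith [hr.1], hr.2⟩
    rw [inner_neg_right]
    exact ⟨by linarith, hXp r ⟨hr.1, by linarith [hr.2]⟩⟩
  have hfin : perimeter F / 4 ≠ ⊤ := by
    rw [← L1]
    exact arc_finite hcomp hc hfr hOi (hsub _ _) (fun z hz => (A1 z hz).1)
      (fun z hz => (A1 z hz).2)
  obtain ⟨l, hl⟩ : ∃ l : ℝ, l = (perimeter F / 4).toReal := ⟨_, rfl⟩
  have hl' : perimeter F / 4 = ENNReal.ofReal l := by
    rw [hl, ENNReal.ofReal_toReal hfin]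
  have hl0 : 0 ≤ l := by rw [hl]; exact ENNReal.toReal_nonneg
  have hP : perimeter F = ENNReal.ofReal (4 * l) := by
    rw [ENNReal.ofReal_mul (by norm_num), ← hl']
    have : ENNReal.ofReal 4 = 4 := by norm_num
    rw [this]
    exact (ENNReal.mul_div_cancel (by norm_num) (by norm_num)).symm
  have hsum : a₁ + a₂ + a₃ + a₄ = dist (γ t₁) (γ t₃) + dist (γ t₂) (γ t₄) := by
    rw [ha1, ha2, ha3, ha4, ← hXd, ← hYd]; ring
  rw [← hsum, hP]
  rw [hl'] at L1 L2 L3 L4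
  rcases hl0.eq_or_lt with h0 | h0
  · rw [← h0]
    have : 0 < ENNReal.ofReal (2 * (a₁ + a₂ + a₃ + a₄)) := ENNReal.ofReal_pos.mpr (by linarith)
    simp only [mul_zero, ENNReal.ofReal_zero]
    exact ⟨zero_le, fun heq => absurd heq this.ne⟩
  · have Q := quad_ineq hcomp hc hfr hOi hp1 hp2 hp3 hp4 (by rw [g1]; exact h.mem _)
      (by rw [g2]; exact h.mem _) (by rw [g3]; exact h.mem _) (by rw [g4]; exact h.mem _)
      (hsub _ _) (hsub _ _) (hsub _ _) (hsub _ _) A1 A2 A3 A4 h0 L1 L2 L3 L4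
    refine ⟨ENNReal.ofReal_le_ofReal Q.1, fun heq => Q.2 ?_⟩
    exact (ENNReal.ofReal_eq_ofReal_iff (by linarith) (by linarith)).mp heq

end Pool.Agent.X162.Quad
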