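import Pool.Agent.X162.TPS

set_option autoImplicit false
set_option linter.unusedSectionVars false

/-! The identity `(∑ (3 l + 1) X ^ (3 l ^ 2 + 2 l)) ∏ (1 - (-X) ^ i) ^ 2 = ∏ (1 - X ^ (2 i)) ^ 5`. -/

namespace Pool.Agent.X162.JTP

open Finset PowerSeries Filter
open scoped PowerSeries.WithPiTopology Topology

variable {K : Type*} [CommRing K]

/-- the sign `(-1) ^ j` -/
def sg (j : ℤ) : ℤ := ((Int.negOnePow j : ℤˣ) : ℤ)

theorem sg_add (i j : ℤ) : sg (i + j) = sg i * sg j := by simp [sg, Int.negOnePow_add]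
theorem sg_nat (n : ℕ) : sg (n : ℤ) = (-1) ^ n := by simp [sg, Int.negOnePow_def]
theorem sg_neg (j : ℤ) : sg (-j) = sg j := by simp [sg]
theorem sg_one : sg 1 = -1 := by simp [sg]
theorem sg_sq (j : ℤ) : sg j * sg j = 1 := by
  rw [← sg_add, ← two_mul]; simp [sg, Int.negOnePow_even]

/-- the monomial `c X ^ e` -/
noncomputable def mon (c e : ℤ) : K⟦X⟧ := (c : K⟦X⟧) * X ^ e.toNat

theorem mon_mul (c c' e e' : ℤ) (h : 0 ≤ e) (h' : 0 ≤ e') :
    (mon c e * mon c' e' : K⟦X⟧) = mon (c * c') (e + e') := by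
  rw [mon, mon, mon, Int.toNat_add h h', pow_add]; push_cast; ring

theorem coeff_mon (c e : ℤ) (d : ℕ) : coeff d (mon c e : K⟦X⟧) = if d = e.toNat then (c : K) else 0 := by
  rw [mon, ← map_intCast (C : K →+* K⟦X⟧) c, coeff_C_mul, coeff_X_pow]
  split_ifs <;> simp

variable [TopologicalSpace K] [DiscreteTopology K]

theorem summ {ι : Type*} (c e : ι → ℤ) (h : ∀ d : ℕ, {i | (e i).toNat = d}.Finite) :
    Summable (fun i => (mon (c i) (e i) : K⟦X⟧)) := by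
  rw [WithPiTopology.summable_iff_summable_coeff]
  intro d
  refine summable_of_hasFiniteSupport ((h d).subset fun i hi => ?_)
  by_contra hne
  apply hi
  simp only [coeff_mon]
  rw [if_neg]
  intro h'
  exact hne h'.symm

theorem summ1 (c e : ℤ → ℤ) (h : ∀ i, |i| ≤ e i + 1) :
    Summable (fun i => (mon (c i) (e i) : K⟦X⟧)) := by
  refine summ c e fun d => (Set.finite_Icc (-(d + 1 : ℤ)) (d + 1)).subset fun i hi => ?_
  have h1 := h i
  have h2 : e i ≤ d := by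
    have : (e i).toNat = d := hi
    omega
  rw [Set.mem_Icc]
  exact abs_le.1 (by omega)

theorem summ2 (c e : ℤ × ℤ → ℤ) (h : ∀ p, |p.1| + |p.2| ≤ e p + 1) :
    Summable (fun i => (mon (c i) (e i) : K⟦X⟧)) := by
  refine summ c e fun d => ((Set.finite_Icc (-(d + 1 : ℤ)) (d + 1)).prod
    (Set.finite_Icc (-(d + 1 : ℤ)) (d + 1))).subset fun i hi => ?_
  have h1 := h i
  have h2 : e i ≤ d := by
    have : (e i).toNat = d := hi
    omega
  have h3 := abs_nonneg i.1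
  have h4 := abs_nonneg i.2
  rw [Set.mem_prod, Set.mem_Icc, Set.mem_Icc]
  exact ⟨abs_le.1 (by omega), abs_le.1 (by omega)⟩

attribute [irreducible] mon

theorem hs_mul' {f g : ℤ → K⟦X⟧} {A B : K⟦X⟧} (h1 : HasSum f A) (h2 : HasSum g B)
    (hs : Summable fun p : ℤ × ℤ => f p.1 * g p.2) :
    HasSum (fun p : ℤ × ℤ => f p.1 * g p.2) (A * B) := HasSum.mul h1 h2 hs

theorem hs_mul {c c' e e' : ℤ → ℤ} {A B : K⟦X⟧} (h1 : HasSum (fun i => (mon (c i) (e i) : K⟦X⟧)) A)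
    (h2 : HasSum (fun i => (mon (c' i) (e' i) : K⟦X⟧)) B) (he : ∀ i, 0 ≤ e i) (he' : ∀ i, 0 ≤ e' i)
    (h : ∀ p : ℤ × ℤ, |p.1| + |p.2| ≤ (e p.1 + e' p.2) + 1) :
    HasSum (fun p : ℤ × ℤ => (mon (c p.1 * c' p.2) (e p.1 + e' p.2) : K⟦X⟧)) (A * B) := by
  have hsum : Summable (fun p : ℤ × ℤ => (mon (c p.1 * c' p.2) (e p.1 + e' p.2) : K⟦X⟧)) :=
    summ2 (fun p => c p.1 * c' p.2) (fun p => e p.1 + e' p.2) h
  have e1 : (fun p : ℤ × ℤ => (mon (c p.1 * c' p.2) (e p.1 + e' p.2) : K⟦X⟧)) =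
      fun p : ℤ × ℤ => mon (c p.1) (e p.1) * mon (c' p.2) (e' p.2) := by
    funext p; rw [mon_mul _ _ _ _ (he _) (he' _)]
  have h3 := hs_mul' h1 h2 (by rw [← e1]; exact hsum)
  rw [e1]
  exact h3

theorem two_choose (n : ℕ) : (2 * (n.choose 2) : ℤ) = n * n - n := by
  induction n with
  | zero => simp
  | succ n ih => rw [ch]; push_cast; linarith

/-- `∑ (-1) ^ m X ^ (m ^ 2)` -/
noncomputable def Phi : K⟦X⟧ := EE (X ^ 2) * (PP (X ^ 2) X * PP (X ^ 2) X)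

theorem cX (n : ℕ) (hn : n ≠ 0) : constantCoeff ((X : K⟦X⟧) ^ n) = 0 := by
  rw [map_pow, constantCoeff_X, zero_pow hn]

theorem int_cases (j : ℤ) : (∃ n : ℕ, j = n) ∨ (∃ n : ℕ, j = -(n : ℤ)) := by
  rcases le_or_gt 0 j with h | h
  · exact Or.inl (Int.eq_ofNat_of_zero_le h)
  · exact Or.inr ⟨(-j).toNat, by omega⟩

theorem mon_eq (n m : ℕ) (c e : ℤ) (hc : c = (-1) ^ n) (he : e = m) :
    (mon c e : K⟦X⟧) = (-1) ^ n * X ^ m := by
  rw [hc, he]; unfold mon; simp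

theorem hs_phi : HasSum (fun m : ℤ => (mon (sg m) (m * m) : K⟦X⟧)) Phi := by
  have h := triple (K := K) (q := X ^ 2) (a := X) (b := X) (cX 2 (by norm_num)) (by ring)
  have e : T (X ^ 2 : K⟦X⟧) X X = fun m : ℤ => (mon (sg m) (m * m) : K⟦X⟧) := by
    funext j
    rcases int_cases j with ⟨n, rfl⟩ | ⟨n, rfl⟩
    · rw [T_nat, mon_eq n (n + 2 * n.choose 2) _ _ (sg_nat n) (by push_cast; rw [two_choose]; ring)]
      rw [pow_add, pow_mul]; ring
    · rw [T_neg, mon_eq n (n + 2 * n.choose 2) _ _ (by rw [sg_neg, sg_nat])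
        (by push_cast; rw [two_choose]; ring)]
      rw [pow_add, pow_mul]; ring
  rw [e] at h
  exact h

theorem hs_pent4 : HasSum (fun a : ℤ => (mon (sg a) (6 * a * a - 2 * a) : K⟦X⟧)) (EE (X ^ 4)) := by
  have h := pent (K := K) (q := X ^ 4) (cX 4 (by norm_num))
  have e : T ((X ^ 4) ^ 3 : K⟦X⟧) (X ^ 4) ((X ^ 4) ^ 2) =
      fun a : ℤ => (mon (sg a) (6 * a * a - 2 * a) : K⟦X⟧) := by
    funext j
    rcases int_cases j with ⟨n, rfl⟩ | ⟨n, rfl⟩
    · rw [T_nat, mon_eq n (4 * n + 12 * n.choose 2) _ _ (sg_nat n)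
        (by push_cast; linear_combination (-6 : ℤ) * two_choose n)]
      ring
    · rw [T_neg, mon_eq n (8 * n + 12 * n.choose 2) _ _ (by rw [sg_neg, sg_nat])
        (by push_cast; linear_combination (-6 : ℤ) * two_choose n)]
      rw [pow_add, ← pow_mul, ← pow_mul, ← pow_mul, ← pow_mul]; ring
  rw [e] at h
  exact h

/-- `∑ (-1) ^ n X ^ (2 n ^ 2 + 2 n) = 0` -/
theorem hs_zero : HasSum (fun a : ℤ => (mon (sg a) (2 * a * a + 2 * a) : K⟦X⟧)) 0 := by
  have h := triple (K := K) (q := X ^ 4) (a := X ^ 4) (b := 1) (cX 4 (by norm_num)) (by ring)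
  have h0 : PP (X ^ 4 : K⟦X⟧) 1 = 0 :=
    (hasProd_PP (cX 4 (by norm_num)) 1).unique (hasProd_zero_of_exists_eq_zero ⟨0, by simp⟩)
  rw [h0, mul_zero, mul_zero] at h
  have e : T (X ^ 4 : K⟦X⟧) (X ^ 4) 1 =
      fun a : ℤ => (mon (sg a) (2 * a * a + 2 * a) : K⟦X⟧) := by
    funext j
    rcases int_cases j with ⟨n, rfl⟩ | ⟨n, rfl⟩
    · rw [T_nat, mon_eq n (4 * n + 4 * n.choose 2) _ _ (sg_nat n)
        (by push_cast; linear_combination (-2 : ℤ) * two_choose n)]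
      rw [pow_add, pow_mul, pow_mul]; ring
    · rw [T_neg, mon_eq n (4 * n.choose 2) _ _ (by rw [sg_neg, sg_nat])
        (by push_cast; linear_combination (-2 : ℤ) * two_choose n)]
      rw [← pow_mul]; ring
  rw [e] at h
  exact h

theorem hs_jac4 : HasSum (fun a : ℤ => (mon (sg a * a) (2 * a * a + 2 * a) : K⟦X⟧))
    (EE (X ^ 4) ^ 3) := by
  have h := jacobi (K := K) (q := X ^ 4) (cX 4 (by norm_num))
  have e : J (X ^ 4 : K⟦X⟧) = fun a : ℤ => (mon (sg a * a) (2 * a * a + 2 * a) : K⟦X⟧) := by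
    funext j
    rcases int_cases j with ⟨n, rfl⟩ | ⟨n, rfl⟩
    · have e1 : (2 * (n : ℤ) * n + 2 * n).toNat = 4 * n + 4 * n.choose 2 := by
        have := two_choose n
        have : (2 * (n : ℤ) * n + 2 * n) = ((4 * n + 4 * n.choose 2 : ℕ) : ℤ) := by
          push_cast; linear_combination (-2 : ℤ) * two_choose n
        rw [this]; rfl
      rw [J_nat]; unfold mon; rw [e1, sg_nat]
      push_cast
      ring
    · have e1 : (2 * (-(n : ℤ)) * (-n) + 2 * (-n)).toNat = 4 * n.choose 2 := by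
        have : (2 * (-(n : ℤ)) * (-n) + 2 * (-n)) = ((4 * n.choose 2 : ℕ) : ℤ) := by
          push_cast; linear_combination (-2 : ℤ) * two_choose n
        rw [this]; rfl
      rw [J_neg]; unfold mon; rw [e1, sg_neg, sg_nat]
      push_cast
      rw [← pow_mul]; ring
  rw [e] at h
  exact h

end Pool.Agent.X162.JTP
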