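import Pool.Agent.X162.JTP

set_option autoImplicit false

/-! The triple product, Jacobi's identity and the pentagonal number theorem for power series. -/

namespace Pool.Agent.X162.JTP

open Finset PowerSeries Filter
open scoped PowerSeries.WithPiTopology Topology

set_option linter.unusedSectionVars false

theorem T_map {A B : Type*} [CommRing A] [CommRing B] (φ : A →+* B) (q a b : A) (j : ℤ) :
    φ (T q a b j) = T (φ q) (φ a) (φ b) j := by
  cases j with
  | ofNat n => simp [T]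
  | negSucc n => simp [T]

theorem u_map {A B : Type*} [CommRing A] [CommRing B] (φ : A →+* B) (q : A) (m : ℕ) :
    φ (u q m) = u (φ q) m := by
  simp [u, map_prod]

variable {K : Type*} [CommRing K]

/-- reduction modulo `X ^ M` -/
noncomputable abbrev red (M : ℕ) : K⟦X⟧ →+* K⟦X⟧ ⧸ Ideal.span {(X : K⟦X⟧) ^ M} := Ideal.Quotient.mk _

theorem red_eq_zero (M : ℕ) (f : K⟦X⟧) : red M f = 0 ↔ X ^ M ∣ f := by
  rw [Ideal.Quotient.eq_zero_iff_mem, Ideal.mem_span_singleton]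

theorem red_eq (M : ℕ) (f g : K⟦X⟧) : red M f = red M g ↔ X ^ M ∣ f - g := by
  rw [← red_eq_zero, map_sub, sub_eq_zero]

theorem red_pow (M : ℕ) (q : K⟦X⟧) (hq : constantCoeff q = 0) : (red M q) ^ M = 0 := by
  rw [← map_pow, red_eq_zero]
  exact pow_dvd_pow_of_dvd (X_dvd_iff.2 hq) M

variable [TopologicalSpace K] [DiscreteTopology K]

theorem conv {f : ℕ → K⟦X⟧} {P : K⟦X⟧} (h : HasProd f P) (M : ℕ) :
    ∃ n0, ∀ n ≥ n0, red M (∏ i ∈ range n, f i) = red M P := by
  have h1 := h.tendsto_prod_nat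
  rw [WithPiTopology.tendsto_iff_coeff_tendsto] at h1
  have h2 : ∀ᶠ n in atTop, ∀ d ∈ range M, coeff d (∏ i ∈ range n, f i) = coeff d P := by
    rw [eventually_all_finset]
    intro d _
    have := h1 d
    rw [nhds_discrete, tendsto_pure] at this
    exact this
  obtain ⟨n0, hn⟩ := eventually_atTop.1 h2
  refine ⟨n0, fun n hn' => ?_⟩
  rw [red_eq, X_pow_dvd_iff]
  intro m hm
  rw [map_sub, hn n hn' m (mem_range.2 hm), sub_self]

theorem hasSum_of (f : ℤ → K⟦X⟧) (P : K⟦X⟧)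
    (h0 : ∀ M : ℕ, ∃ n0 : ℕ, ∀ j : ℤ, (n0 : ℤ) ≤ |j| → X ^ M ∣ f j)
    (h : ∀ M : ℕ, ∃ n0 : ℕ, ∀ n ≥ n0, red M P = red M (∑ j ∈ Icc (-(n : ℤ)) n, f j)) :
    HasSum f P := by
  rw [WithPiTopology.hasSum_iff_hasSum_coeff]
  intro d
  obtain ⟨n0, h0⟩ := h0 (d + 1)
  obtain ⟨n1, h1⟩ := h (d + 1)
  have h2 := h1 (max n0 n1) (le_max_right _ _)
  rw [red_eq, X_pow_dvd_iff] at h2
  have h3 := h2 d (by omega)
  rw [map_sub, sub_eq_zero, map_sum] at h3
  rw [h3]
  refine hasSum_sum_of_ne_finset_zero fun j hj => ?_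
  have : X ^ (d + 1) ∣ f j := by
    apply h0
    by_contra hlt
    apply hj
    rw [mem_Icc]
    have h4 : |j| < n0 := by omega
    rw [abs_lt] at h4
    have : (n0 : ℤ) ≤ (max n0 n1 : ℕ) := by exact_mod_cast le_max_left _ _
    constructor <;> omega
  exact (X_pow_dvd_iff.1 this) d (by omega)

theorem mult_of (f : ℕ → K⟦X⟧) (hf : ∀ i, X ^ i ∣ f i) : Multipliable fun i => 1 + f i := by
  apply WithPiTopology.multipliable_one_add_of_tendsto_order_atTop_nhds_top
  refine ENat.tendsto_nhds_top_iff_natCast_lt.mpr fun n ↦ eventually_atTop.mpr ⟨n + 1, ?_⟩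
  intro m hm
  have h1 : (m : ℕ∞) ≤ (f m).order := by
    exact nat_le_order _ _ fun i hi => (X_pow_dvd_iff.1 (hf m)) i hi
  refine lt_of_lt_of_le ?_ h1
  exact_mod_cast (by omega : n < m)

/-- the product `(1 - q) (1 - q ^ 2) ⋯` -/
noncomputable def EE (q : K⟦X⟧) : K⟦X⟧ := ∏' i : ℕ, (1 - q ^ (i + 1))

/-- the product `(1 - a) (1 - a q) ⋯` -/
noncomputable def PP (q a : K⟦X⟧) : K⟦X⟧ := ∏' i : ℕ, (1 - a * q ^ i)

theorem hasProd_PP {q : K⟦X⟧} (hq : constantCoeff q = 0) (a : K⟦X⟧) :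
    HasProd (fun i : ℕ => 1 - a * q ^ i) (PP q a) := by
  refine Multipliable.hasProd ?_
  have := mult_of (fun i => - (a * q ^ i)) (fun i =>
    (dvd_neg.2 (dvd_mul_of_dvd_right (pow_dvd_pow_of_dvd (X_dvd_iff.2 hq) i) a)))
  simpa [sub_eq_add_neg] using this

theorem hasProd_EE {q : K⟦X⟧} (hq : constantCoeff q = 0) :
    HasProd (fun i : ℕ => 1 - q ^ (i + 1)) (EE q) := by
  refine Multipliable.hasProd ?_
  have := mult_of (fun i => - (q ^ (i + 1))) (fun i =>
    (dvd_neg.2 ((pow_dvd_pow X (Nat.le_succ i)).trans (pow_dvd_pow_of_dvd (X_dvd_iff.2 hq) (i + 1)))))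
  simpa [sub_eq_add_neg] using this

theorem T_dvd {q a b : K⟦X⟧} (hq : constantCoeff q = 0) (M : ℕ) (j : ℤ) (hj : ((M + 2 : ℕ) : ℤ) ≤ |j|) :
    X ^ M ∣ T q a b j := by
  have key : ∀ m : ℕ, M + 2 ≤ m → X ^ M ∣ q ^ (m.choose 2) := by
    intro m hm
    refine (pow_dvd_pow_of_dvd (X_dvd_iff.2 hq) M).trans (pow_dvd_pow q ?_)
    obtain ⟨c, rfl⟩ := Nat.exists_eq_add_of_le hm
    have : M + 2 + c = (M + 1 + c) + 1 := by ring
    rw [this, ch]; omega
  rcases le_or_gt 0 j with h | h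
  · obtain ⟨m, rfl⟩ := Int.eq_ofNat_of_zero_le h
    rw [T_nat]
    exact dvd_mul_of_dvd_right (key m (by rw [abs_of_nonneg h] at hj; omega)) _
  · obtain ⟨k, rfl⟩ : ∃ k : ℕ, j = -(k : ℤ) := ⟨(-j).toNat, by omega⟩
    rw [T_neg]
    exact dvd_mul_of_dvd_right (key k (by rw [abs_of_neg h] at hj; omega)) _

/-- **The triple product** for power series. -/
theorem triple {q a b : K⟦X⟧} (hq : constantCoeff q = 0) (hab : a * b = q) :
    HasSum (T q a b) (EE q * (PP q a * PP q b)) := by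
  refine hasSum_of _ _ (fun M => ⟨M + 2, fun j hj => T_dvd hq M j hj⟩) fun M => ?_
  obtain ⟨n1, h1⟩ := conv (hasProd_EE hq) M
  obtain ⟨n2, h2⟩ := conv (hasProd_PP hq a) M
  obtain ⟨n3, h3⟩ := conv (hasProd_PP hq b) M
  refine ⟨2 * M + 2 + n1 + n2 + n3, fun n hn => ?_⟩
  have hab' : red M a * red M b = red M q := by rw [← map_mul, hab]
  have h := nil hab' (red_pow M q hq) n (by omega)
  have hE : red M (EE q) = u (red M q) M := by
    rw [← h1 (M + n1) (by omega)]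
    have : ∀ m, u (red M q) (M + m) = u (red M q) M := by
      intro m
      induction m with
      | zero => rfl
      | succ m ih =>
        rw [← add_assoc, u_succ, ih]
        have : (red M q) ^ (M + m + 1) = 0 := by
          rw [add_assoc, pow_add, red_pow M q hq, zero_mul]
        rw [this]; ring
    rw [← this n1, ← u_map]; rfl
  rw [map_mul, map_mul, hE, ← h2 n (by omega), ← h3 n (by omega), map_sum]
  simp only [T_map]
  rw [← h, map_prod, map_prod, prod_mul_distrib]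
  simp

theorem red_EE {q : K⟦X⟧} (hq : constantCoeff q = 0) (M m : ℕ) (hm : M ≤ m) :
    red M (EE q) = u (red M q) m := by
  obtain ⟨n1, h1⟩ := conv (hasProd_EE hq) M
  have : ∀ m, u (red M q) (M + m) = u (red M q) M := by
    intro m
    induction m with
    | zero => rfl
    | succ m ih =>
      rw [← add_assoc, u_succ, ih]
      have : (red M q) ^ (M + m + 1) = 0 := by
        rw [add_assoc, pow_add, red_pow M q hq, zero_mul]
      rw [this]; ring
  obtain ⟨c, rfl⟩ := Nat.exists_eq_add_of_le hm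
  rw [← h1 (M + n1) (by omega), this c, ← this n1, ← u_map]; rfl

/-- the terms of Jacobi's series -/
def J {A : Type*} [CommRing A] (q : A) : ℤ → A
  | Int.ofNat n => (-1) ^ n * (n : A) * q ^ (n + n.choose 2)
  | Int.negSucc k => - ((-1) ^ (k + 1) * ((k + 1 : ℕ) : A) * q ^ ((k + 1).choose 2))

theorem J_nat {A : Type*} [CommRing A] (q : A) (n : ℕ) :
    J q (n : ℤ) = (-1) ^ n * (n : A) * q ^ (n + n.choose 2) := rfl

theorem J_neg {A : Type*} [CommRing A] (q : A) (n : ℕ) :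
    J q (-(n : ℤ)) = - ((-1) ^ n * (n : A) * q ^ (n.choose 2)) := by
  cases n with
  | zero => simp [J]
  | succ k =>
    have : (-((k + 1 : ℕ) : ℤ)) = Int.negSucc k := by rw [Int.negSucc_eq]; push_cast; ring
    rw [this]; rfl

theorem J_map {A B : Type*} [CommRing A] [CommRing B] (φ : A →+* B) (q : A) (j : ℤ) :
    φ (J q j) = J (φ q) j := by
  cases j with
  | ofNat n => simp [J]
  | negSucc n => simp [J]

theorem J_dvd {q : K⟦X⟧} (hq : constantCoeff q = 0) (M : ℕ) (j : ℤ) (hj : ((M + 2 : ℕ) : ℤ) ≤ |j|) :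
    X ^ M ∣ J q j := by
  have key : ∀ m c : ℕ, M + 2 ≤ m → X ^ M ∣ q ^ (c + m.choose 2) := by
    intro m c' hm
    refine (pow_dvd_pow_of_dvd (X_dvd_iff.2 hq) M).trans (pow_dvd_pow q ?_)
    obtain ⟨c, rfl⟩ := Nat.exists_eq_add_of_le hm
    have : M + 2 + c = (M + 1 + c) + 1 := by ring
    rw [this, ch]; omega
  rcases le_or_gt 0 j with h | h
  · obtain ⟨m, rfl⟩ := Int.eq_ofNat_of_zero_le h
    rw [J_nat]
    exact dvd_mul_of_dvd_right (key m m (by rw [abs_of_nonneg h] at hj; omega)) _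
  · obtain ⟨k, rfl⟩ : ∃ k : ℕ, j = -(k : ℤ) := ⟨(-j).toNat, by omega⟩
    rw [J_neg]
    have := key k 0 (by rw [abs_of_neg h] at hj; omega)
    rw [zero_add] at this
    exact dvd_neg.2 (dvd_mul_of_dvd_right this _)

open DualNumber in
/-- Jacobi's identity when `q ^ M = 0` -/
theorem jacobi_nil {A : Type*} [CommRing A] {q : A} {M : ℕ} (hq : q ^ M = 0) (n : ℕ)
    (hn : 2 * M + 2 ≤ n) :
    u q M * (u q n * u q (n - 1)) = ∑ j ∈ Icc (-(n : ℤ)) n, J q j := by
  set ι : A →+* A[ε] := algebraMap A A[ε] with hι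
  have hε : (ε : A[ε]) * ε = 0 := eps_mul_eps
  have hab : (ι q * (1 + ε)) * (1 - ε) = ι q := by
    linear_combination (- ι q) * hε
  have hq' : (ι q) ^ M = 0 := by rw [← map_pow, hq, map_zero]
  have h := nil hab hq' n hn
  have h1 : ∏ i ∈ range n, ((1 - ι q * (1 + ε) * ι q ^ i) * (1 - (1 - ε) * ι q ^ i)) =
      ε * ((∏ i ∈ range n, (1 - ι q * (1 + ε) * ι q ^ i)) *
        (∏ i ∈ range (n - 1), (1 - (1 - ε) * ι q ^ (i + 1)))) := by
    rw [prod_mul_distrib]
    obtain ⟨m, rfl⟩ : ∃ m, n = m + 1 := ⟨n - 1, by omega⟩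
    rw [prod_range_succ' (fun i => 1 - (1 - ε) * ι q ^ i) m]
    simp only [Nat.add_sub_cancel, pow_zero, mul_one]
    ring
  rw [h1] at h
  have h2 := congrArg TrivSqZeroExt.snd h
  have hsnd : ∀ y : A[ε], TrivSqZeroExt.snd ((ε : A[ε]) * y) = TrivSqZeroExt.fst y := by
    intro y
    rw [TrivSqZeroExt.snd_mul]
    simp
  have h3 : u (ι q) M * (ε * ((∏ i ∈ range n, (1 - ι q * (1 + ε) * ι q ^ i)) *
        (∏ i ∈ range (n - 1), (1 - (1 - ε) * ι q ^ (i + 1))))) =
      ε * (u (ι q) M * ((∏ i ∈ range n, (1 - ι q * (1 + ε) * ι q ^ i)) *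
        (∏ i ∈ range (n - 1), (1 - (1 - ε) * ι q ^ (i + 1))))) := by ring
  rw [h3, hsnd] at h2
  have hfst : ∀ x : A, TrivSqZeroExt.fstHom A A A (ι x) = x := fun x => rfl
  have hfe : TrivSqZeroExt.fstHom A A A (ε : A[ε]) = 0 := rfl
  have h4 : TrivSqZeroExt.fst (u (ι q) M * ((∏ i ∈ range n, (1 - ι q * (1 + ε) * ι q ^ i)) *
        (∏ i ∈ range (n - 1), (1 - (1 - ε) * ι q ^ (i + 1))))) = u q M * (u q n * u q (n - 1)) := by
    have e0 : ∀ y : A[ε], TrivSqZeroExt.fst y = TrivSqZeroExt.fstHom A A A y := fun y => rfl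
    rw [e0]
    rw [map_mul, map_mul, map_prod, map_prod]
    have e1 : TrivSqZeroExt.fstHom A A A (u (ι q) M) = u q M := by
      have := u_map ((TrivSqZeroExt.fstHom A A A : A[ε] →ₐ[A] A) : A[ε] →+* A) (ι q) M
      exact this
    rw [e1]
    simp only [map_sub, map_mul, map_add, map_one, map_pow, hfst, hfe, add_zero, sub_zero, mul_one,
      one_mul]
    congr 2
    exact prod_congr rfl fun i _ => by rw [pow_succ']
  rw [h4] at h2
  rw [h2]
  have hs : TrivSqZeroExt.snd (∑ j ∈ Icc (-(n : ℤ)) n, T (ι q) (ι q * (1 + ε)) (1 - ε) j) =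
      ∑ j ∈ Icc (-(n : ℤ)) n, TrivSqZeroExt.snd (T (ι q) (ι q * (1 + ε)) (1 - ε) j) := by
    exact map_sum (TrivSqZeroExt.sndHom A A) _ _
  rw [hs]
  refine sum_congr rfl fun j _ => ?_
  have p1 : ∀ m : ℕ, (1 + (ε : A[ε])) ^ m = 1 + (m : A[ε]) * ε := by
    intro m
    induction m with
    | zero => simp
    | succ m ih => rw [pow_succ, ih]; push_cast; linear_combination (m : A[ε]) * hε
  have p2 : ∀ m : ℕ, (1 - (ε : A[ε])) ^ m = 1 - (m : A[ε]) * ε := by
    intro m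
    induction m with
    | zero => simp
    | succ m ih => rw [pow_succ, ih]; push_cast; linear_combination (m : A[ε]) * hε
  have hsnd' : ∀ x y : A, TrivSqZeroExt.snd (ι x + ι y * ε) = y := by
    intro x y
    rw [TrivSqZeroExt.snd_add, TrivSqZeroExt.snd_mul]
    have e1 : TrivSqZeroExt.snd (ι x) = 0 := rfl
    have e2 : TrivSqZeroExt.snd (ι y) = 0 := rfl
    have e3 : TrivSqZeroExt.fst (ι y) = y := rfl
    rw [e1, e2, e3]; simp
  rcases le_or_gt 0 j with h | h
  · obtain ⟨m, rfl⟩ := Int.eq_ofNat_of_zero_le h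
    rw [T_nat, J_nat, mul_pow, p1]
    have : (-1) ^ m * (ι q ^ m * (1 + (m : A[ε]) * ε)) * ι q ^ m.choose 2 =
        ι ((-1) ^ m * q ^ m * q ^ m.choose 2) + ι ((-1) ^ m * m * q ^ (m + m.choose 2)) * ε := by
      simp only [map_mul, map_pow, map_neg, map_one, map_natCast, pow_add]; ring
    rw [this, hsnd']
  · obtain ⟨k, rfl⟩ : ∃ k : ℕ, j = -(k : ℤ) := ⟨(-j).toNat, by omega⟩
    rw [T_neg, J_neg, p2]
    have : (-1) ^ k * (1 - (k : A[ε]) * ε) * ι q ^ k.choose 2 =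
        ι ((-1) ^ k * q ^ k.choose 2) + ι (- ((-1) ^ k * k * q ^ (k.choose 2))) * ε := by
      simp only [map_mul, map_pow, map_neg, map_one, map_natCast]; ring
    rw [this, hsnd']

/-- **Jacobi's identity** for power series. -/
theorem jacobi {q : K⟦X⟧} (hq : constantCoeff q = 0) : HasSum (J q) (EE q ^ 3) := by
  refine hasSum_of _ _ (fun M => ⟨M + 2, fun j hj => J_dvd hq M j hj⟩) fun M => ?_
  refine ⟨2 * M + 2, fun n hn => ?_⟩
  have h := jacobi_nil (red_pow M q hq) n hn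
  rw [map_sum]
  simp only [J_map]
  rw [← h, ← red_EE hq M M le_rfl, ← red_EE hq M n (by omega), ← red_EE hq M (n - 1) (by omega),
    map_pow]
  ring

/-- **The pentagonal number theorem** for power series. -/
theorem pent {q : K⟦X⟧} (hq : constantCoeff q = 0) : HasSum (T (q ^ 3) q (q ^ 2)) (EE q) := by
  have hq3 : constantCoeff (q ^ 3) = 0 := by rw [map_pow, hq]; simp
  have h := triple (a := q) (b := q ^ 2) hq3 (by ring)
  have h1 := ((hasProd_EE hq3).mul ((hasProd_PP hq3 q).mul (hasProd_PP hq3 (q ^ 2)))).tendsto_prod_nat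
  have h2 := (hasProd_EE hq).tendsto_prod_nat
  have h3 : ∀ n : ℕ, ∏ i ∈ range n, ((1 - (q ^ 3) ^ (i + 1)) * ((1 - q * (q ^ 3) ^ i) *
      (1 - q ^ 2 * (q ^ 3) ^ i))) = ∏ i ∈ range (3 * n), (1 - q ^ (i + 1)) := by
    intro n
    induction n with
    | zero => simp
    | succ n ih =>
      rw [prod_range_succ, ih, show 3 * (n + 1) = 3 * n + 1 + 1 + 1 by ring, prod_range_succ,
        prod_range_succ, prod_range_succ]
      ring
  have h4 : Tendsto (fun n : ℕ => 3 * n) atTop atTop :=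
    tendsto_atTop_mono (fun n => by simp only [id]; omega) tendsto_id
  have h5 := h2.comp h4
  have h6 : EE (q ^ 3) * (PP (q ^ 3) q * PP (q ^ 3) (q ^ 2)) = EE q := by
    refine tendsto_nhds_unique h1 ?_
    refine h5.congr fun n => ?_
    simp only [Function.comp]
    rw [← h3]
  rw [h6] at h
  exact h

end Pool.Agent.X162.JTP
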