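import Pool.Agent.X162.TH

set_option autoImplicit false
set_option linter.unusedSectionVars false

/-! The identity `(∑ (3 l + 1) X ^ (3 l ^ 2 + 2 l)) ∏ (1 - (-X) ^ i) ^ 2 = ∏ (1 - X ^ (2 i)) ^ 5`. -/

namespace Pool.Agent.X162.JTP

open Finset PowerSeries Filter
open scoped PowerSeries.WithPiTopology Topology

variable {K : Type*} [CommRing K] [TopologicalSpace K] [DiscreteTopology K]

theorem abs_le_sq (m : ℤ) : |m| ≤ m * m := by
  rcases eq_or_ne m 0 with rfl | h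
  · simp
  · have h1 : 1 ≤ |m| := Int.one_le_abs h
    have h2 : |m| * |m| = m * m := abs_mul_abs_self m
    nlinarith

theorem le_sq1 (m : ℤ) : |m| ≤ 2 * m * m + 2 * m + 1 := by
  rcases abs_cases m with ⟨h, h'⟩ | ⟨h, h'⟩ <;> rw [h] <;> nlinarith

theorem le_sq1' (m : ℤ) : |m| ≤ 3 * m * m + 2 * m := by
  rcases le_or_gt 0 m with h | h
  · rw [abs_of_nonneg h]; nlinarith
  · rw [abs_of_neg h]
    have : m ≤ -1 := by omega
    nlinarith

theorem le_sq2 (m : ℤ) : |m| ≤ 6 * m * m - 2 * m := by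
  rcases le_or_gt m 0 with h | h
  · rw [abs_of_nonpos h]
    rcases eq_or_lt_of_le h with rfl | h
    · simp
    · have : m ≤ -1 := by omega
      nlinarith
  · rw [abs_of_pos h]; nlinarith

theorem sq1_nonneg (m : ℤ) : 0 ≤ 2 * m * m + 2 * m := by
  have h : 0 ≤ m * (m + 1) := by
    rcases le_or_gt 0 m with h | h
    · positivity
    · nlinarith [mul_nonneg (by omega : (0 : ℤ) ≤ -m) (by omega : (0 : ℤ) ≤ -(m + 1))]
  linarith

/-- the theta series `∑ (3 l + 1) X ^ (3 l ^ 2 + 2 l)` -/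
noncomputable def Th : K⟦X⟧ := ∑' l : ℤ, (mon (3 * l + 1) (3 * l * l + 2 * l) : K⟦X⟧)

theorem hs_Th : HasSum (fun l : ℤ => (mon (3 * l + 1) (3 * l * l + 2 * l) : K⟦X⟧)) Th :=
  (summ1 _ _ fun i => by have := le_sq1' i; linarith).hasSum

/-- the coefficient of the two variable series -/
def cW (p : ℤ × ℤ) : ℤ := sg (p.1 + p.2) * (p.1 + 2 * p.2 + 1)
/-- the exponent of the two variable series -/
def eW (p : ℤ × ℤ) : ℤ := p.1 * p.1 + (2 * p.2 * p.2 + 2 * p.2)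

theorem mon_add (c c' e : ℤ) : (mon (c + c') e : K⟦X⟧) = mon c e + mon c' e := by
  unfold mon; push_cast; ring
theorem mon_neg (c e : ℤ) : (mon (-c) e : K⟦X⟧) = - mon c e := by
  unfold mon; push_cast; ring
theorem mon_two (c e : ℤ) : (mon (2 * c) e : K⟦X⟧) = 2 * mon c e := by
  unfold mon; push_cast; ring

theorem hs_W : HasSum (fun p : ℤ × ℤ => (mon (cW p) (eW p) : K⟦X⟧)) (2 * (Phi * EE (X ^ 4) ^ 3)) := by
  have hb : ∀ p : ℤ × ℤ, |p.1| + |p.2| ≤ (p.1 * p.1 + (2 * p.2 * p.2 + 2 * p.2)) + 1 := by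
    intro p
    have h1 := abs_le_sq p.1
    have h2 := le_sq1 p.2
    linarith
  have hm : Summable (fun m : ℤ => (mon (sg m * m) (m * m) : K⟦X⟧)) :=
    summ1 _ _ fun i => by have := abs_le_sq i; linarith
  have h1 := hs_mul hm.hasSum hs_zero (fun i => mul_self_nonneg i) sq1_nonneg hb
  have h2 := hs_mul (hs_phi (K := K)) hs_jac4 (fun i => mul_self_nonneg i) sq1_nonneg hb
  have h3 := hs_mul (hs_phi (K := K)) hs_zero (fun i => mul_self_nonneg i) sq1_nonneg hb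
  have h4 := (h1.add (h2.mul_left 2)).add h3
  have e : (fun p : ℤ × ℤ => (mon (cW p) (eW p) : K⟦X⟧)) = fun p : ℤ × ℤ =>
      (mon (sg p.1 * p.1 * sg p.2) (p.1 * p.1 + (2 * p.2 * p.2 + 2 * p.2)) +
      2 * mon (sg p.1 * (sg p.2 * p.2)) (p.1 * p.1 + (2 * p.2 * p.2 + 2 * p.2))) +
      mon (sg p.1 * sg p.2) (p.1 * p.1 + (2 * p.2 * p.2 + 2 * p.2)) := by
    funext p
    rw [← mon_two, ← mon_add, ← mon_add, cW, eW, sg_add]
    congr 1; ring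
  rw [e]
  convert h4 using 1
  ring

/-- the three parametrisations -/
def e1 (p : ℤ × ℤ) : ℤ × ℤ := (p.2 + 2 * p.1, p.2 - p.1)
def e2 (p : ℤ × ℤ) : ℤ × ℤ := (-p.2 - 2 * p.1, -1 - p.2 + p.1)
def e3 (p : ℤ × ℤ) : ℤ × ℤ := (3 * p.1 - 1 - 2 * p.2, p.2)

theorem e1_inj : Function.Injective e1 := by
  rintro ⟨a, b⟩ ⟨c, d⟩ h
  simp only [e1, Prod.mk.injEq] at h ⊢
  omega
theorem e2_inj : Function.Injective e2 := by
  rintro ⟨a, b⟩ ⟨c, d⟩ h
  simp only [e2, Prod.mk.injEq] at h ⊢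
  omega
theorem e3_inj : Function.Injective e3 := by
  rintro ⟨a, b⟩ ⟨c, d⟩ h
  simp only [e3, Prod.mk.injEq] at h ⊢
  omega

theorem range_e1 (p : ℤ × ℤ) (h : (p.1 - p.2) % 3 = 0) : p ∈ Set.range e1 := by
  obtain ⟨m, n⟩ := p
  refine ⟨((m - n) / 3, n + (m - n) / 3), ?_⟩
  simp only [e1, Prod.mk.injEq] at h ⊢
  omega
theorem range_e2 (p : ℤ × ℤ) (h : (p.1 - p.2) % 3 = 1) : p ∈ Set.range e2 := by
  obtain ⟨m, n⟩ := p
  refine ⟨((n - m + 1) / 3, -m - 2 * ((n - m + 1) / 3)), ?_⟩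
  simp only [e2, Prod.mk.injEq] at h ⊢
  omega
theorem range_e3 (p : ℤ × ℤ) (h : (p.1 - p.2) % 3 = 2) : p ∈ Set.range e3 := by
  obtain ⟨m, n⟩ := p
  refine ⟨((m + 1 + 2 * n) / 3, n), ?_⟩
  have h' : (m - n) % 3 = 2 := h
  have h2 : 3 * ((m + 1 + 2 * n) / 3) - 1 - 2 * n = m := by omega
  rw [e3]
  exact Prod.ext h2 rfl
theorem e1_mod (p : ℤ × ℤ) : ((e1 p).1 - (e1 p).2) % 3 = 0 := by simp only [e1]; omega
theorem e2_mod (p : ℤ × ℤ) : ((e2 p).1 - (e2 p).2) % 3 = 1 := by simp only [e2]; omega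
theorem e3_mod (p : ℤ × ℤ) : ((e3 p).1 - (e3 p).2) % 3 = 2 := by simp only [e3]; omega

/-- the part of the class `r` modulo 3 -/
noncomputable def Wr (r : ℤ) (p : ℤ × ℤ) : K⟦X⟧ :=
  if (p.1 - p.2) % 3 = r then mon (cW p) (eW p) else 0

theorem sg_two (a : ℤ) : sg (2 * a) = 1 := by rw [two_mul, sg_add, sg_sq]

theorem hs_ET : HasSum (fun p : ℤ × ℤ => (mon (sg p.1 * (3 * p.2 + 1))
    ((6 * p.1 * p.1 - 2 * p.1) + (3 * p.2 * p.2 + 2 * p.2)) : K⟦X⟧)) (EE (X ^ 4) * Th) := by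
  refine hs_mul (hs_pent4 (K := K)) hs_Th (fun i => (abs_nonneg i).trans (le_sq2 i))
    (fun i => (abs_nonneg i).trans (le_sq1' i)) fun p => ?_
  have h1 := le_sq2 p.1
  have h2 := le_sq1' p.2
  linarith

theorem W_e1 (p : ℤ × ℤ) : (mon (cW (e1 p)) (eW (e1 p)) : K⟦X⟧) = mon (sg p.1 * (3 * p.2 + 1))
    ((6 * p.1 * p.1 - 2 * p.1) + (3 * p.2 * p.2 + 2 * p.2)) := by
  have h1 : cW (e1 p) = sg p.1 * (3 * p.2 + 1) := by
    simp only [cW, e1]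
    have : p.2 + 2 * p.1 + (p.2 - p.1) = p.1 + 2 * p.2 := by ring
    rw [this, sg_add, sg_two]; ring
  have h2 : eW (e1 p) = ((6 * p.1 * p.1 - 2 * p.1) + (3 * p.2 * p.2 + 2 * p.2)) := by
    simp only [eW, e1]; ring
  rw [h1, h2]

theorem W_e2 (p : ℤ × ℤ) : (mon (cW (e2 p)) (eW (e2 p)) : K⟦X⟧) = mon (sg p.1 * (3 * p.2 + 1))
    ((6 * p.1 * p.1 - 2 * p.1) + (3 * p.2 * p.2 + 2 * p.2)) := by
  have h1 : cW (e2 p) = sg p.1 * (3 * p.2 + 1) := by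
    simp only [cW, e2]
    have : -p.2 - 2 * p.1 + (-1 - p.2 + p.1) = -(p.1 + 1 + 2 * p.2) := by ring
    rw [this, sg_neg, sg_add, sg_two, sg_add, sg_one]; ring
  have h2 : eW (e2 p) = ((6 * p.1 * p.1 - 2 * p.1) + (3 * p.2 * p.2 + 2 * p.2)) := by
    simp only [eW, e2]; ring
  rw [h1, h2]

theorem hs_W0 : HasSum (Wr (K := K) 0) (EE (X ^ 4) * Th) := by
  rw [← e1_inj.hasSum_iff]
  · have : (Wr (K := K) 0) ∘ e1 = fun p : ℤ × ℤ => (mon (sg p.1 * (3 * p.2 + 1))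
        ((6 * p.1 * p.1 - 2 * p.1) + (3 * p.2 * p.2 + 2 * p.2)) : K⟦X⟧) := by
      funext p
      simp only [Function.comp, Wr, e1_mod, if_true, W_e1]
    rw [this]; exact hs_ET
  · intro p hp
    rw [Wr, if_neg]
    intro h; exact hp (range_e1 p h)

theorem hs_W1 : HasSum (Wr (K := K) 1) (EE (X ^ 4) * Th) := by
  rw [← e2_inj.hasSum_iff]
  · have : (Wr (K := K) 1) ∘ e2 = fun p : ℤ × ℤ => (mon (sg p.1 * (3 * p.2 + 1))
        ((6 * p.1 * p.1 - 2 * p.1) + (3 * p.2 * p.2 + 2 * p.2)) : K⟦X⟧) := by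
      funext p
      simp only [Function.comp, Wr, e2_mod, if_true, W_e2]
    rw [this]; exact hs_ET
  · intro p hp
    rw [Wr, if_neg]
    intro h; exact hp (range_e2 p h)

/-- the involution of the third class -/
def inv3 : ℤ × ℤ ≃ ℤ × ℤ where
  toFun p := (p.1, 2 * p.1 - 1 - p.2)
  invFun p := (p.1, 2 * p.1 - 1 - p.2)
  left_inv p := by ext <;> simp
  right_inv p := by ext <;> simp

theorem W_e3 (p : ℤ × ℤ) : (mon (cW (e3 (inv3 p))) (eW (e3 (inv3 p))) : K⟦X⟧) =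
    - mon (cW (e3 p)) (eW (e3 p)) := by
  have h1 : cW (e3 (inv3 p)) = - cW (e3 p) := by
    simp only [cW, e3, inv3, Equiv.coe_fn_mk]
    have e1 : 3 * p.1 - 1 - 2 * (2 * p.1 - 1 - p.2) + (2 * p.1 - 1 - p.2) = p.1 + p.2 := by ring
    have e2 : 3 * p.1 - 1 - 2 * p.2 + p.2 = (p.1 + p.2) + (1 + 2 * (p.1 - p.2 - 1)) := by ring
    rw [e1, e2, sg_add (p.1 + p.2), sg_add 1, sg_two, sg_one]; ring
  have h2 : eW (e3 (inv3 p)) = eW (e3 p) := by
    simp only [eW, e3, inv3, Equiv.coe_fn_mk]; ring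
  rw [h1, h2, mon_neg]

theorem key (hK : ∀ x : K⟦X⟧, 2 * x = 0 → x = 0) :
    (Phi * EE (X ^ 4) ^ 3 : K⟦X⟧) = EE (X ^ 4) * Th := by
  have hW := hs_W (K := K)
  have h0 := hs_W0 (K := K)
  have h1 := hs_W1 (K := K)
  have h2 : HasSum (Wr (K := K) 2) (2 * (Phi * EE (X ^ 4) ^ 3) - EE (X ^ 4) * Th - EE (X ^ 4) * Th) := by
    have h := (hW.sub h0).sub h1
    have e : Wr (K := K) 2 = fun p => mon (cW p) (eW p) - Wr 0 p - Wr 1 p := by
      funext p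
      have h3 : (p.1 - p.2) % 3 = 0 ∨ (p.1 - p.2) % 3 = 1 ∨ (p.1 - p.2) % 3 = 2 := by omega
      simp only [Wr]
      rcases h3 with h3 | h3 | h3 <;> simp [h3]
    rw [e]; exact h
  rw [← e3_inj.hasSum_iff (fun p hp => by rw [Wr, if_neg]; intro h; exact hp (range_e3 p h))] at h2
  set S : K⟦X⟧ := 2 * (Phi * EE (X ^ 4) ^ 3) - EE (X ^ 4) * Th - EE (X ^ 4) * Th with hS
  have h3 : HasSum ((Wr (K := K) 2 ∘ e3) ∘ inv3) S := inv3.hasSum_iff.2 h2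
  have h4 : (Wr (K := K) 2 ∘ e3) ∘ inv3 = fun p => - (Wr (K := K) 2 ∘ e3) p := by
    funext p
    simp only [Function.comp, Wr, e3_mod, if_true, W_e3]
  rw [h4] at h3
  have h5 := h3.unique h2.neg
  have h6 : S = 0 := hK S (by linear_combination h5)
  have h7 : 2 * ((Phi * EE (X ^ 4) ^ 3 : K⟦X⟧) - EE (X ^ 4) * Th) = 0 := by
    linear_combination h6
  have h8 := hK _ h7
  linear_combination h8

theorem isUnit_EE {q : K⟦X⟧} (hq : constantCoeff q = 0) : IsUnit (EE q) := by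
  rw [isUnit_iff_constantCoeff]
  have h := red_EE hq 1 1 le_rfl
  rw [← u_map, red_eq] at h
  have h1 := X_pow_dvd_iff.1 h 0 (by norm_num)
  rw [map_sub, sub_eq_zero, coeff_zero_eq_constantCoeff_apply, coeff_zero_eq_constantCoeff_apply] at h1
  rw [h1]
  simp [u, hq]

theorem Th_eq (hK : ∀ x : K⟦X⟧, 2 * x = 0 → x = 0) : (Th : K⟦X⟧) = Phi * EE (X ^ 4) ^ 2 := by
  have h := key hK
  refine (isUnit_EE (cX (K := K) 4 (by norm_num))).mul_left_cancel ?_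
  rw [← h]; ring

/-- `∏ (1 + X ^ (2 i + 1))` -/
theorem EE_neg : EE (-X : K⟦X⟧) = PP (X ^ 2) (-X) * EE (X ^ 2) := by
  have h0 : constantCoeff (-X : K⟦X⟧) = 0 := by simp
  refine (hasProd_EE h0).unique (HasProd.even_mul_odd ?_ ?_)
  · convert hasProd_PP (cX (K := K) 2 (by norm_num)) (-X) using 2 with i
    rw [pow_succ, pow_mul, neg_pow]; simp; ring
  · convert hasProd_EE (cX (K := K) 2 (by norm_num)) using 2 with i
    rw [show 2 * i + 1 + 1 = 2 * (i + 1) by ring, pow_mul]; simp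

theorem EE_two : EE (X ^ 2 : K⟦X⟧) = (PP (X ^ 2) X * PP (X ^ 2) (-X)) * EE (X ^ 4) := by
  refine (hasProd_EE (cX (K := K) 2 (by norm_num))).unique (HasProd.even_mul_odd ?_ ?_)
  · convert (hasProd_PP (cX (K := K) 2 (by norm_num)) X).mul
      (hasProd_PP (cX (K := K) 2 (by norm_num)) (-X)) using 2 with i
    rw [pow_succ, pow_mul]; ring
  · convert hasProd_EE (cX (K := K) 4 (by norm_num)) using 2 with i
    rw [← pow_mul, ← pow_mul]; congr 2; ring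

theorem theta (hK : ∀ x : K⟦X⟧, 2 * x = 0 → x = 0) :
    (Th : K⟦X⟧) * EE (-X) ^ 2 = EE (X ^ 2) ^ 5 := by
  rw [Th_eq hK, EE_neg, Phi]
  have h := EE_two (K := K)
  have h2 : (EE (X ^ 2 : K⟦X⟧)) ^ 2 = ((PP (X ^ 2) X * PP (X ^ 2) (-X)) * EE (X ^ 4)) ^ 2 := by
    rw [← h]
  calc _ = (EE (X ^ 2 : K⟦X⟧)) ^ 3 * ((PP (X ^ 2) X * PP (X ^ 2) (-X)) * EE (X ^ 4)) ^ 2 := by ring
    _ = _ := by rw [← h2]; ring

end Pool.Agent.X162.JTP
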